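import Pool.Agent.P.MP_013f39_al.Inf.Api

/-! The action of the group on functions on monomials. -/

namespace CdI

open Cd3 MvPolynomial

namespace Act

variable {P : Par} {L : ℕ}

variable (L) in
/-- a lift of the norm -/
noncomputable def nn (v : PS P.p) : P.PK :=
  Classical.choose (Ideal.Quotient.mk_surjective (I := P.JJ L) (P.nA L v))

lemma nn_spec (v : PS P.p) : Ideal.Quotient.mk (P.JJ L) (nn L v) = P.nA L v :=
  Classical.choose_spec (Ideal.Quotient.mk_surjective (I := P.JJ L) (P.nA L v))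

variable (L) in
/-- the twisted substitution -/
noncomputable def TT (x : P.G) : Module.End P.k P.PK :=
  LinearMap.mulLeft P.k (nn L x.val) ∘ₗ (P.sP L x⁻¹).toLinearMap

lemma TT_apply (x : P.G) (a : P.PK) : TT L x a = nn L x.val * P.sP L x⁻¹ a := rfl

variable (L) in
/-- the action -/
noncomputable def ac (x : P.Gam) : Module.End P.k (Mon P.Kv → P.k) := dual (TT L x.1)

lemma ac_apply (x : P.Gam) (f : Mon P.Kv → P.k) (μ : Mon P.Kv) :
    ac L x f μ = pair f (nn L x.1.val * P.sP L x.1⁻¹ (monomial μ 1)) := rfl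

lemma pair_congr {f : Mon P.Kv → P.k} (hf : P.AdmF L f) {a b : P.PK} (h : a - b ∈ P.JJ L) :
    pair f a = pair f b := by
  rw [← sub_eq_zero, ← map_sub]; exact Par.pair_JJ hf h

lemma pair_mon (f : Mon P.Kv → P.k) (μ : Mon P.Kv) : pair f (monomial μ 1) = f μ := by
  rw [pair_monomial, one_mul]

lemma sP_congr (h1 : P.Sub1 L) (g : P.G) {a b : P.PK}
    (h : Ideal.Quotient.mk (P.JJ L) a = Ideal.Quotient.mk (P.JJ L) b) :
    Ideal.Quotient.mk (P.JJ L) (P.sP L g a) = Ideal.Quotient.mk (P.JJ L) (P.sP L g b) := by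
  rw [Ideal.Quotient.eq] at h ⊢
  rw [← map_sub]; exact h1.mem g _ h

lemma TT_mul (h1 : P.Sub1 L) (h3 : P.Sub3 L) (g h : P.G) (a : P.PK) :
    TT L (g * h) a - TT L h (TT L g a) ∈ P.JJ L := by
  rw [← Ideal.Quotient.eq, TT_apply, TT_apply, TT_apply, map_mul (P.sP L h⁻¹), map_mul, map_mul,
    map_mul, mul_inv_rev, Ideal.Quotient.eq.2 (h1.mul h⁻¹ g⁻¹ a), nn_spec, nn_spec, mul_val,
    Par.nA_mul, mul_assoc]
  congr 2
  have e1 := h3 h g.val _ _ (nn_spec (act P.r h.val g.val)) (nn_spec g.val)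
  have e2 := sP_congr h1 h⁻¹ (Ideal.Quotient.eq.2 e1)
  rw [← e2, ← Ideal.Quotient.eq.2 (h1.mul h⁻¹ h _), inv_mul_cancel,
    Ideal.Quotient.eq.2 (h1.one _), nn_spec]

lemma span_Pge {ω : P.Kv → ℤ} {s : ℤ} {Q : P.Kv → Prop} (hQ : ∀ c, Q c → s ≤ ω c) {r : P.PK}
    (hr : r ∈ Submodule.span P.k ((X : P.Kv → P.PK) '' {c' | Q c'})) : r ∈ Pge P.k ω s := by
  refine (Submodule.span_le.2 ?_) hr
  rintro _ ⟨c, hc, rfl⟩
  exact Pge_anti ω (hQ c hc) (X_mem_Pge ω c)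

lemma span_JJ {Q : P.Kv → Prop} (hQ : ∀ c, Q c → (L : ℤ) < c.1) {r : P.PK}
    (hr : r ∈ Submodule.span P.k ((X : P.Kv → P.PK) '' {c' | Q c'})) : r ∈ P.JJ L := by
  have : Submodule.span P.k ((X : P.Kv → P.PK) '' {c' | Q c'}) ≤
      (P.JJ L).restrictScalars P.k := by
    refine Submodule.span_le.2 ?_
    rintro _ ⟨c, hc, rfl⟩
    exact Par.X_mem_JJ (hQ c hc)
  exact this hr

lemma smul_JJ (c : P.k) {a : P.PK} (ha : a ∈ P.JJ L) : c • a ∈ P.JJ L := by
  rw [smul_eq_C_mul]; exact (P.JJ L).mul_mem_left _ ha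

lemma X_OO (ω : P.Kv → ℤ) (c : P.Kv) : (X c : P.PK) ∈ P.OO L ω (ω c) :=
  Par.OO_of_Pge (X_mem_Pge ω c)

lemma one_OO (ω : P.Kv → ℤ) : (1 : P.PK) ∈ P.OO L ω 0 := Par.OO_of_Pge (one_mem_Pge ω)

lemma mon_OO (ω : P.Kv → ℤ) (μ : Mon P.Kv) :
    (monomial μ 1 : P.PK) ∈ P.OO L ω (Finsupp.weight ω μ) :=
  Par.OO_of_Pge (monomial_mem_Pge le_rfl 1)

/-- the substitution moves the variables up -/
lemma sP_X (h2 : P.Sub2 L) {ω : P.Kv → ℤ} {K : ℕ} (hK : 1 ≤ K) {g : P.G} (hg : P.S.D K g)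
    (c : P.Kv) {s : ℤ} (hs : ∀ c' : P.Kv, c.1 + P.q * K ≤ c'.1 → s ≤ ω c') :
    P.sP L g (X c) - X c ∈ P.OO L ω s := by
  obtain ⟨r, hr, h⟩ := h2 K g c hK hg
  have e : P.sP L g (X c) - X c = (P.sP L g (X c) - X c +
      (P.S.a K g * (c.1 : P.k)) • X (P.shN K c) - r) + r -
      (P.S.a K g * (c.1 : P.k)) • X (P.shN K c) := by ring
  rw [e]
  refine sub_mem (add_mem (Par.OO_of_JJ h) (Par.OO_of_Pge (span_Pge ?_ hr)))
    (Submodule.smul_mem _ _ (Par.OO_anti L ω (hs _ ?_) (X_OO ω _)))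
  · exact fun c' hc' => hs c' hc'.le
  · rw [Par.shN_val]

lemma sP_deep (h2 : P.Sub2 L) (μ : Mon P.Kv) : ∃ K, ∀ g : P.G, P.S.D K g →
    P.sP L g (monomial μ 1) - monomial μ 1 ∈ P.JJ L := by
  induction μ using mon_ind with
  | h0 =>
    refine ⟨0, fun g _ => ?_⟩
    rw [monomial_zero', C_1, map_one, sub_self]; exact zero_mem _
  | h1 μ c ih =>
    obtain ⟨K, hK⟩ := ih
    refine ⟨K + 1 + ((L : ℤ) - c.1).toNat, fun g hg => ?_⟩
    have hq : (2 : ℤ) ≤ P.q := by exact_mod_cast P.two_le_q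
    set K' := 1 + ((L : ℤ) - c.1).toNat with hK'
    have hL : (L : ℤ) < c.1 + P.q * K' := by
      have : (L : ℤ) - c.1 < K' := by omega
      have : (0 : ℤ) ≤ K' := by omega
      nlinarith
    obtain ⟨r, hr, h⟩ := h2 K' g c (by omega) (hg.anti (by omega))
    have h4 : P.sP L g (X c) - X c ∈ P.JJ L := by
      have e : P.sP L g (X c) - X c = (P.sP L g (X c) - X c +
          (P.S.a K' g * (c.1 : P.k)) • X (P.shN K' c) - r) + r -
          (P.S.a K' g * (c.1 : P.k)) • X (P.shN K' c) := by ring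
      rw [e]
      refine sub_mem (add_mem h (span_JJ (fun c' hc' => hL.trans hc') hr))
        (smul_JJ _ (Par.X_mem_JJ ?_))
      rw [Par.shN_val]; exact hL
    have e : P.sP L g (monomial μ 1) * P.sP L g (X c) - monomial μ 1 * X c =
        P.sP L g (monomial μ 1) * (P.sP L g (X c) - X c) +
        (P.sP L g (monomial μ 1) - monomial μ 1) * X c := by ring
    rw [monomial_add_one, map_mul, e]
    exact add_mem ((P.JJ L).mul_mem_left _ h4)
      ((P.JJ L).mul_mem_right _ (hK g (hg.anti (by omega))))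

lemma one_le (a : P.Ix) : 1 ≤ a.1 := P.hN.trans a.2.1

lemma e_D (a : P.Ix) : P.S.D a.1 (P.e a).1 := fun j hj => by
  rw [SS_a, Par.e_val, sub_sub_cancel_left, map_neg, PowerSeries.coeff_X_pow, if_neg hj.ne,
    neg_zero]

lemma e_a (a : P.Ix) : P.S.a a.1 (P.e a).1⁻¹ = 1 := by
  rw [(e_D a).a_inv le_rfl, SS_a, Par.e_val, sub_sub_cancel_left, map_neg,
    PowerSeries.coeff_X_pow, if_pos rfl, neg_neg]

lemma lead (h2 : P.Sub2 L) (a : P.Ix) (μ : Mon P.Kv) :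
    th (fun c => (c.1 : P.k)) (P.shK a) (monomial μ 1) ∈
        P.OO L P.W (Finsupp.weight P.W μ + P.w2 a) ∧
      P.sP L (P.e a).1⁻¹ (monomial μ 1) - monomial μ 1 -
        th (fun c => (c.1 : P.k)) (P.shK a) (monomial μ 1) ∈
        P.OO L P.W (Finsupp.weight P.W μ + P.w2 a + 1) := by
  refine prod1 (P.OO L P.W) P.W (Par.OO_anti L P.W) Par.OO_mul (one_OO _) (X_OO _) _ _ _
    (Par.w2_pos a) (fun c => ?_) (fun c => ?_) μ
  · rw [th_X]
    refine neg_mem (Submodule.smul_mem _ _ (Par.OO_anti L P.W ?_ (X_OO P.W _)))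
    rw [Par.W, Par.W, Par.shK_val, Par.w2]; omega
  · obtain ⟨r, hr, h⟩ := h2 a.1 _ c (one_le a) (e_D a).inv
    rw [e_a, one_mul] at h
    rw [th_X, sub_neg_eq_add, Par.shK]
    have h5 := add_mem (Par.OO_of_JJ (ω := P.W) (s := P.W c + P.w2 a + 1) h)
      (Par.OO_of_Pge (span_Pge (fun c' hc' => ?_) hr))
    · rwa [sub_add_cancel] at h5
    · rw [Par.W, Par.W, Par.w2]; omega

lemma weight_one (μ : Mon P.Kv) :
    Finsupp.weight (fun _ => (1 : ℤ)) μ = (μ.degree : ℤ) := by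
  induction μ using mon_ind with
  | h0 => simp
  | h1 μ c ih => rw [Par.weight_add_one, ih, map_add, Finsupp.degree_single]; push_cast; ring

lemma deg_OO (h2 : P.Sub2 L) (h4 : P.Sub4 L) (g : P.G) (μ : Mon P.Kv) :
    nn L g.val * P.sP L g⁻¹ (monomial μ 1) ∈ P.OO L (fun _ => 1) (μ.degree : ℤ) := by
  have h5 := prod0 (P.OO L fun _ => 1) (fun _ => 1) (Par.OO_anti L _) Par.OO_mul (one_OO _)
    (X_OO _) (P.sP L g⁻¹) 0 le_rfl
    (fun c => sP_X h2 le_rfl (NG.D_all _) c fun _ _ => by omega) μ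
  have h6 := add_mem h5 (Par.OO_anti L _ (by omega) (mon_OO (L := L) (fun _ => 1) μ))
  rw [sub_add_cancel, add_zero, weight_one] at h6
  have h7 := add_mem (Par.OO_anti L _ (show (0 : ℤ) ≤ 1 by omega)
    (h4.e2 g.val _ g.cc (nn_spec g.val))) (one_OO (L := L) fun _ => 1)
  rw [sub_add_cancel] at h7
  have := Par.OO_mul _ _ _ _ h7 h6
  rwa [zero_add] at this

lemma m6 (h2 : P.Sub2 L) (h4 : P.Sub4 L) (g : P.Gam) (f : Mon P.Kv → P.k) (d : ℕ)
    (hf : P.AdmF L f) (hd : ∀ μ, f μ ≠ 0 → μ.degree ≤ d) (μ : Mon P.Kv)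
    (h : ac L g f μ ≠ 0) : μ.degree ≤ d := by
  by_contra h0
  refine h ?_
  rw [ac_apply]
  refine Par.pair_OO (ω := fun _ => 1) (s := d) hf (fun ν hν => ?_)
    (Par.OO_anti L _ (by omega) (deg_OO h2 h4 g.1 μ))
  rw [weight_one]; exact_mod_cast hd ν hν

lemma m4 (h2 : P.Sub2 L) (h4 : P.Sub4 L) (f : Mon P.Kv → P.k) (s : ℤ) (hf : P.AdmF L f)
    (hs : ∀ μ, f μ ≠ 0 → Finsupp.weight P.W μ ≤ s) (a : P.Ix) (μ : Mon P.Kv)
    (hμ : s ≤ Finsupp.weight P.W μ + P.w a) : ac L (P.e a) f μ - f μ = P.X2 a f μ := by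
  obtain ⟨h5, h6⟩ := lead h2 a μ
  have h7 := (h4.e1 a (nn L (P.e a).1.val) (by rw [nn_spec, Par.e_val])).1
  have hm := mon_OO (L := L) P.W μ
  have hw := Par.w_le_w2 a
  have hw0 := Par.w_pos a
  rw [ac_apply, ← pair_mon f μ, ← map_sub]
  generalize nn L (P.e a).1.val = b at h7 ⊢
  generalize P.sP L (P.e a).1⁻¹ (monomial μ 1) = φ at h6 ⊢
  have h8 : φ - monomial μ 1 ∈ P.OO L P.W (Finsupp.weight P.W μ + P.w2 a) := by
    have := add_mem (Par.OO_anti L _ (by omega) h6) h5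
    rwa [sub_add_cancel] at this
  have h9 : φ ∈ P.OO L P.W (Finsupp.weight P.W μ) := by
    have := add_mem (Par.OO_anti L _ (by omega) h8) hm
    rwa [sub_add_cancel] at this
  have h10 := Par.OO_mul _ _ _ _ h7 h9
  by_cases ha : P.Act a
  · rw [Par.X2, if_pos ha, dual_apply, ← sub_eq_zero, ← map_sub]
    rw [Par.kap_act ha, zero_smul, sub_zero] at h10
    refine Par.pair_OO hf hs ?_
    have := add_mem (Par.OO_anti L _ (show s + 1 ≤ _ by omega) h10)
      (Par.OO_anti L _ (show s + 1 ≤ _ by omega) h6)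
    convert this using 1
    change b * φ - monomial μ 1 - th (fun c => (c.1 : P.k)) (P.shK a) (monomial μ 1) = _
    ring
  · have hw1 := Par.w_lt_w2 ha
    rw [Par.X2_apply, if_neg ha, ← pair_mon f (μ + _), ← smul_eq_mul (P.kap a), ← map_smul,
      ← sub_eq_zero, ← map_sub, monomial_add_one]
    refine Par.pair_OO hf hs ?_
    have h11 := Par.OO_mul _ _ _ _ h8 (X_OO (L := L) P.W (P.vK a))
    rw [Par.W_vK ha] at h11
    have := add_mem (add_mem (Par.OO_anti L _ (show s + 1 ≤ _ by omega) h10)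
      (Par.OO_anti L _ (show s + 1 ≤ _ by omega) h8))
      (Submodule.smul_mem _ (P.kap a) (Par.OO_anti L _ (show s + 1 ≤ _ by omega) h11))
    convert this using 1
    simp only [smul_eq_C_mul]
    ring

lemma m5 (h2 : P.Sub2 L) (h4 : P.Sub4 L) (f : Mon P.Kv → P.k) (s : ℤ) (hf : P.AdmF L f)
    (hs : ∀ μ, f μ ≠ 0 → Finsupp.weight P.W2 μ ≤ s) (a : P.Ix) (μ : Mon P.Kv)
    (hμ : s < Finsupp.weight P.W2 μ + P.w2 a) : ac L (P.e a) f μ = f μ := by
  have h7 := (h4.e1 a (nn L (P.e a).1.val) (by rw [nn_spec, Par.e_val])).2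
  have hm := mon_OO (L := L) P.W2 μ
  have hw0 := Par.w2_pos a
  have h8 := prod0 (P.OO L P.W2) P.W2 (Par.OO_anti L _) Par.OO_mul (one_OO _)
    (X_OO _) (P.sP L (P.e a).1⁻¹) (P.w2 a) hw0.le
    (fun c => sP_X h2 (one_le a) (e_D a).inv c fun c' hc' => by
      have := Par.W2_slope (c := c) (c' := c') (by rw [Par.w2] at hw0; omega)
      rw [Par.w2]; omega) μ
  rw [ac_apply, ← pair_mon f μ, ← sub_eq_zero, ← map_sub]
  generalize nn L (P.e a).1.val = b at h7 ⊢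
  generalize P.sP L (P.e a).1⁻¹ (monomial μ 1) = φ at h8 ⊢
  have h9 : φ ∈ P.OO L P.W2 (Finsupp.weight P.W2 μ) := by
    have := add_mem (Par.OO_anti L _ (by omega) h8) hm
    rwa [sub_add_cancel] at this
  have h10 := Par.OO_mul _ _ _ _ h7 h9
  refine Par.pair_OO hf hs ?_
  have := add_mem (Par.OO_anti L _ (show s + 1 ≤ _ by omega) h10)
    (Par.OO_anti L _ (show s + 1 ≤ _ by omega) h8)
  convert this using 1
  ring

end Act

open Act in
theorem act_holds (P : Par) (L : ℕ) (h1 : P.Sub1 L) (h2 : P.Sub2 L) (h3 : P.Sub3 L)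
    (h4 : P.Sub4 L) : ∃ act, P.Mod L act := by
  refine ⟨ac L, fun x μ => ⟨_, fun f => ac_apply x f μ⟩, fun g f hf μ h => ?_,
    fun g h f hf => ?_, fun f hf => ?_, fun μ => ?_, m4 h2 h4, m5 h2 h4, m6 h2 h4, fun g => ?_⟩
  · by_contra h0
    refine h ?_
    rw [ac_apply]
    exact Par.pair_JJ hf ((P.JJ L).mul_mem_left _ (h1.mem _ _
      ((monomial_mem_restrictSupport P.k).2 (Or.inl h0))))
  · funext μ
    rw [ac, ac, ac, dual_apply, dual_apply, pair_dual]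
    exact pair_congr hf (TT_mul h1 h3 g.1 h.1 _)
  · funext μ
    rw [ac_apply, ← pair_mon f μ]
    refine pair_congr hf ?_
    rw [← Ideal.Quotient.eq, map_mul, nn_spec, OneMemClass.coe_one, inv_one, one_val,
      Par.nA_one, one_mul]
    exact Ideal.Quotient.eq.2 (h1.one _)
  · obtain ⟨K, hK⟩ := sP_deep h2 μ
    refine ⟨K + L * (L + 1), fun g hg f hf => ?_⟩
    rw [ac_apply, ← pair_mon f μ]
    refine pair_congr hf ?_
    rw [← Ideal.Quotient.eq, map_mul, nn_spec, h4.e3 _ (NG.D.ord (hg.anti (by omega))), one_mul]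
    exact Ideal.Quotient.eq.2 (hK _ (hg.anti (by omega)).inv)
  · have h0 : ∀ μ : Mon P.Kv, (Pi.single 0 1 : Mon P.Kv → P.k) μ ≠ 0 → μ = 0 := fun μ hμ => by
      by_contra h; exact hμ (Pi.single_eq_of_ne h _)
    have hf : P.AdmF L (Pi.single 0 1) := fun μ hμ => by
      rw [h0 μ hμ]; exact ⟨by simp, by simp⟩
    funext μ
    by_cases hμ : μ = 0
    · subst hμ
      rw [ac_apply, ← pair_mon (Pi.single 0 1) 0, monomial_zero', C_1, map_one, mul_one,
        ← sub_eq_zero, ← map_sub]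
      refine Par.pair_OO (ω := fun _ => 1) (s := 0) hf (fun ν hν => ?_) ?_
      · rw [h0 ν hν, map_zero]
      · rw [zero_add]; exact h4.e2 _ _ g.1.cc (nn_spec _)
    · rw [Pi.single_eq_of_ne hμ]
      by_contra h
      have := m6 h2 h4 g _ 0 hf (fun ν hν => by rw [h0 ν hν, map_zero]) μ h
      exact hμ ((Finsupp.degree_eq_zero_iff μ).1 (by omega))

end CdI
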