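import Pool.Agent.P.MP_013f39_al.Inf.Api

/-! The Lie algebra cochain differential squares to zero. -/

namespace CdI

namespace Ce

variable {k : Type} [Field k] {ι : Type} [LinearOrder ι] {V : Type} [AddCommGroup V] [Module k V]

/-- the locally finite sum `∑ ex a * T a` -/
def FF : (ι → Module.End k (Finset ι → V)) →ₗ[k] Module.End k (Finset ι → V) where
  toFun T :=
    { toFun := fun φ I => ∑ a ∈ I, ex k a (T a φ) I
      map_add' := fun _ _ => by ext I; simp [Finset.sum_add_distrib]
      map_smul' := fun c _ => by ext I; simp [Finset.smul_sum] }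
  map_add' _ _ := by ext φ I; simp [Finset.sum_add_distrib]
  map_smul' c _ := by ext φ I; simp [Finset.smul_sum]

/-- an operator on values acting on cochains -/
def LL (T : Module.End k V) : Module.End k (Finset ι → V) := T.compLeft (Finset ι)

lemma FF_apply (T : ι → Module.End k (Finset ι → V)) (φ : Finset ι → V) (I : Finset ι) :
    FF T φ I = ∑ a ∈ I, ex k a (T a φ) I := rfl

omit [LinearOrder ι] in
lemma LL_apply (T : Module.End k V) (φ : Finset ι → V) (I : Finset ι) : LL T φ I = T (φ I) := rfl

lemma FF_sup (T : ι → Module.End k (Finset ι → V)) (φ : Finset ι → V) {I S : Finset ι}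
    (h : I ⊆ S) : FF T φ I = ∑ a ∈ S, ex k a (T a φ) I := by
  rw [FF_apply]
  exact Finset.sum_subset h fun a _ ha => by rw [ex_apply, if_neg ha]

lemma FF_mul (T : ι → Module.End k (Finset ι → V)) (U : Module.End k (Finset ι → V)) :
    FF T * U = FF fun a => T a * U := rfl

lemma ex_FF (b : ι) (T : ι → Module.End k (Finset ι → V)) (φ : Finset ι → V) (I : Finset ι) :
    ex k b (FF T φ) I = ∑ a ∈ I, ex k b (ex k a (T a φ)) I := by
  by_cases h : b ∈ I
  · simp only [ex_apply b, if_pos h]
    rw [FF_sup T φ (Finset.erase_subset b I), Finset.smul_sum]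
  · simp only [ex_apply b, if_neg h, Finset.sum_const_zero]

lemma LL_ex (T : Module.End k V) (a : ι) (φ : Finset ι → V) :
    LL T (ex k a φ) = ex k a (LL T φ) := by
  funext I
  by_cases h : a ∈ I <;> simp [LL_apply, ex_apply, h]

lemma LL_io (T : Module.End k V) (a : ι) :
    (LL T * io k a : Module.End k (Finset ι → V)) = io k a * LL T := by
  refine LinearMap.ext fun φ => funext fun I => ?_
  by_cases h : a ∈ I <;> simp [LL_apply, io_apply, h]

lemma LL_FF (Y : Module.End k V) (T : ι → Module.End k (Finset ι → V)) :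
    LL Y * FF T = FF fun a => LL Y * T a := by
  refine LinearMap.ext fun φ => funext fun I => ?_
  simp only [Module.End.mul_apply, FF_apply, ← LL_ex, LL_apply, map_sum]

lemma io_FF (b : ι) (T : ι → Module.End k (Finset ι → V)) :
    io k b * FF T = T b - FF fun a => io k b * T a := by
  refine LinearMap.ext fun φ => funext fun I => ?_
  have h1 : io k b (FF T φ) I = ∑ a ∈ insert b I, io k b (ex k a (T a φ)) I := by
    by_cases h : b ∈ I
    · simp only [io_apply b, if_pos h, Finset.sum_const_zero]
    · simp only [io_apply b, if_neg h]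
      rw [FF_apply, Finset.smul_sum]
  have h2 : ∀ a, io k b (ex k a (T a φ)) I =
      (if a = b then T a φ I else 0) - ex k a (io k b (T a φ)) I := by
    intro a
    have := congrFun (LinearMap.congr_fun (ex_io (k := k) (V := V) a b) (T a φ)) I
    simp only [LinearMap.add_apply, Module.End.mul_apply, Pi.add_apply] at this
    rw [eq_sub_iff_add_eq, add_comm, this]
    split_ifs <;> rfl
  rw [Module.End.mul_apply, h1, LinearMap.sub_apply, Pi.sub_apply,
    FF_sup _ φ (Finset.subset_insert b I)]
  simp only [h2, Finset.sum_sub_distrib, Finset.sum_ite_eq', Finset.mem_insert_self, if_true,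
    Module.End.mul_apply]

lemma FF_FF (N : ι → ι → Module.End k (Finset ι → V)) (φ : Finset ι → V) (I : Finset ι) :
    FF (fun a => FF (N a)) φ I = ∑ a ∈ I, ∑ b ∈ I, ex k a (ex k b (N a b φ)) I := by
  simp only [FF_apply (fun a => FF (N a)), ex_FF]

lemma ex_anti (a b : ι) (φ : Finset ι → V) (I : Finset ι) :
    ex k a (ex k b φ) I + ex k b (ex k a φ) I = 0 :=
  congrFun (LinearMap.congr_fun (ex_ex (k := k) (V := V) a b) φ) I

lemma FF_swap (N : ι → ι → Module.End k (Finset ι → V)) :
    (FF fun a => FF fun b => N a b) = -FF fun b => FF fun a => N a b := by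
  refine LinearMap.ext fun φ => funext fun I => ?_
  rw [LinearMap.neg_apply, Pi.neg_apply, FF_FF, FF_FF (fun b a => N a b), Finset.sum_comm,
    eq_neg_iff_add_eq_zero, ← Finset.sum_add_distrib]
  refine Finset.sum_eq_zero fun b _ => ?_
  rw [← Finset.sum_add_distrib]
  exact Finset.sum_eq_zero fun a _ => ex_anti a b _ I

lemma FF_sym (N : ι → ι → Module.End k (Finset ι → V)) (h : ∀ a b, N a b = N b a) :
    (FF fun a => FF fun b => N a b) = 0 := by
  refine LinearMap.ext fun φ => funext fun I => ?_
  rw [FF_FF, ← Finset.sum_product']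
  refine Finset.sum_involution (fun x _ => x.swap) (fun x _ => ?_) (fun x _ hx he => hx ?_)
    (fun x hx => ?_) (fun x _ => rfl)
  · rw [Prod.fst_swap, Prod.snd_swap, h x.2 x.1]
    exact ex_anti _ _ _ I
  · have : x.2 = x.1 := congrArg Prod.fst he
    rw [this]
    exact congrFun (LinearMap.congr_fun (ex_self (k := k) (V := V) x.1) _) I
  · rw [Finset.mem_product] at hx ⊢
    exact ⟨hx.2, hx.1⟩

lemma FF_neg (T : ι → Module.End k (Finset ι → V)) : (FF fun a => -T a) = -FF T := map_neg FF T

lemma FF_sub (T T' : ι → Module.End k (Finset ι → V)) :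
    (FF fun a => T a - T' a) = FF T - FF T' := map_sub FF T T'

lemma FF_smul (c : k) (T : ι → Module.End k (Finset ι → V)) :
    c • FF T = FF fun a => c • T a := (map_smul FF c T).symm

lemma FF_zero : (FF fun _ => (0 : Module.End k (Finset ι → V))) = 0 := map_zero FF

lemma FF_rot (N : ι → ι → ι → Module.End k (Finset ι → V)) :
    (FF fun a => FF fun b => FF fun c => N a b c) = FF fun b => FF fun c => FF fun a => N a b c := by
  rw [FF_swap fun a b => FF fun c => N a b c, ← FF_neg]
  congr 1
  funext b
  rw [FF_swap fun a c => N a b c, neg_neg]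

lemma kz_eq (Y : ι → Module.End k V) : kz Y = FF fun a => LL (Y a) := by
  refine LinearMap.ext fun φ => funext fun I => ?_
  rw [kz_apply, FF_apply]
  exact Finset.sum_congr rfl fun a ha => by rw [ex_apply, if_pos ha, LL_apply]

lemma ct_eq (A : ι → Prop) [DecidablePred A] (κ : ι → k) (s : ι → ι → ι) :
    (ct A κ s : Module.End k (Finset ι → V)) =
      FF fun a => FF fun i => (if A a then κ i else 0) • io k (s a i) := by
  refine LinearMap.ext fun φ => funext fun I => ?_
  rw [ct_apply, FF_FF, Finset.sum_filter]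
  refine Finset.sum_congr rfl fun a _ => ?_
  split_ifs <;> simp

lemma sq_zero (c : ι → ι → k) (s : ι → ι → ι) (Y : ι → Module.End k V)
    (h1 : ∀ a i j, c a i * c (s a i) j = 0)
    (h2 : ∀ a b i, (c a i * c b (s a i)) • (io k (s b (s a i)) : Module.End k (Finset ι → V)) =
      (c b i * c a (s b i)) • io k (s a (s b i)))
    (h3 : ∀ a b, Y a * Y b - c a b • Y (s a b) = Y b * Y a - c b a • Y (s b a)) :
    (FF fun a => LL (Y a) - FF fun i => c a i • io k (s a i)) *
      (FF fun a => LL (Y a) - FF fun i => c a i • io k (s a i)) = 0 := by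
  have e1 : (FF fun a => FF fun b => (LL (Y a) * LL (Y b) - c a b • LL (Y (s a b)) :
      Module.End k (Finset ι → V))) = 0 :=
    FF_sym _ fun a b => congrArg LL (h3 a b)
  have e2 := FF_rot fun a b i => c b i • (LL (Y a) * io k (s b i) : Module.End k (Finset ι → V))
  have e3 : (FF fun a => FF fun i => FF fun b =>
      (c a i * c b (s a i)) • (io k (s b (s a i)) : Module.End k (Finset ι → V))) = 0 := by
    rw [FF_swap]
    simp only [FF_sym _ fun a b => h2 a b _, FF_zero, neg_zero]
  have e4 : (FF fun a => FF fun i => FF fun b => FF fun j =>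
      (c a i * c b j) • (io k (s a i) * io k (s b j) : Module.End k (Finset ι → V))) = 0 := by
    have e5 := FF_sym (fun a b => FF fun i => FF fun j =>
      (c a i * c b j) • (io k (s a i) * io k (s b j) : Module.End k (Finset ι → V))) fun a b => by
        rw [FF_swap, ← FF_neg]
        congr 1
        funext i
        rw [← FF_neg]
        congr 1
        funext j
        rw [mul_comm (c a j), neg_eq_iff_add_eq_zero, ← smul_add, io_io, smul_zero]
    rw [← neg_eq_zero, ← FF_neg, ← e5]
    congr 1
    funext a
    rw [FF_swap, neg_neg]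
  rw [FF_mul]
  simp only [sub_mul, FF_mul, LL_FF, smul_mul_assoc, io_FF, mul_sub, mul_smul_comm, smul_sub,
    FF_sub, FF_smul, smul_smul, h1, zero_smul, FF_zero, ← LL_io] at e1 e2 e3 e4 ⊢
  rw [e2, e3, e4, sub_eq_zero.1 e1]
  abel

end Ce

open Ce in
theorem ce_holds : CeStm := by
  intro k _ ι _ V _ _ A _ κ s Y h0 h1 h2 h3 h4 h5 h6
  rw [kz_eq, ct_eq, ← FF_sub]
  refine sq_zero (fun a i => if A a then κ i else 0) s Y (fun a i j => ?_) (fun a b i => ?_)
    (fun a b => ?_)
  · by_cases ha : A a
    · by_cases hi : A i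
      · simp [h0 i hi]
      · simp [h1 a i ha hi]
    · simp [ha]
  · by_cases ha : A a
    · by_cases hb : A b
      · by_cases hi : A i
        · simp [h0 i hi]
        · simp only [if_pos ha, if_pos hb, h2 a i ha hi, h2 b i hb hi, h3 a b i ha hb hi]
      · simp [hb]
    · simp [ha]
  · by_cases ha : A a <;> by_cases hb : A b
    · simp [h0 a ha, h0 b hb, (h4 a b ha hb).eq]
    · simp only [if_pos ha, if_neg hb, ← h6 a b ha hb, zero_smul]
      abel
    · simp only [if_neg ha, if_pos hb, ← h6 b a hb ha, zero_smul]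
      abel
    · simp [ha, hb, (h5 a b ha hb).eq]

end CdI
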