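import Pool.Agent.P.MP_013f39_al.Inf.Api

/-! Infinite cohomological dimension of `H_r`: the cocycles of one colour. -/

namespace CdI

open Cd3 MvPolynomial

namespace Col2

open Par

variable {P : Par} {d : ℕ} {ρ : Fin d → P.Kv}

lemma tup_lt (hρ : ∀ l, (ρ l).1 < (P.M : ℤ)) (n : Mon (Fin d)) :
    ∀ c ∈ (P.tup ρ n).support, c.1 < (P.M : ℤ) := by
  intro c hc
  rw [tup] at hc
  obtain ⟨l, -, hl⟩ := Finsupp.mem_support_finsetSum c hc
  obtain rfl := Finset.mem_singleton.1 (Finsupp.support_single_subset hl)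
  have h1 : (0 : ℤ) ≤ P.q * (n l : ℤ) := by positivity
  have := hρ l
  change (ρ l).1 - P.q * (n l : ℤ) < P.M
  omega

lemma weight_tup (n : Mon (Fin d)) :
    Finsupp.weight P.W (P.tup ρ n) = ∑ l, ((ρ l).1 + P.β) - P.q * (n.degree : ℤ) := by
  rw [tup, map_sum, Finsupp.degree_eq_sum, Nat.cast_sum, Finset.mul_sum, ← Finset.sum_sub_distrib]
  refine Finset.sum_congr rfl fun l _ => ?_
  rw [Finsupp.weight_single, one_smul, W]
  change (ρ l).1 - P.q * (n l : ℤ) + P.β = _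
  ring

lemma deg_le (hρ : ∀ l, (ρ l).1 < (P.M : ℤ)) {J : Finset P.Ix} (hJ : ∀ a ∈ J, P.Act a)
    {n : Mon (Fin d)} (h : 0 ≤ P.U1 J (P.tup ρ n)) :
    (n.degree : ℤ) ≤ (d * P.M : ℕ) + wI (fun a : P.Ix => (a.1 : ℤ)) J := by
  have h1 : wI P.w J = P.q * wI (fun a : P.Ix => (a.1 : ℤ)) J := by
    rw [wI, wI, Finset.mul_sum]
    exact Finset.sum_congr rfl fun a ha => w_act (hJ a ha)
  have h2 : ∑ l, ((ρ l).1 + P.β) ≤ ∑ _l : Fin d, (P.q : ℤ) * P.M :=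
    Finset.sum_le_sum fun l _ => by have := hρ l; have := P.β_add; omega
  rw [Finset.sum_const, Finset.card_univ, Fintype.card_fin, nsmul_eq_mul] at h2
  rw [U1, weight_tup, h1] at h
  have h3 : (0 : ℤ) < P.q := by have := P.two_le_q; omega
  refine le_of_mul_le_mul_left ?_ h3
  push_cast
  nlinarith

/-- letters act trivially on functions of small variables -/
lemma X2_let {a : P.Ix} (ha : ¬ P.Act a) {f : Mon P.Kv → P.k}
    (hf : ∀ μ, f μ ≠ 0 → ∀ c ∈ μ.support, c.1 < (P.M : ℤ)) : P.X2 a f = 0 := by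
  funext μ
  rw [X2_apply, if_neg ha, Pi.zero_apply]
  by_cases h : f (μ + Finsupp.single (P.vK a) 1) = 0
  · rw [h, mul_zero]
  · have h1 := hf _ h (P.vK a) (by simp)
    have h2 := M_lt ha
    rw [vK_val ha] at h1
    omega

/-- the bracket term vanishes on letter-free cochains -/
lemma d0_free {z : P.C2} (hz : ∀ J, z J ≠ 0 → ∀ a ∈ J, P.Act a) (I : Finset P.Ix) :
    P.d0 z I = ∑ a ∈ I, sg P.k a I • P.X2 a (z (I.erase a)) := by
  have h0 : ct P.Act P.kap P.sh z I = 0 := ct_eq_zero _ _ _ _ _ fun j _ i _ _ hi _ => by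
    by_contra h
    exact sh_let j (kap_ne_zero.1 hi) (hz _ h _ (Finset.mem_insert_self _ _))
  rw [d0, ce_apply, h0, sub_zero]
  rfl

lemma kd_apply {Λ : Type} [Fintype Λ] (c : Λ → P.k) (x : Finset P.Ix → MvPolynomial Λ P.k)
    (I : Finset P.Ix) : P.kd c x I =
      ∑ a ∈ I, sg P.k a I • if P.Act a then P.fj c a * x (I.erase a) else 0 := by
  rw [kd, kz_apply]
  refine Finset.sum_congr rfl fun a _ => ?_
  split_ifs <;> rfl

section T

variable {c : Fin d → P.k} {T : MvPolynomial (Fin d) P.k →ₗ[P.k] (Mon P.Kv → P.k)}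

lemma d0_T (hρ : ∀ l, (ρ l).1 < (P.M : ℤ))
    (h1 : ∀ a F, P.Act a → T (P.fj c a * F) = P.X2 a (T F))
    (h2 : ∀ F μ, T F μ ≠ 0 → ∃ m, μ = P.tup ρ m) {Q : ℕ → Prop}
    {x : Finset P.Ix → MvPolynomial (Fin d) P.k} (hx : x ∈ P.CQ (Fin d) Q) :
    P.d0 (T.compLeft _ x) = T.compLeft _ (P.kd c x) := by
  funext I
  rw [d0_free fun J hJ => (hx J fun h => hJ (by
    change T (x J) = 0
    rw [h, map_zero])).2]
  change _ = T (P.kd c x I)
  rw [kd_apply, map_sum]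
  refine Finset.sum_congr rfl fun a _ => ?_
  rw [map_smul]
  congr 1
  change P.X2 a (T (x (I.erase a))) = _
  split_ifs with ha
  · exact (h1 a _ ha).symm
  · rw [map_zero]
    refine X2_let ha fun μ hμ => ?_
    obtain ⟨m, rfl⟩ := h2 _ μ hμ
    exact tup_lt hρ m

lemma fin_T (h2 : ∀ F, (Function.support (T F)).Finite) {Q : ℕ → Prop}
    {x : Finset P.Ix → MvPolynomial (Fin d) P.k} (hx : x ∈ P.CQ (Fin d) Q) :
    T.compLeft _ x ∈ FinM P.k P.Kv P.Ix ⊓ SupM P.k fun I _ => Q I.card := by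
  have h0 : ∀ I μ, T (x I) μ ≠ 0 → x I ≠ 0 := fun I μ h h' => h (by rw [h', map_zero]; rfl)
  refine ⟨?_, fun I μ h => (hx I (h0 I μ h)).1⟩
  refine (P.finite_act.biUnion fun I _ => (h2 (x I)).image fun μ => (I, μ)).subset ?_
  rintro ⟨I, μ⟩ h
  exact Set.mem_biUnion (hx I (h0 I μ h)).2 ⟨μ, h, rfl⟩

lemma lift_mem (hρ : ∀ l, (ρ l).1 < (P.M : ℤ))
    (h4 : ∀ f F a, P.Act a → (∀ μ, f μ ≠ 0 → ∀ c ∈ μ.support, c.1 < (P.M : ℤ)) → P.Lift ρ f F →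
      P.Lift ρ (P.X2 a f) (P.fj c a * F)) {m : ℕ} {z : P.C2} (hz : z ∈ P.ZQ m)
    {F : Finset P.Ix → MvPolynomial (Fin d) P.k} (hF : ∀ J, P.Lift ρ (z J) (F J)) :
    F ∈ P.ZP c m (d * P.M : ℕ) := by
  obtain ⟨⟨⟨-, hs⟩, hk⟩, hq⟩ := hz
  refine ⟨⟨fun J hJ => ?_, mem_FP.2 fun J => mem_Ple.2 fun n hn => ?_⟩, ?_⟩
  · obtain ⟨n, hn⟩ := ne_zero_iff.1 hJ
    rw [hF J n] at hn
    exact ⟨(hs J _ hn).1, (hq J _ hn).1⟩
  · rw [mem_support_iff, hF J n] at hn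
    exact deg_le hρ (hq J _ hn).1 (hs J _ hn).2
  · change P.kd c F = 0
    funext I
    ext n
    have h0 : P.d0 z I (P.tup ρ n) = 0 := by
      rw [show P.d0 z = 0 from hk]; rfl
    rw [d0_free fun J hJ => by
      obtain ⟨μ, hμ⟩ := Function.ne_iff.1 hJ
      exact (hq J μ hμ).1, Finset.sum_apply] at h0
    rw [kd_apply, coeff_sum, Pi.zero_apply, coeff_zero, ← h0]
    refine Finset.sum_congr rfl fun a _ => ?_
    rw [coeff_smul, Pi.smul_apply]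
    congr 1
    split_ifs with ha
    · exact h4 _ _ a ha (fun μ hμ => (hq _ μ hμ).2) (hF _) n
    · rw [X2_let ha fun μ hμ => (hq _ μ hμ).2]; rfl

end T

end Col2

theorem col2_holds (P : Par) (h : P.Col) : P.Col2 := by
  intro m d c ρ hρ hS
  obtain ⟨T, h1, h2, h3, h4, h5⟩ := h d ρ hρ
  have hρ' : ∀ l, (ρ l).1 < (P.M : ℤ) := fun l => (hρ l).2
  have key : ∀ z ∈ P.ZQ m, ∃ F ∈ P.ZP (fun l => -((ρ l).1 : P.k)) m (d * P.M : ℕ),
      ∀ I n, T (F I) (P.tup ρ n) = z I (P.tup ρ n) := by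
    intro z hz
    have hf : ∀ J, (Function.support (z J)).Finite := fun J =>
      (hz.1.1.1.image Prod.snd).subset fun μ hμ => ⟨(J, μ), hμ, rfl⟩
    choose F hF using fun J => h3 (z J) (hf J)
    exact ⟨F, Col2.lift_mem hρ' h4 hz hF, fun I n => h5 _ _ (hF I) n⟩
  refine ⟨(hS.map (T.compLeft _)).mono (fun z hz => ?_) ?_ le_rfl, fun z hz => ?_⟩
  · obtain ⟨F, hF, e⟩ := key z hz.1
    refine ⟨F, hF, ?_⟩
    funext I μ
    change T (F I) μ = _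
    by_cases hμ : ∃ n, μ = P.tup ρ n
    · obtain ⟨n, rfl⟩ := hμ
      exact e I n
    · have e1 : T (F I) μ = 0 := by
        by_contra h0; exact hμ ((h2 _).2 μ h0)
      have e2 : z I μ = 0 := by
        by_contra h0; exact hμ (hz.2 I μ h0)
      rw [e1, e2]
  · rintro _ ⟨_, ⟨x, hx, rfl⟩, rfl⟩
    exact ⟨T.compLeft _ x, Col2.fin_T (fun F => (h2 F).1) hx,
      Col2.d0_T hρ' h1 (fun F => (h2 F).2) hx⟩
  · obtain ⟨F, hF, e⟩ := key z hz
    have h0 : ∀ I μ, T (F I) μ ≠ 0 → z I μ ≠ 0 := fun I μ hμ => by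
      obtain ⟨n, rfl⟩ := (h2 _).2 μ hμ
      rwa [e I n] at hμ
    refine ⟨T.compLeft _ F, ⟨⟨⟨⟨(Col2.fin_T (fun F => (h2 F).1) hF.1.1).1,
      fun I μ hμ => hz.1.1.2 I μ (h0 I μ hμ)⟩, ?_⟩, fun I μ hμ => hz.2 I μ (h0 I μ hμ)⟩,
      fun I μ hμ => (h2 _).2 μ hμ⟩, e⟩
    change P.d0 _ = 0
    rw [Col2.d0_T hρ' h1 (fun F => (h2 F).2) hF.1.1, show P.kd _ F = 0 from hF.2, map_zero]

end CdI
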