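import Pool.Agent.P.MP_013f39_al.Inf.Api

/-! Infinite cohomological dimension of `H_r`: Newton coordinates. -/

set_option autoImplicit false

namespace CdI

open Cd3 MvPolynomial

namespace Coord1

variable {P : Par}

lemma kill {f : P.Gam → P.k} {K : ℕ} (hf : ∀ x y : P.Gam, P.S.Eqv K x.1 y.1 → f x = f y)
    (n₀ : Mon P.Ix) (h : PowerSeries.X ^ K ∣ P.pE n₀ - 1) (x : MvPolynomial P.Ix P.k) :
    P.lam f ((P.pT n₀ - 1) * x) = 0 := by
  have : P.lam f ∘ₗ LinearMap.mulLeft P.k (P.pT n₀ - 1) = 0 := Par.pT_ext fun n => by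
    rw [LinearMap.comp_apply, LinearMap.mulLeft_apply, sub_mul, one_mul, ← Par.pT_add, map_sub,
      Par.lam_pT, Par.lam_pT, LinearMap.zero_apply, sub_eq_zero]
    refine hf _ _ (Par.eqv_iff.2 ?_)
    rw [Par.gE_val, Par.gE_val, Par.pE_add]
    have e : P.pE n₀ * P.pE n - P.pE n = (P.pE n₀ - 1) * P.pE n := by ring
    rw [e]
    exact h.mul_right _
  exact LinearMap.congr_fun this x

lemma mon_split (α : Mon P.Ix) (a : P.Ix) {j : ℕ} (h : j ≤ α a) :
    (monomial α 1 : MvPolynomial P.Ix P.k) = X a ^ j * monomial (α - Finsupp.single a j) 1 := by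
  rw [X_pow_eq_monomial, monomial_mul, one_mul, add_tsub_cancel_of_le]
  exact Finsupp.single_le_iff.2 h

lemma fin (f : P.Gam → P.k) (hf : P.FL f) : (Function.support (P.co f)).Finite := by
  classical
  obtain ⟨K, hf⟩ := hf
  have h1 : ∀ α a, P.p ^ K ≤ α a → P.co f α = 0 := by
    intro α a h
    have e : (X a ^ P.p ^ K : MvPolynomial P.Ix P.k) = P.pT (Finsupp.single a (P.p ^ K)) - 1 := by
      rw [Par.pT_single, add_pow_char_pow, one_pow, add_sub_cancel_left]
    rw [Par.co_apply, mon_split α a h, e]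
    refine kill hf _ ?_ _
    have : CharP (PS P.p) P.p := charP_of_injective_algebraMap' (ZMod P.p) P.p
    rw [Par.pE_single, sub_pow_char_pow, one_pow, sub_sub_cancel_left, dvd_neg, ← pow_mul]
    refine pow_dvd_pow _ ?_
    have h2 : K < P.p ^ K := Nat.lt_pow_self P.hp.one_lt
    have h3 : 1 ≤ a.1 := P.hN.trans a.2.1
    nlinarith
  have h2 : ∀ (α : Mon P.Ix) (a : P.Ix), K ≤ a.1 → 1 ≤ α a → P.co f α = 0 := by
    intro α a hK h
    have e : (X a ^ 1 : MvPolynomial P.Ix P.k) = P.pT (Finsupp.single a 1) - 1 := by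
      rw [Par.pT_single, pow_one, pow_one, add_sub_cancel_left]
    rw [Par.co_apply, mon_split α a h, e]
    refine kill hf _ ?_ _
    rw [Par.pE_single, pow_one, sub_sub_cancel_left, dvd_neg]
    exact pow_dvd_pow _ hK
  let b : Mon P.Ix := Finsupp.onFinset (P.finite_le K).toFinset
    (fun a => if a.1 ≤ K then P.p ^ K else 0) fun a ha => by
      rw [Set.Finite.mem_toFinset]
      by_contra h
      exact ha (if_neg h)
  refine (Set.finite_Icc 0 b).subset fun α hα => ⟨zero_le, fun a => ?_⟩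
  change α a ≤ if a.1 ≤ K then P.p ^ K else 0
  split_ifs with h
  · by_contra h3
    exact hα (h1 α a (by omega))
  · by_contra h3
    exact hα (h2 α a (by omega) (by omega))

lemma ord (x : P.Gam) : PowerSeries.X ^ P.N ∣ x.1.val - 1 := NG.D.ord x.2

lemma surj (h : P.Exp) (h' : P.Rel) (α : Mon P.Ix) : ∃ f, P.FL f ∧ P.co f = Pi.single α 1 := by
  choose n hn using fun x : P.Gam =>
    h.e0 x.1.val (ord x) (Finsupp.weight (fun a : P.Ix => a.1) α + 1)
  refine ⟨fun x => coeff α (P.pT (n x)),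
    ⟨Finsupp.weight (fun a : P.Ix => a.1) α + 1, fun x y hxy => ?_⟩, ?_⟩
  · refine h' _ _ _ α ?_ (Nat.lt_succ_self _)
    have e : P.pE (n x) - P.pE (n y) =
        (x.1.val - y.1.val) - (x.1.val - P.pE (n x)) + (y.1.val - P.pE (n y)) := by ring
    rw [e]
    exact ((Par.eqv_iff.1 hxy).sub (hn x)).add (hn y)
  · have e : P.lam (fun x => coeff α (P.pT (n x))) = lcoeff P.k α := Par.pT_ext fun m => by
      rw [Par.lam_pT, lcoeff_apply]
      exact (h' _ _ _ α (hn (P.gE m)) (Nat.lt_succ_self _)).symm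
    funext β
    rw [Par.co_apply, e, lcoeff_apply, coeff_monomial, Pi.single_apply]

lemma gE_zero : P.gE 0 = 1 := Subtype.ext (GG.ext rfl)

lemma ev (f : P.Gam → P.k) : f 1 = P.co f 0 := by
  rw [← gE_zero, ← Par.lam_pT f 0]
  rfl

lemma inj (h : P.Exp) (f : P.Gam → P.k) (hf : P.FL f) (h0 : P.co f = 0) : f = 0 := by
  obtain ⟨K, hf⟩ := hf
  funext x
  obtain ⟨n, hn⟩ := h.e0 x.1.val (ord x) K
  rw [hf x (P.gE n) (Par.eqv_iff.2 hn), ← Par.lam_pT f n, ← Par.pair_co, h0]
  exact pair_eq_zero fun _ _ => rfl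

lemma const (c : P.k) (α : Mon P.Ix) (hα : α ≠ 0) : P.co (fun _ => c) α = 0 := by
  have e : P.lam (fun _ => c) = c • lcoeff P.k 0 := Par.pT_ext fun n => by
    have : constantCoeff (P.pT n) = 1 := by
      rw [Par.pT, map_finsuppProd]
      simp
    rw [Par.lam_pT, LinearMap.smul_apply, lcoeff_apply, ← constantCoeff_eq, this, smul_eq_mul,
      mul_one]
  rw [Par.co_apply, e, LinearMap.smul_apply, lcoeff_apply, coeff_monomial, if_neg hα, smul_zero]

variable (P) in
/-- finitely supported cochains as functions -/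
noncomputable def emb : (Finset P.Ix × Mon P.Ix →₀ P.k) →ₗ[P.k] P.C1 where
  toFun z I μ := z (I, μ)
  map_add' _ _ := rfl
  map_smul' _ _ := rfl

lemma emb_inj : Function.Injective (emb P) := fun _ _ h =>
  Finsupp.ext fun t => congrFun (congrFun h t.1) t.2

lemma coV_mem (h : P.Coord1) {j : ℕ} {F : P.Gam → P.Lam} (hF : F ∈ P.DD j) :
    P.coV F ∈ P.FD j := by
  have h0 : ∀ I μ, P.coV F I μ ≠ 0 → ∃ x, F x I ≠ 0 := by
    intro I μ h1
    by_contra h2
    push Not at h2
    have : (fun x => F x I) = 0 := funext h2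
    rw [Par.coV_apply, this, map_zero] at h1
    exact h1 rfl
  refine ⟨?_, fun I μ h1 => ?_⟩
  · have h1 : (⋃ v ∈ Set.range F, {I | v I ≠ 0}).Finite :=
      hF.1.finite_range.biUnion (by rintro _ ⟨x, rfl⟩; exact (hF.2 x).1)
    refine (h1.biUnion fun I _ =>
      (h.fin _ (hF.1.comp (· I))).image fun μ => (I, μ)).subset fun t ht => ?_
    obtain ⟨x, hx⟩ := h0 t.1 t.2 ht
    exact Set.mem_biUnion (Set.mem_biUnion (Set.mem_range_self x) hx) ⟨t.2, ht, rfl⟩
  · obtain ⟨x, hx⟩ := h0 I μ h1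
    exact (hF.2 x).2 I hx

end Coord1

theorem coord1_holds (P : Par) (h : P.Exp) (h' : P.Rel) : P.Coord1 :=
  ⟨Coord1.fin, Coord1.surj h h', Coord1.ev, Coord1.inj h, Coord1.const⟩

theorem sec_holds (P : Par) (h : P.Coord1) : ∃ sec, P.Sec sec := by
  choose φ hφ hφ' using h.surj
  let B : Finset P.Ix × Mon P.Ix → P.Gam → P.Lam := fun t x => Pi.single t.1 (φ t.2 x)
  let s0 := Finsupp.linearCombination P.k B
  obtain ⟨r, hr⟩ := (Coord1.emb P).exists_leftInverse_of_injective
    (LinearMap.ker_eq_bot.2 Coord1.emb_inj)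
  have hB : ∀ t, B t ∈ P.DD t.1.card := fun t => by
    refine ⟨(hφ t.2).comp _, fun x => ⟨(Set.finite_singleton t.1).subset fun I hI => ?_,
      fun I hI => ?_⟩⟩
    · by_contra h1
      exact hI (Pi.single_eq_of_ne h1 _)
    · by_contra h1
      exact hI (Pi.single_eq_of_ne (fun e => h1 (by rw [e])) _)
  have hc : P.coV ∘ₗ s0 = Coord1.emb P := by
    refine Finsupp.lhom_ext' fun t => LinearMap.ext_ring ?_
    simp only [LinearMap.comp_apply, Finsupp.lsingle_apply, s0, Finsupp.linearCombination_single,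
      one_smul]
    funext I μ
    change P.co (fun x => B t x I) μ = Finsupp.single t (1 : P.k) (I, μ)
    by_cases hI : I = t.1
    · have e : (fun x => B t x I) = φ t.2 := funext fun x => by rw [hI]; exact Pi.single_eq_same _ _
      rw [e, hφ', Pi.single_apply, Finsupp.single_apply, hI]
      exact if_congr ⟨fun e => by rw [e], fun e => (congrArg Prod.snd e).symm⟩ rfl rfl
    · have e : (fun x => B t x I) = 0 := funext fun x => Pi.single_eq_of_ne hI _
      rw [e, map_zero, Finsupp.single_eq_of_ne fun e => hI (congrArg Prod.fst e)]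
      rfl
  have key : ∀ j, ∀ z ∈ P.FD j, (s0 ∘ₗ r) z ∈ P.DD j ∧ P.coV ((s0 ∘ₗ r) z) = z := by
    intro j z hz
    let z0 : Finset P.Ix × Mon P.Ix →₀ P.k := Finsupp.ofSupportFinite (fun t => z t.1 t.2) hz.1
    have e1 : Coord1.emb P z0 = z := rfl
    have e2 : (s0 ∘ₗ r) z = s0 z0 := by
      rw [LinearMap.comp_apply, ← e1]
      exact congrArg s0 (LinearMap.congr_fun hr z0)
    rw [e2]
    refine ⟨?_, (LinearMap.congr_fun hc z0).trans e1⟩
    rw [Finsupp.linearCombination_apply]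
    refine Submodule.sum_mem _ fun t ht => Submodule.smul_mem _ _ ?_
    rw [← hz.2 t.1 t.2 (Finsupp.mem_support_iff.1 ht)]
    exact hB t
  refine ⟨s0 ∘ₗ r, fun j => ⟨key j, fun F hF => ⟨Coord1.coV_mem h hF, ?_⟩⟩⟩
  obtain ⟨k1, k2⟩ := key j _ (Coord1.coV_mem h hF)
  have k3 := (P.DD j).sub_mem k1 hF
  rw [← sub_eq_zero]
  funext x I
  refine congrFun (h.inj _ (k3.1.comp (· I)) ?_) x
  rw [← Par.coV_apply, map_sub, k2, sub_self]
  rfl

end CdI
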