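import Pool.Agent.P.MP_013f39_al.Inf.Api

/-! Infinite cohomological dimension of `H_r`: difference operators in coordinates. -/

namespace CdI

open Cd3 MvPolynomial

namespace Coord2

variable {P : Par}

lemma E_cc (i : P.Ix) :
    PowerSeries.constantCoeff (1 - PowerSeries.X ^ i.1 : PS P.p) = 1 := by
  have : i.1 ≠ 0 := by have := i.2.1; have := P.hN; omega
  simp [this]

lemma step (h : P.Exp) (a i : P.Ix) (K : ℕ) : ∃ n : Mon P.Ix,
    PowerSeries.X ^ K ∣ act P.r (1 - PowerSeries.X ^ a.1) (1 - PowerSeries.X ^ i.1) -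
      P.pE (Finsupp.single i 1 + n) ∧
    P.pT n - 1 ∈ Pge P.k P.w ((i.1 + P.q * a.1 : ℕ) + P.β) ∧
    P.pT n - 1 ∈ Pge P.k P.w2 (P.q * (i.1 + P.q * a.1 : ℕ)) ∧
    ∀ b : P.Ix, b.1 = i.1 + P.q * a.1 →
      P.pT n - 1 + (i.1 : P.k) • X b ∈ Pge P.k P.w ((i.1 + P.q * a.1 : ℕ) + P.β + 1) := by
  have ha : 1 ≤ a.1 := P.hN.trans a.2.1
  have hi : 1 ≤ i.1 := P.hN.trans i.2.1
  set E : PS P.p := 1 - PowerSeries.X ^ i.1 with hE
  set g : PS P.p := 1 - PowerSeries.X ^ a.1 with hg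
  have hg1 : PowerSeries.X ^ a.1 ∣ g - 1 := by
    rw [hg, sub_sub_cancel_left, dvd_neg]
  have hE1 : PowerSeries.X ^ i.1 ∣ E - 1 := by
    rw [hE, sub_sub_cancel_left, dvd_neg]
  have e0 : act P.r g E - E = act P.r g (E - 1) - (E - 1) := by
    rw [map_sub (act P.r g) E 1, map_one]; ring
  have h1 : PowerSeries.X ^ (i.1 + P.q * a.1) ∣ act P.r g E - E := by
    rw [e0]; exact act_sub_ord P.r ha hg1 hE1
  have h2 : PowerSeries.coeff (i.1 + P.q * a.1) (act P.r g E - E) = (i.1 : P.k) := by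
    rw [e0]
    refine (act_sub_top P.r ha hg1 hE1).trans ?_
    rw [hg, hE, sub_sub_cancel_left, sub_sub_cancel_left, map_neg, map_neg,
      PowerSeries.coeff_X_pow_self, PowerSeries.coeff_X_pow_self]
    ring
  have hu : E * E⁻¹ = 1 := PowerSeries.mul_inv_cancel _ (by rw [hE, E_cc]; exact one_ne_zero)
  have e1 : act P.r g E * E⁻¹ - 1 = (act P.r g E - E) * E⁻¹ := by rw [sub_mul, hu]
  have hM : P.M ≤ i.1 + P.q * a.1 := by
    have h3 : P.p ≤ P.q := Nat.le_of_dvd (by have := P.two_le_q; omega) P.p_dvd_q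
    have h4 : P.p * P.N ≤ P.q * a.1 := Nat.mul_le_mul h3 a.2.1
    unfold Par.M; omega
  have h3 : PowerSeries.coeff (i.1 + P.q * a.1) (act P.r g E * E⁻¹) = (i.1 : P.k) := by
    have h4 := coeff_lead (b := 0) (g := E⁻¹) h1 (by simp)
    rw [← e1, add_zero, map_sub, h2, PowerSeries.coeff_one, if_neg (by omega), sub_zero] at h4
    rw [h4, PowerSeries.coeff_zero_eq_constantCoeff_apply, PowerSeries.constantCoeff_inv, hE, E_cc]
    simp
  obtain ⟨n, k1, k2, k3, k4⟩ := h.e1 (i.1 + P.q * a.1) (act P.r g E * E⁻¹) hM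
    (by rw [e1]; exact h1.mul_right _) K
  refine ⟨n, ?_, k2, k3, fun b hb => ?_⟩
  · have : act P.r g E - P.pE (Finsupp.single i 1 + n) = E * (act P.r g E * E⁻¹ - P.pE n) := by
      rw [Par.pE_add, Par.pE_single, pow_one, ← hE, mul_sub, mul_left_comm, hu, mul_one]
    rw [this]; exact k1.mul_left _
  · have := k4 b hb
    rwa [h3] at this

lemma dvd_mul_sub {R : Type} [CommRing R] {d x y x' y' : R} (h : d ∣ x - y) (h' : d ∣ x' - y') :
    d ∣ x * x' - y * y' := by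
  have : x * x' - y * y' = (x - y) * x' + y * (x' - y') := by ring
  rw [this]; exact (h.mul_right _).add (h'.mul_left _)

/-- the substitution -/
noncomputable def Sg (n : P.Ix → Mon P.Ix) :
    MvPolynomial P.Ix P.k →ₐ[P.k] MvPolynomial P.Ix P.k :=
  aeval fun i => P.pT (Finsupp.single i 1 + n i) - 1

lemma Sg_X (n : P.Ix → Mon P.Ix) (i : P.Ix) :
    Sg n (X i) - X i = (P.pT (n i) - 1) + X i * (P.pT (n i) - 1) := by
  rw [Sg, aeval_X, Par.pT_add, Par.pT_single]; ring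

lemma Sg_pT (a : P.Ix) (K : ℕ) (n : P.Ix → Mon P.Ix)
    (hn : ∀ i, PowerSeries.X ^ K ∣ act P.r (1 - PowerSeries.X ^ a.1) (1 - PowerSeries.X ^ i.1) -
      P.pE (Finsupp.single i 1 + n i)) (m : Mon P.Ix) :
    ∃ m', Sg n (P.pT m) = P.pT m' ∧
      PowerSeries.X ^ K ∣ act P.r (1 - PowerSeries.X ^ a.1) (P.pE m) - P.pE m' := by
  induction m using mon_ind with
  | h0 => exact ⟨0, by simp [Par.pT], by simp [Par.pE]⟩
  | h1 m c ih =>
    obtain ⟨m', h1, h2⟩ := ih
    refine ⟨m' + (Finsupp.single c 1 + n c), ?_, ?_⟩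
    · rw [Par.pT_add, map_mul, h1, Par.pT_add m', Par.pT_single, pow_one, map_add, map_one, Sg,
        aeval_X]
      ring
    · rw [Par.pE_add, map_mul, Par.pE_add m', Par.pE_single, pow_one]
      exact dvd_mul_sub h2 (hn c)

lemma key (a : P.Ix) (K : ℕ) (n : P.Ix → Mon P.Ix)
    (hn : ∀ i, PowerSeries.X ^ K ∣ act P.r (1 - PowerSeries.X ^ a.1) (1 - PowerSeries.X ^ i.1) -
      P.pE (Finsupp.single i 1 + n i)) (f : P.Gam → P.k)
    (hf : ∀ x y : P.Gam, P.S.Eqv K x.1 y.1 → f x = f y) (γ : Mon P.Ix) :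
    P.co (P.Dl a f) γ =
      pair (P.co f) ((1 + X a) * Sg n (monomial γ 1) - monomial γ 1) := by
  have h1 : P.lam (P.Dl a f) =
      P.lam f ∘ₗ (LinearMap.mulLeft P.k (1 + X a) ∘ₗ (Sg n).toLinearMap) - P.lam f := by
    refine Par.pT_ext fun m => ?_
    obtain ⟨m', h1, h2⟩ := Sg_pT a K n hn m
    rw [Par.lam_pT, Par.Dl_apply, LinearMap.sub_apply, Par.lam_pT, LinearMap.comp_apply,
      LinearMap.comp_apply, AlgHom.toLinearMap_apply, h1, LinearMap.mulLeft_apply,
      ← pow_one (1 + X a), ← Par.pT_single, ← Par.pT_add, Par.lam_pT]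
    congr 1
    refine hf _ _ (Par.eqv_iff.2 ?_)
    rw [Subgroup.coe_mul, mul_val, Par.e_val, Par.gE_val, Par.gE_val, Par.pE_add, Par.pE_single,
      pow_one, ← mul_sub]
    exact h2.mul_left _
  rw [Par.co_apply, h1, Par.pair_co, map_sub]
  rfl

lemma ineq {a c : P.Ix} (h : ¬ (P.Act a ∧ ¬ P.Act c)) :
    P.w c + P.w a + 1 ≤ ((c.1 + P.q * a.1 : ℕ) : ℤ) + P.β := by
  have hq : (2 : ℤ) ≤ P.q := by exact_mod_cast P.two_le_q
  push_cast
  by_cases ha : P.Act a <;> by_cases hc : P.Act c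
  · have h1 : (c.1 : ℤ) < P.M := by exact_mod_cast hc
    rw [Par.w_act ha, Par.w_act hc, Par.β]; nlinarith
  · exact absurd ⟨ha, hc⟩ h
  · have h1 : (c.1 : ℤ) < P.M := by exact_mod_cast hc
    have h2 : (P.M : ℤ) < a.1 := by exact_mod_cast Par.M_lt ha
    rw [Par.w_let ha, Par.w_act hc]; nlinarith
  · have h2 : (P.M : ℤ) < a.1 := by exact_mod_cast Par.M_lt ha
    rw [Par.w_let ha, Par.w_let hc, Par.β]; nlinarith

lemma ineq2 (a c : P.Ix) : P.w a + 1 ≤ ((c.1 + P.q * a.1 : ℕ) : ℤ) + P.β := by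
  have hq : (2 : ℤ) ≤ P.q := by exact_mod_cast P.two_le_q
  have hc : (1 : ℤ) ≤ c.1 := by exact_mod_cast P.hN.trans c.2.1
  have hb := P.β_pos
  push_cast
  by_cases ha : P.Act a
  · rw [Par.w_act ha]; linarith
  · rw [Par.w_let ha]; nlinarith [Int.natCast_nonneg a.1]

lemma ineq3 (a c : P.Ix) : P.w2 c + (P.w2 a + 1) ≤ P.q * ((c.1 + P.q * a.1 : ℕ) : ℤ) := by
  have hq : (2 : ℤ) ≤ P.q := by exact_mod_cast P.two_le_q
  have ha : (1 : ℤ) ≤ a.1 := by exact_mod_cast P.hN.trans a.2.1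
  simp only [Par.w2]; push_cast
  nlinarith [mul_pos (show (0 : ℤ) < P.q * a.1 by positivity) (show (0 : ℤ) < P.q - 1 by omega)]

lemma pair_X (f : Mon P.Ix → P.k) (a : P.Ix) (γ : Mon P.Ix) :
    f (γ + Finsupp.single a 1) = pair f (monomial γ 1 * X a) := by
  rw [← monomial_add_one, pair_monomial, one_mul]

end Coord2

open Coord2 in
theorem coord2_holds (P : Par) (h : P.Exp) : P.Coord2 := by
  refine ⟨fun f s hf hs a γ hγ => ?_, fun f s hf hs a γ hγ => ?_⟩
  · obtain ⟨K, hf⟩ := hf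
    choose n k1 k2 k3 k4 using fun i => step h a i K
    let θ : Derivation P.k (MvPolynomial P.Ix P.k) (MvPolynomial P.Ix P.k) :=
      if P.Act a then th P.kap (P.sh a) else 0
    have hθ : ∀ c, θ (X c) = if P.Act a ∧ ¬ P.Act c then -((c.1 : P.k) • X (P.sh a c)) else 0 := by
      intro c
      by_cases ha : P.Act a
      · by_cases hc : P.Act c
        · simp [θ, ha, hc, th_X, Par.kap_act hc]
        · simp [θ, ha, hc, th_X, Par.kap_let hc]
      · simp [θ, ha]
    have hX1 : P.X1 a (P.co f) γ = pair (P.co f) (monomial γ 1 * X a + θ (monomial γ 1)) := by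
      rw [Par.X1, LinearMap.add_apply, Pi.add_apply, del_apply, pair_X (P.co f), map_add]
      congr 1
      by_cases ha : P.Act a
      · simp only [θ, if_pos ha]; rfl
      · simp [θ, ha]
    have hp := prod1 (Pge P.k P.w) P.w (Pge_anti _) (fun _ _ _ _ => Pge_mul) (one_mem_Pge _)
      (X_mem_Pge _) (Sg n) θ (P.w a) (Par.w_pos a) (fun c => ?_) (fun c => ?_) γ
    · rw [key a K n k1 f hf γ, hX1, ← sub_eq_zero, ← map_sub]
      refine pair_Pge hs ?_
      set m : MvPolynomial P.Ix P.k := monomial γ 1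
      have e : (1 + X a) * Sg n m - m - (m * X a + θ m) =
          (Sg n m - m - θ m) + X a * (Sg n m - m - θ m) + X a * θ m := by ring
      have := Par.w_pos a
      rw [e]
      exact add_mem (add_mem (Pge_anti _ (by omega) hp.2)
        (Pge_anti _ (by omega) (Pge_mul (X_mem_Pge _ a) hp.2)))
        (Pge_anti _ (by omega) (Pge_mul (X_mem_Pge _ a) hp.1))
    · rw [hθ]
      split_ifs with hc
      · rw [← Par.w_sh hc.1 hc.2]
        exact neg_mem (Submodule.smul_mem _ _ (X_mem_Pge _ _))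
      · exact zero_mem _
    · have h2 := ineq2 a c
      have h3 : X c * (P.pT (n c) - 1) ∈ Pge P.k P.w (P.w c + P.w a + 1) :=
        Pge_anti _ (by omega) (Pge_mul (X_mem_Pge _ c) (k2 c))
      rw [Sg_X, hθ, add_sub_right_comm]
      refine add_mem ?_ h3
      split_ifs with hc
      · rw [sub_neg_eq_add]
        refine Pge_anti _ (le_of_eq ?_) (k4 c _ (Par.sh_val a hc.2))
        rw [Par.w_act hc.1, Par.w_let hc.2]; push_cast; ring
      · rw [sub_zero]
        exact Pge_anti _ (ineq hc) (k2 c)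
  · obtain ⟨K, hf⟩ := hf
    choose n k1 k2 k3 k4 using fun i => step h a i K
    have hp := prod0 (Pge P.k P.w2) P.w2 (Pge_anti _) (fun _ _ _ _ => Pge_mul) (one_mem_Pge _)
      (X_mem_Pge _) (Sg n) (P.w2 a + 1) (by have := Par.w2_pos a; omega) (fun c => ?_) γ
    · rw [key a K n k1 f hf γ, pair_X (P.co f) a γ, ← sub_eq_zero, ← map_sub]
      refine pair_Pge hs ?_
      set m : MvPolynomial P.Ix P.k := monomial γ 1
      have e : (1 + X a) * Sg n m - m - m * X a = (Sg n m - m) + X a * (Sg n m - m) := by ring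
      have := Par.w2_pos a
      rw [e]
      exact add_mem (Pge_anti _ (by omega) hp)
        (Pge_anti _ (by omega) (Pge_mul (X_mem_Pge _ a) hp))
    · have h2 := ineq3 a c
      have h3 := Par.w2_pos c
      rw [Sg_X]
      exact add_mem (Pge_anti _ h2 (k3 c))
        (Pge_anti _ (by omega) (Pge_mul (X_mem_Pge _ c) (k3 c)))

end CdI
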