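import Pool.Agent.P.MP_013f39_al.Inf.Api

/-! The complex with coefficients in the module. -/

namespace CdI

open Cd3 MvPolynomial

namespace Cpx

variable {P : Par} {L : ℕ} {act : P.Gam → Module.End P.k (Mon P.Kv → P.k)}

lemma admF_sub {f g : Mon P.Kv → P.k} (hf : P.AdmF L f) (hg : P.AdmF L g) : P.AdmF L (f - g) :=
  fun μ h => by
    by_cases h1 : f μ = 0
    · exact hg μ (by intro h2; simp [h1, h2] at h)
    · exact hf μ h1

lemma fl (h : P.Mod L act) (μ : Mon P.Kv) : ∃ K, ∀ f, P.AdmF L f → ∀ x y : P.Gam,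
    P.S.Eqv K x.1 y.1 → act x f μ = act y f μ := by
  obtain ⟨K, hK⟩ := h.m3 μ
  refine ⟨K, fun f hf x y hxy => ?_⟩
  have h1 : P.S.D K (y * x⁻¹ : P.Gam).1 := NG.eqv_iff_L.1 hxy
  have := hK _ h1 _ (h.m1 x f hf)
  rw [← h.m2 _ _ _ hf, inv_mul_cancel_right] at this
  exact this.symm

lemma dl_act (h : P.Mod L act) {f : Mon P.Kv → P.k} (hf : P.AdmF L f) (a : P.Ix) (μ : Mon P.Kv) :
    P.Dl a (fun x => act x f μ) = fun x => act x (act (P.e a) f - f) μ := by
  ext x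
  rw [Par.Dl_apply, h.m2 _ _ _ hf, map_sub, Pi.sub_apply]

lemma fil (h : P.Mod L act) (ω : P.Ix → ℤ) (Ω : P.Kv → ℤ)
    (hs : ∀ f (s : ℤ), P.AdmF L f → (∀ μ, f μ ≠ 0 → Finsupp.weight Ω μ ≤ s) →
      ∀ a μ, s < Finsupp.weight Ω μ + ω a → act (P.e a) f μ = f μ) (μ : Mon P.Kv)
    {f : Mon P.Kv → P.k} {s : ℤ} (hf : P.AdmF L f) (h1 : ∀ ν, f ν ≠ 0 → Finsupp.weight Ω ν ≤ s) :
    P.Fil ω (s - Finsupp.weight Ω μ) fun x => act x f μ := by
  intro l
  induction l using List.reverseRecOn generalizing f s with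
  | nil =>
    intro hl
    rw [Par.word_nil, h.one f hf]
    by_contra h0
    have := h1 μ h0
    simp at hl; omega
  | append_singleton l a ih =>
    intro hl
    rw [Par.word_append, Par.word_cons, Par.word_nil, dl_act h hf]
    refine ih (s := s - ω a) (admF_sub (h.m1 _ _ hf) hf) (fun ν h0 => ?_) (by simp at hl ⊢; omega)
    by_contra h2
    exact h0 (sub_eq_zero.2 (hs f s hf h1 a ν (by omega)))

lemma step1 (h : P.Mod L act) (f : Mon P.Kv → P.k) (s : ℤ) (hf : P.AdmF L f)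
    (h1 : ∀ μ, f μ ≠ 0 → Finsupp.weight P.W μ ≤ s) (a : P.Ix) (μ : Mon P.Kv)
    (h2 : s < Finsupp.weight P.W μ + P.w a) : act (P.e a) f μ = f μ := by
  rw [← sub_eq_zero, h.m4 f s hf h1 a μ h2.le]
  refine Par.X2_dep a f μ fun ν hν => ?_
  by_contra h0
  have := h1 ν h0
  omega

variable {j B : ℕ} {a : ℤ} {Φ : P.C2}

lemma adm (hΦ : Φ ∈ P.CL j a B L) (J : Finset P.Ix) : P.AdmF L (Φ J) :=
  fun μ h => (hΦ J μ h).2.2.2.2

lemma b1 (hΦ : Φ ∈ P.CL j a B L) (J : Finset P.Ix) (μ : Mon P.Kv) (h : Φ J μ ≠ 0) :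
    Finsupp.weight P.W μ ≤ a - wI P.w J := by
  have := (hΦ J μ h).2.1
  unfold Par.U1 at this; omega

lemma filV1 (h : P.Mod L act) (hΦ : Φ ∈ P.CL j a B L) (μ : Mon P.Kv) :
    P.FilV P.w (a - Finsupp.weight P.W μ) fun x J => act x (Φ J) μ := fun J =>
  (fil h P.w P.W (step1 h) μ (adm hΦ J) (b1 hΦ J)).mono (by omega)

lemma filV2 (h : P.Mod L act) (hΦ : Φ ∈ P.CL j a B L) (μ : Mon P.Kv) :
    P.FilV P.w2 (B - Finsupp.weight P.W2 μ) fun x J => act x (Φ J) μ := fun J =>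
  (fil h P.w2 P.W2 h.m5 μ (s := B - wI P.w2 J) (adm hΦ J) fun ν h0 => by
    have := (hΦ J ν h0).2.2.1
    unfold Par.U2 at this; omega).mono (by omega)

lemma mem_DD (h1 : P.Coord1) (hf : P.FilC) (h : P.Mod L act) (hΦ : Φ ∈ P.CL j a B L)
    (μ : Mon P.Kv) : (fun x J => act x (Φ J) μ) ∈ P.DD j := by
  obtain ⟨K, hK⟩ := fl h μ
  have hF : P.FL fun x J => act x (Φ J) μ :=
    ⟨K, fun x y hxy => _root_.funext fun J => hK _ (adm hΦ J) x y hxy⟩
  refine ⟨hF, fun x => ⟨(P.finite_wI (a - Finsupp.weight P.W μ)).subset fun J h0 => ?_,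
    fun J h0 => ?_⟩⟩
  · by_contra h2
    have h3 := hF.comp (· J)
    have h4 := (hf _ h3 _).1.1 (filV1 h hΦ μ J)
    refine h0 (congrFun (h1.inj _ h3 (_root_.funext fun α => ?_)) x)
    by_contra h5
    have := h4 α h5
    have := Par.weight_nonneg (fun a => (Par.w_pos (P := P) a).le) α
    simp only [Set.mem_ofPred_eq] at h2
    omega
  · by_contra h2
    have : Φ J = 0 := _root_.funext fun ν => by
      by_contra h3; exact h2 (hΦ J ν h3).1
    simp [this] at h0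

lemma psi0_eq (h : P.Mod L act) (hΦ : Φ ∈ P.CL j a B L) (I : Finset P.Ix) (μ : Mon P.Kv)
    (hI : a ≤ P.U1 I μ) : P.psi0 (fun x J => act x (Φ J) μ) I = P.d0 Φ I μ := by
  change P.ce P.Dl (fun J x => act x (Φ J) μ) I 1 = P.ce P.X2 Φ I μ
  simp only [Par.ce_apply, Pi.sub_apply, kz_apply, ct_apply, Finset.sum_apply, Pi.smul_apply]
  congr 1
  · refine Finset.sum_congr rfl fun b hb => ?_
    rw [Par.Dl_apply, one_mul, h.one _ (adm hΦ _), h.m4 _ _ (adm hΦ _) (b1 hΦ _) b μ]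
    have := wI_erase P.w hb
    unfold Par.U1 at hI; omega
  · refine Finset.sum_congr rfl fun b _ => Finset.sum_congr rfl fun c _ => ?_
    simp only [ex_apply, io_apply]
    split_ifs <;> simp [h.one _ (adm hΦ _)]

lemma d0_zero (hΦ : Φ ∈ P.CL j a B L) (I : Finset P.Ix) (μ : Mon P.Kv) (hI : a < P.U1 I μ) :
    P.d0 Φ I μ = 0 := by
  change P.ce P.X2 Φ I μ = 0
  unfold Par.U1 at hI
  rw [Par.ce_apply, Pi.sub_apply]
  have e1 : kz P.X2 Φ I μ = 0 := by
    rw [kz_apply, Finset.sum_apply]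
    refine Finset.sum_eq_zero fun b hb => ?_
    rw [Pi.smul_apply, Par.X2_dep b _ μ fun ν hν => ?_, smul_zero]
    by_contra h0
    have := b1 hΦ _ ν h0
    have := wI_erase P.w hb
    omega
  have e2 : ct P.Act P.kap P.sh Φ I μ = ct P.Act P.kap P.sh (fun J => Φ J μ) I := by
    simp only [ct_apply, Finset.sum_apply, Pi.smul_apply]
    refine Finset.sum_congr rfl fun b _ => Finset.sum_congr rfl fun c _ => ?_
    simp only [ex_apply, io_apply]
    split_ifs <;> simp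
  rw [e1, e2, ct_eq_zero, sub_zero]
  intro b hb c hc hA hk hn
  by_contra h0
  have := b1 hΦ _ μ h0
  have := wI_erase P.w hb
  have := wI_erase P.w hc
  have := wI_insert P.w hn
  have := Par.w_sh hA (Par.kap_ne_zero.1 hk)
  omega

lemma dL_apply (ψ) (Φ : P.C2) (I : Finset P.Ix) (μ : Mon P.Kv) :
    P.dL ψ act Φ I μ = ψ (fun x J => act x (Φ J) μ) I := rfl

lemma act_dL (h : P.Mod L act) (ψ) (hΦ : Φ ∈ P.CL j a B L) (μ : Mon P.Kv) :
    (fun x I => act x (P.dL ψ act Φ I) μ) = P.dl ψ fun x J => act x (Φ J) μ := by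
  ext x I
  obtain ⟨r, hr⟩ := h.m0 x μ
  have : (fun y J => act (x * y) (Φ J) μ) =
      ∑ ν ∈ r.support, coeff ν r • fun y J => act y (Φ J) ν := by
    ext y J
    rw [h.m2 _ _ _ (adm hΦ J), hr, pair_eq_sum]
    simp
  rw [Par.dl_apply, this, map_sum, hr, pair_eq_sum, Finset.sum_apply]
  refine Finset.sum_congr rfl fun ν _ => ?_
  rw [map_smul, dL_apply]; rfl

end Cpx

open Cpx

theorem cpx_holds (P : Par) (h1 : P.Coord1) (hf : P.FilC) : P.Cpx := by
  intro n ψ L act hψ h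
  refine ⟨fun j hj a B Φ hΦ => ?_, fun v => ?_⟩
  · have hD := mem_DD h1 hf h hΦ
    have hR := hψ.ra j hj
    have lead : ∀ I μ, a ≤ P.U1 I μ → P.dL ψ act Φ I μ = P.d0 Φ I μ := fun I μ hI => by
      rw [dL_apply, hR.lead _ (hD μ) I ((filV1 h hΦ μ).mono (by unfold Par.U1 at hI; omega)),
        psi0_eq h hΦ I μ hI]
    have zero : ∀ I μ, (∀ x J, act x (Φ J) μ = 0) → P.dL ψ act Φ I μ = 0 := fun I μ h0 => by
      have : (fun x J => act x (Φ J) μ) = 0 := by ext x J; exact h0 x J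
      rw [dL_apply, this, map_zero]; rfl
    refine ⟨fun I μ h0 => ⟨(hR.deg _ (hD μ)).2 I h0, ?_, ?_, ?_, ?_⟩, fun I μ hI => lead I μ hI.ge,
      fun hn => ?_⟩
    · by_contra h2
      exact h0 ((lead I μ (by omega)).trans (d0_zero hΦ I μ (by omega)))
    · by_contra h2
      exact h0 (hR.two _ (hD μ) I ((filV2 h hΦ μ).mono (by unfold Par.U2 at h2; omega)))
    · by_contra h2
      refine h0 (zero I μ fun x J => ?_)
      by_contra h3
      exact h2 (h.m6 x _ B (adm hΦ J) (fun ν h4 => (hΦ J ν h4).2.2.2.1) μ h3)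
    · by_contra h2
      refine h0 (zero I μ fun x J => ?_)
      by_contra h3
      exact h2 (h.m1 x _ (adm hΦ J) μ h3)
    · ext I μ
      rw [dL_apply, act_dL h ψ hΦ, ← Par.dl_one ψ, hψ.sq j hn _ (hD μ)]; rfl
  · ext I μ
    have e : ∀ x J, act x (P.cst v J) μ = P.cst v J μ := fun x J => by
      have : P.cst v J = v J • Pi.single 0 1 := by
        ext ν; by_cases h0 : ν = 0 <;> simp [Par.cst, h0]
      rw [this, map_smul, h.m7]
    rw [dL_apply]
    simp only [e, Par.cst]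
    split_ifs
    · rfl
    · exact congrFun (map_zero ψ) I

end CdI
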