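import Pool.Agent.P.MP_013f39_al.Inf.Api

/-! Infinite cohomological dimension of `H_r`: the leading differential on module cochains. -/

namespace CdI

open Cd3 MvPolynomial

namespace D0

attribute [-instance] Subtype.instDecidableEq

lemma ct_eval {k : Type} [Field k] {ι : Type} [LinearOrder ι] {σ : Type} (A : ι → Prop)
    [DecidablePred A] (κ : ι → k) (s : ι → ι → ι) (z : Finset ι → σ → k) (I : Finset ι) (μ : σ) :
    ct A κ s z I μ = ct A κ s (fun J => z J μ) I := by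
  simp only [ct_apply, Finset.sum_apply, Pi.smul_apply, ex_apply, io_apply]
  refine Finset.sum_congr rfl fun j _ => Finset.sum_congr rfl fun i _ => ?_
  split_ifs <;> simp

lemma fin_mon {σ : Type} {s : Set σ} (hs : s.Finite) (n : ℕ) :
    {μ : Mon σ | μ.degree ≤ n ∧ ∀ c ∈ μ.support, c ∈ s}.Finite := by
  classical
  refine (Set.finite_Iic (Finsupp.indicator hs.toFinset fun _ _ => n)).subset fun μ hμ c => ?_
  by_cases h : c ∈ μ.support
  · rw [Finsupp.indicator_of_mem (hs.mem_toFinset.2 (hμ.2 c h))]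
    exact (Finsupp.le_degree c μ).trans hμ.1
  · rw [Finsupp.notMem_support_iff.1 h]
    exact Nat.zero_le _

lemma weight_le {σ : Type} (ω : σ → ℤ) (μ : Mon σ) (D : ℤ) (h : ∀ c ∈ μ.support, ω c ≤ D) :
    Finsupp.weight ω μ ≤ μ.degree * D := by
  rw [Finsupp.weight_apply, Finsupp.degree_apply, Finsupp.sum, Nat.cast_sum, Finset.sum_mul]
  refine Finset.sum_le_sum fun c hc => ?_
  rw [nsmul_eq_mul]
  exact mul_le_mul_of_nonneg_left (h c hc) (Int.natCast_nonneg _)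

lemma weight_sub {σ : Type} (ω ω' : σ → ℤ) (μ : Mon σ) :
    Finsupp.weight (fun c => ω c - ω' c) μ = Finsupp.weight ω μ - Finsupp.weight ω' μ := by
  simp only [Finsupp.weight_apply, Finsupp.sum, smul_sub, Finset.sum_sub_distrib]

lemma le_weight {σ : Type} {ω : σ → ℤ} (h : ∀ c, 0 ≤ ω c) {μ : Mon σ} {c : σ}
    (hc : c ∈ μ.support) : ω c ≤ Finsupp.weight ω μ := by
  have := Par.weight_nonneg h (μ - Finsupp.single c 1)
  rw [← Finsupp.weight_sub_single_add (w := ω) (Finsupp.mem_support_iff.1 hc)]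
  omega

variable (P : Par)

lemma fin_Kv (a b : ℤ) : {c : P.Kv | a ≤ c.1 ∧ c.1 ≤ b}.Finite :=
  (Set.finite_Icc a b).preimage Subtype.val_injective.injOn

variable {P}

/-- the entries of `z` that enter an entry of `d0 z` -/
lemma dep3 {z : P.C2} {I : Finset P.Ix} {μ : Mon P.Kv} (h : P.d0 z I μ ≠ 0) :
    (∃ a ∈ I, P.Act a ∧ ∃ c ∈ μ.support,
      z (I.erase a) (μ - Finsupp.single c 1 + Finsupp.single (P.shK a c) 1) ≠ 0) ∨
    (∃ a ∈ I, ¬ P.Act a ∧ z (I.erase a) (μ + Finsupp.single (P.vK a) 1) ≠ 0) ∨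
    ∃ j ∈ I, ∃ i ∈ I.erase j, P.Act j ∧ ¬ P.Act i ∧ P.sh j i ∉ (I.erase j).erase i ∧
      z (insert (P.sh j i) ((I.erase j).erase i)) μ ≠ 0 := by
  by_contra hn
  push Not at hn
  obtain ⟨h1, h2, h3⟩ := hn
  refine h ?_
  rw [Par.d0, Par.ce_apply, Pi.sub_apply, ct_eval,
    ct_eq_zero _ _ _ _ _ fun j hj i hi a1 a2 a3 => h3 j hj i hi a1 (Par.kap_ne_zero.1 a2) a3,
    sub_zero, kz_apply, Finset.sum_apply]
  refine Finset.sum_eq_zero fun a ha => ?_
  rw [Pi.smul_apply, Par.X2_apply]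
  split_ifs with h4
  · rw [Finset.sum_eq_zero fun c hc => by rw [h1 a ha h4 c hc, mul_zero], neg_zero, smul_zero]
  · rw [h2 a ha h4, mul_zero, smul_zero]

lemma dep (z : P.C2) (I : Finset P.Ix) (μ : Mon P.Kv)
    (h : ∀ I' μ', I'.card + 1 = I.card → P.U1 I' μ' = P.U1 I μ → z I' μ' = 0) :
    P.d0 z I μ = 0 := by
  by_contra h0
  rcases dep3 h0 with ⟨a, ha, h1, c, hc, h2⟩ | ⟨a, ha, h1, h2⟩ | ⟨j, hj, i, hi, h1, h2, h3, h4⟩
  · refine h2 (h _ _ (Finset.card_erase_add_one ha) ?_)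
    rw [Par.U1, Par.U1, Par.weight_move _ hc, Par.W_shK h1, ← wI_erase P.w ha]
    ring
  · refine h2 (h _ _ (Finset.card_erase_add_one ha) ?_)
    rw [Par.U1, Par.U1, Par.weight_add_one, Par.W_vK h1, ← wI_erase P.w ha]
    ring
  · refine h4 (h _ _ ?_ ?_)
    · rw [Finset.card_insert_of_notMem h3, Finset.card_erase_add_one hi,
        Finset.card_erase_add_one hj]
    · rw [Par.U1, Par.U1, wI_insert P.w h3, Par.w_sh h1 h2, ← wI_erase P.w hj, ← wI_erase P.w hi]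
      ring

lemma act (z : P.C2) (J : Finset P.Ix) (h : ∀ a ∈ J, P.Act a) : P.d0 z J 0 = 0 := by
  by_contra h0
  rcases dep3 h0 with ⟨a, -, -, c, hc, -⟩ | ⟨a, ha, h1, -⟩ | ⟨j, -, i, hi, -, h2, -⟩
  · simp at hc
  · exact h1 (h a ha)
  · exact h2 (h i (Finset.mem_of_mem_erase hi))

/-- uniform bounds on a finite support -/
lemma bound {z : P.C2} (hz : z ∈ FinM P.k P.Kv P.Ix) : ∃ n : ℕ, P.M ≤ n ∧ ∀ I μ, z I μ ≠ 0 →
    (∀ a ∈ I, a.1 ≤ n) ∧ μ.degree ≤ n ∧ ∀ c ∈ μ.support, c.1.natAbs ≤ n := by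
  obtain ⟨n, hn⟩ := (Set.Finite.image (fun x : Finset P.Ix × Mon P.Kv =>
    ∑ a ∈ x.1, a.1 + x.2.degree + ∑ c ∈ x.2.support, c.1.natAbs) (mem_FinM.1 hz)).bddAbove
  refine ⟨n + P.M, by omega, fun I μ h => ?_⟩
  have h1 : ∑ a ∈ I, a.1 + μ.degree + ∑ c ∈ μ.support, c.1.natAbs ≤ n := hn ⟨(I, μ), h, rfl⟩
  refine ⟨fun a ha => ?_, by omega, fun c hc => ?_⟩
  · have := Finset.single_le_sum (f := fun a : P.Ix => a.1) (fun _ _ => Nat.zero_le _) ha
    omega
  · have := Finset.single_le_sum (f := fun c : P.Kv => c.1.natAbs) (fun _ _ => Nat.zero_le _) hc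
    omega

lemma fin (z : P.C2) (hz : z ∈ FinM P.k P.Kv P.Ix) : P.d0 z ∈ FinM P.k P.Kv P.Ix := by
  obtain ⟨n, hM, hn⟩ := bound hz
  refine ((P.finite_sets n).prod (fin_mon (fin_Kv P (-n - P.q * P.M) n) n)).subset ?_
  rintro ⟨I, μ⟩ (h0 : P.d0 z I μ ≠ 0)
  have hq : (0 : ℤ) ≤ P.q * P.M := by positivity
  change (∀ a ∈ I, a.1 ≤ n) ∧ μ.degree ≤ n ∧
    ∀ c ∈ μ.support, -(n : ℤ) - P.q * P.M ≤ c.1 ∧ c.1 ≤ n
  rcases dep3 h0 with ⟨a, ha, h1, c, hc, h2⟩ | ⟨a, ha, h1, h2⟩ | ⟨j, hj, i, hi, h1, h2, h3, h4⟩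
  · obtain ⟨b1, b2, b3⟩ := hn _ _ h2
    have h1' : a.1 < P.M := h1
    refine ⟨fun a' ha' => ?_, ?_, fun c' hc' => ?_⟩
    · by_cases e : a' = a
      · rw [e]; omega
      · exact b1 a' (Finset.mem_erase.2 ⟨e, ha'⟩)
    · have e := Par.weight_move (fun _ => 1) hc (P.shK a c)
      have e1 : ∀ ν : Mon P.Kv, Finsupp.weight (fun _ => (1 : ℤ)) ν = ν.degree := fun ν => by
        simp [Finsupp.weight_apply, Finsupp.degree_apply, Finsupp.sum]
      rw [e1, e1] at e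
      omega
    · by_cases e : c' = c
      · have b4 := b3 (P.shK a c) (by simp)
        have b5 : (0 : ℤ) ≤ P.q * (a.1 : ℤ) := by positivity
        have b6 : (P.q : ℤ) * (a.1 : ℤ) ≤ P.q * P.M := by gcongr
        rw [Par.shK_val] at b4
        rw [e]
        omega
      · have b4 := b3 c' (by
          have := Finsupp.mem_support_iff.1 hc'
          rw [Finsupp.mem_support_iff, Finsupp.add_apply, Finsupp.tsub_apply,
            Finsupp.single_eq_of_ne e]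
          omega)
        omega
  · obtain ⟨b1, b2, b3⟩ := hn _ _ h2
    refine ⟨fun a' ha' => ?_, ?_, fun c' hc' => ?_⟩
    · by_cases e : a' = a
      · have b4 := b3 (P.vK a) (by simp)
        rw [Par.vK_val h1] at b4
        rw [e]; omega
      · exact b1 a' (Finset.mem_erase.2 ⟨e, ha'⟩)
    · rw [map_add] at b2
      omega
    · have b4 := b3 c' (by
        have := Finsupp.mem_support_iff.1 hc'
        rw [Finsupp.mem_support_iff, Finsupp.add_apply]
        omega)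
      omega
  · obtain ⟨b1, b2, b3⟩ := hn _ _ h4
    have h1' : j.1 < P.M := h1
    refine ⟨fun a' ha' => ?_, b2, fun c' hc' => ?_⟩
    · by_cases e : a' = j
      · rw [e]; omega
      by_cases e' : a' = i
      · have b4 := b1 (P.sh j i) (Finset.mem_insert_self _ _)
        rw [Par.sh_val j h2] at b4
        rw [e']; omega
      · exact b1 a' (Finset.mem_insert_of_mem
          (Finset.mem_erase.2 ⟨e', Finset.mem_erase.2 ⟨e, ha'⟩⟩))
    · have b4 := b3 c' hc'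
      omega

lemma box (j : ℕ) (a : ℤ) (B : ℕ) : {x : Finset P.Ix × Mon P.Kv |
    x.1.card = j ∧ P.U1 x.1 x.2 = a ∧ P.U2 x.1 x.2 ≤ B ∧ x.2.degree ≤ B}.Finite := by
  obtain ⟨n, hn⟩ : ∃ n : ℕ, n = P.M + (B - a).toNat := ⟨_, rfl⟩
  refine ((P.finite_sets n).biUnion (t := fun I => (fun μ => (I, μ)) '' _) fun I _ =>
    (fin_mon (fin_Kv P (a - wI P.w I - P.β - B * (n + P.β)) n) B).image _).subset ?_
  rintro ⟨I, μ⟩ ⟨-, h1, h2, h3⟩
  have hq : (2 : ℤ) ≤ P.q := by exact_mod_cast P.two_le_q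
  have hβ := P.β_pos
  have e1 : wI P.w2 I - wI P.w I = ∑ i ∈ I, (P.w2 i - P.w i) := by
    rw [wI, wI, Finset.sum_sub_distrib]
  have e2 := weight_sub P.W2 P.W μ
  have n1 : ∀ i : P.Ix, 0 ≤ P.w2 i - P.w i := fun i => sub_nonneg.2 (Par.w_le_w2 i)
  have n2 : ∀ c : P.Kv, 0 ≤ P.W2 c - P.W c := fun c => sub_nonneg.2 (Par.W_le_W2 c)
  have n3 : 0 ≤ ∑ i ∈ I, (P.w2 i - P.w i) := Finset.sum_nonneg fun i _ => n1 i
  have n4 := Par.weight_nonneg n2 μ
  simp only [Par.U1, Par.U2] at h1 h2 h3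
  have up : ∀ c ∈ μ.support, c.1 ≤ n := fun c hc => by
    have b1 := le_weight n2 hc
    have b2 : P.q * c.1 ≤ P.W2 c := le_max_left _ _
    by_contra b3
    have b4 : (P.M : ℤ) ≤ c.1 := by omega
    have b5 : c.1 - P.M ≤ P.W2 c - P.W c := by
      rw [Par.W, Par.β]
      nlinarith
    omega
  refine Set.mem_biUnion (x := I) (fun i hi => ?_) ⟨μ, ⟨h3, fun c hc => ⟨?_, up c hc⟩⟩, rfl⟩
  · have b1 := Finset.single_le_sum (f := fun i => P.w2 i - P.w i) (fun i _ => n1 i) hi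
    by_cases b2 : P.Act i
    · have : i.1 < P.M := b2
      omega
    · have b4 : (P.M : ℤ) < i.1 := by exact_mod_cast Par.M_lt b2
      have b5 : (i.1 : ℤ) - P.M ≤ P.w2 i - P.w i := by
        rw [Par.w_let b2, Par.w2, Par.β]
        nlinarith
      omega
  · have b1 := weight_le P.W (μ - Finsupp.single c 1) (n + P.β) fun c' hc' => by
      have := up c' (Finsupp.support_tsub hc')
      rw [Par.W]
      omega
    have b2 := Finsupp.weight_sub_single_add (w := P.W) (Finsupp.mem_support_iff.1 hc)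
    have b3 : ((μ - Finsupp.single c 1).degree : ℤ) ≤ B := by
      exact_mod_cast (Finsupp.degree_mono tsub_le_self).trans h3
    have b4 : ((μ - Finsupp.single c 1).degree : ℤ) * (n + P.β) ≤ B * (n + P.β) :=
      mul_le_mul_of_nonneg_right b3 (by positivity)
    rw [Par.W] at b2
    omega

end D0

theorem d0_holds (P : Par) : P.D0 := ⟨D0.dep, D0.fin, D0.act, D0.box⟩

end CdI
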