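import Pool.Agent.P.MP_013f39_al.Inf.Api

/-! Infinite cohomological dimension of `H_r`: descent over the weight. -/

namespace CdI

open Cd3 MvPolynomial Filter

namespace Desc

section sm

variable {k V : Type} [Field k] [AddCommGroup V] [Module k V]

lemma sm_fin {U U' : Submodule k V} [FiniteDimensional k U] (h : U' ≤ U) :
    ∃ c, c + Module.finrank k U' = Module.finrank k U ∧ Sm U U' c := by
  obtain ⟨S, h1, h2⟩ := IsModularLattice.exists_disjoint_and_sup_eq h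
  have : FiniteDimensional k U' := Submodule.finiteDimensional_of_le h
  have : FiniteDimensional k S := Submodule.finiteDimensional_of_le (h2 ▸ le_sup_right : S ≤ U)
  have h3 := Submodule.finrank_sup_add_finrank_inf_eq U' S
  rw [h1.eq_bot, finrank_bot, h2] at h3
  exact ⟨Module.finrank k S, by omega, S, inferInstance, le_rfl, by rw [sup_comm, h2]⟩

lemma sm_split {U U' B : Submodule k V} {c : ℕ} (h : Sm U B c) (hU : U' ≤ U) :
    ∃ c1 c2, c2 + c1 ≤ c ∧ Sm U' B c1 ∧ Sm U (U' ⊔ B) c2 := by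
  have h0 : Sm (U.map B.mkQ) ⊥ c := (h.map B.mkQ).mono le_rfl (by simp) le_rfl
  have h1 := h0.finrank_le
  obtain ⟨S, h2, -, h3⟩ := h0
  rw [sup_bot_eq] at h3
  have : FiniteDimensional k (U.map B.mkQ) := Submodule.finiteDimensional_of_le h3
  have hle : U'.map B.mkQ ≤ U.map B.mkQ := Submodule.map_mono hU
  have : FiniteDimensional k (U'.map B.mkQ) := Submodule.finiteDimensional_of_le hle
  obtain ⟨c2, h4, h5⟩ := sm_fin hle
  have h6 : Sm (U'.map B.mkQ) ⊥ (Module.finrank k (U'.map B.mkQ)) :=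
    ⟨_, inferInstance, le_rfl, le_sup_left⟩
  refine ⟨_, c2, h4.le.trans h1, (h6.comap B.mkQ).mono (Submodule.le_comap_map _ _) ?_ le_rfl,
    (h5.comap B.mkQ).mono (Submodule.le_comap_map _ _) ?_ le_rfl⟩
  · rw [Submodule.comap_bot, Submodule.ker_mkQ]
  · rw [Submodule.comap_map_eq, Submodule.ker_mkQ]

end sm

variable {P : Par}

/-- the part of weight `a` -/
noncomputable def pr (a : ℤ) : Module.End P.k P.C2 where
  toFun z I μ := if P.U1 I μ = a then z I μ else 0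
  map_add' _ _ := by ext I μ; by_cases h : P.U1 I μ = a <;> simp [h]
  map_smul' _ _ := by ext I μ; by_cases h : P.U1 I μ = a <;> simp [h]

lemma pr_apply (a : ℤ) (z : P.C2) (I : Finset P.Ix) (μ : Mon P.Kv) :
    pr a z I μ = if P.U1 I μ = a then z I μ else 0 := rfl

lemma pr_ne {a : ℤ} {z : P.C2} {I : Finset P.Ix} {μ : Mon P.Kv} (h : pr a z I μ ≠ 0) :
    P.U1 I μ = a ∧ z I μ ≠ 0 := by
  rw [pr_apply] at h
  split_ifs at h with h1
  · exact ⟨h1, h⟩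
  · exact absurd rfl h

lemma d0_pr (h : P.D0) (a : ℤ) (z : P.C2) (I : Finset P.Ix) (μ : Mon P.Kv) :
    P.d0 (pr a z) I μ = if P.U1 I μ = a then P.d0 z I μ else 0 := by
  split_ifs with h1
  · have := h.dep (pr a z - z) I μ fun I' μ' _ h2 => by
      rw [Pi.sub_apply, Pi.sub_apply, pr_apply, if_pos (h2.trans h1), sub_self]
    rwa [map_sub, Pi.sub_apply, Pi.sub_apply, sub_eq_zero] at this
  · exact h.dep _ I μ fun I' μ' _ h2 => by rw [pr_apply, if_neg (h2 ▸ h1)]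

lemma CL_mono (j : ℕ) {a a' : ℤ} {B B' L L' : ℕ} (ha : a ≤ a') (hB : B ≤ B') (hL : L ≤ L') :
    P.CL j a B L ≤ P.CL j a' B' L' :=
  SupM_mono fun _ _ h => ⟨h.1, h.2.1.trans ha, h.2.2.1.trans (by exact_mod_cast hB),
    h.2.2.2.1.trans hB, h.2.2.2.2.1.trans hL,
    fun c hc => (h.2.2.2.2.2 c hc).trans (by exact_mod_cast hL)⟩

lemma ev_int (s : ℤ) : ∀ᶠ n : ℕ in atTop, s ≤ n :=
  (eventually_ge_atTop s.toNat).mono fun n hn => by omega

lemma ev_CL {j : ℕ} {a : ℤ} {z : P.C2} (hz : z ∈ FinM P.k P.Kv P.Ix)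
    (h : ∀ I μ, z I μ ≠ 0 → I.card = j ∧ P.U1 I μ ≤ a) : ∀ᶠ n : ℕ in atTop, z ∈ P.CL j a n n := by
  have h1 : ∀ᶠ n : ℕ in atTop, ∀ x ∈ {x : Finset P.Ix × Mon P.Kv | z x.1 x.2 ≠ 0},
      P.U2 x.1 x.2 ≤ n ∧ x.2.degree ≤ n ∧ ∀ c ∈ x.2.support, c.1 ≤ n :=
    (eventually_all_finite hz).2 fun x _ => (ev_int _).and ((eventually_ge_atTop _).and
      ((eventually_all_finset _).2 fun c _ => ev_int _))
  refine h1.mono fun n hn I μ h0 => ?_
  obtain ⟨h2, h3, h4⟩ := hn (I, μ) h0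
  exact ⟨(h I μ h0).1, (h I μ h0).2, h2, h3, h3, h4⟩

lemma fin_sup {F : Set (Finset P.Ix × Mon P.Kv)} (hF : F.Finite) :
    {z : P.C2 | ∀ I μ, z I μ ≠ 0 → (I, μ) ∈ F}.Finite := by
  have := hF.to_subtype
  have : NeZero P.p := ⟨P.hp.ne_zero⟩
  refine Set.Finite.of_injOn (f := fun z (x : F) => z x.1.1 x.1.2) (Set.mapsTo_univ _ _) ?_
    Set.finite_univ
  intro z hz z' hz' e
  ext I μ
  by_cases h : (I, μ) ∈ F
  · exact congrFun e ⟨_, h⟩
  · rw [of_not_not (mt (hz I μ) h), of_not_not (mt (hz' I μ) h)]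

/-- constant cochains on sets of actors -/
def XX (P : Par) : Submodule P.k P.C2 := SupM P.k fun I μ => (∀ a ∈ I, P.Act a) ∧ μ = 0

/-- the elements of `XX` hit from filtration `a` -/
noncomputable def KK (m : ℕ) (δ : Module.End P.k P.C2) (a : ℤ) (B L : ℕ) : Submodule P.k P.C2 :=
  P.CL m a B L ⊓ (XX P).comap δ

section step

variable (h : P.D0) {m : ℕ} {δ : ℕ → Module.End P.k P.C2} (hδ : ∀ L, P.Cx (m + 1) L (δ L))

include h hδ in
lemma lift_one (a : ℤ) {y : P.C2} (hy : y ∈ P.BS m) : ∀ᶠ n : ℕ in atTop, ∀ L, n ≤ L →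
    ∃ ξ ∈ P.CL m a n L, δ L ξ = 0 ∧ ∀ I μ, P.U1 I μ = a → ξ I μ = y I μ := by
  obtain ⟨χ, ⟨h1, h2⟩, rfl⟩ := hy
  cases m with
  | zero =>
    have : χ = 0 := by
      ext I μ
      by_contra h0
      exact absurd (h2 I μ h0) (by omega)
    refine Eventually.of_forall fun n L _ => ⟨0, zero_mem _, map_zero _, fun I μ _ => ?_⟩
    rw [this, map_zero]
  | succ j =>
    have h3 : pr a χ ∈ FinM P.k P.Kv P.Ix := Set.Finite.subset h1 fun x hx => (pr_ne hx).2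
    refine (ev_CL (j := j) (a := a) h3 fun I μ h0 => ⟨?_, (pr_ne h0).1.le⟩).mono
      fun n hn L hL => ?_
    · have := h2 I μ (pr_ne h0).2
      omega
    obtain ⟨h4, h5, h6⟩ := hδ L j (by omega) a n _ (CL_mono j le_rfl le_rfl hL hn)
    exact ⟨_, h4, h6 (by omega), fun I μ h0 => by rw [h5 I μ h0, d0_pr h, if_pos h0]⟩

include h hδ in
lemma lift_all (a : ℤ) (B : ℕ) : ∃ n, B ≤ n ∧ ∀ L, n ≤ L → ∀ Φ ∈ P.CL m a B L,
    (∃ y ∈ P.BS m, ∀ I μ, P.U1 I μ = a → Φ I μ = y I μ) →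
    ∃ ξ ∈ P.CL m a n L, δ L ξ = 0 ∧ ∀ I μ, P.U1 I μ = a → ξ I μ = Φ I μ := by
  have h1 : ∀ᶠ n : ℕ in atTop, ∀ z ∈ {z : P.C2 | ∀ I μ, z I μ ≠ 0 → (I, μ) ∈
      {x : Finset P.Ix × Mon P.Kv |
        x.1.card = m ∧ P.U1 x.1 x.2 = a ∧ P.U2 x.1 x.2 ≤ B ∧ x.2.degree ≤ B}},
      (∃ y ∈ P.BS m, ∀ I μ, P.U1 I μ = a → z I μ = y I μ) → ∀ L, n ≤ L →
      ∃ ξ ∈ P.CL m a n L, δ L ξ = 0 ∧ ∀ I μ, P.U1 I μ = a → ξ I μ = z I μ := by
    refine (eventually_all_finite (fin_sup (h.box m a B))).2 fun z _ => ?_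
    by_cases h0 : ∃ y ∈ P.BS m, ∀ I μ, P.U1 I μ = a → z I μ = y I μ
    · obtain ⟨y, hy, e⟩ := h0
      refine (lift_one h hδ a hy).mono fun n hn _ L hL => ?_
      obtain ⟨ξ, h2, h3, h4⟩ := hn L hL
      exact ⟨ξ, h2, h3, fun I μ h5 => (h4 I μ h5).trans (e I μ h5).symm⟩
    · exact Eventually.of_forall fun _ h1 => absurd h1 h0
  obtain ⟨n, h2, h3⟩ := ((eventually_ge_atTop B).and h1).exists
  refine ⟨n, h2, fun L hL Φ hΦ ⟨y, hy, e⟩ => ?_⟩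
  obtain ⟨ξ, h4, h5, h6⟩ := h3 (pr a Φ) (fun I μ h0 => by
    obtain ⟨h7, h8⟩ := pr_ne h0
    obtain ⟨h9, -, h10, h11, -⟩ := hΦ I μ h8
    exact ⟨h9, h7, h10, h11⟩) ⟨y, hy, fun I μ h0 => by rw [pr_apply, if_pos h0, e I μ h0]⟩ L hL
  exact ⟨ξ, h4, h5, fun I μ h0 => by rw [h6 I μ h0, pr_apply, if_pos h0]⟩

include h hδ in
lemma pr_mem {a : ℤ} (ha : 0 ≤ a) {B L : ℕ} {Φ : P.C2} (hΦ : Φ ∈ KK m (δ L) a B L) :
    pr a Φ ∈ P.ZS m ⊓ SupM P.k fun I μ => P.U1 I μ ≤ a := by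
  obtain ⟨h1, h2⟩ := hΦ
  refine ⟨⟨⟨(h.box m a B).subset fun x hx => ?_, fun I μ h0 => ?_⟩, ?_⟩,
    fun I μ h0 => (pr_ne h0).1.le⟩
  · obtain ⟨h7, h8⟩ := pr_ne hx
    obtain ⟨h9, -, h10, h11, -⟩ := h1 _ _ h8
    exact ⟨h9, h7, h10, h11⟩
  · obtain ⟨h7, h8⟩ := pr_ne h0
    exact ⟨(h1 _ _ h8).1, h7 ▸ ha⟩
  · change P.d0 (pr a Φ) = 0
    ext I μ
    rw [d0_pr h, Pi.zero_apply, Pi.zero_apply]
    split_ifs with h0
    · by_contra h3
      have h4 := (hδ L m (by omega) a B Φ h1).2.1 I μ h0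
      obtain ⟨h5, rfl⟩ := h2 I μ (h4 ▸ h3)
      exact h3 (h.act Φ I h5)
    · rfl

include h hδ in
lemma ind (n : ℕ) : ∀ c, Sm (P.ZS m ⊓ SupM P.k fun I μ => P.U1 I μ ≤ (n : ℤ) - 1) (P.BS m) c →
    ∀ B, ∀ᶠ L : ℕ in atTop, Sm ((KK m (δ L) ((n : ℤ) - 1) B L).map (δ L)) ⊥ c := by
  induction n with
  | zero =>
    refine fun c _ B => Eventually.of_forall fun L => (Sm.of_le ?_).mono le_rfl le_rfl c.zero_le
    rintro _ ⟨Φ, ⟨h1, h2⟩, rfl⟩
    rw [Submodule.mem_bot]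
    ext I μ
    by_contra h0
    have h3 := ((hδ L m (by omega) _ B Φ h1).1 I μ h0).2.1
    obtain ⟨-, rfl⟩ := h2 I μ h0
    have h4 := Par.wI_nonneg I
    rw [Par.U1, map_zero] at h3
    omega
  | succ n ih =>
    intro c hc B
    rw [show ((n + 1 : ℕ) : ℤ) - 1 = n by omega] at hc ⊢
    obtain ⟨c1, c2, h1, h2, h3⟩ := sm_split hc
      (U' := P.ZS m ⊓ SupM P.k fun I μ => P.U1 I μ ≤ (n : ℤ) - 1)
      (inf_le_inf_left _ (SupM_mono fun I μ h0 => by omega))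
    obtain ⟨B', hB, h4⟩ := lift_all h hδ n B
    refine ((ih c1 h2 B').and (eventually_ge_atTop B')).mono fun L ⟨h5, hL⟩ => ?_
    have h6 := (((h3.comap (pr (n : ℤ))).mono (U' := KK m (δ L) n B L)
      (fun Φ hΦ => pr_mem h hδ (by omega) hΦ) le_rfl le_rfl).inf).map (δ L)
    refine ((h6.mono le_rfl ?_ le_rfl).trans h5).mono le_rfl le_rfl h1
    rintro _ ⟨Φ, ⟨h7, h8, h9⟩, rfl⟩
    obtain ⟨z, hz, y, hy, e⟩ := Submodule.mem_sup.1 (Submodule.mem_comap.1 h7)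
    obtain ⟨ξ, h10, h11, h12⟩ := h4 L hL Φ h8 ⟨y, hy, fun I μ h0 => by
      have h13 := congrFun (congrFun e I) μ
      have h14 : z I μ = 0 := by
        by_contra h15
        have := hz.2 I μ h15
        omega
      rw [Pi.add_apply, Pi.add_apply, h14, zero_add, pr_apply, if_pos h0] at h13
      exact h13.symm⟩
    have h13 : δ L (Φ - ξ) = δ L Φ := by rw [map_sub, h11, sub_zero]
    refine ⟨Φ - ξ, ⟨fun I μ h0 => ?_, ?_⟩, h13⟩
    · obtain ⟨h14, h15, h16⟩ := sub_mem (CL_mono m le_rfl hB le_rfl h8) h10 I μ h0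
      refine ⟨h14, ?_, h16⟩
      rcases h15.lt_or_eq with h17 | h17
      · omega
      · rw [Pi.sub_apply, Pi.sub_apply, h12 I μ h17, sub_self] at h0
        exact absurd rfl h0
    · rw [SetLike.mem_coe, Submodule.mem_comap, h13]
      exact h9

end step

lemma cst_ne {v : P.Lam} {I : Finset P.Ix} {μ : Mon P.Kv} (h : P.cst v I μ ≠ 0) :
    μ = 0 ∧ v I ≠ 0 := by
  unfold Par.cst at h
  split_ifs at h with h1
  · exact ⟨h1, h⟩
  · exact absurd rfl h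

lemma ev_cst {m : ℕ} {v : P.Lam} (hv : v ∈ P.LamD m) :
    ∀ᶠ n : ℕ in atTop, P.cst v ∈ P.CL m ((n : ℤ) - 1) n n := by
  have h1 : P.cst v ∈ FinM P.k P.Kv P.Ix :=
    (hv.1.image fun I => (I, (0 : Mon P.Kv))).subset fun x hx =>
      ⟨x.1, (cst_ne hx).2, Prod.ext rfl (cst_ne hx).1.symm⟩
  obtain ⟨s, hs⟩ := FinM.bdd h1 P.U1
  exact ((ev_CL (j := m) h1 fun I μ h0 => ⟨hv.2 I (cst_ne h0).2, hs I μ h0⟩).and
    (ev_int (s + 1))).mono fun n hn => CL_mono m (by omega) le_rfl le_rfl hn.1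

/-- values on the constant monomial -/
def evT (T : Finset (Finset P.Ix)) : P.C2 →ₗ[P.k] (T → P.k) where
  toFun z J := z J.1 0
  map_add' _ _ := rfl
  map_smul' _ _ := rfl

end Desc

open Desc in
theorem desc_holds (P : Par) (h : P.D0) : P.Desc := by
  classical
  intro m c δ T hδ hc hT hv
  have h1 : ∀ᶠ n : ℕ in atTop, ∀ J ∈ T, ∃ Φ ∈ P.CL m ((n : ℤ) - 1) n n,
      ∀ L, δ L Φ = P.cst (Pi.single J 1) := by
    refine (eventually_all_finset T).2 fun J hJ => ?_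
    obtain ⟨v, h2, h3⟩ := hv J hJ
    exact (ev_cst h2).mono fun n hn => ⟨_, hn, h3⟩
  obtain ⟨n, hn⟩ := h1.exists
  obtain ⟨L, h2, hL⟩ := ((ind h hδ n c (hc.mono inf_le_left le_rfl le_rfl) n).and
    (eventually_ge_atTop n)).exists
  have h3 := (h2.map (evT T)).mono (U' := ⊤) (B' := ⊥) ?_ (by simp) le_rfl
  · have h4 := h3.finrank_le
    rwa [finrank_top, Module.finrank_fintype_fun_eq_card, Fintype.card_coe] at h4
  rw [← (Pi.basisFun P.k T).span_eq, Submodule.span_le]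
  rintro _ ⟨J, rfl⟩
  obtain ⟨Φ, h4, h5⟩ := hn J.1 J.2
  refine ⟨δ L Φ, ⟨Φ, ⟨CL_mono m le_rfl le_rfl hL h4, ?_⟩, rfl⟩, ?_⟩
  · rw [SetLike.mem_coe, Submodule.mem_comap, h5]
    intro I μ h0
    obtain ⟨h6, h7⟩ := cst_ne h0
    have h8 : I = J.1 := by
      by_contra h9
      exact h7 (Pi.single_eq_of_ne h9 _)
    exact ⟨h8 ▸ hT J.1 J.2, h6⟩
  · ext J'
    change δ L Φ J'.1 0 = _
    rw [h5, Pi.basisFun_apply, Par.cst, if_pos rfl, Pi.single_apply, Pi.single_apply]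
    simp only [Subtype.ext_iff]

end CdI
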