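import Pool.Agent.P.MP_013f39_al.Inf.Api

/-! Dimension shifting: constant cocycles are coboundaries of constants. -/

namespace CdI

open Cd3

namespace Ds

variable (P : Par)

/-- finite level functions of `a` group elements with values of degree `j` -/
def KK (a j : ℕ) : Submodule P.k ((Fin a → P.G) → P.Lam) where
  carrier := {f | (∃ K, ∀ x x' : Fin a → P.G, (∀ i, P.S.Eqv K (x i) (x' i)) → f x = f x') ∧
    ∀ x, f x ∈ P.LamD j}
  zero_mem' := ⟨⟨0, fun _ _ _ => rfl⟩, fun _ => zero_mem _⟩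
  add_mem' := by
    rintro f f' ⟨⟨K, h1⟩, h2⟩ ⟨⟨K', h3⟩, h4⟩
    refine ⟨⟨K + K', fun x x' h => ?_⟩, fun x => add_mem (h2 x) (h4 x)⟩
    simp only [Pi.add_apply]
    rw [h1 x x' fun i => (h i).anti (by omega), h3 x x' fun i => (h i).anti (by omega)]
  smul_mem' := by
    rintro c f ⟨⟨K, h1⟩, h2⟩
    exact ⟨⟨K, fun x x' h => by simp only [Pi.smul_apply, h1 x x' h]⟩,
      fun x => Submodule.smul_mem _ c (h2 x)⟩

variable {P}

/-- the function on the subgroup along the orbit of `x` -/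
noncomputable def orb {a : ℕ} (f : (Fin a → P.G) → P.Lam) (x : Fin a → P.G) : P.Gam → P.Lam :=
  fun y => f fun i => (y.1)⁻¹ * x i

lemma orb_mem {a j : ℕ} {f : (Fin a → P.G) → P.Lam} (hf : f ∈ KK P a j) (x : Fin a → P.G) :
    orb f x ∈ P.DD j := by
  obtain ⟨⟨K, h1⟩, h2⟩ := hf
  exact ⟨⟨K, fun y y' h => h1 _ _ fun i => h.inv.mul_right _⟩, fun y => h2 _⟩

variable (ψ : (P.Gam → P.Lam) →ₗ[P.k] P.Lam)

/-- the vertical differential -/
noncomputable def dv (a : ℕ) : Module.End P.k ((Fin a → P.G) → P.Lam) where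
  toFun f x := ψ (orb f x)
  map_add' f f' := by ext1 x; rw [Pi.add_apply, ← map_add]; rfl
  map_smul' c f := by ext1 x; rw [Pi.smul_apply, RingHom.id_apply, ← map_smul]; rfl

lemma dv_apply {a : ℕ} (f : (Fin a → P.G) → P.Lam) (x : Fin a → P.G) :
    dv ψ a f x = ψ (orb f x) := rfl

lemma orb_dv {a : ℕ} (f : (Fin a → P.G) → P.Lam) (x : Fin a → P.G) :
    orb (dv ψ a f) x = P.dl ψ (orb f x) := by
  ext1 y
  rw [Par.dl_apply]
  change ψ _ = ψ _
  congr 1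
  ext1 z
  simp only [orb, Subgroup.coe_mul, mul_inv_rev, mul_assoc]

lemma dv_bd {a : ℕ} (f : (Fin a → P.G) → P.Lam) :
    dv ψ (a + 1) (bd P.k a f) = bd P.k a (dv ψ a f) := by
  ext1 x
  rw [dv_apply, bd_apply]
  have : orb (bd P.k a f) x = ∑ l : Fin (a + 1), (-1 : P.k) ^ (l : ℕ) •
      orb f fun i => x (l.succAbove i) := by
    ext1 y
    rw [Finset.sum_apply]
    rfl
  rw [this, map_sum]
  refine Finset.sum_congr rfl fun l _ => ?_
  rw [map_smul]; rfl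

variable {ψ}

lemma dv_mem {a j : ℕ} (hψ : P.RA ψ j) {f : (Fin a → P.G) → P.Lam} (hf : f ∈ KK P a j) :
    dv ψ a f ∈ KK P a (j + 1) := by
  refine ⟨?_, fun x => hψ.deg _ (orb_mem hf x)⟩
  obtain ⟨⟨K, h1⟩, -⟩ := hf
  refine ⟨K, fun x x' h => ?_⟩
  rw [dv_apply, dv_apply]
  congr 1
  ext1 y
  exact h1 _ _ fun i => (h i).mul_left _

lemma bd_mem {a j : ℕ} {f : (Fin a → P.G) → P.Lam} (hf : f ∈ KK P a j) :
    bd P.k a f ∈ KK P (a + 1) j := by
  obtain ⟨⟨K, h1⟩, h2⟩ := hf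
  refine ⟨⟨K, fun x x' h => ?_⟩, fun x => ?_⟩
  · rw [bd_apply, bd_apply]
    exact Finset.sum_congr rfl fun l _ => by rw [h1 _ _ fun i => h (l.succAbove i)]
  · rw [bd_apply]
    exact Submodule.sum_mem _ fun l _ => Submodule.smul_mem _ _ (h2 _)

lemma row {a j : ℕ} {f : (Fin (a + 1) → P.G) → P.Lam} (hf : f ∈ KK P (a + 1) j)
    (h0 : bd P.k (a + 1) f = 0) : ∃ e ∈ KK P a j, bd P.k a e = f := by
  obtain ⟨⟨K, h1⟩, h2⟩ := hf
  refine ⟨fun y => f (Fin.cons 1 y), ⟨⟨K, fun x x' h => h1 _ _ fun i => ?_⟩, fun x => h2 _⟩,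
    bd_contr a f h0 1⟩
  refine Fin.cases ?_ (fun i => ?_) i
  · exact NG.Eqv.refl _ _
  · exact h i

lemma dv_sq {n a j : ℕ} (hψ : P.Res n ψ) (hj : j + 1 ≤ n) {f : (Fin a → P.G) → P.Lam}
    (hf : f ∈ KK P a j) : dv ψ a (dv ψ a f) = 0 := by
  ext1 x
  rw [dv_apply, orb_dv, ← Par.dl_one, hψ.sq j hj _ (orb_mem hf x)]
  rfl

variable (P) in
/-- a representative of the coset of the subgroup -/
noncomputable def rep (x : P.G) : P.G := Classical.epsilon fun t => P.S.Eqv P.N t x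

lemma rep_eqv (x : P.G) : P.S.Eqv P.N (rep P x) x :=
  Classical.epsilon_spec (p := fun t => P.S.Eqv P.N t x) ⟨x, NG.Eqv.refl _ _⟩

lemma rep_congr {x x' : P.G} (h : P.S.Eqv P.N x x') : rep P x = rep P x' := by
  unfold rep
  congr 1
  ext t
  exact ⟨fun h1 => h1.trans h, fun h1 => h1.trans h.symm⟩

variable (P) in
/-- the subgroup component -/
noncomputable def gam (x : P.G) : P.Gam := ⟨x * (rep P x)⁻¹, NG.eqv_iff_L.1 (rep_eqv x)⟩

lemma gam_mul (y : P.Gam) (x : P.G) : gam P (y.1 * x) = y * gam P x := by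
  have h : P.S.Eqv P.N x (y.1 * x) := NG.eqv_iff_L.2 (by
    rw [mul_inv_cancel_right]; exact y.2)
  apply Subtype.ext
  change y.1 * x * (rep P (y.1 * x))⁻¹ = y.1 * (x * (rep P x)⁻¹)
  rw [← rep_congr h, mul_assoc]

lemma gam_eqv {K : ℕ} (hK : P.N ≤ K) {x x' : P.G} (h : P.S.Eqv K x x') :
    P.S.Eqv K (gam P x).1 (gam P x').1 := by
  change P.S.Eqv K (x * (rep P x)⁻¹) (x' * (rep P x')⁻¹)
  rw [← rep_congr (h.anti hK)]
  exact h.mul_right _

lemma finite_of_level {a K : ℕ} {V : Type} (F : (Fin a → P.G) → V)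
    (h : ∀ x x' : Fin a → P.G, (∀ i, P.S.Eqv K (x i) (x' i)) → F x = F x') :
    (Set.range F).Finite := by
  let t : (Fin a → P.G) → Fin a → Fin K → P.k := fun x l i => P.S.a i (x l)
  have : Set.range F ⊆ Set.range fun y : Set.range t => F y.2.choose := by
    rintro _ ⟨x, rfl⟩
    refine ⟨⟨t x, x, rfl⟩, h _ _ fun l i hi => ?_⟩
    exact congrFun (congrFun (Exists.choose_spec (⟨x, rfl⟩ : ∃ y, t y = t x)) l) ⟨i, hi⟩
  exact (Set.finite_range _).subset this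

lemma col {n a j : ℕ} (hψ : P.Res n ψ) (hj : j + 1 ≤ n) {f : (Fin (a + 1) → P.G) → P.Lam}
    (hf : f ∈ KK P (a + 1) (j + 1)) (h0 : dv ψ (a + 1) f = 0) :
    ∃ e ∈ KK P (a + 1) j, dv ψ (a + 1) e = f := by
  classical
  have hex : ∀ F : P.Gam → P.Lam, ∃ E ∈ P.DD j,
      (F ∈ P.DD (j + 1) → P.dl ψ F = 0 → P.dl ψ E = F) := by
    intro F
    by_cases h : F ∈ P.DD (j + 1) ∧ P.dl ψ F = 0
    · obtain ⟨E, hE, h1⟩ := hψ.exa j hj F h.1 h.2
      exact ⟨E, hE, fun _ _ => h1⟩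
    · exact ⟨0, zero_mem _, fun h1 h2 => absurd ⟨h1, h2⟩ h⟩
  choose Eh hE1 hE2 using hex
  choose lv hlv using fun F => (hE1 F).1
  let nz : (Fin (a + 1) → P.G) → Fin (a + 1) → P.G := fun x i => ((gam P (x 0)).1)⁻¹ * x i
  let FF : (Fin (a + 1) → P.G) → P.Gam → P.Lam := fun x => orb f (nz x)
  obtain ⟨K, hK⟩ := hf.1
  have hFF : ∀ x x' : Fin (a + 1) → P.G, (∀ i, P.S.Eqv (K + P.N) (x i) (x' i)) →
      FF x = FF x' := by
    intro x x' h
    ext1 y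
    refine hK _ _ fun i => ?_
    exact (((gam_eqv (by omega) (h 0)).inv.mul (h i)).mul_left _).anti (by omega)
  obtain ⟨B, hB⟩ := ((finite_of_level FF hFF).image lv).bddAbove
  refine ⟨fun x => Eh (FF x) (gam P (x 0))⁻¹, ⟨⟨K + P.N + B, fun x x' h => ?_⟩,
    fun x => (hE1 _).2 _⟩, ?_⟩
  · have hb : lv (FF x) ≤ B := hB ⟨FF x, ⟨x, rfl⟩, rfl⟩
    change Eh (FF x) _ = Eh (FF x') _
    rw [← hFF x x' fun i => (h i).anti (by omega)]
    exact hlv _ _ _ (((gam_eqv (by omega) (h 0)).inv).anti (by omega))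
  · ext1 x
    have h1 : ∀ y : P.Gam, gam P ((y.1)⁻¹ * x 0) = y⁻¹ * gam P (x 0) := fun y => gam_mul y⁻¹ _
    have h2 : ∀ y : P.Gam, nz (fun i => (y.1)⁻¹ * x i) = nz x := by
      intro y
      ext1 i
      change ((gam P ((y.1)⁻¹ * x 0)).1)⁻¹ * ((y.1)⁻¹ * x i) = ((gam P (x 0)).1)⁻¹ * x i
      rw [h1]
      simp [mul_assoc]
    have h3 : orb (fun x => Eh (FF x) (gam P (x 0))⁻¹) x =
        fun y => Eh (FF x) ((gam P (x 0))⁻¹ * y) := by
      ext1 y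
      change Eh (orb f (nz fun i => (y.1)⁻¹ * x i)) (gam P ((y.1)⁻¹ * x 0))⁻¹ = _
      rw [h2, h1, mul_inv_rev, inv_inv]
    have h4 : P.dl ψ (FF x) = 0 := by
      change P.dl ψ (orb f (nz x)) = 0
      rw [← orb_dv, h0]; rfl
    rw [dv_apply, h3, ← Par.dl_apply, hE2 _ (orb_mem hf _) h4]
    change f _ = f x
    congr 1
    ext1 i
    change (((gam P (x 0))⁻¹ : P.Gam).1)⁻¹ * (((gam P (x 0)).1)⁻¹ * x i) = x i
    simp

variable (ψ) in
/-- vanishing of the row cohomology of the column cocycles -/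
def VV (a j : ℕ) : Prop := ∀ f ∈ KK P (a + 1) j, dv ψ (a + 1) f = 0 → bd P.k (a + 1) f = 0 →
  ∃ f' ∈ KK P a j, dv ψ a f' = 0 ∧ bd P.k a f' = f

lemma step {n a j : ℕ} (hψ : P.Res n ψ) (hj : j + 1 ≤ n) (h : VV ψ (a + 1) j)
    {f : (Fin (a + 1) → P.G) → P.Lam} (hf : f ∈ KK P (a + 1) (j + 1))
    (h1 : dv ψ (a + 1) f = 0) (h2 : bd P.k (a + 1) f = 0) :
    ∃ e ∈ KK P a j, bd P.k a (dv ψ a e) = f := by
  obtain ⟨e, he, rfl⟩ := col hψ hj hf h1
  obtain ⟨g, hg, hg1, hg2⟩ := h _ (bd_mem he) (by rw [dv_bd, h2]) (bd_bd _ _)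
  obtain ⟨e', he', h3⟩ := row (sub_mem he hg) (by rw [map_sub, hg2, sub_self])
  exact ⟨e', he', by rw [← dv_bd, h3, map_sub, hg1, sub_zero]⟩

lemma lam0 {v : P.Lam} (hv : v ∈ P.LamD 0) : v = Pi.single ∅ (v ∅) := by
  classical
  ext I
  by_cases h : I = ∅
  · subst h; simp
  · rw [Pi.single_eq_of_ne h]
    by_contra h1
    exact h (Finset.card_eq_zero.1 (hv.2 I h1))

lemma single_mem (c : P.k) : (Pi.single ∅ c : P.Lam) ∈ P.LamD 0 := by
  refine ⟨(Set.finite_singleton ∅).subset fun I hI => ?_, fun I hI => ?_⟩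
  · by_contra h
    exact hI (Pi.single_eq_of_ne h _)
  · by_contra h
    refine hI (Pi.single_eq_of_ne ?_ _)
    rintro rfl
    exact h rfl

lemma base {n m : ℕ} (hψ : P.Res n ψ) (hv : VanN P.S m P.N) : VV ψ (m + 1) 0 := by
  intro f hf h1 h2
  obtain ⟨K, hK⟩ := hf.1
  have hinv : ∀ h, P.S.D P.N h → ∀ x, f (fun i => h * x i) = f x := by
    intro h hh x
    have h3 : P.dl ψ (orb f x) = 0 := by rw [← orb_dv, h1]; rfl
    have := hψ.ex0 _ (orb_mem hf x) h3 (⟨h, hh⟩ : P.Gam)⁻¹ 1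
    simpa [orb] using this
  obtain ⟨y, hy, hy1⟩ := hv (fun x => f x ∅)
    ⟨⟨K, fun x x' h => congrFun (hK x x' h) ∅⟩, fun h hh x => congrFun (hinv h hh x) ∅⟩ (by
      ext x
      have := congrFun (congrFun h2 x) ∅
      rw [bd_apply, Finset.sum_apply] at this
      rw [bd_apply]
      exact this)
  obtain ⟨K', hK'⟩ := hy.1
  refine ⟨fun x => Pi.single ∅ (y x), ⟨⟨K', fun x x' h =>
    congrArg (fun c => (Pi.single ∅ c : P.Lam)) (hK' x x' h)⟩,
    fun x => single_mem _⟩, ?_, ?_⟩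
  · ext1 x
    have : orb (fun x => (Pi.single ∅ (y x) : P.Lam)) x = fun _ => Pi.single ∅ (y x) := by
      ext1 z
      exact congrArg (fun c => (Pi.single ∅ c : P.Lam))
        (hy.2 _ (show P.S.D P.N (z.1)⁻¹ from NG.D.inv z.2) x)
    rw [dv_apply, this, hψ.c0 _ (single_mem _)]
    rfl
  · ext1 x
    rw [lam0 (hf.2 x), ← congrFun hy1 x, bd_apply, bd_apply]
    ext I
    rw [Finset.sum_apply]
    by_cases h : I = ∅
    · subst h; simp
    · simp [Pi.single_eq_of_ne h]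

lemma all {m : ℕ} (hψ : P.Res (m + 1) ψ) (hv : VanN P.S m P.N) (j : ℕ) :
    ∀ a, a + j = m + 1 → VV ψ a j := by
  induction j with
  | zero =>
    intro a ha
    obtain rfl : a = m + 1 := ha
    exact base hψ hv
  | succ j ih =>
    intro a ha f hf h1 h2
    obtain ⟨e, he, h3⟩ := step hψ (by omega) (ih (a + 1) (by omega)) hf h1 h2
    exact ⟨_, dv_mem (hψ.ra j (by omega)) he, dv_sq hψ (by omega) he, h3⟩

end Ds

theorem ds_holds (P : Par) : P.Ds := by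
  intro m ψ hψ hv v hvm h0
  have hf : (fun _ : Fin 0 → P.G => v) ∈ Ds.KK P 0 (m + 1) :=
    ⟨⟨0, fun _ _ _ => rfl⟩, fun _ => hvm⟩
  have hd : Ds.dv ψ 0 (fun _ => v) = 0 := by
    ext1 x
    exact h0
  obtain ⟨e, he, h1⟩ := Ds.step hψ le_rfl (Ds.all hψ hv m 1 (by omega)) (Ds.bd_mem hf)
    (by rw [Ds.dv_bd, hd, map_zero]) (bd_bd _ _)
  refine ⟨e Fin.elim0, he.2 _, ?_⟩
  have h2 := congrFun h1 fun _ => 1
  rw [bd_apply, bd_apply] at h2
  rw [Fin.sum_univ_succ, Fin.sum_univ_succ, Fin.sum_univ_zero, Fin.sum_univ_zero] at h2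
  simp only [Fin.val_zero, pow_zero, one_smul, add_zero] at h2
  rw [← h2, Ds.dv_apply]
  congr 1
  ext1 y
  exact congrArg e (Subsingleton.elim _ _)

end CdI
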