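import Pool.Agent.P.MP_013f39_al.Inf.Api

/-! Infinite cohomological dimension of `H_r`: product expansions of power series. -/

namespace CdI

open Cd3 MvPolynomial

namespace ExpP

variable {P : Par}

lemma pos (a : P.Ix) : 1 ≤ a.1 := P.hN.trans a.2.1

lemma decomp (K : ℕ) (hK : P.N ≤ K) : ∃ (s : ℕ) (a : P.Ix), K = P.p ^ s * a.1 := by
  induction K using Nat.strong_induction_on with
  | _ K ih =>
    by_cases h : K < P.M ∨ ¬ P.p ∣ K
    · exact ⟨0, ⟨K, hK, h⟩, by simp⟩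
    · push Not at h
      obtain ⟨h1, K', rfl⟩ := h
      have h2 := P.hp.two_le
      have h3 : P.N ≤ K' := Nat.le_of_mul_le_mul_left h1 (by omega)
      have h4 := P.hN
      obtain ⟨s, a, rfl⟩ := ih K' (by nlinarith) h3
      exact ⟨s + 1, a, by ring⟩

lemma uniq_aux {t : ℕ} {a b : P.Ix} (h : a.1 = P.p ^ t * b.1) : t = 0 := by
  rcases t with _ | t
  · rfl
  exfalso
  have h1 : P.p ∣ a.1 := ⟨P.p ^ t * b.1, by rw [h]; ring⟩
  have h2 : a.1 < P.M := a.2.2.resolve_right (not_not.2 h1)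
  have h3 : 1 ≤ P.p ^ t := Nat.one_le_pow _ _ P.hp.pos
  have h4 : P.p * P.N ≤ P.p * (P.p ^ t * b.1) :=
    Nat.mul_le_mul_left _ (b.2.1.trans (Nat.le_mul_of_pos_left _ h3))
  rw [h, pow_succ', mul_assoc] at h2
  exact absurd h4 (not_le.2 h2)

lemma uniq {s t : ℕ} {a b : P.Ix} (h : P.p ^ s * a.1 = P.p ^ t * b.1) : s = t ∧ a = b := by
  wlog hst : s ≤ t generalizing s t a b
  · obtain ⟨h1, h2⟩ := this h.symm (not_le.1 hst).le
    exact ⟨h1.symm, h2.symm⟩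
  obtain ⟨u, rfl⟩ := Nat.exists_eq_add_of_le hst
  rw [pow_add, mul_assoc] at h
  have h1 := Nat.eq_of_mul_eq_mul_left (pow_pos P.hp.pos s) h
  obtain rfl := uniq_aux h1
  exact ⟨rfl, Subtype.ext (by simpa using h1)⟩

lemma pE_pow (a : P.Ix) (s c : ℕ) :
    P.pE (Finsupp.single a (P.p ^ s * c)) = (1 - PowerSeries.X ^ (P.p ^ s * a.1)) ^ c := by
  have : CharP (PS P.p) P.p := charP_of_injective_algebraMap (algebraMap P.k _).injective P.p
  rw [Par.pE_single, pow_mul, sub_pow_char_pow, one_pow, ← pow_mul, mul_comm a.1]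

lemma pT_pow (a : P.Ix) (s c : ℕ) :
    P.pT (Finsupp.single a (P.p ^ s * c)) = (1 + X a ^ (P.p ^ s)) ^ c := by
  rw [Par.pT_single, pow_mul, add_pow_char_pow, one_pow]

lemma pE_zero : P.pE 0 = 1 := Finsupp.prod_zero_index

lemma pT_zero : P.pT 0 = 1 := Finsupp.prod_zero_index

lemma top {K : ℕ} (hK : 1 ≤ K) (c : ℕ) :
    PowerSeries.X ^ K ∣ (1 - PowerSeries.X ^ K : PS P.p) ^ c - 1 ∧
      PowerSeries.coeff K ((1 - PowerSeries.X ^ K : PS P.p) ^ c - 1) = -(c : P.k) := by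
  have := pow_sub_one (p := P.p) hK (h := 1 - PowerSeries.X ^ K) (by simp) c
  refine ⟨this.1, this.2.trans ?_⟩
  simp [PowerSeries.coeff_X_pow]

lemma dvd_succ {K : ℕ} {f : PS P.p} (h : PowerSeries.X ^ K ∣ f) (h0 : PowerSeries.coeff K f = 0) :
    PowerSeries.X ^ (K + 1) ∣ f := by
  rw [PowerSeries.X_pow_dvd_iff] at h ⊢
  intro m hm
  rcases (Nat.lt_succ_iff.1 hm).lt_or_eq with h1 | rfl
  · exact h m h1
  · exact h0

/-- one more coefficient -/
lemma step {v : PS P.p} {n : Mon P.Ix} {s : ℕ} {a : P.Ix}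
    (h : PowerSeries.X ^ (P.p ^ s * a.1) ∣ v - P.pE n) :
    PowerSeries.X ^ (P.p ^ s * a.1 + 1) ∣ v - P.pE (n + Finsupp.single a
      (P.p ^ s * (-PowerSeries.coeff (P.p ^ s * a.1) (v - P.pE n)).val)) := by
  rw [Par.pE_add, pE_pow]
  set K := P.p ^ s * a.1
  set c := (-PowerSeries.coeff K (v - P.pE n)).val
  have hK : 1 ≤ K := Nat.mul_pos (pow_pos P.hp.pos s) (pos a)
  obtain ⟨h1, h2⟩ := top (P := P) hK c
  have e : v - P.pE n * (1 - PowerSeries.X ^ K) ^ c =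
      (v - P.pE n - ((1 - PowerSeries.X ^ K) ^ c - 1)) -
        ((1 - PowerSeries.X ^ K) ^ c - 1) * (P.pE n - 1) := by ring
  rw [e]
  refine dvd_sub (dvd_succ (dvd_sub h h1) ?_) ?_
  · rw [map_sub, h2]
    simp [c]
  · rw [pow_succ]
    exact mul_dvd_mul h1 ((dvd_pow_self _ (by have := P.hN; omega)).trans (P.pE_ord n))

section pge

variable {ω : P.Ix → ℤ} (hω : ∀ a, 0 ≤ ω a)

include hω in
lemma mem_zero (f : MvPolynomial P.Ix P.k) : f ∈ Pge P.k ω 0 :=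
  mem_Pge.2 fun μ _ => Par.weight_nonneg hω μ

include hω in
lemma mul_mem {t : ℤ} (f : MvPolynomial P.Ix P.k) {g : MvPolynomial P.Ix P.k}
    (hg : g ∈ Pge P.k ω t) : f * g ∈ Pge P.k ω t := by
  simpa using Pge_mul (mem_zero hω f) hg

lemma X_pow_mem (a : P.Ix) (m : ℕ) : (X a ^ m : MvPolynomial P.Ix P.k) ∈ Pge P.k ω (m * ω a) := by
  rw [X_pow_eq_monomial]
  exact monomial_mem_Pge (by simp [Finsupp.weight_single]) 1

include hω in
lemma pow_mem {t : ℤ} {Y : MvPolynomial P.Ix P.k} (hY : Y ∈ Pge P.k ω t) (c : ℕ) :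
    (1 + Y) ^ c - 1 ∈ Pge P.k ω t := by
  obtain ⟨g, hg⟩ := sub_dvd_pow_sub_pow (1 + Y) 1 c
  rw [one_pow, add_sub_cancel_left, mul_comm] at hg
  rw [hg]
  exact mul_mem hω g hY

include hω in
lemma pow_mem' {t : ℤ} {Y : MvPolynomial P.Ix P.k} (hY : Y ∈ Pge P.k ω t) (c : ℕ) :
    (1 + Y) ^ c - 1 - (c : P.k) • Y ∈ Pge P.k ω (t + t) := by
  induction c with
  | zero => simp
  | succ c ih =>
    have e : (1 + Y) ^ (c + 1) - 1 - ((c + 1 : ℕ) : P.k) • Y =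
        ((1 + Y) ^ c - 1 - (c : P.k) • Y) + ((1 + Y) ^ c - 1) * Y := by
      rw [Nat.cast_succ, add_smul, one_smul]; ring
    rw [e]
    exact add_mem ih (Pge_mul (pow_mem hω hY c) hY)

end pge

lemma w_nn (a : P.Ix) : 0 ≤ P.w a := (Par.w_pos a).le

lemma w2_nn (a : P.Ix) : 0 ≤ P.w2 a := (Par.w2_pos a).le

lemma Y_w {s : ℕ} {a : P.Ix} (h : P.M ≤ P.p ^ s * a.1) :
    (X a ^ (P.p ^ s) : MvPolynomial P.Ix P.k) ∈ Pge P.k P.w ((P.p ^ s * a.1 : ℕ) + P.β) := by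
  refine Pge_anti _ ?_ (X_pow_mem a _)
  have h1 : (P.M : ℤ) ≤ (P.p ^ s : ℕ) * (a.1 : ℤ) := by exact_mod_cast h
  have h2 : (1 : ℤ) ≤ (P.p ^ s : ℕ) := by exact_mod_cast pow_pos P.hp.pos s
  have h3 : (2 : ℤ) ≤ P.q := by exact_mod_cast P.two_le_q
  have h4 := P.β_pos
  rw [Nat.cast_mul]
  by_cases ha : P.Act a
  · rw [Par.w_act ha, Par.β]
    nlinarith
  · rw [Par.w_let ha]
    nlinarith

lemma Y_w2 (s : ℕ) (a : P.Ix) :
    (X a ^ (P.p ^ s) : MvPolynomial P.Ix P.k) ∈ Pge P.k P.w2 (P.q * (P.p ^ s * a.1 : ℕ)) := by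
  refine Pge_anti _ (le_of_eq ?_) (X_pow_mem a _)
  rw [Par.w2, Nat.cast_mul]
  ring

lemma e1_aux {K0 : ℕ} {v : PS P.p} (h0 : P.M ≤ K0) (hv : PowerSeries.X ^ K0 ∣ v - 1) (K : ℕ)
    (hK : K0 + 1 ≤ K) : ∃ n,
    PowerSeries.X ^ K ∣ v - P.pE n ∧ P.pT n - 1 ∈ Pge P.k P.w (K0 + P.β) ∧
    P.pT n - 1 ∈ Pge P.k P.w2 (P.q * K0) ∧ ∀ a : P.Ix, a.1 = K0 →
      P.pT n - 1 + PowerSeries.coeff K0 v • X a ∈ Pge P.k P.w (K0 + P.β + 1) := by
  have hNM := P.N_lt_M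
  induction K, hK using Nat.le_induction with
  | base =>
    obtain ⟨s, a, rfl⟩ := decomp (P := P) K0 (by omega)
    rw [← pE_zero (P := P)] at hv
    refine ⟨_, step hv, ?_, ?_, fun b hb => ?_⟩ <;> rw [zero_add, pT_pow]
    · exact pow_mem w_nn (Y_w h0) _
    · exact pow_mem w2_nn (Y_w2 s a) _
    · obtain ⟨rfl, rfl⟩ := uniq (s := 0) (a := b) (by simpa using hb)
      have h1 := pow_mem' w_nn (Y_w h0) (-PowerSeries.coeff (P.p ^ 0 * b.1) (v - P.pE 0)).val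
      have h2 := pos b
      have h3 := P.β_pos
      have h4 : PowerSeries.coeff (P.p ^ 0 * b.1) (v - P.pE 0) =
          PowerSeries.coeff (P.p ^ 0 * b.1) v := by
        rw [pE_zero, map_sub, PowerSeries.coeff_one, if_neg (by omega), sub_zero]
      rw [ZMod.natCast_zmod_val, neg_smul, sub_neg_eq_add, h4] at h1
      rw [h4]
      rw [pow_zero P.p, pow_one] at h1
      rw [pow_zero P.p, pow_one]
      exact Pge_anti _ (by omega) h1
  | succ K hK ih =>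
    obtain ⟨n, h1, h2, h3, h4⟩ := ih
    obtain ⟨s, a, rfl⟩ := decomp (P := P) K (by omega)
    set c := (-PowerSeries.coeff (P.p ^ s * a.1) (v - P.pE n)).val
    have z1 : P.pT n * ((1 + X a ^ (P.p ^ s)) ^ c - 1) ∈ Pge P.k P.w (K0 + P.β + 1) :=
      Pge_anti _ (by omega) (mul_mem w_nn _ (pow_mem w_nn (Y_w (s := s) (a := a) (by omega)) c))
    have z2 : P.pT n * ((1 + X a ^ (P.p ^ s)) ^ c - 1) ∈ Pge P.k P.w2 (P.q * K0) :=
      Pge_anti _ (by gcongr; omega) (mul_mem w2_nn _ (pow_mem w2_nn (Y_w2 s a) c))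
    have e : P.pT (n + Finsupp.single a (P.p ^ s * c)) - 1 =
        P.pT n * ((1 + X a ^ (P.p ^ s)) ^ c - 1) + (P.pT n - 1) := by
      rw [Par.pT_add, pT_pow]; ring
    refine ⟨_, step h1, ?_, ?_, fun b hb => ?_⟩ <;> rw [e]
    · exact add_mem (Pge_anti _ (by omega) z1) h2
    · exact add_mem z2 h3
    · rw [add_assoc (P.pT n * _)]
      exact add_mem z1 (h4 b hb)

/-- divisibility of the exponents below level `K` -/
def Dv (K : ℕ) (d : Mon P.Ix) : Prop := ∀ (b : P.Ix) (s : ℕ), P.p ^ s * b.1 < K → P.p ^ (s + 1) ∣ d b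

lemma Dv.ex {K : ℕ} {d : Mon P.Ix} (h : Dv K d) (b : P.Ix) :
    ∃ e c, K ≤ P.p ^ e * b.1 ∧ d b = P.p ^ e * c := by
  have h1 : ∃ e, K ≤ P.p ^ e * b.1 :=
    ⟨K, (Nat.lt_pow_self P.hp.one_lt).le.trans (Nat.le_mul_of_pos_right _ (pos b))⟩
  have h2 := Nat.find_spec h1
  rcases h3 : Nat.find h1 with _ | t
  · exact ⟨0, d b, h3 ▸ h2, by simp⟩
  · obtain ⟨c, hc⟩ := h b t (not_le.1 (Nat.find_min h1 (by omega)))
    exact ⟨t + 1, c, h3 ▸ h2, hc⟩

lemma Dv.pE {K : ℕ} {d : Mon P.Ix} (h : Dv K d) : PowerSeries.X ^ K ∣ P.pE d - 1 := by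
  unfold Par.pE Finsupp.prod
  refine Finset.prod_induction _ (fun v => PowerSeries.X ^ K ∣ v - 1) (fun x y hx hy => ?_)
    (by simp) fun b _ => ?_
  · have e : x * y - 1 = (x - 1) * y + (y - 1) := by ring
    rw [e]
    exact dvd_add (hx.mul_right _) hy
  · obtain ⟨e, c, h1, h2⟩ := h.ex b
    beta_reduce
    rw [← Par.pE_single, h2, pE_pow]
    exact (pow_dvd_pow _ h1).trans (top (Nat.mul_pos (pow_pos P.hp.pos e) (pos b)) c).1

lemma Dv.pT {K : ℕ} {d : Mon P.Ix} (h : Dv K d) :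
    P.pT d - 1 ∈ Pge P.k (fun a : P.Ix => (a.1 : ℤ)) K := by
  have hω : ∀ a : P.Ix, (0 : ℤ) ≤ (a.1 : ℤ) := fun a => Int.natCast_nonneg _
  unfold Par.pT Finsupp.prod
  refine Finset.prod_induction _ (fun v => v - 1 ∈ Pge P.k (fun a : P.Ix => (a.1 : ℤ)) K)
    (fun x y hx hy => ?_) (by simp) fun b _ => ?_
  · have e : x * y - 1 = y * (x - 1) + (y - 1) := by ring
    rw [e]
    exact add_mem (mul_mem hω _ hx) hy
  · obtain ⟨e, c, h1, h2⟩ := h.ex b
    beta_reduce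
    rw [← Par.pT_single, h2, pT_pow]
    exact pow_mem hω (Pge_anti _ (by exact_mod_cast h1) (X_pow_mem b _)) c

lemma Dv.top {d : Mon P.Ix} {s : ℕ} {a : P.Ix} (h : Dv (P.p ^ s * a.1) d) : ∃ c : ℕ,
    d a = P.p ^ s * c ∧ PowerSeries.coeff (P.p ^ s * a.1) (P.pE d - 1) = -(c : P.k) := by
  classical
  have hK : 1 ≤ P.p ^ s * a.1 := Nat.mul_pos (pow_pos P.hp.pos s) (pos a)
  obtain ⟨c, hc⟩ : P.p ^ s ∣ d a := by
    rcases s with _ | t
    · simp
    · exact h a t (Nat.mul_lt_mul_of_pos_right (Nat.pow_lt_pow_right P.hp.one_lt (by omega)) (pos a))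
  have h1 : Dv (P.p ^ s * a.1 + 1) (d.erase a) := fun b t hb => by
    rcases eq_or_ne b a with rfl | hba
    · simp
    · rw [Finsupp.erase_ne hba]
      exact h b t (lt_of_le_of_ne (Nat.lt_succ_iff.1 hb) fun e => hba (uniq e).2)
  refine ⟨c, hc, ?_⟩
  rw [← (ExpP.top (P := P) hK c).2, ← sub_eq_zero, ← map_sub, ← Finsupp.erase_add_single a d,
    Par.pE_add, hc, pE_pow]
  refine PowerSeries.X_pow_dvd_iff.1 ?_ _ (Nat.lt_succ_self _)
  rw [sub_sub_sub_cancel_right, ← sub_one_mul]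
  exact h1.pE.mul_right _

lemma dv_of {d d' : Mon P.Ix} (hd : ∀ b, d b = 0 ∨ d' b = 0) (K : ℕ)
    (h : PowerSeries.X ^ K ∣ P.pE d - P.pE d') : Dv K d ∧ Dv K d' := by
  induction K with
  | zero => exact ⟨fun _ _ h => absurd h (Nat.not_lt_zero _), fun _ _ h => absurd h (Nat.not_lt_zero _)⟩
  | succ K ih =>
    obtain ⟨h1, h2⟩ := ih ((pow_dvd_pow _ K.le_succ).trans h)
    have key : ∀ (b : P.Ix) (s : ℕ), P.p ^ s * b.1 = K →
        P.p ^ (s + 1) ∣ d b ∧ P.p ^ (s + 1) ∣ d' b := by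
      rintro b s rfl
      obtain ⟨c, c1, c2⟩ := h1.top
      obtain ⟨c', c3, c4⟩ := h2.top
      have h3 := PowerSeries.X_pow_dvd_iff.1 h _ (Nat.lt_succ_self _)
      rw [← sub_sub_sub_cancel_right _ _ 1, map_sub, c2, c4, sub_eq_zero, neg_inj] at h3
      have hp := (pow_pos P.hp.pos s).ne'
      have h4 : (c : P.k) = 0 := by
        rcases hd b with h5 | h5
        · rw [c1, mul_eq_zero] at h5
          simp [h5.resolve_left hp]
        · rw [c3, mul_eq_zero] at h5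
          simp [h3, h5.resolve_left hp]
      have h5 : (c' : P.k) = 0 := h3 ▸ h4
      rw [ZMod.natCast_eq_zero_iff] at h4 h5
      rw [c1, c3, pow_succ]
      exact ⟨mul_dvd_mul_left _ h4, mul_dvd_mul_left _ h5⟩
    refine ⟨fun b s hb => ?_, fun b s hb => ?_⟩ <;>
      rcases (Nat.lt_succ_iff.1 hb).lt_or_eq with h3 | h3
    exacts [h1 b s h3, (key b s h3).1, h2 b s h3, (key b s h3).2]

end ExpP

open ExpP

theorem exp_holds (P : Par) : P.Exp := by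
  refine ⟨fun v hv K => ?_, fun K0 v h0 hv K => ?_⟩
  · have : ∀ K, P.N ≤ K → ∃ n, PowerSeries.X ^ K ∣ v - P.pE n := by
      intro K hK
      induction K, hK using Nat.le_induction with
      | base => exact ⟨0, by rwa [pE_zero]⟩
      | succ K hK ih =>
        obtain ⟨n, hn⟩ := ih
        obtain ⟨s, a, rfl⟩ := decomp (P := P) K hK
        exact ⟨_, step hn⟩
    obtain ⟨n, hn⟩ := this (P.N + K) (by omega)
    exact ⟨n, (pow_dvd_pow _ (by omega)).trans hn⟩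
  · obtain ⟨n, h1, h2⟩ := e1_aux h0 hv (K0 + 1 + K) (by omega)
    exact ⟨n, (pow_dvd_pow _ (by omega)).trans h1, h2⟩

theorem rel_holds (P : Par) : P.Rel := by
  intro K n n' α h hα
  have e1 : n = n ⊓ n' + (n - n') := by
    ext b; simp only [Finsupp.add_apply, Finsupp.inf_apply, Finsupp.tsub_apply]; omega
  have e2 : n' = n ⊓ n' + (n' - n) := by
    ext b; simp only [Finsupp.add_apply, Finsupp.inf_apply, Finsupp.tsub_apply]; omega
  have hu : IsUnit (P.pE (n ⊓ n')) := by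
    rw [PowerSeries.isUnit_iff_constantCoeff]
    have := PowerSeries.X_dvd_iff.1
      ((dvd_pow_self _ (by have := P.hN; omega)).trans (P.pE_ord (n ⊓ n')))
    rw [map_sub, map_one, sub_eq_zero] at this
    rw [this]
    exact isUnit_one
  have h1 : PowerSeries.X ^ K ∣ P.pE (n - n') - P.pE (n' - n) := by
    rw [← hu.dvd_mul_left, mul_sub, ← Par.pE_add, ← Par.pE_add, ← e1, ← e2]
    exact h
  obtain ⟨h2, h3⟩ := dv_of (fun b => by simp only [Finsupp.tsub_apply]; omega) K h1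
  have h4 : P.pT n - P.pT n' ∈ Pge P.k (fun a : P.Ix => (a.1 : ℤ)) K := by
    have e : P.pT n - P.pT n' =
        P.pT (n ⊓ n') * ((P.pT (n - n') - 1) - (P.pT (n' - n) - 1)) := by
      rw [sub_sub_sub_cancel_right, mul_sub, ← Par.pT_add, ← Par.pT_add, ← e1, ← e2]
    rw [e]
    exact mul_mem (fun a => Int.natCast_nonneg _) _ (sub_mem h2.pT h3.pT)
  rw [← sub_eq_zero, ← coeff_sub]
  by_contra h5
  have h6 := mem_Pge.1 h4 α (mem_support_iff.2 h5)
  have h7 : Finsupp.weight (fun a : P.Ix => (a.1 : ℤ)) α =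
      (Finsupp.weight (fun a : P.Ix => a.1) α : ℕ) := by
    simp [Finsupp.weight_apply, Finsupp.sum]
  omega

end CdI
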