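import Pool.Agent.P.MP_013f39_al.Inf.Api

/-! Contracting homotopy of the Koszul complex. -/

namespace CdI.Kos

open Cd3 MvPolynomial

variable {k : Type} [Field k] {ι : Type} [LinearOrder ι] {σ : Type}

open Classical in
/-- the invariant multidegree -/
noncomputable def nu (κ : ι → k) (v : ι → σ) (I : Finset ι) (μ : Mon σ) : Mon σ :=
  μ + ∑ i ∈ I.filter (fun i => κ i ≠ 0), Finsupp.single (v i) 1

open Classical in
/-- the chosen index -/
noncomputable def ch (κ : ι → k) (v : ι → σ) (ν : Mon σ) : Option ι :=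
  if h : ∃ i, κ i ≠ 0 ∧ ν (v i) ≠ 0 then some h.choose else none

/-- the homotopy along one index -/
noncomputable def hi (κ : ι → k) (v : ι → σ) (i : ι) (z : Finset ι → Mon σ → k) (I : Finset ι)
    (μ : Mon σ) : k :=
  if i ∈ I then 0 else sg k i I * (κ i)⁻¹ * z (insert i I) (μ - Finsupp.single (v i) 1)

/-- the homotopy -/
noncomputable def hh (κ : ι → k) (v : ι → σ) : Module.End k (Finset ι → Mon σ → k) where
  toFun z I μ := (ch κ v (nu κ v I μ)).elim 0 fun i => hi κ v i z I μ
  map_add' z z' := by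
    ext I μ
    simp only [Pi.add_apply]
    cases ch κ v (nu κ v I μ) with
    | none => simp
    | some i => by_cases h : i ∈ I <;> simp [hi, h, mul_add]
  map_smul' c z := by
    ext I μ
    simp only [Pi.smul_apply, RingHom.id_apply, smul_eq_mul]
    cases ch κ v (nu κ v I μ) with
    | none => simp
    | some i => by_cases h : i ∈ I <;> simp [hi, h, mul_left_comm]

lemma hh_apply (κ : ι → k) (v : ι → σ) (z : Finset ι → Mon σ → k) (I : Finset ι) (μ : Mon σ) :
    hh κ v z I μ = (ch κ v (nu κ v I μ)).elim 0 fun i => hi κ v i z I μ := rfl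

lemma ch_spec {κ : ι → k} {v : ι → σ} {ν : Mon σ} {i : ι} (h : ch κ v ν = some i) :
    κ i ≠ 0 ∧ ν (v i) ≠ 0 := by
  unfold ch at h
  split_ifs at h with h1
  rw [← Option.some.inj h]
  exact h1.choose_spec

lemma ch_ex {κ : ι → k} {v : ι → σ} {ν : Mon σ} (h : ∃ i, κ i ≠ 0 ∧ ν (v i) ≠ 0) :
    ∃ i, ch κ v ν = some i := ⟨h.choose, by unfold ch; rw [dif_pos h]⟩

lemma nu_erase {κ : ι → k} {v : ι → σ} {I : Finset ι} {a : ι} (ha : a ∈ I) (h0 : κ a ≠ 0)
    (μ : Mon σ) : nu κ v (I.erase a) (μ + Finsupp.single (v a) 1) = nu κ v I μ := by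
  classical
  unfold nu
  rw [Finset.filter_erase, add_assoc, Finset.add_sum_erase _ (fun i => Finsupp.single (v i) 1)
    (Finset.mem_filter.2 ⟨ha, h0⟩)]

lemma nu_out {κ : ι → k} {v : ι → σ} (hv : ∀ i i', κ i ≠ 0 → κ i' ≠ 0 → v i = v i' → i = i')
    {I : Finset ι} {i : ι} (hi : i ∉ I) (h0 : κ i ≠ 0) (μ : Mon σ) :
    nu κ v I μ (v i) = μ (v i) := by
  classical
  unfold nu
  rw [Finsupp.add_apply, Finsupp.finsetSum_apply, Finset.sum_eq_zero, add_zero]
  intro a ha
  rw [Finset.mem_filter] at ha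
  rw [Finsupp.single_apply, if_neg]
  intro h
  exact hi (hv a i ha.2 h0 h ▸ ha.1)

lemma nu_ne {κ : ι → k} {v : ι → σ} {I : Finset ι} {i : ι} (h0 : κ i ≠ 0) {μ : Mon σ}
    (h : i ∈ I ∨ μ (v i) ≠ 0) : nu κ v I μ (v i) ≠ 0 := by
  classical
  unfold nu
  rw [Finsupp.add_apply, Finsupp.finsetSum_apply]
  rcases h with h | h
  · have := Finset.single_le_sum (f := fun a => (Finsupp.single (v a) 1 : Mon σ) (v i))
      (fun _ _ => Nat.zero_le _) (Finset.mem_filter.2 ⟨h, h0⟩ : i ∈ I.filter fun i => κ i ≠ 0)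
    simp only [Finsupp.single_eq_same] at this
    omega
  · omega

lemma kz_val (κ : ι → k) (v : ι → σ) (z : Finset ι → Mon σ → k) (I : Finset ι) (μ : Mon σ) :
    kz (fun a => κ a • del k (v a)) z I μ =
      ∑ a ∈ I, sg k a I * (κ a * z (I.erase a) (μ + Finsupp.single (v a) 1)) := by
  rw [kz_apply, Finset.sum_apply]
  rfl

end CdI.Kos

namespace CdI

open Kos

theorem kos_holds : KosStm := by
  intro k _ ι _ σ κ v hv
  refine ⟨hh κ v, fun z I μ ⟨i0, h0, h1⟩ => ?_, fun z I μ h => ?_⟩
  · obtain ⟨i, hc⟩ := ch_ex (κ := κ) (v := v) ⟨i0, h0, nu_ne h0 h1⟩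
    obtain ⟨hk, hn⟩ := ch_spec hc
    have e1 : kz (fun a => κ a • del k (v a)) (hh κ v z) I μ =
        ∑ a ∈ I, sg k a I * (κ a * hi κ v i z (I.erase a) (μ + Finsupp.single (v a) 1)) := by
      rw [kz_val]
      refine Finset.sum_congr rfl fun a ha => ?_
      by_cases ha0 : κ a = 0
      · simp [ha0]
      · rw [hh_apply, nu_erase ha ha0, hc]
        rfl
    rw [e1, hh_apply, hc, Option.elim_some]
    by_cases hI : i ∈ I
    · rw [Finset.sum_eq_single_of_mem i hI]
      · unfold hi
        rw [if_pos hI, if_neg (Finset.notMem_erase i I), Finset.insert_erase hI, sg_erase i hI,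
          if_neg (lt_irrefl i), add_tsub_cancel_right, add_zero]
        have := sg_mul_self (k := k) i I
        field_simp
        linear_combination z I μ * this
      · intro a _ hne
        unfold hi
        rw [if_pos (Finset.mem_erase.2 ⟨hne.symm, hI⟩)]
        simp
    · rw [nu_out hv hI hk] at hn
      have hle : Finsupp.single (v i) 1 ≤ μ := Finsupp.single_le_iff.2 (Nat.pos_of_ne_zero hn)
      unfold hi
      rw [if_neg hI, kz_val, Finset.sum_insert hI, Finset.erase_insert hI,
        tsub_add_cancel_of_le hle, sg_insert i hI, if_neg (lt_irrefl i), mul_add, Finset.mul_sum,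
        add_left_comm, ← Finset.sum_add_distrib, Finset.sum_eq_zero, add_zero]
      · have := sg_mul_self (k := k) i I
        field_simp
        linear_combination z I μ * this
      · intro a ha
        have hne : a ≠ i := fun h => hI (h ▸ ha)
        rw [if_neg fun h => hI (Finset.mem_of_mem_erase h), sg_erase i ha, sg_insert a hI,
          Finset.erase_insert_of_ne hne.symm, tsub_add_eq_add_tsub hle]
        rcases lt_or_gt_of_ne hne with h | h
        · rw [if_pos h, if_neg h.not_gt]
          ring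
        · rw [if_neg h.not_gt, if_pos h]
          ring
  · rw [hh_apply] at h
    cases hc : ch κ v (nu κ v I μ) with
    | none => rw [hc] at h; exact absurd rfl h
    | some i =>
      rw [hc, Option.elim_some] at h
      obtain ⟨hk, hn⟩ := ch_spec hc
      unfold hi at h
      by_cases hI : i ∈ I
      · rw [if_pos hI] at h; exact absurd rfl h
      · rw [if_neg hI] at h
        rw [nu_out hv hI hk] at hn
        exact ⟨i, hk, hI, hn, right_ne_zero_of_mul h⟩

end CdI
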