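import Pool.Agent.P.MP_013f39_al.Inf.Api

/-! Infinite cohomological dimension of `H_r`: the final count. -/

namespace CdI

open Cd3 MvPolynomial

namespace Main

variable {P : Par}

lemma word_const (c : P.k) (a : P.Ix) (l : List P.Ix) : P.word (a :: l) (fun _ => c) = 0 := by
  induction l generalizing a with
  | nil => ext x; simp [Par.word_cons, Par.word_nil, Par.Dl_apply]
  | cons b l ih => rw [Par.word_cons, ih, map_zero]

lemma filV_single (J : Finset P.Ix) :
    P.FilV P.w (wI P.w J) fun _ => (Pi.single J 1 : P.Lam) := by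
  intro I l hl
  by_cases h : I = J
  · subst h
    rcases l with _ | ⟨a, l⟩
    · simp at hl
    · rw [word_const]; rfl
  · have : (fun _ : P.Gam => (Pi.single J 1 : P.Lam) I) = 0 := by ext; simp [h]
    rw [this, map_zero]; rfl

lemma single_mem (J : Finset P.Ix) : (Pi.single J 1 : P.Lam) ∈ P.LamD J.card := by
  refine ⟨(Set.finite_singleton J).subset fun I hI => ?_, fun I hI => ?_⟩
  · by_contra h; exact hI (Pi.single_eq_of_ne h _)
  · by_contra h; exact hI (Pi.single_eq_of_ne (by rintro rfl; exact h rfl) _)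

lemma cocycle (hp : P.Psi0) {ψ} {J : Finset P.Ix} (h : P.RA ψ J.card)
    (hJ : wI P.w J < (J.card + 1) * (P.q * P.N)) : ψ (fun _ => Pi.single J 1) = 0 := by
  ext I
  have h1 := Par.DD_const (single_mem J)
  by_contra h0
  have h2 := (h.deg _ h1).2 I h0
  have h3 : ((J.card + 1 : ℕ) : ℤ) * (P.q * P.N) ≤ wI P.w I := by
    rw [← h2, ← nsmul_eq_mul]
    exact Finset.card_nsmul_le_sum _ _ _ fun a _ => Par.qN_le_w a
  push_cast at h3
  rw [h.lead _ h1 I ((filV_single J).mono (by omega)), hp.k1 _ _ I (filV_single J) (by omega)] at h0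
  exact h0 rfl

lemma arith (m C : ℕ) : ∃ T, 2 ≤ T ∧ C * T ^ m < T.choose (m + 1) := by
  obtain ⟨s, hs⟩ : ∃ s, s = (m + 1).factorial * C * 2 ^ m + m + 1 := ⟨_, rfl⟩
  refine ⟨2 * s, by omega, ?_⟩
  by_contra h
  have h1 := Nat.pow_sub_le_descFactorial (2 * s) (m + 1)
  rw [Nat.descFactorial_eq_factorial_mul_choose] at h1
  have h2 : s ^ (m + 1) ≤ (2 * s + 1 - (m + 1)) ^ (m + 1) := Nat.pow_le_pow_left (by omega) _
  have h3 : s * s ^ m ≤ (m + 1).factorial * C * 2 ^ m * s ^ m := by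
    calc s * s ^ m = s ^ (m + 1) := by ring
      _ ≤ (m + 1).factorial * (C * (2 * s) ^ m) :=
        (h2.trans h1).trans (Nat.mul_le_mul_left _ (not_lt.1 h))
      _ = _ := by rw [mul_pow]; ring
  have := Nat.le_of_mul_le_mul_right h3 (pow_pos (by omega) _)
  omega

end Main

open Main

theorem main_of (hVan : VanStm) (hRes : ∀ (P : Par) n, ∃ ψ, P.Res n ψ) (hDs : ∀ P : Par, P.Ds)
    (hAct : ∀ (P : Par) L, ∃ act, P.Mod L act) (hCpx : ∀ P : Par, P.Cpx)
    (hDesc : ∀ P : Par, P.Desc) (hSmall : ∀ P : Par, P.Small) (hPsi : ∀ P : Par, P.Psi0)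
    (p r m : ℕ) [hp : Fact p.Prime] (hr : 1 ≤ r) : ¬ VanN (SS p r) m 1 := by
  intro h
  obtain ⟨T, hT, hC⟩ := arith m ((2 * m + 1) * (p ^ r) ^ (2 * m) *
    ((2 * m + 1) ^ m * ((5 * m + 2) * (p * (m + 1))) ^ m))
  let P : Par := ⟨p, r, (m + 1) * T, hp.out, hr, by nlinarith⟩
  have hN : P.N = (m + 1) * T := rfl
  have hTN : T ≤ P.N := by rw [hN]; nlinarith
  have hM := P.two_N_le
  obtain ⟨ψ, hψ⟩ := hRes P (m + 1)
  choose act hact using hAct P
  let ι : Fin T ↪ P.Ix := ⟨fun i => ⟨P.N + i, by omega, Or.inl (by have := i.2; omega)⟩,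
    fun i j hij => by
      have := congrArg Subtype.val hij
      ext; simpa using this⟩
  have hι : ∀ J ∈ (Finset.univ.map ι).powersetCard (m + 1), ∀ a ∈ J, a.1 < P.N + T := by
    intro J hJ a ha
    obtain ⟨i, -, rfl⟩ := Finset.mem_map.1 ((Finset.mem_powersetCard.1 hJ).1 ha)
    exact Nat.add_lt_add_left i.2 _
  have hA : ∀ J ∈ (Finset.univ.map ι).powersetCard (m + 1), ∀ a ∈ J, P.Act a := fun J hJ a ha => by
    have := hι J hJ a ha
    unfold Par.Act; omega
  have key := hDesc P m _ (fun L => P.dL ψ (act L)) _ (fun L => (hCpx P _ ψ L _ hψ (hact L)).1)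
    (hSmall P m (by rw [hN]; nlinarith)) hA (fun J hJ => by
      have hc := (Finset.mem_powersetCard.1 hJ).2
      obtain ⟨v, hv, hv'⟩ := hDs P m ψ hψ (hVan p _ _ m P.N P.hN h) (Pi.single J 1)
        (hc ▸ single_mem J) (cocycle (hPsi P) (hψ.ra _ hc.le) (by
          have h1 : wI P.w J ≤ J.card • ((P.q : ℤ) * (P.N + T - 1)) := by
            refine Finset.sum_le_card_nsmul _ _ _ fun a ha => ?_
            have := hι J hJ a ha
            rw [Par.w_act (hA J hJ a ha)]
            exact mul_le_mul_of_nonneg_left (by omega) (Int.natCast_nonneg _)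
          have h2 : (2 : ℤ) ≤ P.q := by exact_mod_cast P.two_le_q
          have h3 : (P.N : ℤ) = (m + 1) * T := by rw [hN]; push_cast; ring
          rw [hc, nsmul_eq_mul] at h1
          rw [hc]
          push_cast at h1 ⊢
          have h4 : ((m : ℤ) + 1) * (P.q * (P.N + T - 1)) + (m + 1) * P.q =
              (m + 1 + 1) * (P.q * P.N) := by rw [h3]; ring
          have : 0 < ((m : ℤ) + 1) * P.q := by positivity
          omega))
      exact ⟨v, hv, fun L => by rw [(hCpx P _ ψ L _ hψ (hact L)).2, hv']⟩)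
  rw [Finset.card_powersetCard, Finset.card_map, Finset.card_univ, Fintype.card_fin] at key
  refine absurd key (not_le.2 (lt_of_eq_of_lt ?_ hC))
  change (2 * m + 1) * (p ^ r) ^ (2 * m) * ((2 * m + 1) ^ m *
    ((5 * m + 2) * (p * ((m + 1) * T))) ^ m) = _
  simp only [mul_pow]; ring

end CdI
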