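import Pool.Agent.P.MP_013f39_al.Inf.Api

/-! The quotient of the power series ring by `y^R + T` is free on the powers `y^i`, `i < R`. -/

namespace CdI

open PowerSeries

namespace Norm1

variable {A : Type} [CommRing A]

lemma mul_mem {I : Ideal A} {t : ℕ} {q T : PowerSeries A} (hq : ∀ m, coeff m q ∈ I ^ t)
    (hT : ∀ m, coeff m T ∈ I) (m : ℕ) : coeff m (q * T) ∈ I ^ (t + 1) := by
  rw [coeff_mul, pow_succ]
  exact Ideal.sum_mem _ fun x _ => Ideal.mul_mem_mul (hq _) (hT _)

lemma split (R : ℕ) (f : PowerSeries A) :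
    f = (∑ i : Fin R, coeff (i : ℕ) f • (X : PowerSeries A) ^ (i : ℕ)) +
      (mk fun i => coeff (i + R) f) * X ^ R := by
  ext n
  rw [map_add, map_sum, coeff_mul_X_pow']
  simp only [map_smul, coeff_X_pow, smul_eq_mul, mul_ite, mul_one, mul_zero, coeff_mk]
  by_cases h : R ≤ n
  · rw [if_pos h, Nat.sub_add_cancel h, Finset.sum_eq_zero, zero_add]
    intro i _
    rw [if_neg (by have := i.2; omega)]
  · rw [if_neg h, add_zero, Finset.sum_eq_single (⟨n, by omega⟩ : Fin R)]
    · simp
    · intro i _ hi
      rw [if_neg fun h' => hi (Fin.ext h'.symm)]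
    · simp

lemma eq_zero {I : Ideal A} {e : ℕ} (hI : I ^ e = ⊥) {f : PowerSeries A}
    (hf : ∀ m, coeff m f ∈ I ^ e) : f = 0 := by
  ext m
  have := hf m
  rwa [hI, Ideal.mem_bot] at this

end Norm1

theorem norm1_holds : Norm1Stm := by
  intro A _ I e R T hI hT
  let π := Ideal.Quotient.mkₐ A (Ideal.span {(X : PowerSeries A) ^ R + T})
  have hli : LinearIndependent A fun i : Fin R => π (X ^ (i : ℕ)) := by
    rw [Fintype.linearIndependent_iff]
    intro c hc i
    have h1 : π (∑ i : Fin R, c i • (X : PowerSeries A) ^ (i : ℕ)) = 0 := by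
      rw [map_sum]
      simpa only [map_smul] using hc
    obtain ⟨q, hq⟩ := Ideal.mem_span_singleton'.1 (Ideal.Quotient.eq_zero_iff_mem.1 h1)
    have h2 : ∀ t m, coeff m q ∈ I ^ t := by
      intro t
      induction t with
      | zero => simp
      | succ t ih =>
        intro m
        have h3 := congrArg (coeff (m + R)) hq
        rw [mul_add, map_add, coeff_mul_X_pow, map_sum, Finset.sum_eq_zero (by
          intro j _
          rw [map_smul, coeff_X_pow, if_neg (by have := j.2; omega), smul_zero])] at h3
        rw [eq_neg_of_add_eq_zero_left h3]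
        exact neg_mem (Norm1.mul_mem ih hT _)
    rw [Norm1.eq_zero hI (h2 e), zero_mul] at hq
    have h3 := congrArg (coeff (i : ℕ)) hq
    rw [map_zero, map_sum, Finset.sum_eq_single i] at h3
    · simpa using h3.symm
    · intro j _ hj
      rw [map_smul, coeff_X_pow, if_neg fun h' => hj (Fin.ext h'.symm), smul_zero]
    · simp
  have hsp : ⊤ ≤ Submodule.span A (Set.range fun i : Fin R => π (X ^ (i : ℕ))) := by
    rintro x -
    obtain ⟨f, rfl⟩ := Ideal.Quotient.mkₐ_surjective A _ x
    have h1 : ∀ t, ∃ g : PowerSeries A, (∀ m, coeff m g ∈ I ^ t) ∧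
        π f - π g ∈ Submodule.span A (Set.range fun i : Fin R => π (X ^ (i : ℕ))) := by
      intro t
      induction t with
      | zero => exact ⟨f, by simp, by simp⟩
      | succ t ih =>
        obtain ⟨g, hg, hs⟩ := ih
        refine ⟨-((mk fun i => coeff (i + R) g) * T), fun m => ?_, ?_⟩
        · rw [map_neg]
          exact neg_mem (Norm1.mul_mem (fun m => by rw [coeff_mk]; exact hg _) hT m)
        · have h2 : π ((mk fun i => coeff (i + R) g) * (X ^ R + T)) = 0 :=
            Ideal.Quotient.eq_zero_iff_mem.2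
              (Ideal.mul_mem_left _ _ (Ideal.mem_span_singleton_self _))
          have h3 : π f - π (-((mk fun i => coeff (i + R) g) * T)) = π f - π g +
              π (∑ i : Fin R, coeff (i : ℕ) g • (X : PowerSeries A) ^ (i : ℕ)) := by
            have h4 := congrArg π (Norm1.split R g)
            rw [map_add] at h4
            rw [mul_add, map_add] at h2
            rw [map_neg]
            linear_combination h2 + h4
          rw [h3, map_sum]
          refine add_mem hs (Submodule.sum_mem _ fun i _ => ?_)
          rw [map_smul]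
          exact Submodule.smul_mem _ _ (Submodule.subset_span ⟨i, rfl⟩)
    obtain ⟨g, hg, hs⟩ := h1 e
    rwa [Norm1.eq_zero hI hg, map_zero, sub_zero] at hs
  exact ⟨Module.Basis.mk hli hsp, fun i => by rw [Module.Basis.mk_apply]; rfl⟩

end CdI
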