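import Pool.Agent.P.MP_013f39_al.Inf.Api

/-! Infinite cohomological dimension of `H_r`: filtered estimates for norms. -/

namespace CdI.Norm2

open PowerSeries

section filt

variable {A : Type} [CommRing A] {O : ℤ → AddSubgroup A} (hO : Antitone O)
  (hm : ∀ s t x y, x ∈ O s → y ∈ O t → x * y ∈ O (s + t)) (h1 : (1 : A) ∈ O 0)

include hm h1 in
lemma n2_prod {ι : Type} (S : Finset ι) (x : ι → A) (g : ι → ℤ) (h : ∀ c ∈ S, x c ∈ O (g c)) :
    ∏ c ∈ S, x c ∈ O (∑ c ∈ S, g c) := by
  classical
  induction S using Finset.induction_on with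
  | empty => simpa using h1
  | insert a S ha ih =>
    rw [Finset.prod_insert ha, Finset.sum_insert ha]
    exact hm _ _ _ _ (h a (Finset.mem_insert_self _ _))
      (ih fun c hc => h c (Finset.mem_insert_of_mem hc))

include hO hm in
lemma n2_prod_one {ι : Type} (S : Finset ι) (x : ι → A) (D : ℤ) (hD : 0 ≤ D)
    (h : ∀ c, x c ∈ O D) : ∏ c ∈ S, (1 - x c) - 1 + ∑ c ∈ S, x c ∈ O (2 * D) := by
  classical
  induction S using Finset.induction_on with
  | empty => simp
  | insert a S ha ih =>
    rw [Finset.prod_insert ha, Finset.sum_insert ha]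
    have hs : ∑ c ∈ S, x c ∈ O D := sum_mem fun c _ => h c
    have e : (1 - x a) * ∏ c ∈ S, (1 - x c) - 1 + (x a + ∑ c ∈ S, x c) =
        (∏ c ∈ S, (1 - x c) - 1 + ∑ c ∈ S, x c) + x a * ∑ c ∈ S, x c -
          x a * (∏ c ∈ S, (1 - x c) - 1 + ∑ c ∈ S, x c) := by ring
    rw [e]
    exact sub_mem (add_mem ih (hO (by omega) (hm _ _ _ _ (h a) hs)))
      (hO (by omega) (hm _ _ _ _ (h a) ih))

lemma n2_exists_lt {R : ℕ} (σ : Equiv.Perm (Fin R)) (hσ : σ ≠ 1) : ∃ c, σ c < c := by
  by_contra hc
  push Not at hc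
  apply hσ
  have hs : ∑ c : Fin R, (c : ℕ) = ∑ c : Fin R, (σ c : ℕ) :=
    (Equiv.sum_comp σ fun c => (c : ℕ)).symm
  have := (Finset.sum_eq_sum_iff_of_le (s := Finset.univ) (f := fun c : Fin R => (c : ℕ))
    (g := fun c => (σ c : ℕ)) fun c _ => hc c).1 hs
  ext c
  simpa using (this c (Finset.mem_univ c)).symm

include hO hm h1 in
lemma n2_det {R : ℕ} (N : Matrix (Fin R) (Fin R) A) (d b : ℤ) (wt : Fin R → ℤ) (hd : 0 ≤ d)
    (hb : 0 ≤ b) (hN : ∀ a c, N a c ∈ O (d + wt c - wt a))
    (hN' : ∀ a c, a ≤ c → N a c ∈ O (d + b + wt c - wt a)) :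
    (1 - N).det - 1 + ∑ c, N c c ∈ O (2 * d + b) := by
  classical
  have hdiag : ∀ c, N c c ∈ O (d + b) := fun c => by
    have := hN' c c le_rfl
    rwa [add_sub_cancel_right] at this
  rw [Matrix.det_apply, ← Finset.add_sum_erase _ _ (Finset.mem_univ (1 : Equiv.Perm (Fin R)))]
  have e1 : (Equiv.Perm.sign (1 : Equiv.Perm (Fin R))) •
      ∏ c, (1 - N) ((1 : Equiv.Perm (Fin R)) c) c = ∏ c, (1 - N c c) := by
    simp
  rw [e1, add_sub_right_comm, add_right_comm]
  refine add_mem (hO (by omega) (n2_prod_one hO hm _ (fun c => N c c) (d + b) (by omega) hdiag))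
    (sum_mem fun σ hσ => ?_)
  have hσ1 : σ ≠ 1 := (Finset.mem_erase.1 hσ).1
  rw [Units.smul_def]
  refine zsmul_mem ?_ _
  set h : Fin R → ℤ := fun c => if σ c = c then 0 else d + if σ c ≤ c then b else 0 with hh
  have hp := n2_prod hm h1 Finset.univ (fun c => (1 - N) (σ c) c)
    (fun c => h c + (wt c - wt (σ c))) (by
      intro c _
      by_cases hc : σ c = c
      · simp only [hh, hc, if_true, Matrix.sub_apply, Matrix.one_apply_eq, sub_self, add_zero]
        exact sub_mem h1 (hO (by omega) (hdiag c))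
      · simp only [hh, hc, if_false, Matrix.sub_apply, Matrix.one_apply_ne hc, zero_sub]
        refine neg_mem ?_
        split_ifs with hle
        · exact hO (by omega) (hN' _ _ hle)
        · exact hO (by omega) (hN _ _))
  refine hO ?_ hp
  rw [Finset.sum_add_distrib, Finset.sum_sub_distrib, Equiv.sum_comp σ wt, sub_self, add_zero]
  obtain ⟨c, hc⟩ := n2_exists_lt σ hσ1
  have hc2 : σ (σ c) ≠ σ c := fun e => hc.ne (σ.injective e)
  have hnn : ∀ x, 0 ≤ h x := fun x => by
    simp only [hh]
    split_ifs <;> omega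
  have hle : ∑ x ∈ ({c, σ c} : Finset (Fin R)), h x ≤ ∑ x, h x :=
    Finset.sum_le_sum_of_subset_of_nonneg (Finset.subset_univ _) fun x _ _ => hnn x
  rw [Finset.sum_pair hc.ne'] at hle
  have e2 : h c = d + b := by simp only [hh, hc.ne, if_false, hc.le, if_true]
  have e3 : d ≤ h (σ c) := by
    simp only [hh, hc2, if_false]
    split_ifs <;> omega
  omega

/-- the series has weight at least `s` when the variable has weight `l` -/
def FF (O : ℤ → AddSubgroup A) (l s : ℤ) (f : PowerSeries A) : Prop :=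
  ∀ m : ℕ, coeff m f ∈ O (s - l * m)

include hm in
lemma n2_FF_mul {l s t : ℤ} {f g : PowerSeries A} (hf : FF O l s f) (hg : FF O l t g) :
    FF O l (s + t) (f * g) := by
  intro m
  rw [coeff_mul]
  refine sum_mem fun p hp => ?_
  have e : s + t - l * m = s - l * p.1 + (t - l * p.2) := by
    rw [← Finset.HasAntidiagonal.mem_antidiagonal.1 hp]; push_cast; ring
  rw [e]
  exact hm _ _ _ _ (hf _) (hg _)

include h1 in
lemma n2_FF_X (l : ℤ) (c : ℕ) : FF O l (l * c) (X ^ c) := by
  intro m
  rw [coeff_X_pow]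
  split_ifs with h
  · rw [h, sub_self]; exact h1
  · exact zero_mem _

lemma n2_split (R : ℕ) (f : PowerSeries A) :
    f = X ^ R * (PowerSeries.mk fun i => coeff (i + R) f) +
      ∑ i : Fin R, coeff (i : ℕ) f • (X ^ (i : ℕ) : PowerSeries A) := by
  ext m
  rw [map_add, coeff_X_pow_mul', map_sum]
  simp only [coeff_smul, coeff_X_pow, smul_eq_mul, mul_ite, mul_one, mul_zero, coeff_mk]
  split_ifs with h
  · rw [Nat.sub_add_cancel h, Finset.sum_eq_zero, add_zero]
    intro i _
    rw [if_neg]
    have := i.2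
    omega
  · rw [zero_add, Finset.sum_eq_single (⟨m, by omega⟩ : Fin R)]
    · simp
    · intro i _ hi
      rw [if_neg]
      intro e
      exact hi (Fin.ext e.symm)
    · simp

lemma n2_coeff_mul {I J : Ideal A} {f g : PowerSeries A} (hf : ∀ m, coeff m f ∈ I)
    (hg : ∀ m, coeff m g ∈ J) (m : ℕ) : coeff m (f * g) ∈ I * J := by
  rw [coeff_mul]
  exact sum_mem fun p _ => Ideal.mul_mem_mul (hf _) (hg _)

lemma n2_mk_X (R : ℕ) (T : PowerSeries A) :
    Ideal.Quotient.mk (Ideal.span {X ^ R + T}) (X ^ R) =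
      Ideal.Quotient.mk (Ideal.span {X ^ R + T}) (-T) := by
  rw [Ideal.Quotient.eq, sub_neg_eq_add]
  exact Ideal.mem_span_singleton_self _

include hO hm in
lemma n2_repr {I : Ideal A} {R : ℕ} {T : PowerSeries A} (hT : ∀ m, coeff m T ∈ I) {l b : ℤ}
    (hb : 0 ≤ b) (hT' : FF O l (l * R + b) T)
    (B : Module.Basis (Fin R) A (PowerSeries A ⧸ Ideal.span {X ^ R + T}))
    (hB : ∀ i, B i = Ideal.Quotient.mk _ (X ^ (i : ℕ))) (n : ℕ) :
    ∀ J : Ideal A, J * I ^ n = ⊥ → ∀ f : PowerSeries A, (∀ m, coeff m f ∈ J) → ∀ s,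
      FF O l s f → ∀ a : Fin R,
        B.repr (Ideal.Quotient.mk _ f) a - coeff (a : ℕ) f ∈ O (s - l * (a : ℕ) + b) := by
  induction n with
  | zero =>
    intro J hJ f hf s _ a
    rw [pow_zero, mul_one] at hJ
    have : f = 0 := by
      ext m
      simpa [hJ] using hf m
    simp [this]
  | succ n ih =>
    intro J hJ f hf s hs a
    set f' : PowerSeries A := PowerSeries.mk fun i => coeff (i + R) f with hf'
    have h1' : FF O l (s - l * R) f' := fun m => by
      rw [hf', coeff_mk]
      have := hs (m + R)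
      have e : s - l * ((m + R : ℕ) : ℤ) = s - l * R - l * m := by push_cast; ring
      rwa [e] at this
    have h2 : FF O l (s + b) (f' * T) := by
      have := n2_FF_mul hm h1' hT'
      have e : s - l * R + (l * R + b) = s + b := by ring
      rwa [e] at this
    have h3 := ih (J * I) (by rw [mul_assoc, ← pow_succ', hJ]) (f' * T)
      (n2_coeff_mul (fun m => by rw [hf', coeff_mk]; exact hf _) hT) _ h2 a
    have e : Ideal.Quotient.mk (Ideal.span {X ^ R + T}) f =
        ∑ i : Fin R, coeff (i : ℕ) f • B i - Ideal.Quotient.mk _ (f' * T) := by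
      conv_lhs => rw [n2_split R f]
      rw [map_add, map_mul, n2_mk_X, map_neg, map_sum, map_mul, ← hf']
      simp only [hB]
      have : ∀ i : Fin R, Ideal.Quotient.mk (Ideal.span {X ^ R + T})
          (coeff (i : ℕ) f • (X ^ (i : ℕ) : PowerSeries A)) =
          coeff (i : ℕ) f • Ideal.Quotient.mk (Ideal.span {X ^ R + T}) (X ^ (i : ℕ)) :=
        fun i => rfl
      simp only [this]
      ring
    rw [e, map_sub, Finsupp.sub_apply, B.repr_sum_self]
    have e2 : ∀ x y : A, coeff (a : ℕ) f - x - coeff (a : ℕ) f = -((x - y) + y) := fun x y => by ring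
    rw [e2 _ (coeff (a : ℕ) (f' * T))]
    exact neg_mem (add_mem (hO (by omega) h3) (hO (by omega) (h2 a)))

end filt

end CdI.Norm2

namespace CdI

open Norm2 PowerSeries

theorem norm2_holds (h : Norm1Stm) : Norm2Stm := by
  intro A _ I e R T hI hT
  obtain ⟨B, hB⟩ := h A I e R T hI hT
  refine ⟨fun v hv => ?_, fun O l b hO hm h1 hl hb hT' i hi => ?_⟩
  · obtain ⟨w, hw⟩ := hv
    have hpow : ∀ n m, coeff m (T ^ n) ∈ I ^ n := by
      intro n
      induction n with
      | zero => intro m; simp
      | succ n ih => intro m; rw [pow_succ, pow_succ]; exact n2_coeff_mul ih hT m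
    have hTe : T ^ e = 0 := by
      ext m
      simpa [hI] using hpow e m
    have : v = 1 + (X ^ R) ^ e * w := by rw [← pow_mul, ← hw]; ring
    rw [this, map_add, map_mul, map_pow, n2_mk_X, ← map_pow, neg_pow, hTe]
    simp
  have hTF : FF O l (l * R + b) T := fun m => by
    have := hT' m
    have e : l * ((R : ℤ) - m) + b = l * R + b - l * m := by ring
    rwa [e] at this
  have key : ∀ f s, FF O l s f → ∀ a : Fin R,
      B.repr (Ideal.Quotient.mk _ f) a - coeff (a : ℕ) f ∈ O (s - l * (a : ℕ) + b) :=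
    fun f => n2_repr hO hm hT hb hTF B hB e ⊤ (by rw [hI, Ideal.mul_bot]) f fun _ => trivial
  have hli : 0 ≤ l * i := by positivity
  have main : ∀ u : PowerSeries A, X ^ i ∣ u → (∀ m, coeff m u ∈ O 0) →
      (∀ c : Fin R, B.repr (Ideal.Quotient.mk _ (u * X ^ (c : ℕ))) c ∈ O (l * i + b)) ∧
      Algebra.norm A (Ideal.Quotient.mk (Ideal.span {X ^ R + T}) (1 - u)) - 1 +
        ∑ c : Fin R, B.repr (Ideal.Quotient.mk _ (u * X ^ (c : ℕ))) c ∈ O (2 * (l * i) + b) := by
    intro u hu hu0
    have hF : FF O l (l * i) u := fun m => by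
      by_cases hmi : m < i
      · rw [X_pow_dvd_iff.1 hu m hmi]; exact zero_mem _
      · refine hO ?_ (hu0 m)
        have : l * i ≤ l * m := mul_le_mul_of_nonneg_left (by exact_mod_cast not_lt.1 hmi) hl
        omega
    have hF' : ∀ c : ℕ, FF O l (l * i + l * c) (u * X ^ c) := fun c =>
      n2_FF_mul hm hF (n2_FF_X h1 l c)
    set N : Matrix (Fin R) (Fin R) A :=
      fun a c => B.repr (Ideal.Quotient.mk _ (u * X ^ (c : ℕ))) a with hN
    have hN1 : ∀ a c : Fin R, N a c ∈ O (l * i + l * (c : ℕ) - l * (a : ℕ)) := fun a c => by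
      have h2 := add_mem (hO (by omega) (key _ _ (hF' c) a)) (hF' c a)
      rwa [sub_add_cancel] at h2
    have hN2 : ∀ a c : Fin R, a ≤ c → N a c ∈ O (l * i + b + l * (c : ℕ) - l * (a : ℕ)) := by
      intro a c hac
      have h2 := key _ _ (hF' c) a
      have h3 : coeff (a : ℕ) (u * X ^ (c : ℕ)) = 0 := by
        rw [coeff_mul_X_pow']
        split_ifs with h4
        · refine X_pow_dvd_iff.1 hu _ ?_
          have : (a : ℕ) ≤ c := hac
          omega
        · rfl
      rw [h3, sub_zero] at h2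
      exact hO (by omega) h2
    have hd := n2_det hO hm h1 N (l * i) b (fun c => l * (c : ℕ)) hli hb hN1 hN2
    have hM : Algebra.leftMulMatrix B (Ideal.Quotient.mk (Ideal.span {X ^ R + T}) (1 - u)) =
        1 - N := by
      rw [map_sub, map_one, map_sub, map_one]
      congr 1
      ext a c
      rw [Algebra.leftMulMatrix_eq_repr_mul, hB, ← map_mul]
    rw [Algebra.norm_eq_matrix_det B, hM]
    refine ⟨fun c => ?_, hd⟩
    have := hN2 c c le_rfl
    rwa [add_sub_cancel_right] at this
  refine ⟨fun v hv hv0 => ?_, fun hl1 hb1 => ?_⟩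
  · obtain ⟨h2, h3⟩ := main (1 - v) (by rw [← neg_sub]; exact hv.neg_right)
      (fun m => by rw [← neg_sub, map_neg]; exact neg_mem (hv0 m))
    rw [sub_sub_cancel] at h3
    have h4 := sub_mem (hO (by omega : l * i + b ≤ 2 * (l * i) + b) h3)
      (sum_mem fun c (_ : c ∈ Finset.univ) => h2 c)
    rwa [add_sub_cancel_right] at h4
  · have hli1 : 1 ≤ l * i := one_le_mul_of_one_le_of_one_le hl1 (by exact_mod_cast hi)
    obtain ⟨-, h3⟩ := main (X ^ i) dvd_rfl (fun m => by
      rw [coeff_X_pow]
      split_ifs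
      · exact h1
      · exact zero_mem _)
    have h4 : ∀ c : Fin R, B.repr (Ideal.Quotient.mk _ (X ^ i * X ^ (c : ℕ))) c +
        (if R ≤ i + c ∧ i ≤ R then coeff (R - i) T else 0) ∈ O (l * i + b + 1) := by
      intro c
      by_cases hc : R ≤ i + c
      · have e1 : (X ^ i * X ^ (c : ℕ) : PowerSeries A) = X ^ R * X ^ (i + c - R) := by
          rw [← pow_add, ← pow_add]; congr 1; omega
        rw [e1, map_mul, n2_mk_X, ← map_mul, neg_mul, map_neg, map_neg, Finsupp.neg_apply]
        have h5 := key _ _ (n2_FF_mul hm hTF (n2_FF_X h1 l (i + c - R))) c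
        have e2 : coeff (c : ℕ) (T * X ^ (i + c - R)) =
            if R ≤ i + c ∧ i ≤ R then coeff (R - i) T else 0 := by
          rw [coeff_mul_X_pow']
          by_cases hiR : i ≤ R
          · rw [if_pos (by omega), if_pos ⟨hc, hiR⟩]
            congr 2
            omega
          · rw [if_neg (by omega), if_neg (fun h => hiR h.2)]
        rw [e2] at h5
        have e3 : l * R + b + l * ((i + c - R : ℕ) : ℤ) - l * (c : ℕ) + b = l * i + b + b := by
          rw [Nat.cast_sub hc]; push_cast; ring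
        rw [e3] at h5
        have h6 := neg_mem (hO (by omega : l * i + b + 1 ≤ l * i + b + b) h5)
        rwa [neg_sub, sub_eq_neg_add] at h6
      · rw [if_neg (fun h => hc h.1), add_zero, ← pow_add,
          ← hB ⟨i + c, by omega⟩, B.repr_self, Finsupp.single_apply, if_neg]
        · exact zero_mem _
        · intro e
          have := congrArg Fin.val e
          simp only at this
          omega
    have h5 : ∑ c : Fin R, (if R ≤ i + c ∧ i ≤ R then coeff (R - i) T else 0) =
        if i ≤ R then i • coeff (R - i) T else 0 := by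
      split_ifs with hiR
      · simp only [hiR, and_true]
        rw [← Finset.sum_filter, Finset.sum_const]
        congr 1
        rw [Finset.card_filter, Fin.sum_univ_eq_sum_range (fun c => if R ≤ i + c then 1 else 0) R,
          ← Finset.card_filter]
        have : (Finset.range R).filter (fun c => R ≤ i + c) = Finset.Ico (R - i) R := by
          ext c
          simp only [Finset.mem_filter, Finset.mem_range, Finset.mem_Ico]
          omega
        rw [this, Nat.card_Ico]
        omega
      · simp [hiR]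
    have h6 := sub_mem (hO (by omega : l * i + b + 1 ≤ 2 * (l * i) + b) h3)
      (sum_mem fun c (_ : c ∈ Finset.univ) => h4 c)
    rw [Finset.sum_add_distrib, h5] at h6
    have e : ∀ x y z : A, x + y - (y + z) = x - z := fun x y z => by ring
    rwa [e] at h6

end CdI
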