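import Pool.Agent.P.MP_013f39_al.Inf.Api

/-! Package PeelA: truncation of Koszul cochains, and the substitution killing a linear form. -/

namespace CdI

open Cd3 MvPolynomial

namespace PeelA

variable {k : Type} [Field k] {σ τ : Type}

lemma mon_Ple {s : ℤ} {μ : Mon σ} (h : (μ.degree : ℤ) ≤ s) (c : k) :
    monomial μ c ∈ Ple k σ s := (monomial_mem_restrictSupport k).2 (Or.inl h)

lemma X_Ple (c : σ) : (X c : MvPolynomial σ k) ∈ Ple k σ 1 :=
  mon_Ple (by simp) 1

/-- truncation to degree at most `s` -/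
noncomputable def tr (s : ℤ) : Module.End k (MvPolynomial σ k) :=
  (basisMonomials σ k).constr k fun μ => if ((μ : Mon σ).degree : ℤ) ≤ s then monomial μ 1 else 0

lemma tr_mon (s : ℤ) (μ : Mon σ) (c : k) :
    tr s (monomial μ c) = if (μ.degree : ℤ) ≤ s then monomial μ c else 0 := by
  have h1 : (monomial μ c : MvPolynomial σ k) = c • basisMonomials σ k μ := by
    simp [smul_monomial]
  rw [h1, map_smul, tr, Module.Basis.constr_basis]
  split_ifs <;> simp [smul_monomial]

lemma tr_mem (s : ℤ) (F : MvPolynomial σ k) : tr s F ∈ Ple k σ s := by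
  induction F using MvPolynomial.induction_on' with
  | monomial μ c =>
    rw [tr_mon]
    split_ifs with h
    · exact mon_Ple h c
    · exact zero_mem _
  | add a b ha hb => rw [map_add]; exact add_mem ha hb

lemma tr_eq {s : ℤ} {F : MvPolynomial σ k} (h : F ∈ Ple k σ s) : tr s F = F := by
  conv_lhs => rw [F.as_sum, map_sum]
  conv_rhs => rw [F.as_sum]
  refine Finset.sum_congr rfl fun μ hμ => ?_
  rw [tr_mon, if_pos (mem_Ple.1 h μ hμ)]

lemma tr_mul (s : ℤ) (l : σ) (n : ℕ) (F : MvPolynomial σ k) :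
    tr (s + n) (X l ^ n * F) = X l ^ n * tr s F := by
  induction F using MvPolynomial.induction_on' with
  | monomial μ c =>
    rw [X_pow_eq_monomial, monomial_mul, tr_mon, tr_mon, map_add, Finsupp.degree_single]
    by_cases h : (μ.degree : ℤ) ≤ s
    · rw [if_pos h, if_pos (by push_cast; linarith), monomial_mul]
    · rw [if_neg h, if_neg (by push_cast; linarith), mul_zero]
  | add a b ha hb => rw [mul_add, map_add, map_add, ha, hb, mul_add]

lemma hom_Ple (φ : MvPolynomial σ k →ₐ[k] MvPolynomial τ k) (h : ∀ c, φ (X c) ∈ Ple k τ 1)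
    {s : ℤ} {F : MvPolynomial σ k} (hF : F ∈ Ple k σ s) : φ F ∈ Ple k τ s := by
  have h1 : ∀ μ : Mon σ, φ (monomial μ 1) ∈ Ple k τ (μ.degree : ℤ) := by
    refine mon_ind ?_ fun μ c ih => ?_
    · rw [monomial_zero', C_1, map_one]
      exact mon_Ple (μ := 0) (by simp) 1
    · rw [monomial_add_one, map_mul, map_add, Finsupp.degree_single, Nat.cast_add, Nat.cast_one]
      exact Ple_mul ih (h c)
  rw [F.as_sum, map_sum]
  refine sum_mem fun μ hμ => ?_
  have h2 : (monomial μ (coeff μ F) : MvPolynomial σ k) = coeff μ F • monomial μ 1 := by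
    simp [smul_monomial]
  rw [h2, map_smul]
  exact Submodule.smul_mem _ _ (Ple_mono (mem_Ple.1 hF μ hμ) (h1 μ))

lemma Ple_iff {s : ℤ} {F : MvPolynomial σ k} (h : F ≠ 0) :
    F ∈ Ple k σ s ↔ (F.totalDegree : ℤ) ≤ s := by
  constructor
  · intro h1
    obtain ⟨μ, hμ, h2⟩ := Finset.exists_mem_eq_sup F.support (support_nonempty.2 h)
      fun μ : Mon σ => μ.sum fun _ e => e
    have h3 : F.totalDegree = μ.degree := h2
    rw [h3]
    exact mem_Ple.1 h1 μ hμ
  · intro h1
    refine mem_Ple.2 fun μ hμ => le_trans ?_ h1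
    exact_mod_cast le_totalDegree hμ

variable (P : Par) {Λ : Type} [Fintype Λ]

lemma tr_fj (c : Λ → P.k) (a : P.Ix) (s : ℤ) (F : MvPolynomial Λ P.k) :
    tr (s + (a.1 : ℤ)) (P.fj c a * F) = P.fj c a * tr s F := by
  rw [Par.fj, Finset.sum_mul, Finset.sum_mul, map_sum]
  refine Finset.sum_congr rfl fun l _ => ?_
  rw [smul_mul_assoc, smul_mul_assoc, map_smul, tr_mul]

variable [DecidableEq Λ] (l : Λ) (t : Option {x : Λ // x ≠ l})

omit [Fintype Λ] in
lemma pq_self : P.pq l t (X l) = t.elim 0 X := by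
  rw [Par.pq, aeval_X, dif_pos rfl]

omit [Fintype Λ] in
lemma pq_ne (x : {x : Λ // x ≠ l}) : P.pq l t (X x.1) = X x := by
  rw [Par.pq, aeval_X, dif_neg x.2]

omit [Fintype Λ] [DecidableEq Λ] in
lemma lf_ne : P.lf l t ≠ 0 := by
  rw [Par.lf, sub_ne_zero]
  cases t with
  | none => exact X_ne_zero l
  | some x => exact fun h => x.2 (X_injective h).symm

omit [Fintype Λ] in
lemma pq_lf : P.pq l t (P.lf l t) = 0 := by
  rw [Par.lf, map_sub, pq_self]
  cases t with
  | none => simp
  | some x => rw [Option.elim_some, Option.elim_some, pq_ne, sub_self]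

omit [Fintype Λ] in
lemma lf_dvd (F : MvPolynomial Λ P.k) : P.lf l t ∣ F - rename Subtype.val (P.pq l t F) := by
  induction F using MvPolynomial.induction_on with
  | C a => simp
  | add a b ha hb =>
    have : a + b - rename Subtype.val (P.pq l t (a + b)) =
        (a - rename Subtype.val (P.pq l t a)) + (b - rename Subtype.val (P.pq l t b)) := by
      rw [map_add, map_add]; ring
    rw [this]; exact ha.add hb
  | mul_X a x ha =>
    have h1 : P.lf l t ∣ X x - rename Subtype.val (P.pq l t (X x)) := by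
      by_cases hx : x = l
      · rw [hx, pq_self]
        cases t with
        | none => simp [Par.lf]
        | some y => simp [Par.lf]
      · rw [pq_ne P l t ⟨x, hx⟩, rename_X, sub_self]
        exact dvd_zero _
    have : a * X x - rename Subtype.val (P.pq l t (a * X x)) =
        (a - rename Subtype.val (P.pq l t a)) * X x + rename Subtype.val (P.pq l t a) *
          (X x - rename Subtype.val (P.pq l t (X x))) := by
      rw [map_mul, map_mul]; ring
    rw [this]; exact (ha.mul_right _).add (h1.mul_left _)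

lemma pq_fj (c : Λ → P.k) (a : P.Ix) : P.pq l t (P.fj c a) = P.fj (P.cq c l t) a := by
  have ha : a.1 ≠ 0 := by have := P.hN; have := a.2.1; omega
  rw [Par.fj, Par.fj, map_sum, Fintype.sum_eq_add_sum_subtype_ne _ l]
  simp only [map_smul, map_pow, pq_self, pq_ne, Par.cq, add_smul, Finset.sum_add_distrib]
  rw [add_comm]
  congr 1
  cases t with
  | none => simp [ha]
  | some y => simp [ite_smul]

omit [Fintype Λ] in
lemma pq_rename (F : MvPolynomial {x : Λ // x ≠ l} P.k) : P.pq l t (rename Subtype.val F) = F := by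
  have : (P.pq l t).comp (rename Subtype.val) = AlgHom.id P.k _ :=
    algHom_ext fun x => by rw [AlgHom.comp_apply, rename_X, pq_ne, AlgHom.id_apply]
  exact AlgHom.congr_fun this F

omit [Fintype Λ] [DecidableEq Λ] in
lemma lf_Ple : P.lf l t ∈ Ple P.k Λ 1 := by
  rw [Par.lf]
  refine sub_mem (X_Ple l) ?_
  cases t with
  | none => exact zero_mem _
  | some y => exact X_Ple _

omit [Fintype Λ] in
lemma lf_deg : (P.lf l t).totalDegree ≠ 0 := by
  intro h
  rw [totalDegree_eq_zero_iff_eq_C] at h
  have h1 := pq_lf P l t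
  rw [h, algHom_C, algebraMap_eq, C_eq_zero] at h1
  rw [h1, C_0] at h
  exact lf_ne P l t h

end PeelA

open PeelA

theorem pTr_holds (P : Par) : P.PTr := by
  intro Λ _ c Q s x hx hk
  refine ⟨fun J => tr (s + wI (fun a => (a.1 : ℤ)) J) (x J), ⟨fun J h0 => hx J fun h1 => h0 ?_,
    Par.mem_FP.2 fun J => tr_mem _ _⟩, funext fun I => ?_⟩
  · simp only [h1, map_zero]
  · rw [← tr_eq (Par.mem_FP.1 hk I), Par.kd, kz_apply, kz_apply, map_sum]
    refine Finset.sum_congr rfl fun a ha => ?_
    rw [map_smul]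
    congr 1
    split_ifs
    · rw [LinearMap.mulLeft_apply, LinearMap.mulLeft_apply, ← wI_erase _ ha, ← add_assoc, tr_fj]
    · simp

theorem pq_holds (P : Par) : P.Pq := by
  intro Λ _ _ c l t
  refine ⟨lf_ne P l t, pq_lf P l t, fun F hF => ?_, pq_fj P l t c, pq_rename P l t,
    fun s F hF => hom_Ple _ (fun x => ?_) hF, fun s F hF => hom_Ple (rename Subtype.val)
      (fun x => ?_) hF, fun s F => ⟨fun h => ?_, fun h => ?_⟩⟩
  · have h1 := lf_dvd P l t F
    rwa [hF, map_zero, sub_zero] at h1
  · by_cases hx : x = l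
    · rw [hx, pq_self]
      cases t with
      | none => exact zero_mem _
      | some y => exact X_Ple _
    · rw [pq_ne P l t ⟨x, hx⟩]
      exact X_Ple _
  · rw [rename_X]
    exact X_Ple _
  · by_cases h0 : F = 0
    · rw [h0]; exact zero_mem _
    rw [Ple_iff (mul_ne_zero (lf_ne P l t) h0), totalDegree_mul_of_isDomain (lf_ne P l t) h0] at h
    rw [Ple_iff h0]
    have := lf_deg P l t
    omega
  · rw [add_comm]
    exact Ple_mul (lf_Ple P l t) h

end CdI
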