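import Pool.Agent.P.MP_013f39_al.Inf.Api

/-! Peeling one linear factor; graded Nakayama. -/

namespace CdI

open Cd3 MvPolynomial

namespace PeelB

variable {P : Par} {Λ : Type} [Fintype Λ]

lemma CQ_mono {Q Q' : ℕ → Prop} (h : ∀ n, Q n → Q' n) : P.CQ Λ Q ≤ P.CQ Λ Q' :=
  fun _ hz J h0 => ⟨h _ (hz J h0).1, (hz J h0).2⟩

lemma kd_apply (c : Λ → P.k) (z : Finset P.Ix → MvPolynomial Λ P.k) (I : Finset P.Ix) :
    P.kd c z I = ∑ a ∈ I, sg P.k a I • if P.Act a then P.fj c a * z (I.erase a) else 0 := by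
  rw [Par.kd, kz_apply]
  refine Finset.sum_congr rfl fun a _ => ?_
  split_ifs <;> rfl

lemma kd_mulV (c : Λ → P.k) (g : MvPolynomial Λ P.k) (z : Finset P.Ix → MvPolynomial Λ P.k) :
    P.kd c (P.mulV g z) = P.mulV g (P.kd c z) := by
  ext1 I
  rw [Par.mulV_apply, kd_apply, kd_apply, Finset.mul_sum]
  refine Finset.sum_congr rfl fun a _ => ?_
  split_ifs
  · rw [Par.mulV_apply, mul_smul_comm, mul_left_comm]
  · simp

lemma kd_CQ (c : Λ → P.k) {a : ℕ} {y : Finset P.Ix → MvPolynomial Λ P.k}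
    (hy : y ∈ P.CQ Λ (· + 1 = a)) : P.kd c y ∈ P.CQ Λ (· = a) := by
  intro J h0
  rw [kd_apply] at h0
  obtain ⟨b, hb, h1⟩ := Finset.exists_ne_zero_of_sum_ne_zero h0
  split_ifs at h1 with hA
  · have h2 := hy (J.erase b) (by intro h; simp [h] at h1)
    refine ⟨by rw [← h2.1, Finset.card_erase_add_one hb], fun x hx => ?_⟩
    by_cases h : x = b
    · exact h ▸ hA
    · exact h2.2 x (Finset.mem_erase.2 ⟨h, hx⟩)
  · simp at h1

lemma mulV_inj {g : MvPolynomial Λ P.k} (hg : g ≠ 0) {z z' : Finset P.Ix → MvPolynomial Λ P.k}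
    (h : P.mulV g z = P.mulV g z') : z = z' :=
  _root_.funext fun J => mul_left_cancel₀ hg (congrFun h J)

variable [DecidableEq Λ] (c : Λ → P.k) (l : Λ) (t : Option {x : Λ // x ≠ l})

noncomputable def pV : (Finset P.Ix → MvPolynomial Λ P.k) →ₗ[P.k]
    (Finset P.Ix → MvPolynomial {x : Λ // x ≠ l} P.k) := (P.pq l t).toLinearMap.compLeft _

lemma pV_apply (z : Finset P.Ix → MvPolynomial Λ P.k) (J : Finset P.Ix) :
    pV l t z J = P.pq l t (z J) := rfl

lemma pV_kd (h2 : P.Pq) (z : Finset P.Ix → MvPolynomial Λ P.k) :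
    pV l t (P.kd c z) = P.kd (P.cq c l t) (pV l t z) := by
  ext1 I
  rw [pV_apply, kd_apply, kd_apply, map_sum]
  refine Finset.sum_congr rfl fun a _ => ?_
  split_ifs
  · rw [map_smul, map_mul, (h2 Λ c l t).2.2.2.1, pV_apply]
  · simp

lemma pV_mem (h2 : P.Pq) {a : ℕ} {s : ℤ} {x : Finset P.Ix → MvPolynomial Λ P.k}
    (hx : x ∈ P.CQ Λ (· = a)) (hs : x ∈ P.FP Λ s) (h0 : pV l t (P.kd c x) = 0) :
    pV l t x ∈ P.ZP (P.cq c l t) a s :=
  ⟨⟨fun J h => hx J (by intro h1; simp [pV_apply, h1] at h),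
    Par.mem_FP.2 fun J => (h2 Λ c l t).2.2.2.2.2.1 _ _ (Par.mem_FP.1 hs J)⟩,
    by rw [SetLike.mem_coe, LinearMap.mem_ker, ← pV_kd c l t h2, h0]⟩

/-- a cochain whose reduction is a coboundary -/
lemma split (h2 : P.Pq) {a : ℕ} {x : Finset P.Ix → MvPolynomial Λ P.k} (hx : x ∈ P.CQ Λ (· = a))
    {y : Finset P.Ix → MvPolynomial {x : Λ // x ≠ l} P.k} (hy : y ∈ P.CQ _ (· + 1 = a))
    (h : P.kd (P.cq c l t) y = pV l t x) :
    (fun J => rename Subtype.val (y J)) ∈ P.CQ Λ (· + 1 = a) ∧ ∃ x' ∈ P.CQ Λ (· = a),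
      x = P.kd c (fun J => rename Subtype.val (y J)) + P.mulV (P.lf l t) x' := by
  have h3 : (fun J => rename Subtype.val (y J)) ∈ P.CQ Λ (· + 1 = a) :=
    fun J h0 => hy J (by intro h1; simp [h1] at h0)
  have h4 : pV l t (fun J => rename Subtype.val (y J)) = y :=
    _root_.funext fun J => (h2 Λ c l t).2.2.2.2.1 _
  have h5 : pV l t (x - P.kd c fun J => rename Subtype.val (y J)) = 0 := by
    rw [map_sub, pV_kd c l t h2, h4, h, sub_self]
  choose x' hx' using fun J => (h2 Λ c l t).2.2.1 _ (congrFun h5 J)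
  refine ⟨h3, x', fun J h0 => (sub_mem hx (kd_CQ c h3)) J ?_, ?_⟩
  · rw [hx']; exact mul_ne_zero (h2 Λ c l t).1 h0
  · ext1 J
    rw [Pi.add_apply, Par.mulV_apply, ← hx', Pi.sub_apply, add_sub_cancel]

lemma abs {k V V' : Type} [Field k] [AddCommGroup V] [Module k V] [AddCommGroup V'] [Module k V']
    (π : V →ₗ[k] V') (d m : V →ₗ[k] V) (A : Submodule k V) {Z B : Submodule k V}
    {Z' B' : Submodule k V'} {b : ℕ} (h : Sm Z' B' b) (h1 : ∀ z ∈ Z, ∃ x ∈ A, d x = m z)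
    (h2 : ∀ z, ∀ x ∈ A, d x = m z → π x ∈ Z')
    (h3 : ∀ z, ∀ x ∈ A, d x = m z → π x ∈ B' → z ∈ B) : Sm Z B b := by
  let U : Submodule k (V × V) := A.comap (LinearMap.snd k V V) ⊓
    LinearMap.eqLocus (d ∘ₗ LinearMap.snd k V V) (m ∘ₗ LinearMap.fst k V V)
  have h4 : U ≤ Z'.comap (π ∘ₗ LinearMap.snd k V V) := fun x hx => h2 x.1 x.2 hx.1 hx.2
  refine (((h.comap (π ∘ₗ LinearMap.snd k V V)).mono h4 le_rfl le_rfl).inf.map
    (LinearMap.fst k V V)).mono (fun z hz => ?_) ?_ le_rfl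
  · obtain ⟨x, hx, e⟩ := h1 z hz
    exact ⟨(z, x), ⟨hx, e⟩, rfl⟩
  · rintro _ ⟨x, ⟨hy, hx⟩, rfl⟩
    exact h3 x.1 x.2 hx.1 hx.2 hy

end PeelB

open PeelB

theorem pStep_holds (P : Par) (hce : CeStm) (h1 : P.PTr) (h2 : P.Pq) : P.PStep := by
  intro Λ _ _ c l t a b s h
  refine abs (pV l t) (P.kd c) (P.mulV (P.lf l t)) (P.CQ Λ (· = a) ⊓ P.FP Λ (s + 1)) h ?_ ?_ ?_
  · intro z hz
    obtain ⟨hz, hz'⟩ := Submodule.mem_inf.1 hz
    obtain ⟨x, hx, e⟩ := Submodule.mem_map.1 (Submodule.mem_comap.1 hz')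
    obtain ⟨x', h4, h5⟩ := h1 Λ c _ (s + 1) x hx (by
      rw [e, Par.mem_FP]
      intro J
      rw [Par.mulV_apply, add_right_comm]
      exact ((h2 Λ c l t).2.2.2.2.2.2.2 _ _).2 (Par.mem_FP.1 hz.1.2 J))
    exact ⟨x', ⟨CQ_mono (Q := (· + 1 = a + 1)) (fun _ h => Nat.add_right_cancel h) h4.1, h4.2⟩,
      h5.trans e⟩
  · intro z x hx h7
    refine pV_mem c l t h2 hx.1 hx.2 ?_
    ext1 J
    rw [h7, pV_apply, Par.mulV_apply, map_mul, (h2 Λ c l t).2.1, zero_mul, Pi.zero_apply]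
  · intro z x hx h7 hy
    obtain ⟨y, hy, e⟩ := Submodule.mem_map.1 hy
    obtain ⟨-, x', h8, h9⟩ := split c l t h2 hx.1 hy e
    have h10 : P.kd c x' = z := mulV_inj (h2 Λ c l t).1 (by
      rw [← kd_mulV, ← h7, h9, map_add, Par.kd_sq hce, zero_add])
    exact Submodule.mem_map.2
      ⟨x', CQ_mono (Q := (· = a)) (fun _ h => congrArg (· + 1) h) h8, h10⟩

theorem pNak_holds (P : Par) (hce : CeStm) (h1 : P.PTr) (h2 : P.Pq) (h3 : P.PInd) : P.PNak := by
  intro a Λ _ c ha hc hΛ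
  obtain ⟨n, hn⟩ : ∃ n, Fintype.card Λ = 2 * a + 1 + n := ⟨Fintype.card Λ - (2 * a + 1), by omega⟩
  clear hΛ
  induction n generalizing Λ with
  | zero =>
    intro s
    have := h3 (2 * a + 1) _ a Λ c Finset.univ 0 s.toNat ha hn.le (fun l _ => hc l) (by simp) le_rfl
    rw [if_pos (by rw [Finset.card_univ]; omega)] at this
    exact fun z hz => this.le ⟨⟨hz.1.1, Par.mem_FP.2 fun J => Ple_mono (by omega)
      (Par.mem_FP.1 hz.1.2 J)⟩, hz.2⟩
  | succ n ih =>
    classical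
    obtain ⟨l⟩ : Nonempty Λ := Fintype.card_pos_iff.1 (by omega)
    have h4 := ih {x : Λ // x ≠ l} (P.cq c l none) (fun x => by simpa [Par.cq] using hc x.1)
      (by rw [Fintype.card_subtype_compl, Fintype.card_subtype_eq]; omega)
    have key : ∀ (m : ℕ) (s : ℤ), s + a * P.M < m → P.ZP c a s ≤ P.BP c a := by
      intro m
      induction m with
      | zero =>
        intro s hs z hz
        have : z = 0 := _root_.funext fun J => by
          by_contra h0
          obtain ⟨μ, hμ⟩ := support_nonempty.2 h0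
          have h5 := mem_Ple.1 (Par.mem_FP.1 hz.1.2 J) μ hμ
          have h6 := hz.1.1 J h0
          have h7 : wI (fun x : P.Ix => (x.1 : ℤ)) J ≤ J.card • (P.M : ℤ) :=
            Finset.sum_le_card_nsmul _ _ _ fun x hx => Int.ofNat_le.2 (h6.2 x hx).le
          rw [h6.1, nsmul_eq_mul] at h7
          omega
        rw [this]; exact zero_mem _
      | succ m ihm =>
        intro s hs z hz
        have hz0 : P.kd c z = 0 := hz.2
        have h5 := pV_mem c l none h2 hz.1.1 hz.1.2 (by rw [hz0, map_zero])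
        obtain ⟨y, hy, e⟩ := h4 s h5
        obtain ⟨y', h6, h7⟩ := h1 _ _ _ s y hy (e ▸ h5.1.2)
        obtain ⟨h8, z', h9, h10⟩ := split c l none h2 hz.1.1 h6.1 (h7.trans e)
        have h11 : P.kd c (fun J => rename Subtype.val (y' J)) ∈ P.FP Λ s := by
          refine Par.mem_FP.2 fun J => ?_
          rw [kd_apply]
          refine Submodule.sum_mem _ fun b hb => Submodule.smul_mem _ _ ?_
          split_ifs
          · have h12 : P.fj c b ∈ Ple P.k Λ (b.1 : ℤ) := Submodule.sum_mem _ fun x _ =>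
              Submodule.smul_mem _ _ (by
                rw [X_pow_eq_monomial]
                exact (monomial_mem_restrictSupport P.k).2 (Or.inl (by simp)))
            refine Ple_mono (le_of_eq ?_) (Ple_mul h12
              ((h2 Λ c l none).2.2.2.2.2.2.1 _ _ (Par.mem_FP.1 h6.2 (J.erase b))))
            have : wI (fun x : P.Ix => (x.1 : ℤ)) (J.erase b) + b.1 =
                wI (fun x : P.Ix => (x.1 : ℤ)) J := Finset.sum_erase_add _ _ hb
            omega
          · exact zero_mem _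
        have h12 : z' ∈ P.ZP c a (s - 1) := by
          refine ⟨⟨h9, Par.mem_FP.2 fun J => ((h2 Λ c l none).2.2.2.2.2.2.2 _ _).1 ?_⟩, ?_⟩
          · have := Par.mem_FP.1 (sub_mem hz.1.2 h11) J
            rw [h10, add_sub_cancel_left, Par.mulV_apply] at this
            exact Ple_mono (by omega) this
          · refine mulV_inj (h2 Λ c l none).1 ?_
            rw [h10, map_add, Par.kd_sq hce, zero_add, kd_mulV] at hz0
            rw [hz0, map_zero]
        obtain ⟨x, hx, e'⟩ := ihm (s - 1) (by omega) h12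
        refine ⟨(fun J => rename Subtype.val (y' J)) + P.mulV (P.lf l none) x, add_mem h8
          fun J h0 => hx J (by intro h; simp [Par.mulV_apply, h] at h0), ?_⟩
        rw [map_add, kd_mulV, e', ← h10]
    exact fun s => key (s + a * P.M + 1).toNat s (by omega)

end CdI
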