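import Pool.Agent.P.MP_013f39_al.Inf.Api

/-! Infinite cohomological dimension of `H_r`: homotopies and the crude count. -/

namespace CdI

open Cd3 MvPolynomial

namespace PeelC

section car

variable {k : Type} [Field k] {ι : Type} [LinearOrder ι] {V : Type} [AddCommGroup V] [Module k V]

lemma kz_io (Y : ι → Module.End k V) (j : ι) (z : Finset ι → V) (I : Finset ι) :
    kz Y (io k j z) I + io k j (kz Y z) I = Y j (z I) := by
  by_cases hj : j ∈ I
  · rw [io_apply, if_pos hj, add_zero, kz_apply, Finset.sum_eq_single_of_mem j hj]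
    · rw [io_apply, if_neg (Finset.notMem_erase j I), Finset.insert_erase hj, sg_erase j hj,
        if_neg (lt_irrefl j), map_smul, smul_smul, sg_mul_self, one_smul]
    · intro a _ haj
      rw [io_apply, if_pos (Finset.mem_erase.2 ⟨haj.symm, hj⟩), map_zero, smul_zero]
  · rw [io_apply, if_neg hj, kz_apply, kz_apply, Finset.sum_insert hj, Finset.erase_insert hj,
      sg_insert j hj, if_neg (lt_irrefl j), smul_add, smul_smul, sg_mul_self, one_smul,
      Finset.smul_sum, add_left_comm, ← Finset.sum_add_distrib, Finset.sum_eq_zero, add_zero]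
    intro a ha
    have haj : a ≠ j := fun h => hj (h ▸ ha)
    rw [io_apply, if_neg fun h => hj (Finset.mem_of_mem_erase h), map_smul, smul_smul, smul_smul,
      Finset.erase_insert_of_ne haj.symm, ← add_smul, sg_erase j ha, sg_insert a hj]
    rcases lt_or_gt_of_ne haj with h | h <;> simp [h, h.not_gt, mul_comm]

lemma io_ne {j : ι} {z : Finset ι → V} {J : Finset ι} (h : io k j z J ≠ 0) :
    ∃ J', z J' ≠ 0 ∧ J'.card = J.card + 1 ∧ J ⊆ J' := by
  rw [io_apply] at h
  split_ifs at h with h1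
  · exact absurd rfl h
  · exact ⟨insert j J, fun h2 => h (by rw [h2, smul_zero]), Finset.card_insert_of_notMem h1,
      Finset.subset_insert _ _⟩

lemma kz_comm (Y : ι → Module.End k V) (T : Module.End k V) (h : ∀ a x, Y a (T x) = T (Y a x))
    (z : Finset ι → V) (I : Finset ι) : kz Y (fun J => T (z J)) I = T (kz Y z I) := by
  rw [kz_apply, kz_apply, map_sum]
  exact Finset.sum_congr rfl fun a _ => by rw [h, map_smul]

end car

variable (P : Par) {Λ : Type} [Fintype Λ]

lemma kd_mulV (c : Λ → P.k) (g : MvPolynomial Λ P.k) (z : Finset P.Ix → MvPolynomial Λ P.k) :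
    P.kd c (P.mulV g z) = P.mulV g (P.kd c z) := by
  funext I
  rw [Par.kd]
  refine kz_comm _ (LinearMap.mulLeft P.k g) (fun a x => ?_) z I
  split_ifs
  · simp only [LinearMap.mulLeft_apply]
    exact mul_left_comm _ _ _
  · simp

lemma mulV_CQ {Q : ℕ → Prop} (g : MvPolynomial Λ P.k) {z : Finset P.Ix → MvPolynomial Λ P.k}
    (hz : z ∈ P.CQ Λ Q) : P.mulV g z ∈ P.CQ Λ Q := fun J h =>
  hz J fun h1 => h (by rw [Par.mulV_apply, h1, mul_zero])

lemma fj_mem (c : Λ → P.k) (a : ℕ) {z : Finset P.Ix → MvPolynomial Λ P.k}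
    (hz : z ∈ P.CQ Λ (· = a)) (h0 : P.kd c z = 0) (j : P.Ix) (hj : P.Act j)
    (g : MvPolynomial Λ P.k) : P.mulV (g * P.fj c j) z ∈ P.BP c a := by
  refine ⟨P.mulV g (io P.k j z), mulV_CQ P g fun J h => ?_, ?_⟩
  · obtain ⟨J', h1, h2, h3⟩ := io_ne h
    obtain ⟨h4, h5⟩ := hz J' h1
    exact ⟨h2.symm.trans h4, fun b hb => h5 b (h3 hb)⟩
  · rw [kd_mulV]
    funext I
    have := kz_io (fun a => if P.Act a then LinearMap.mulLeft P.k (P.fj c a) else 0) j z I
    rw [← Par.kd, h0, map_zero, Pi.zero_apply, add_zero, if_pos hj, LinearMap.mulLeft_apply]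
      at this
    rw [Par.mulV_apply, Par.mulV_apply, this, mul_assoc]

lemma mulV_sum {α : Type} (s : Finset α) (g : α → MvPolynomial Λ P.k)
    (z : Finset P.Ix → MvPolynomial Λ P.k) :
    P.mulV (∑ i ∈ s, g i) z = ∑ i ∈ s, P.mulV (g i) z := by
  funext J
  rw [Finset.sum_apply, Par.mulV_apply, Finset.sum_mul]
  rfl

/-- the actor `N + i` -/
def ac (i : Fin P.N) : P.Ix :=
  ⟨P.N + i, Nat.le_add_right _ _, Or.inl (by have := P.two_N_le; have := i.2; omega)⟩

lemma ac_act (i : Fin P.N) : P.Act (ac P i) := by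
  have := P.two_N_le; have := i.2
  change P.N + i < P.M
  omega

lemma key [DecidableEq Λ] (c : Λ → P.k) (l : Λ) (hN : Fintype.card Λ ≤ P.N) :
    ∃ g : Fin P.N → MvPolynomial Λ P.k,
      ∑ i, g i * P.fj c (ac P i) = c l • (P.lf l none ^ P.N * ∏ x, P.lf l (some x)) := by
  let Q : Polynomial (MvPolynomial Λ P.k) :=
    ∏ x : {x : Λ // x ≠ l}, (Polynomial.X - Polynomial.C (X x.1))
  have hQ : Q.natDegree < P.N := by
    have h1 : Q.natDegree = Fintype.card {x : Λ // x ≠ l} := by
      simp only [Q]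
      rw [Polynomial.natDegree_finsetProd_X_sub_C_eq_card, Finset.card_univ]
    have h2 : Fintype.card {x : Λ // x ≠ l} < Fintype.card Λ :=
      Fintype.card_subtype_lt (x := l) (by simp)
    omega
  refine ⟨fun i => Q.coeff i, ?_⟩
  have h3 : ∀ x : Λ, ∑ i : Fin P.N, Q.coeff i * (c x • X x ^ (ac P i).1) =
      c x • ((X x : MvPolynomial Λ P.k) ^ P.N * Q.eval (X x)) := by
    intro x
    rw [Polynomial.eval_eq_sum_range' hQ, Finset.sum_range, Finset.mul_sum, Finset.smul_sum]
    refine Finset.sum_congr rfl fun i _ => ?_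
    change _ * (c x • X x ^ (P.N + i)) = _
    rw [mul_smul_comm, pow_add, mul_left_comm]
  simp only [Par.fj, Finset.mul_sum]
  rw [Finset.sum_comm, Finset.sum_congr rfl fun x _ => h3 x, Finset.sum_eq_single l]
  · simp [Q, Par.lf, Polynomial.eval_prod]
  · intro x _ hx
    have : Q.eval (X x) = 0 := by
      simp only [Q, Polynomial.eval_prod]
      exact Finset.prod_eq_zero (Finset.mem_univ ⟨x, hx⟩) (by simp)
    rw [this, mul_zero, smul_zero]
  · simp

end PeelC

open PeelC

theorem pHom_holds (P : Par) : P.PHom := by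
  intro Λ _ _ c l a hc hN z hz h0
  obtain ⟨g, hg⟩ := key P c l hN
  have h1 : P.mulV (∑ i, g i * P.fj c (ac P i)) z ∈ P.BP c a := by
    rw [mulV_sum]
    exact sum_mem fun i _ => fj_mem P c a hz h0 _ (ac_act P i) _
  have h2 := Submodule.smul_mem _ (c l)⁻¹ h1
  convert h2 using 1
  funext J
  rw [hg, Pi.smul_apply, Par.mulV_apply, Par.mulV_apply, smul_mul_assoc, smul_smul,
    inv_mul_cancel₀ hc, one_smul]

theorem pBase_holds (P : Par) : P.PBase := by
  classical
  intro Λ _ a s
  let A : Finset P.Ix := (Finset.range P.M).subtype _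
  have hA : A.card ≤ P.M := by
    rw [Finset.card_subtype]
    exact (Finset.card_filter_le _ _).trans (Finset.card_range _).le
  let D : ℕ := s + a * P.M
  let φ : (Finset P.Ix → MvPolynomial Λ P.k) →ₗ[P.k]
      (A.powersetCard a × (Λ → Fin (D + 1)) → P.k) :=
    LinearMap.pi fun t => lcoeff P.k (Finsupp.equivFunOnFinite.symm fun l => (t.2 l : ℕ)) ∘ₗ
      LinearMap.proj t.1.1
  set U := P.CQ Λ (· = a) ⊓ P.FP Λ s with hU
  have hinj : Function.Injective (φ ∘ₗ U.subtype) := by
    rw [← LinearMap.ker_eq_bot, eq_bot_iff]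
    rintro ⟨z, hz1, hz2⟩ h
    rw [Submodule.mem_bot, Subtype.ext_iff]
    funext J
    change z J = 0
    by_contra h1
    obtain ⟨h2, h3⟩ := hz1 J h1
    obtain ⟨μ, hμ⟩ := ne_zero_iff.1 h1
    have hJ : J ∈ A.powersetCard a := Finset.mem_powersetCard.2
      ⟨fun b hb => Finset.mem_subtype.2 (Finset.mem_range.2 (h3 b hb)), h2⟩
    have h4 := mem_Ple.1 (Par.mem_FP.1 hz2 J) μ (mem_support_iff.2 hμ)
    have h5 : wI (fun b : P.Ix => (b.1 : ℤ)) J ≤ a * (P.M : ℤ) := by
      have := Finset.sum_le_card_nsmul J (fun b : P.Ix => (b.1 : ℤ)) (P.M : ℤ) fun b hb => by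
        exact_mod_cast (h3 b hb).le
      rw [h2, nsmul_eq_mul] at this
      exact this
    have h6 : ∀ l, μ l < D + 1 := fun l => by
      have h7 : μ l ≤ μ.degree := Finsupp.le_degree l μ
      have h8 : (μ.degree : ℤ) ≤ (D : ℕ) := by simp only [D]; push_cast; omega
      omega
    have h7 := congrFun (LinearMap.mem_ker.1 h) (⟨J, hJ⟩, fun l => ⟨μ l, h6 l⟩)
    refine hμ ?_
    simpa [φ] using h7
  refine ⟨U, FiniteDimensional.of_injective _ hinj, ?_, le_sup_left⟩
  refine (LinearMap.finrank_le_finrank_of_injective hinj).trans ?_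
  rw [Module.finrank_fintype_fun_eq_card, Fintype.card_prod, Fintype.card_coe,
    Finset.card_powersetCard, Fintype.card_fun, Fintype.card_fin]
  exact Nat.mul_le_mul ((Nat.choose_le_pow _ _).trans (Nat.pow_le_pow_left hA _)) le_rfl

end CdI
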