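import Pool.Agent.P.MP_013f39_al.Inf.Api

/-! Peeling linear factors: the inductive bound. -/

namespace CdI

open Cd3 MvPolynomial

namespace PeelD

variable {P : Par} {Λ : Type} [Fintype Λ]

lemma kd_mulV (c : Λ → P.k) (g : MvPolynomial Λ P.k) (z : Finset P.Ix → MvPolynomial Λ P.k) :
    P.kd c (P.mulV g z) = P.mulV g (P.kd c z) := by
  funext I
  rw [Par.mulV_apply, Par.kd, kz_apply, kz_apply, Finset.mul_sum]
  refine Finset.sum_congr rfl fun a _ => ?_
  rw [Par.mulV_apply, mul_smul_comm]
  congr 1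
  by_cases h : P.Act a
  · rw [if_pos h, LinearMap.mulLeft_apply, LinearMap.mulLeft_apply]; ring
  · rw [if_neg h, LinearMap.zero_apply, LinearMap.zero_apply, mul_zero]

lemma mulV_mul (g g' : MvPolynomial Λ P.k) (z : Finset P.Ix → MvPolynomial Λ P.k) :
    P.mulV (g * g') z = P.mulV g' (P.mulV g z) := by
  funext I
  rw [Par.mulV_apply, Par.mulV_apply, Par.mulV_apply]; ring

lemma mulV_one (z : Finset P.Ix → MvPolynomial Λ P.k) : P.mulV 1 z = z := by
  funext I
  rw [Par.mulV_apply, one_mul]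

lemma ZP_mono (c : Λ → P.k) (a : ℕ) {s s' : ℤ} (h : s ≤ s') : P.ZP c a s ≤ P.ZP c a s' := by
  rintro z ⟨⟨h1, h2⟩, h3⟩
  refine ⟨⟨h1, Par.mem_FP.2 fun J => ?_⟩, h3⟩
  exact Ple_mono (by omega) (Par.mem_FP.1 h2 J)

variable [DecidableEq Λ]

lemma mul_ZP (h1 : P.Pq) (c : Λ → P.k) (l : Λ) (t : Option {x : Λ // x ≠ l}) {a : ℕ} {s : ℤ}
    {z : Finset P.Ix → MvPolynomial Λ P.k} (hz : z ∈ P.ZP c a s) :
    P.mulV (P.lf l t) z ∈ P.ZP c a (s + 1) := by
  obtain ⟨⟨z1, z2⟩, z3⟩ := hz
  refine ⟨⟨fun J hJ => z1 J fun h0 => hJ ?_, Par.mem_FP.2 fun J => ?_⟩, ?_⟩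
  · rw [Par.mulV_apply, h0, mul_zero]
  · rw [Par.mulV_apply, add_right_comm]
    exact ((h1 Λ c l t).2.2.2.2.2.2.2 _ _).2 (Par.mem_FP.1 z2 J)
  · have z4 : P.kd c z = 0 := z3
    change P.kd c (P.mulV (P.lf l t) z) = 0
    rw [kd_mulV, z4, map_zero]

lemma peel (h1 : P.Pq) (h2 : P.PStep) (c : Λ → P.k) (l : Λ) (a : ℕ) (S : ℤ)
    (cost : Option {x : Λ // x ≠ l} → ℕ)
    (h : ∀ t, Sm (P.ZP (P.cq c l t) a S) (P.BP (P.cq c l t) a) (cost t))
    (ts : List (Option {x : Λ // x ≠ l})) : ∀ s : ℤ, s + ts.length ≤ S →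
      Sm (P.ZP c (a + 1) s ⊓ (P.BP c (a + 1)).comap (P.mulV (ts.map (P.lf l)).prod))
        (P.BP c (a + 1)) (ts.map cost).sum := by
  induction ts with
  | nil =>
    intro s _
    refine Sm.of_le ?_
    rintro z ⟨-, hz⟩
    have h3 : P.mulV 1 z ∈ P.BP c (a + 1) := hz
    rwa [mulV_one] at h3
  | cons t ts ih =>
    intro s hs
    rw [List.length_cons, Nat.cast_add, Nat.cast_one] at hs
    have h3 := (ih (s + 1) (by omega)).comap (P.mulV (P.lf l t))
    have h4 : P.ZP c (a + 1) s ⊓ (P.BP c (a + 1)).comap (P.mulV ((t :: ts).map (P.lf l)).prod) ≤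
        (P.ZP c (a + 1) (s + 1) ⊓
          (P.BP c (a + 1)).comap (P.mulV (ts.map (P.lf l)).prod)).comap (P.mulV (P.lf l t)) := by
      rintro z ⟨z1, z2⟩
      refine ⟨mul_ZP h1 c l t z1, ?_⟩
      have z3 : P.mulV ((t :: ts).map (P.lf l)).prod z ∈ P.BP c (a + 1) := z2
      rw [List.map_cons, List.prod_cons, mulV_mul] at z3
      exact z3
    have h5 := (h3.mono h4 le_rfl le_rfl).inf
    have h6 := h2 Λ c l t a (cost t) s
      ((h t).mono (ZP_mono _ _ (by omega)) le_rfl le_rfl)
    have h7 := (h5.mono le_rfl (fun z hz => (⟨hz.2.1, hz.1⟩ :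
      z ∈ P.ZP c (a + 1) s ⊓ (P.BP c (a + 1)).comap (P.mulV (P.lf l t)))) le_rfl).trans h6
    refine h7.mono le_rfl le_rfl (le_of_eq ?_)
    rw [List.map_cons, List.sum_cons, add_comm]

end PeelD

open PeelD in
theorem pInd_holds (P : Par) (h1 : P.Pq) (h2 : P.PStep) (h3 : P.PHom) (h4 : P.PBase) :
    P.PInd := by
  intro d B a
  have hNM := P.N_lt_M
  have base : ∀ (a : ℕ) (Λ : Type) [Fintype Λ] (c : Λ → P.k) (b s : ℕ), Fintype.card Λ ≤ b →
      s + a * (P.N + d) + a * P.M + P.M + 1 ≤ B →
      Sm (P.ZP c a s) (P.BP c a) ((d + 1) ^ a * B ^ (a + b)) := by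
    intro a Λ _ c b s hb hB
    refine (h4 Λ a s).mono inf_le_left bot_le ?_
    have e1 : P.M ^ a ≤ B ^ a := Nat.pow_le_pow_left (by omega) _
    have e2 : (s + a * P.M + 1) ^ Fintype.card Λ ≤ B ^ b :=
      (Nat.pow_le_pow_left (by omega) _).trans (Nat.pow_le_pow_right (by omega) hb)
    calc _ ≤ B ^ a * B ^ b := Nat.mul_le_mul e1 e2
      _ = 1 * B ^ (a + b) := by rw [pow_add, one_mul]
      _ ≤ _ := Nat.mul_le_mul_right _ (Nat.one_le_pow _ _ (by omega))
  induction a with
  | zero =>
    intro Λ _ c U b s hd hΛ hU hb hB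
    classical
    rcases U.eq_empty_or_nonempty with rfl | ⟨l, hl⟩
    · rw [if_neg (by simp)]
      exact base 0 Λ c b s (by simpa using hb) hB
    · rw [if_pos (by simpa using ⟨l, hl⟩)]
      refine Sm.of_le ?_
      rintro z ⟨⟨z1, -⟩, z3⟩
      obtain ⟨x, hx, hx'⟩ := h3 Λ c l 0 (hU l hl) (hΛ.trans hd) z z1 z3
      have x0 : x = 0 := by
        funext J
        by_contra h0
        exact absurd (hx J h0).1 (by simp)
      rw [x0, map_zero] at hx'
      have z0 : z = 0 := by
        funext J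
        have e := congrFun hx' J
        rw [Par.mulV_apply] at e
        refine (mul_eq_zero.1 e.symm).resolve_left (mul_ne_zero (pow_ne_zero _ ?_) ?_)
        · exact (h1 Λ c l none).1
        · exact Finset.prod_ne_zero_iff.2 fun y _ => (h1 Λ c l (some y)).1
      rw [z0]
      exact zero_mem _
  | succ a ih =>
    intro Λ _ c U b s hd hΛ hU hb hB
    classical
    rcases U.eq_empty_or_nonempty with rfl | ⟨l, hl⟩
    · rw [if_neg (by simp)]
      exact base (a + 1) Λ c b s (by simpa using hb) hB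
    have hc : Fintype.card {x : Λ // x ≠ l} + 1 = Fintype.card Λ := by
      have : 0 < Fintype.card Λ := Fintype.card_pos_iff.2 ⟨l⟩
      rw [Fintype.card_subtype_compl, Fintype.card_subtype_eq]
      omega
    have hU' : (U.subtype (· ≠ l)).card + 1 = U.card := by
      rw [Finset.card_subtype, Finset.filter_ne', Finset.card_erase_add_one hl]
    have hB' : (s + P.N + d) + a * (P.N + d) + a * P.M + P.M + 1 ≤ B := by
      rw [add_mul, add_mul a 1 P.M] at hB
      omega
    let cost : Option {x : Λ // x ≠ l} → ℕ := fun t =>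
      if 2 * (a + 1) < U.card then 0 else
        t.elim ((d + 1) ^ a * B ^ (a + b)) fun _ => (d + 1) ^ a * B ^ (a + (b + 1))
    have hcost : ∀ t, Sm (P.ZP (P.cq c l t) a ((s + P.N + d : ℕ) : ℤ)) (P.BP (P.cq c l t) a)
        (cost t) := by
      intro t
      cases t with
      | none =>
        refine (ih _ (P.cq c l none) (U.subtype (· ≠ l)) b (s + P.N + d) hd (by omega) ?_
          (by omega) hB').mono le_rfl le_rfl ?_
        · intro x hx
          rw [Par.cq, if_neg (by simp), add_zero]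
          exact hU _ (Finset.mem_subtype.1 hx)
        · simp only [cost, Option.elim]
          split_ifs <;> omega
      | some y =>
        have e := Finset.pred_card_le_card_erase (s := U.subtype (· ≠ l)) (a := y)
        refine (ih _ (P.cq c l (some y)) ((U.subtype (· ≠ l)).erase y) (b + 1) (s + P.N + d) hd
          (by omega) ?_ (by omega) hB').mono le_rfl le_rfl ?_
        · intro x hx
          obtain ⟨hx1, hx2⟩ := Finset.mem_erase.1 hx
          rw [Par.cq, if_neg (fun h => hx1 (Option.some.inj h).symm), add_zero]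
          exact hU _ (Finset.mem_subtype.1 hx2)
        · simp only [cost, Option.elim]
          split_ifs <;> omega
    have key := peel h1 h2 c l a _ cost hcost
      (List.replicate P.N none ++ (Finset.univ : Finset {x : Λ // x ≠ l}).toList.map some) s (by
        rw [List.length_append, List.length_replicate, List.length_map, Finset.length_toList,
          Finset.card_univ]
        omega)
    rw [List.map_append, List.prod_append, List.map_replicate, List.prod_replicate, List.map_map,
      Finset.prod_map_toList, List.map_append, List.sum_append, List.map_replicate,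
      List.sum_replicate, List.map_map, Finset.sum_map_toList] at key
    refine key.mono (fun z hz => ⟨hz, ?_⟩) le_rfl ?_
    · exact h3 Λ c l (a + 1) (hU l hl) (hΛ.trans hd) z hz.1.1 hz.2
    · simp only [cost, Function.comp, Option.elim, Finset.sum_const, Finset.card_univ,
        smul_eq_mul]
      split_ifs with h
      · simp
      · have e1 : P.N ≤ B := by omega
        have e2 : Fintype.card {x : Λ // x ≠ l} ≤ d := by omega
        calc _ ≤ B * ((d + 1) ^ a * B ^ (a + b)) + d * ((d + 1) ^ a * B ^ (a + (b + 1))) :=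
            Nat.add_le_add (Nat.mul_le_mul_right _ e1) (Nat.mul_le_mul_right _ e2)
          _ = _ := by ring

end CdI
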