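import Pool.Agent.P.MP_013f39_al.Inf.Api

/-! A retraction of the polynomial ring onto the invariants of a Young subgroup. -/

namespace CdI

open MvPolynomial

namespace Pi

variable {k : Type} [Field k] {d : ℕ} {α : Type}

/-- identify the variable `l` with `l'` -/
def col (l l' : Fin d) : Fin d → Fin d := fun x => if x = l then l' else x

lemma sub_dvd (l l' : Fin d) (F : MvPolynomial (Fin d) k) :
    (X l - X l' : MvPolynomial (Fin d) k) ∣ F - rename (col l l') F := by
  induction F using MvPolynomial.induction_on with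
  | C a => simp
  | add p q hp hq =>
    have : p + q - rename (col l l') (p + q) =
        (p - rename (col l l') p) + (q - rename (col l l') q) := by rw [map_add]; ring
    rw [this]; exact dvd_add hp hq
  | mul_X p n hp =>
    have : p * X n - rename (col l l') (p * X n) =
        (p - rename (col l l') p) * X n + rename (col l l') p * (X n - X (col l l' n)) := by
      rw [map_mul, rename_X]; ring
    rw [this]
    refine dvd_add (hp.mul_right _) (Dvd.dvd.mul_left ?_ _)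
    unfold col
    split_ifs with h
    · rw [h]
    · simp

lemma dvd_iff (l l' : Fin d) (h : l ≠ l') (F : MvPolynomial (Fin d) k) :
    (X l - X l' : MvPolynomial (Fin d) k) ∣ F ↔ rename (col l l') F = 0 := by
  constructor
  · rintro ⟨q, rfl⟩
    simp [col, h.symm]
  · intro h0
    have := sub_dvd l l' F
    rwa [h0, sub_zero] at this

lemma sub_ne {l l' : Fin d} (h : l ≠ l') : (X l - X l' : MvPolynomial (Fin d) k) ≠ 0 :=
  sub_ne_zero.2 fun e => h (X_injective e)

lemma prime_sub {l l' : Fin d} (h : l ≠ l') : Prime (X l - X l' : MvPolynomial (Fin d) k) := by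
  refine ⟨sub_ne h, fun hu => ?_, fun a b hab => ?_⟩
  · have := (dvd_iff l l' h 1).1 hu.dvd
    simp at this
  · rw [dvd_iff l l' h, map_mul, mul_eq_zero] at hab
    rw [dvd_iff l l' h, dvd_iff l l' h]; exact hab

lemma prod_dvd {R ι : Type} [CommRing R] (s : Finset ι) (p : ι → R) (F : R)
    (hp : ∀ i ∈ s, Prime (p i)) (hn : ∀ i ∈ s, ∀ j ∈ s, p i ∣ p j → i = j)
    (hF : ∀ i ∈ s, p i ∣ F) : ∏ i ∈ s, p i ∣ F := by
  classical
  induction s using Finset.induction_on with
  | empty => simp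
  | insert a s ha ih =>
    obtain ⟨q, rfl⟩ := ih (fun i hi => hp i (by simp [hi]))
      (fun i hi j hj => hn i (by simp [hi]) j (by simp [hj])) (fun i hi => hF i (by simp [hi]))
    have hpa := hp a (by simp)
    rw [Finset.prod_insert ha, mul_comm]
    refine mul_dvd_mul_left _ ((hpa.dvd_or_dvd (hF a (by simp))).resolve_left fun h => ?_)
    obtain ⟨j, hj, hd⟩ := (hpa.dvd_finsetProd_iff _).1 h
    exact ha (hn a (by simp) j (by simp [hj]) hd ▸ hj)

open Classical in
/-- permutations preserving the colours -/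
noncomputable def W (ρ : Fin d → α) : Finset (Equiv.Perm (Fin d)) :=
  Finset.univ.filter fun σ => ρ ∘ σ = ρ

lemma mem_W {ρ : Fin d → α} {σ : Equiv.Perm (Fin d)} : σ ∈ W ρ ↔ ρ ∘ σ = ρ := by simp [W]

lemma mul_mem_W {ρ : Fin d → α} {σ τ : Equiv.Perm (Fin d)} (h : σ ∈ W ρ) (h' : τ ∈ W ρ) :
    σ * τ ∈ W ρ := by
  rw [mem_W] at *
  rw [Equiv.Perm.coe_mul, ← Function.comp_assoc, h, h']

lemma inv_mem_W {ρ : Fin d → α} {σ : Equiv.Perm (Fin d)} (h : σ ∈ W ρ) : σ⁻¹ ∈ W ρ := by
  rw [mem_W] at *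
  funext x
  have := congrFun h (σ⁻¹ x)
  simpa using this.symm

/-- the sign in the field -/
def sgn (k : Type) [Field k] (σ : Equiv.Perm (Fin d)) : k := ((Equiv.Perm.sign σ : ℤ) : k)

lemma sgn_mul (σ τ : Equiv.Perm (Fin d)) : sgn k (σ * τ) = sgn k σ * sgn k τ := by simp [sgn]

lemma sgn_one : sgn k (1 : Equiv.Perm (Fin d)) = 1 := by simp [sgn]

lemma sgn_ne (σ : Equiv.Perm (Fin d)) : sgn k σ ≠ 0 := by
  have := sgn_mul (k := k) σ σ⁻¹
  rw [mul_inv_cancel, sgn_one] at this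
  intro h; rw [h, zero_mul] at this; exact one_ne_zero this

variable (k) in
/-- the alternating sum -/
noncomputable def A (ρ : Fin d → α) : Module.End k (MvPolynomial (Fin d) k) :=
  ∑ σ ∈ W ρ, sgn k σ • (rename σ : MvPolynomial (Fin d) k →ₐ[k] _).toLinearMap

lemma A_apply (ρ : Fin d → α) (G : MvPolynomial (Fin d) k) :
    A k ρ G = ∑ σ ∈ W ρ, sgn k σ • rename σ G := by
  simp [A, LinearMap.sum_apply]

lemma rename_A {ρ : Fin d → α} {τ : Equiv.Perm (Fin d)} (h : τ ∈ W ρ)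
    (G : MvPolynomial (Fin d) k) : sgn k τ • rename τ (A k ρ G) = A k ρ G := by
  rw [A_apply, map_sum, Finset.smul_sum]
  refine Finset.sum_bij' (fun σ _ => τ * σ) (fun σ _ => τ⁻¹ * σ) (fun σ hσ => mul_mem_W h hσ)
    (fun σ hσ => mul_mem_W (inv_mem_W h) hσ) (by simp) (by simp) fun σ _ => ?_
  rw [map_smul, smul_smul, sgn_mul, rename_rename, Equiv.Perm.coe_mul]

lemma A_mul {ρ : Fin d → α} (G F : MvPolynomial (Fin d) k)
    (h : ∀ σ : Equiv.Perm (Fin d), ρ ∘ σ = ρ → rename σ G = G) :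
    A k ρ (G * F) = G * A k ρ F := by
  rw [A_apply, A_apply, Finset.mul_sum]
  refine Finset.sum_congr rfl fun σ hσ => ?_
  rw [map_mul, h σ (mem_W.1 hσ), mul_smul_comm]

lemma sub_dvd_A {ρ : Fin d → α} {l l' : Fin d} (h : l ≠ l') (hρ : ρ l' = ρ l)
    (G : MvPolynomial (Fin d) k) : (X l - X l' : MvPolynomial (Fin d) k) ∣ A k ρ G := by
  have hs : Equiv.swap l l' ∈ W ρ := by
    rw [mem_W]; funext x
    simp only [Function.comp_apply, Equiv.swap_apply_def]
    split_ifs with h1 h2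
    · rw [h1, hρ]
    · rw [h2, hρ]
    · rfl
  have hc : col l l' ∘ Equiv.swap l l' = col l l' := by
    funext x
    simp only [Function.comp_apply, Equiv.swap_apply_def, col]
    split_ifs <;> simp_all
  rw [dvd_iff l l' h, A_apply, map_sum]
  refine Finset.sum_involution (fun σ _ => Equiv.swap l l' * σ) (fun σ _ => ?_)
    (fun σ _ _ e => ?_) (fun σ hσ => mul_mem_W hs hσ) (fun σ _ => by simp [← mul_assoc])
  · have : sgn k (Equiv.swap l l') = -1 := by simp [sgn, Equiv.Perm.sign_swap h]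
    rw [map_smul, map_smul, sgn_mul, this, rename_rename, rename_rename, Equiv.Perm.coe_mul,
      ← Function.comp_assoc, hc]
    simp
  · exact h (Equiv.swap_eq_one_iff.1 (mul_eq_right.1 e))

open Classical in
/-- larger indices of the same colour -/
noncomputable def S (ρ : Fin d → α) (l : Fin d) : Finset (Fin d) :=
  Finset.univ.filter fun l' => l < l' ∧ ρ l' = ρ l

lemma mem_S {ρ : Fin d → α} {l l' : Fin d} : l' ∈ S ρ l ↔ l < l' ∧ ρ l' = ρ l := by simp [S]

lemma card_S_lt {ρ : Fin d → α} {l l' : Fin d} (h : l < l') (hρ : ρ l' = ρ l) :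
    (S ρ l').card < (S ρ l).card := by
  refine Finset.card_lt_card ⟨fun x hx => ?_, fun hs => ?_⟩
  · rw [mem_S] at *; exact ⟨h.trans hx.1, hx.2.trans hρ⟩
  · exact lt_irrefl _ (mem_S.1 (hs (mem_S.2 ⟨h, hρ⟩))).1

/-- the staircase exponent -/
noncomputable def μ (ρ : Fin d → α) : Fin d →₀ ℕ :=
  Finsupp.equivFunOnFinite.symm fun l => (S ρ l).card

lemma μ_apply (ρ : Fin d → α) (l : Fin d) : μ ρ l = (S ρ l).card := rfl

lemma eq_one {ρ : Fin d → α} {σ : Equiv.Perm (Fin d)} (h : σ ∈ W ρ)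
    (e : Finsupp.mapDomain σ (μ ρ) = μ ρ) : σ = 1 := by
  refine Equiv.ext fun l => ?_
  have h1 : μ ρ (σ l) = μ ρ l := by
    conv_lhs => rw [← e]
    exact Finsupp.mapDomain_apply σ.injective _ _
  have h2 : ρ (σ l) = ρ l := congrFun (mem_W.1 h) l
  rw [μ_apply, μ_apply] at h1
  rcases lt_trichotomy (σ l) l with h3 | h3 | h3
  · have := card_S_lt h3 h2.symm; omega
  · exact h3
  · have := card_S_lt h3 h2; omega

lemma AE_ne (ρ : Fin d → α) : A k ρ (monomial (μ ρ) 1) ≠ 0 := by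
  classical
  intro h
  have := congrArg (coeff (μ ρ)) h
  rw [A_apply, coeff_sum, Finset.sum_eq_single 1] at this
  · simp [sgn_one] at this
  · intro σ hσ h1
    rw [coeff_smul, rename_monomial, coeff_monomial, if_neg fun e => h1 (eq_one hσ e), smul_zero]
  · intro h1; exact absurd (mem_W.2 rfl) h1

variable (k) in
/-- the product of the differences -/
noncomputable def D (ρ : Fin d → α) : MvPolynomial (Fin d) k :=
  ∏ p ∈ Finset.univ.sigma (S ρ), (X p.1 - X p.2)

lemma D_ne (ρ : Fin d → α) : D k ρ ≠ 0 :=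
  Finset.prod_ne_zero_iff.2 fun _ hp => sub_ne (mem_S.1 (Finset.mem_sigma.1 hp).2).1.ne

lemma D_dvd (ρ : Fin d → α) (G : MvPolynomial (Fin d) k) : D k ρ ∣ A k ρ G := by
  refine prod_dvd _ _ _ (fun p hp => prime_sub (mem_S.1 (Finset.mem_sigma.1 hp).2).1.ne)
    (fun p hp q hq h => ?_) fun p hp => ?_
  · obtain ⟨a, b⟩ := p
    obtain ⟨a', b'⟩ := q
    have h1 : a < b := (mem_S.1 (Finset.mem_sigma.1 hp).2).1
    have h2 : a' < b' := (mem_S.1 (Finset.mem_sigma.1 hq).2).1
    rw [dvd_iff _ _ h1.ne, map_sub, rename_X, rename_X, sub_eq_zero] at h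
    have h3 : col a b a' = col a b b' := X_injective h
    unfold col at h3
    split_ifs at h3 with h4 h5 h5
    · exact absurd (h4.trans h5.symm) h2.ne
    · rw [h4, h3]
    · rw [h3, h5] at h2; exact absurd h1 h2.not_gt
    · exact absurd h3 h2.ne
  · have := mem_S.1 (Finset.mem_sigma.1 hp).2
    exact sub_dvd_A this.1.ne this.2 G

lemma D_deg (ρ : Fin d → α) : (D k ρ).totalDegree = (μ ρ).degree := by
  have h1 : (D k ρ).IsHomogeneous (∑ _p ∈ Finset.univ.sigma (S ρ), 1) :=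
    IsHomogeneous.prod _ _ _ fun p _ => (isHomogeneous_X k p.1).sub (isHomogeneous_X k p.2)
  rw [h1.totalDegree (D_ne ρ), Finsupp.degree_eq_sum]
  simp [μ_apply]

lemma AE_dvd (ρ : Fin d → α) (G : MvPolynomial (Fin d) k) :
    A k ρ (monomial (μ ρ) 1) ∣ A k ρ G := by
  obtain ⟨q, hq⟩ := D_dvd ρ (monomial (μ ρ) (1 : k))
  have h0 := AE_ne (k := k) ρ
  have hq0 : q ≠ 0 := fun h => h0 (by rw [hq, h, mul_zero])
  have h1 : (A k ρ (monomial (μ ρ) 1)).IsHomogeneous (μ ρ).degree := by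
    rw [A_apply]
    refine IsHomogeneous.sum _ _ _ fun σ _ => ?_
    rw [← C_mul']
    exact ((isHomogeneous_monomial (1 : k) rfl).rename_isHomogeneous).C_mul _
  have h2 := h1.totalDegree h0
  rw [hq, totalDegree_mul_of_isDomain (D_ne ρ) hq0, D_deg] at h2
  have h3 := totalDegree_eq_zero_iff_eq_C.1 (show q.totalDegree = 0 by omega)
  have h4 : IsUnit q := by
    rw [h3]
    refine (IsUnit.mk0 _ fun h => hq0 ?_).map C
    rw [h3, h, map_zero]
  rw [hq]
  exact (h4.mul_right_dvd).2 (D_dvd ρ G)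

theorem main (ρ : Fin d → α) : ∃ T : Module.End k (MvPolynomial (Fin d) k),
    (∀ σ : Equiv.Perm (Fin d), ρ ∘ σ = ρ → ∀ F, rename σ (T F) = T F) ∧
    (∀ G F, (∀ σ : Equiv.Perm (Fin d), ρ ∘ σ = ρ → rename σ G = G) → T (G * F) = G * T F) ∧
    T 1 = 1 := by
  have h0 := AE_ne (k := k) ρ
  choose t ht using fun F => AE_dvd ρ ((monomial (μ ρ) (1 : k)) * F)
  refine ⟨⟨⟨t, fun F F' => mul_left_cancel₀ h0 ?_⟩, fun c F => mul_left_cancel₀ h0 ?_⟩,
    fun σ hσ F => mul_left_cancel₀ h0 ?_, fun G F hG => mul_left_cancel₀ h0 ?_,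
    mul_left_cancel₀ h0 ?_⟩
  · rw [mul_add, ← ht, ← ht, ← ht, mul_add, map_add]
  · simp only [RingHom.id_apply]
    rw [mul_smul_comm, ← ht, ← ht, mul_smul_comm, map_smul]
  · change _ * rename σ (t F) = _ * t F
    have h1 := rename_A (mem_W.2 hσ) ((monomial (μ ρ) (1 : k)) * F)
    rw [ht, map_mul, ← smul_mul_assoc, rename_A (mem_W.2 hσ)] at h1
    exact h1
  · change _ * t (G * F) = _ * (G * t F)
    rw [← ht, mul_left_comm, A_mul G _ hG, ht, mul_left_comm]
  · change _ * t 1 = _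
    rw [← ht, mul_one, mul_one]

end Pi

theorem pi_holds : PiStm := fun _ _ _ _ ρ => Pi.main ρ

end CdI
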