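import Pool.Agent.P.MP_013f39_al.Inf.Api

/-! Infinite cohomological dimension of `H_r`: the naive differential. -/

namespace CdI

open Cd3 MvPolynomial

namespace Psi0

section car

variable {k : Type} [Field k] {ι : Type} [LinearOrder ι] {V V' : Type} [AddCommGroup V]
  [Module k V] [AddCommGroup V'] [Module k V']

lemma ct_map (A : ι → Prop) [DecidablePred A] (κ : ι → k) (s : ι → ι → ι) (T : V →ₗ[k] V')
    (φ : Finset ι → V) (I : Finset ι) :
    ct A κ s (fun J => T (φ J)) I = T (ct A κ s φ I) := by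
  rw [ct_apply, ct_apply, map_sum]
  refine Finset.sum_congr rfl fun j _ => ?_
  rw [map_sum]
  refine Finset.sum_congr rfl fun i _ => ?_
  simp only [ex_apply, io_apply, map_smul]
  split_ifs <;> simp

/-- removal of an index -/
abbrev er (I : Finset ι) (a : ι) : Finset ι := I.erase a

lemma card_er {I : Finset ι} {a : ι} (h : a ∈ I) : (I.erase a).card + 1 = I.card :=
  Finset.card_erase_add_one h

lemma card_ins {I : Finset ι} {a : ι} (h : a ∉ I) : (insert a I).card = I.card + 1 :=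
  Finset.card_insert_of_notMem h

end car

variable {P : Par}

open Par

lemma ce_Dl (φ : Finset P.Ix → P.Gam → P.k) (I : Finset P.Ix) (x : P.Gam) :
    P.ce P.Dl φ I x = ∑ a ∈ I, sg P.k a I * (φ (er I a) (x * P.e a) - φ (er I a) x) -
      ct (k := P.k) P.Act P.kap P.sh (fun J => φ J x) I := by
  have h := ct_map P.Act P.kap P.sh (LinearMap.proj (R := P.k) (φ := fun _ : P.Gam => P.k) x) φ I
  simp only [LinearMap.proj_apply] at h
  rw [ce_apply, Pi.sub_apply, kz_apply, Finset.sum_apply, h]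
  rfl

lemma psi0_apply (F : P.Gam → P.Lam) (I : Finset P.Ix) :
    P.psi0 F I = ∑ a ∈ I, sg P.k a I * (F (P.e a) (er I a) - F 1 (er I a)) -
      ct (k := P.k) P.Act P.kap P.sh (F 1) I := by
  have h := ce_Dl (fun J x => F x J) I 1
  simp only [one_mul] at h
  exact h

lemma dl_psi0 (F : P.Gam → P.Lam) (I : Finset P.Ix) :
    (fun x => P.dl P.psi0 F x I) = P.ce P.Dl (fun J x => F x J) I := by
  funext x
  rw [dl_apply, psi0_apply, ce_Dl]
  simp only [mul_one]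

lemma kk (ω : P.Ix → ℤ) (hω : ∀ j i, P.Act j → ¬ P.Act i → ω i + ω j ≤ ω (P.sh j i))
    (F : P.Gam → P.Lam) (s : ℤ) (I : Finset P.Ix) (hF : P.FilV ω s F) (hs : s < wI ω I) :
    P.psi0 F I = 0 := by
  rw [psi0_apply, ct_eq_zero, sub_zero]
  · refine Finset.sum_eq_zero fun a ha => ?_
    have h1 := wI_erase ω ha
    have h2 := hF (er I a) [a] (by simp [er]; omega)
    rw [word_cons, word_nil, Dl_apply, one_mul] at h2
    rw [h2, mul_zero]
  · intro j hj i hi hA hk hn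
    have h1 := wI_erase ω hj
    have h2 := wI_erase ω hi
    have h3 := wI_insert ω hn
    have h4 := hω j i hA (kap_ne_zero.1 hk)
    exact hF _ [] (by simp; omega)

lemma k1 (F : P.Gam → P.Lam) (s : ℤ) (I : Finset P.Ix) (hF : P.FilV P.w s F)
    (hs : s < wI P.w I) : P.psi0 F I = 0 :=
  kk P.w (fun _ _ hj hi => (w_sh hj hi).ge) F s I hF hs

lemma k2 (F : P.Gam → P.Lam) (s : ℤ) (I : Finset P.Ix) (hF : P.FilV P.w2 s F)
    (hs : s < wI P.w2 I) : P.psi0 F I = 0 :=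
  kk P.w2 (fun j _ _ hi => (w2_sh j hi).le) F s I hF hs

lemma deg (hf : P.FilC) (hs : ∃ sec, P.Sec sec) (j : ℕ) (F : P.Gam → P.Lam) (hF : F ∈ P.DD j) :
    P.psi0 F ∈ P.LamD (j + 1) := by
  obtain ⟨sec, hs⟩ := hs
  have h0 : ∀ x J, J.card ≠ j → F x J = 0 := fun x J hJ => by
    by_contra h
    exact hJ ((hF.2 x).2 J h)
  refine ⟨?_, fun I hI => ?_⟩
  · have h1 : P.coV F ∈ FinM P.k P.Ix P.Ix := ((hs j).2 F hF).1.1
    obtain ⟨s, hs'⟩ := ((mem_FinM.1 h1).image fun x => P.T1 x.1 x.2).bddAbove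
    have h2 : P.FilV P.w s F :=
      (FilC.vec hf hF.1 s).1.2 fun I μ h => hs' ⟨(I, μ), h, rfl⟩
    refine (P.finite_wI s).subset fun I hI => ?_
    by_contra h
    exact hI (k1 F s I h2 (not_le.1 h))
  · by_contra hc
    apply hI
    rw [psi0_apply, ct_eq_zero, sub_zero]
    · refine Finset.sum_eq_zero fun a ha => ?_
      have h1 : (er I a).card + 1 = I.card := card_er ha
      rw [h0 _ _ (by omega), h0 _ _ (by omega), sub_zero, mul_zero]
    · intro a ha i hi _ _ hn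
      have h1 := card_er ha
      have h2 := card_er hi
      have h3 := card_ins hn
      exact h0 _ _ (by omega)

lemma lead (h2 : P.Coord2) (hf : P.FilC) (F : P.Gam → P.Lam) (hF : P.FL F) (s : ℤ)
    (hs : P.FilV P.w s F) (I : Finset P.Ix) (μ : Mon P.Ix) (h : s ≤ P.T1 I μ) :
    P.coV (P.dl P.psi0 F) I μ = P.d1 (P.coV F) I μ := by
  have e1 : ct P.Act P.kap P.sh (P.coV F) I =
      P.co (ct P.Act P.kap P.sh (fun J x => F x J) I) :=
    ct_map P.Act P.kap P.sh P.co (fun J x => F x J) I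
  rw [coV_apply, dl_psi0, d1, ce_apply, ce_apply, map_sub, e1, kz_apply, kz_apply, map_sum,
    Pi.sub_apply, Pi.sub_apply, Finset.sum_apply, Finset.sum_apply]
  congr 1
  refine Finset.sum_congr rfl fun a ha => ?_
  have hJ := hF.comp (· (er I a))
  have h1 : wI P.w (er I a) + P.w a = wI P.w I := wI_erase P.w ha
  rw [map_smul, Pi.smul_apply, Pi.smul_apply, coV_apply,
    h2.low1 _ _ hJ ((hf _ hJ _).1.1 (hs (er I a))) a μ (by unfold T1 at h; omega)]

end Psi0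

open Par

theorem psi0_holds (P : Par) (hce : CeStm) (hr : P.CRel P.X1) (h1 : P.Coord1) (h2 : P.Coord2)
    (hf : P.FilC) (hD : P.D1) (hs : ∃ sec, P.Sec sec) : P.Psi0 := by
  refine ⟨Psi0.deg hf hs, fun j F hF => Psi0.lead h2 hf F hF.1, Psi0.k1, Psi0.k2,
    fun j F hF I hI => ?_⟩
  have hG : P.dl P.psi0 F ∈ P.DD (j + 1) := dl_mem (Psi0.deg hf hs j) hF
  have hz := (FilC.vec hf hF.1 _).1.1 hI
  have hG1 : P.FilV P.w (wI P.w I) (P.dl P.psi0 F) := by
    refine (FilC.vec hf hG.1 _).1.2 fun J μ h => ?_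
    by_contra hc
    apply h
    rw [Psi0.lead h2 hf F hF.1 _ hI J μ (not_le.1 hc).le]
    refine hD.dep _ _ _ fun J' μ' _ e _ => ?_
    by_contra h0
    have h3 : P.T1 J' μ' ≤ wI P.w I := hz J' μ' h0
    exact hc (e.symm.le.trans h3)
  have hT : P.T1 I 0 = wI P.w I := by simp [T1]
  have e1 : P.psi0 (P.dl P.psi0 F) I = P.coV (P.dl P.psi0 (P.dl P.psi0 F)) I 0 := by
    rw [coV_apply, ← h1.ev, dl_one]
  have e2 : P.d1 (P.coV (P.dl P.psi0 F) - P.d1 (P.coV F)) I 0 = 0 := by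
    refine hD.dep _ _ _ fun J μ _ e _ => ?_
    rw [Pi.sub_apply, Pi.sub_apply, Psi0.lead h2 hf F hF.1 _ hI J μ (by omega), sub_self]
  have e3 : P.d1 (P.d1 (P.coV F)) = 0 := by
    rw [d1]
    exact ce_sq hce hr _
  rw [map_sub, e3, sub_zero] at e2
  rw [e1, Psi0.lead h2 hf _ hG.1 _ hG1 I 0 hT.ge, e2]

theorem hd_holds (P : Par) (hf : P.FilC) (hd : P.DlFil) (hD : P.D1) (hp : P.Psi0) : P.Hd := by
  intro sec ψ j hs hψ z hz
  obtain ⟨hF, hc⟩ := (hs j).1 z hz
  have hG : P.dl ψ (sec z) ∈ P.DD (j + 1) := dl_mem hψ.deg hF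
  have hG0 : P.dl P.psi0 (sec z) ∈ P.DD (j + 1) := dl_mem (hp.deg j) hF
  have e0 : (P.coV ∘ₗ P.dl ψ ∘ₗ sec) z = P.coV (P.dl ψ (sec z)) := rfl
  rw [e0]
  refine ⟨((hs (j + 1)).2 _ hG).1, fun s s2 hS => ?_⟩
  have f1 : P.FilV P.w s (sec z) := (FilC.vec hf hF.1 s).1.2 (by
    rw [hc]
    exact fun I μ h => (hS I μ h).1)
  have f2 : P.FilV P.w2 s2 (sec z) := (FilC.vec hf hF.1 s2).2.2 (by
    rw [hc]
    exact fun I μ h => (hS I μ h).2)
  have g2 : P.FilV P.w2 s2 (P.dl ψ (sec z)) := fun I => by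
    have h := hd P.w2 j (LinearMap.proj (R := P.k) (φ := fun _ : Finset P.Ix => P.k) I ∘ₗ ψ)
      (wI P.w2 I - 1) (fun F hF' h => hψ.two F hF' I h) _ hF s2 f2
    exact h.mono (by omega)
  have g1 : P.FilV P.w (s - 1) (P.dl ψ (sec z) - P.dl P.psi0 (sec z)) := fun I => by
    have h := hd P.w j
      (LinearMap.proj (R := P.k) (φ := fun _ : Finset P.Ix => P.k) I ∘ₗ (ψ - P.psi0))
      (wI P.w I) (fun F hF' h => sub_eq_zero.2 (hψ.lead F hF' I h)) _ hF s f1
    exact h.mono (by omega)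
  have c1 := (FilC.vec hf (sub_mem hG hG0).1 _).1.1 g1
  have c2 := (FilC.vec hf hG.1 _).2.1 g2
  have key : ∀ I μ, s ≤ P.T1 I μ → P.coV (P.dl ψ (sec z)) I μ = P.d1 z I μ := by
    intro I μ h
    have h1 : P.coV (P.dl ψ (sec z) - P.dl P.psi0 (sec z)) I μ = 0 := by
      by_contra h0
      have := c1 I μ h0
      omega
    rw [map_sub, Pi.sub_apply, Pi.sub_apply, sub_eq_zero] at h1
    rw [h1, hp.lead j _ hF s f1 I μ h, hc]
  refine ⟨fun I μ h => ⟨?_, c2 I μ h⟩, fun I μ e1 e2 => ?_⟩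
  · by_contra hlt
    apply h
    rw [key I μ (not_le.1 hlt).le]
    refine hD.dep _ _ _ fun I' μ' _ e _ => ?_
    by_contra h0
    exact hlt (e.symm.le.trans (hS I' μ' h0).1)
  · rw [key I μ e1.ge]
    refine hD.bi _ _ _ fun I' μ' _ _ e => ?_
    by_contra h0
    have := (hS I' μ' h0).2
    omega

end CdI
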