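import Pool.Agent.P.MP_013f39_al.Inf.Api

/-! Infinite cohomological dimension of `H_r`: removing the letters. -/

namespace CdI

open Cd3 MvPolynomial

namespace Red

variable {P : Par}

/-- number of actors -/
def nA (I : Finset P.Ix) : ℕ := (I.filter P.Act).card

lemma nA_erase_act {_ : DecidableEq P.Ix} {I : Finset P.Ix} {a : P.Ix} (h : a ∈ I) (ha : P.Act a) :
    nA (I.erase a) + 1 = nA I := by
  rw [nA, Finset.filter_erase, nA]
  exact Finset.card_erase_add_one (Finset.mem_filter.2 ⟨h, ha⟩)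

lemma nA_erase_let {_ : DecidableEq P.Ix} (I : Finset P.Ix) {a : P.Ix} (ha : ¬ P.Act a) :
    nA (I.erase a) = nA I := by
  rw [nA, Finset.filter_erase, nA, Finset.erase_eq_of_notMem fun h => ha (Finset.mem_filter.1 h).2]

lemma nA_insert_let {_ : DecidableEq P.Ix} (I : Finset P.Ix) {a : P.Ix} (ha : ¬ P.Act a) :
    nA (insert a I) = nA I := by
  rw [nA, Finset.filter_insert, if_neg ha, nA]

lemma nA_le (I : Finset P.Ix) : nA I ≤ I.card := Finset.card_filter_le _ _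

lemma all_act {I : Finset P.Ix} (h : I.card ≤ nA I) : ∀ a ∈ I, P.Act a :=
  Finset.filter_card_eq (le_antisymm (nA_le I) h)

variable (P) in
/-- the Koszul part of the differential -/
noncomputable def dK : Module.End P.k P.C2 := kz fun a => P.kap a • del P.k (P.vK a)

lemma d0_eq (z : P.C2) (I : Finset P.Ix) (h : ∀ I', nA I' + 1 = nA I → z I' = 0) :
    P.d0 z I = dK P z I := by
  rw [Par.d0, Par.ce_apply, ct_eq_zero, sub_zero, dK, kz_apply, kz_apply]
  · refine Finset.sum_congr rfl fun a ha => ?_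
    by_cases h1 : P.Act a
    · rw [h _ (nA_erase_act ha h1), map_zero, map_zero]
    · rw [Par.X2, if_neg h1]
  · intro j hj i _ hA hi _
    have hi' := Par.kap_ne_zero.1 hi
    exact h _ (by rw [nA_insert_let _ (Par.sh_let j hi'), nA_erase_let _ hi', nA_erase_act hj hA])

lemma dK_dep (z z' : P.C2) (I : Finset P.Ix) (h : ∀ I', nA I' = nA I → z I' = z' I') :
    dK P z I = dK P z' I := by
  rw [dK, kz_apply, kz_apply]
  refine Finset.sum_congr rfl fun a _ => ?_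
  by_cases h1 : P.Act a
  · rw [Par.kap_act h1, zero_smul, LinearMap.zero_apply, LinearMap.zero_apply]
  · rw [h _ (nA_erase_let I h1)]

lemma dK_zero (z : P.C2) (I : Finset P.Ix) (h : ∀ I', nA I' = nA I → z I' = 0) :
    dK P z I = 0 := by
  rw [dK_dep z 0 I h, map_zero]; rfl

/-- the part with exactly `n` actors -/
def part (n : ℕ) (z : P.C2) : P.C2 := fun I => if nA I = n then z I else 0

lemma dK_part {n : ℕ} {z : P.C2} (hz : P.d0 z = 0) (hn : ∀ I μ, z I μ ≠ 0 → n ≤ nA I) :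
    dK P (part n z) = 0 := by
  funext I
  by_cases h : nA I = n
  · rw [dK_dep (part n z) z I fun I' h' => if_pos (h'.trans h), ← d0_eq z I, hz]
    intro I' h'
    funext μ
    by_contra h0
    have := hn I' μ h0
    omega
  · exact dK_zero _ I fun I' h' => if_neg (h' ▸ h)

lemma vK_inj (i i' : P.Ix) (h : P.kap i ≠ 0) (h' : P.kap i' ≠ 0) (e : P.vK i = P.vK i') :
    i = i' := by
  have := congrArg Subtype.val e
  rw [Par.vK_val (Par.kap_ne_zero.1 h), Par.vK_val (Par.kap_ne_zero.1 h')] at this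
  exact Subtype.ext (by exact_mod_cast this)

lemma exists_let (c : P.Kv) (hc : ¬ c.1 < P.M) : ∃ i, P.kap i ≠ 0 ∧ P.vK i = c := by
  have h1 := P.N_lt_M
  have h2 : (c.1.toNat : ℤ) = c.1 := Int.toNat_of_nonneg (by omega)
  have h3 : ¬ P.p ∣ c.1.toNat := fun h => c.2 (h2 ▸ Int.natCast_dvd_natCast.2 h)
  have h4 : ¬ P.Act ⟨c.1.toNat, by omega, Or.inr h3⟩ := by
    change ¬ c.1.toNat < P.M
    omega
  exact ⟨_, Par.kap_ne_zero.2 h4, Subtype.ext ((Par.vK_val h4).trans h2)⟩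

lemma mem_ZS {m : ℕ} {z : P.C2} : z ∈ P.ZS m ↔ z ∈ FinM P.k P.Kv P.Ix ∧
    (∀ I μ, z I μ ≠ 0 → I.card = m ∧ 0 ≤ P.U1 I μ) ∧ P.d0 z = 0 :=
  ⟨fun h => ⟨h.1.1, h.1.2, h.2⟩, fun h => ⟨⟨h.1, h.2.1⟩, h.2.2⟩⟩

section step

variable {dec : DecidableEq P.Ix} (h : Module.End P.k P.C2)
  (h1 : ∀ z I μ, (∃ i, P.kap i ≠ 0 ∧ (i ∈ I ∨ μ (P.vK i) ≠ 0)) →
    dK P (h z) I μ + h (dK P z) I μ = z I μ)
  (h2 : ∀ z I μ, h z I μ ≠ 0 → ∃ i, P.kap i ≠ 0 ∧ i ∉ I ∧ μ (P.vK i) ≠ 0 ∧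
    z (insert i I) (μ - Finsupp.single (P.vK i) 1) ≠ 0)

include h1 h2 in
lemma base {m : ℕ} {z : P.C2} (hz : z ∈ P.ZS m) (hn : ∀ I μ, z I μ ≠ 0 → m ≤ nA I) :
    z ∈ P.ZQ m := by
  obtain ⟨-, hs, h0⟩ := mem_ZS.1 hz
  have hA : ∀ I μ, z I μ ≠ 0 → ∀ a ∈ I, P.Act a := fun I μ hI =>
    all_act ((hs I μ hI).1.le.trans (hn I μ hI))
  refine ⟨hz, fun I μ hI => ⟨hA I μ hI, fun c hc => ?_⟩⟩
  by_contra hc'
  obtain ⟨i, hi, rfl⟩ := exists_let c hc'
  have e1 : part m z = z := by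
    funext J ν
    by_cases hJ : z J ν = 0
    · unfold part
      split_ifs
      · rfl
      · exact hJ.symm
    · have := nA_le J
      have := (hs J ν hJ).1
      have := hn J ν hJ
      rw [part, if_pos (by omega)]
  have e2 : h z = 0 := by
    funext J ν
    by_contra hJ
    obtain ⟨i', hi', -, -, h3⟩ := h2 z J ν hJ
    exact Par.kap_ne_zero.1 hi' (hA _ _ h3 i' (Finset.mem_insert_self _ _))
  have e3 := dK_part h0 hn
  have := h1 z I μ ⟨i, hi, Or.inr (Finsupp.mem_support_iff.1 hc)⟩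
  rw [e1] at e3
  rw [e2, e3, map_zero, map_zero] at this
  exact hI (by simpa using this.symm)

include h2 in
lemma h_fin {z : P.C2} (hz : z ∈ FinM P.k P.Kv P.Ix) : h z ∈ FinM P.k P.Kv P.Ix := by
  refine ((mem_FinM.1 hz).biUnion fun x _ => x.1.finite_toSet.image
    fun i => (x.1.erase i, x.2 + Finsupp.single (P.vK i) 1)).subset ?_
  rintro ⟨I, μ⟩ hx
  obtain ⟨i, -, hi, hμ, h3⟩ := h2 z I μ hx
  refine Set.mem_iUnion₂.2 ⟨(insert i I, μ - Finsupp.single (P.vK i) 1), h3, i,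
    Finset.mem_coe.2 (Finset.mem_insert_self _ _), ?_⟩
  dsimp only
  rw [Finset.erase_insert hi, Finsupp.sub_add_single_one_cancel hμ]

include h1 h2 in
lemma step (hce : CeStm) (hr : P.CRel P.X2) (hD : P.D0) {m n : ℕ} (hnm : n < m) {z : P.C2}
    (hz : z ∈ P.ZS m) (hn : ∀ I μ, z I μ ≠ 0 → n ≤ nA I) :
    ∃ b ∈ P.BS m, z - b ∈ P.ZS m ∧ ∀ I μ, (z - b) I μ ≠ 0 → n + 1 ≤ nA I := by
  obtain ⟨hf, hs, h0⟩ := mem_ZS.1 hz
  have p1 : ∀ I μ, part n z I μ ≠ 0 → nA I = n ∧ z I μ ≠ 0 := by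
    intro I μ hI
    unfold part at hI
    split_ifs at hI with h3
    · exact ⟨h3, hI⟩
    · exact absurd rfl hI
  have xf : h (part n z) ∈ FinM P.k P.Kv P.Ix :=
    h_fin h h2 ((mem_FinM.1 hf).subset fun x hx => (p1 _ _ hx).2)
  have xs : ∀ I μ, h (part n z) I μ ≠ 0 → nA I = n ∧ I.card + 1 = m ∧ 0 ≤ P.U1 I μ := by
    intro I μ hI
    obtain ⟨i, hi, hiI, hμ, h3⟩ := h2 _ I μ hI
    have hi' := Par.kap_ne_zero.1 hi
    obtain ⟨h4, h5⟩ := p1 _ _ h3
    obtain ⟨h6, h7⟩ := hs _ _ h5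
    rw [nA_insert_let I hi'] at h4
    rw [Finset.card_insert_of_notMem hiI] at h6
    refine ⟨h4, h6, ?_⟩
    have h8 := Finsupp.weight_sub_single_add (w := P.W) hμ
    rw [Par.W_vK hi'] at h8
    rw [Par.U1, wI, Finset.sum_insert hiI] at h7
    rw [Par.U1, wI]
    omega
  have x0 : ∀ I, nA I ≠ n → h (part n z) I = 0 := fun I hI =>
    funext fun μ => by_contra fun h3 => hI (xs I μ h3).1
  have ds : ∀ I μ, P.d0 (h (part n z)) I μ ≠ 0 → I.card = m ∧ 0 ≤ P.U1 I μ := by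
    intro I μ hI
    by_contra h3
    refine hI (hD.dep _ I μ fun I' μ' h4 h5 => by_contra fun h6 => h3 ?_)
    obtain ⟨-, h7, h8⟩ := xs I' μ' h6
    omega
  have zs : ∀ I μ, (z - P.d0 (h (part n z))) I μ ≠ 0 → I.card = m ∧ 0 ≤ P.U1 I μ := by
    intro I μ hI
    by_cases h3 : z I μ = 0
    · refine ds I μ fun h4 => hI ?_
      rw [Pi.sub_apply, Pi.sub_apply, h3, h4, sub_zero]
    · exact hs I μ h3
  refine ⟨P.d0 (h (part n z)), ⟨_, ⟨xf, fun I μ hI => (xs I μ hI).2.1⟩, rfl⟩,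
    mem_ZS.2 ⟨sub_mem hf (hD.fin _ xf), zs, ?_⟩, fun I μ hI => ?_⟩
  · rw [map_sub, h0, Par.d0, Par.ce_sq hce hr, sub_zero]
  by_contra h3
  have h4 := (zs I μ hI).1
  refine hI ?_
  rw [Pi.sub_apply, Pi.sub_apply, d0_eq _ I fun I' h' => x0 I' (by omega), sub_eq_zero]
  by_cases h5 : nA I = n
  · have h6 : ∃ i, P.kap i ≠ 0 ∧ (i ∈ I ∨ μ (P.vK i) ≠ 0) := by
      by_contra h7
      have h8 : I.filter P.Act = I := Finset.filter_true_of_mem fun a ha => by_contra fun h9 =>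
        h7 ⟨a, Par.kap_ne_zero.2 h9, Or.inl ha⟩
      rw [nA, h8] at h5
      omega
    have := h1 (part n z) I μ h6
    rw [dK_part h0 hn, map_zero, part, if_pos h5] at this
    simpa using this.symm
  · rw [dK_zero _ I fun I' h' => x0 I' (by omega)]
    by_contra h6
    have := hn I μ h6
    omega

end step

end Red

theorem red_holds (P : Par) (hce : CeStm) (hr : P.CRel P.X2) (hk : KosStm) (h : P.D0) :
    P.Red := by
  obtain ⟨H, h1, h2⟩ := hk P.k P.Ix P.Kv P.kap P.vK Red.vK_inj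
  intro m
  have key : ∀ t n, n + t = m → ∀ z ∈ P.ZS m, (∀ I μ, z I μ ≠ 0 → n ≤ Red.nA I) →
      z ∈ P.ZQ m ⊔ P.BS m := by
    intro t
    induction t with
    | zero =>
      rintro n rfl z hz hn
      exact Submodule.mem_sup_left (Red.base H h1 h2 hz hn)
    | succ t ih =>
      intro n hn z hz hz'
      obtain ⟨b, hb, h3, h4⟩ := Red.step H h1 h2 hce hr h (show n < m by omega) hz hz'
      rw [← sub_add_cancel z b]
      exact add_mem (ih (n + 1) (by omega) _ h3 h4) (Submodule.mem_sup_right hb)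
  exact fun z hz => key m 0 (by omega) z hz fun _ _ _ => Nat.zero_le _

end CdI
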