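import Pool.Agent.P.MP_013f39_al.Inf.Api

/-! Commutation relations of the leading operators. -/

namespace CdI

open Cd3 MvPolynomial

namespace Rel12

variable {k : Type} [Field k] {σ : Type}

lemma th_mulX (κ : σ → k) (s : σ → σ) (c : σ) :
    LinearMap.mulLeft k (X c : MvPolynomial σ k) * (th κ s).toLinearMap -
      (th κ s).toLinearMap * LinearMap.mulLeft k (X c : MvPolynomial σ k) =
      κ c • LinearMap.mulLeft k (X (s c) : MvPolynomial σ k) := by
  refine LinearMap.ext fun f => ?_
  change X c * th κ s f - th κ s (X c * f) = κ c • (X (s c) * f)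
  rw [Derivation.leibniz, th_X, smul_eq_mul, smul_eq_mul, mul_neg, mul_smul_comm, mul_comm f]
  abel

/-- commutator of a transposed derivation and a transposed multiplication -/
lemma dth_del (κ : σ → k) (s : σ → σ) (c : σ) :
    dual (th κ s).toLinearMap * del k c - del k c * dual (th κ s).toLinearMap =
      κ c • del k (s c) := by
  rw [← dual_mulX, ← dual_mulX, ← dual_mul, ← dual_mul, ← dual_sub, th_mulX, dual_smul]

lemma del_comm (c c' : σ) : Commute (del k c) (del k c') := by
  refine LinearMap.ext fun f => funext fun μ => ?_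
  simp only [Module.End.mul_apply, del_apply]
  rw [add_right_comm]

lemma dth_comm (κ : σ → k) (s s' : σ → σ)
    (h : ∀ c, κ c ≠ 0 → κ (s c) = κ (s' c) ∧ s' (s c) = s (s' c)) :
    Commute (dual (th κ s).toLinearMap) (dual (th κ s').toLinearMap) := by
  have h1 : ⁅th κ s', th κ s⁆ = 0 := derivation_ext fun c => by
    rw [Derivation.commutator_apply, th_X, th_X, map_neg, map_neg, Derivation.map_smul,
      Derivation.map_smul, th_X, th_X, Derivation.zero_apply]
    by_cases h0 : κ c = 0
    · rw [h0, zero_smul, zero_smul, sub_self]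
    · rw [(h c h0).1, (h c h0).2, sub_self]
  have h2 : (th κ s').toLinearMap * (th κ s).toLinearMap =
      (th κ s).toLinearMap * (th κ s').toLinearMap := LinearMap.ext fun f => by
    have h3 := DFunLike.congr_fun h1 f
    rw [Derivation.commutator_apply, Derivation.zero_apply, sub_eq_zero] at h3
    exact h3
  rw [Commute, SemiconjBy, ← dual_mul, ← dual_mul, h2]

lemma ct_eval {ι τ : Type} [LinearOrder ι] (A : ι → Prop) [DecidablePred A] (κ : ι → k)
    (s : ι → ι → ι) (z : Finset ι → τ → k) (I : Finset ι) (μ : τ) :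
    ct A κ s z I μ = ct A κ s (fun J => z J μ) I := by
  simp only [ct_apply, ex_apply, io_apply, Finset.sum_apply, Pi.smul_apply, ite_apply,
    Pi.zero_apply]

lemma card_er {ι : Type} [LinearOrder ι] {I : Finset ι} {a : ι} (h : a ∈ I) :
    (I.erase a).card + 1 = I.card := Finset.card_erase_add_one h

lemma card_ins {ι : Type} [LinearOrder ι] {I : Finset ι} {a : ι} (h : a ∉ I) :
    (insert a I).card = I.card + 1 := Finset.card_insert_of_notMem h

lemma X1_act (P : Par) {a : P.Ix} (h : P.Act a) :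
    P.X1 a = del P.k a + dual (th P.kap (P.sh a)).toLinearMap := by
  rw [Par.X1, if_pos h]

lemma X1_let (P : Par) {a : P.Ix} (h : ¬ P.Act a) : P.X1 a = del P.k a := by
  rw [Par.X1, if_neg h, add_zero]

lemma X2_act (P : Par) {a : P.Ix} (h : P.Act a) :
    P.X2 a = dual (th (fun c => (c.1 : P.k)) (P.shK a)).toLinearMap := by
  rw [Par.X2, if_pos h]

lemma X2_let (P : Par) {a : P.Ix} (h : ¬ P.Act a) : P.X2 a = P.kap a • del P.k (P.vK a) := by
  rw [Par.X2, if_neg h]

lemma cast_shK (P : Par) (j : P.Ix) (c : P.Kv) : ((P.shK j c).1 : P.k) = (c.1 : P.k) := by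
  rw [Par.shK_val]
  push_cast
  rw [Par.q_cast, zero_mul, add_zero]

lemma bi (P : Par) (z : P.C1) (I : Finset P.Ix) (μ : Mon P.Ix)
    (h : ∀ I' μ', I'.card + 1 = I.card → P.T1 I' μ' = P.T1 I μ → P.T2 I μ < P.T2 I' μ' →
      z I' μ' = 0) : P.d1 z I μ = kz (del P.k) z I μ := by
  rw [Par.d1, Par.ce_apply, Pi.sub_apply, ct_eval, ct_eq_zero, sub_zero, kz_apply, kz_apply,
    Finset.sum_apply, Finset.sum_apply]
  · refine Finset.sum_congr rfl fun a ha => ?_
    rw [Pi.smul_apply, Pi.smul_apply, del_apply, Par.X1_dep]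
    intro ν h1 h2
    have e1 := wI_erase P.w ha
    have e2 := wI_erase P.w2 ha
    refine h _ _ (card_er ha) ?_ ?_
    · unfold Par.T1; omega
    · unfold Par.T2; omega
  · intro j hj i hi hA h0 hs
    have hl := Par.kap_ne_zero.1 h0
    have e1 := wI_erase P.w hj
    have e2 := wI_erase P.w2 hj
    have e3 := wI_erase P.w hi
    have e4 := wI_erase P.w2 hi
    have e5 := Par.w_sh hA hl
    have e6 := Par.w2_sh j hl
    refine h _ _ ?_ ?_ ?_
    · rw [card_ins hs, card_er hi, card_er hj]
    · unfold Par.T1; rw [wI_insert _ hs]; omega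
    · unfold Par.T2; rw [wI_insert _ hs]; omega

end Rel12

open Rel12

theorem rel1_holds (P : Par) : P.CRel P.X1 := by
  have h1 : ∀ j j' : P.Ix, P.Act j' →
      Commute (dual (th P.kap (P.sh j)).toLinearMap) (del P.k j') := fun j j' h => by
    have := dth_del P.kap (P.sh j) j'
    rwa [Par.kap_act h, zero_smul, sub_eq_zero] at this
  refine ⟨fun j j' h h' => ?_, fun i i' h h' => ?_, fun j i h h' => ?_⟩
  · rw [X1_act P h, X1_act P h']
    refine ((del_comm j j').add_right (h1 j' j h).symm).add_left ((h1 j j' h').add_right ?_)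
    refine dth_comm _ _ _ fun c hc => ?_
    have hl := Par.kap_ne_zero.1 hc
    exact ⟨by rw [Par.kap_sh j hl, Par.kap_sh j' hl], Par.sh_comm j' j hl⟩
  · rw [X1_let P h, X1_let P h']
    exact del_comm i i'
  · rw [X1_act P h, X1_let P h', X1_let P (Par.sh_let j h'), ← dth_del, add_mul, mul_add,
      (del_comm j i).eq, add_sub_add_left_eq_sub]

theorem rel2_holds (P : Par) : P.CRel P.X2 := by
  refine ⟨fun j j' h h' => ?_, fun i i' h h' => ?_, fun j i h h' => ?_⟩
  · rw [X2_act P h, X2_act P h']
    refine dth_comm _ _ _ fun c _ => ⟨by rw [cast_shK, cast_shK], Subtype.ext ?_⟩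
    simp only [Par.shK_val]
    ring
  · rw [X2_let P h, X2_let P h']
    exact ((del_comm _ _).smul_left _).smul_right _
  · have h1 := dth_del (fun c : P.Kv => (c.1 : P.k)) (P.shK j) (P.vK i)
    rw [Par.vK_val h', Int.cast_natCast, ← Par.kap_let h'] at h1
    rw [X2_act P h, X2_let P h', X2_let P (Par.sh_let j h'), mul_smul_comm, smul_mul_assoc,
      Par.vK_sh j h', Par.kap_sh j h', ← h1]
    exact (smul_sub _ _ _).symm

theorem d1_holds (P : Par) : P.D1 := by
  refine ⟨fun z I μ h => ?_, bi P⟩
  rw [bi P z I μ fun I' μ' h1 h2 h3 => h I' μ' h1 h2 h3.le, kz_apply, Finset.sum_apply]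
  refine Finset.sum_eq_zero fun a ha => ?_
  have e1 := wI_erase P.w ha
  have e2 := wI_erase P.w2 ha
  rw [Pi.smul_apply, del_apply, h _ _ (card_er ha), smul_zero]
  · unfold Par.T1; rw [Par.weight_add_one]; omega
  · unfold Par.T2; rw [Par.weight_add_one]; omega

end CdI
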