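import Pool.Agent.P.MP_013f39_al.Inf.Api

/-! Construction of the resolution. -/

namespace CdI

open Cd3 MvPolynomial

namespace Res

lemma exists_fun {k V : Type} [Field k] [AddCommGroup V] [Module k V] (U B : Submodule k V)
    (φ : V →ₗ[k] k) (h : ∀ b ∈ B, b ∈ U → φ b = 0) :
    ∃ χ : V →ₗ[k] k, (∀ u ∈ U, χ u = 0) ∧ ∀ b ∈ B, χ b = φ b := by
  have h1 : φ ∘ₗ B.subtype ∈ (LinearMap.ker (U.mkQ ∘ₗ B.subtype)).dualAnnihilator := by
    rw [Submodule.mem_dualAnnihilator]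
    intro b hb
    exact h b b.2 ((Submodule.Quotient.mk_eq_zero U).1 hb)
  rw [← LinearMap.range_dualMap_eq_dualAnnihilator_ker] at h1
  obtain ⟨g, hg⟩ := h1
  refine ⟨g ∘ₗ U.mkQ, fun u hu => ?_, fun b hb => LinearMap.congr_fun hg ⟨b, hb⟩⟩
  rw [LinearMap.comp_apply, Submodule.mkQ_apply, (Submodule.Quotient.mk_eq_zero U).2 hu, map_zero]

variable {P : Par} {sec : P.C1 →ₗ[P.k] (P.Gam → P.Lam)} {ψ : (P.Gam → P.Lam) →ₗ[P.k] P.Lam}
  {n j : ℕ}

lemma T1_nonneg (I : Finset P.Ix) (μ : Mon P.Ix) : 0 ≤ P.T1 I μ :=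
  add_nonneg (Par.wI_nonneg I) (Par.weight_nonneg (fun a => (Par.w_pos a).le) μ)

lemma T2_nonneg (I : Finset P.Ix) (μ : Mon P.Ix) : 0 ≤ P.T2 I μ :=
  add_nonneg (Par.wI2_nonneg I) (Par.weight_nonneg (fun a => (Par.w2_pos a).le) μ)

lemma del_coV (hs : P.Sec sec) {F : P.Gam → P.Lam} (hF : F ∈ P.DD j) :
    (P.coV ∘ₗ P.dl ψ ∘ₗ sec) (P.coV F) = P.coV (P.dl ψ F) := by
  rw [LinearMap.comp_apply, LinearMap.comp_apply, ((hs j).2 F hF).2]

/-- strictness in positive degree -/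
lemma strict (hs : P.Sec sec) (hh : P.Hd) (ht : P.St) (h : P.Res0 n ψ) (hj : j + 1 ≤ n)
    {a b : ℤ} {F : P.Gam → P.Lam} (hF : F ∈ P.DD (j + 1)) (h0 : P.coV (P.dl ψ F) ∈ P.G2 a b) :
    ∃ E ∈ P.DD j, P.coV (F - P.dl ψ E) ∈ P.G2 a b := by
  have r0 := h.ra j (by omega)
  obtain ⟨x, hx, h1⟩ := (ht (P.coV ∘ₗ P.dl ψ ∘ₗ sec)).1 j (hh sec ψ j hs r0)
    (hh sec ψ (j + 1) hs (h.ra _ hj)) (fun x hx => by
      have h2 := ((hs j).1 x hx).1
      have h3 : (P.coV ∘ₗ P.dl ψ ∘ₗ sec) x = P.coV (P.dl ψ (sec x)) := rfl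
      rw [h3, del_coV hs (Par.dl_mem r0.deg h2), h.sq j hj _ h2, map_zero]) a b (P.coV F)
    ((hs _).2 F hF).1 (by rwa [del_coV hs hF])
  exact ⟨sec x, ((hs j).1 x hx).1, by rw [map_sub]; exact h1⟩

/-- strictness in degree zero -/
lemma strict0 (hs : P.Sec sec) (hh : P.Hd) (ht : P.St) (h : P.Res0 n ψ)
    {a b : ℤ} {F : P.Gam → P.Lam} (hF : F ∈ P.DD 0) (h0 : P.coV (P.dl ψ F) ∈ P.G2 a b) :
    P.coV F ∈ SupM P.k fun I μ => P.T1 I μ ≤ a ∨ P.T2 I μ ≤ b ∨ μ = 0 :=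
  (ht (P.coV ∘ₗ P.dl ψ ∘ₗ sec)).2 (hh sec ψ 0 hs (h.ra 0 n.zero_le)) a b _ ((hs _).2 F hF).1
    (by rwa [del_coV hs hF])

lemma split (hs : P.Sec sec) (hf : P.FilC) {a b : ℤ} {F : P.Gam → P.Lam} (hF : F ∈ P.DD j)
    (h0 : P.coV F ∈ P.G2 a b) :
    ∃ F1 ∈ P.DD j, P.FilV P.w a F1 ∧ P.FilV P.w2 b (F - F1) := by
  classical
  have hz := ((hs j).2 F hF).1
  let r : P.C1 := fun I μ => if P.T1 I μ ≤ a then P.coV F I μ else 0
  have hr0 : ∀ I μ, r I μ ≠ 0 → P.coV F I μ ≠ 0 ∧ P.T1 I μ ≤ a := fun I μ h => by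
    by_cases h1 : P.T1 I μ ≤ a
    · exact ⟨by simpa [r, h1] using h, h1⟩
    · exact absurd (if_neg h1) h
  have hr : r ∈ P.FD j := ⟨(mem_FinM.1 hz.1).subset fun x hx => (hr0 _ _ hx).1,
    fun I μ h => hz.2 I μ (hr0 I μ h).1⟩
  obtain ⟨h1, h2⟩ := (hs j).1 r hr
  refine ⟨sec r, h1, (hf.vec h1.1 a).1.2 ?_, (hf.vec (sub_mem hF h1).1 b).2.2 ?_⟩
  · rw [h2]
    exact fun I μ h => (hr0 I μ h).2
  · rw [map_sub, h2]
    intro I μ h
    by_cases h3 : P.T1 I μ ≤ a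
    · exact absurd (by simp [r, h3]) h
    · exact (h0 I μ (by simpa [r, h3] using h)).resolve_left h3

lemma dec (hs : P.Sec sec) (hf : P.FilC) (hh : P.Hd) (ht : P.St) (h : P.Res0 n ψ) {a b : ℤ}
    (ha : 0 ≤ a) {F : P.Gam → P.Lam} (hF : F ∈ P.DD n) (h0 : P.coV (P.dl ψ F) ∈ P.G2 a b) :
    ∃ F1 ∈ P.DD n, ∃ F2 ∈ P.DD n, P.FilV P.w a F1 ∧ P.FilV P.w2 b F2 ∧
      P.dl ψ F = P.dl ψ F1 + P.dl ψ F2 := by
  have key : ∃ F0 ∈ P.DD n, P.dl ψ F0 = 0 ∧ P.coV (F - F0) ∈ P.G2 a b := by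
    rcases n with _ | m
    · refine ⟨0, zero_mem _, map_zero _, fun I μ h1 => ?_⟩
      rw [sub_zero] at h1
      rcases strict0 hs hh ht h hF h0 I μ h1 with h2 | h2 | h2
      · exact Or.inl h2
      · exact Or.inr h2
      · left
        have h3 : I = ∅ := Finset.card_eq_zero.1 (((hs 0).2 F hF).1.2 I μ h1)
        simpa [Par.T1, h2, h3, wI] using ha
    · obtain ⟨E, hE, h1⟩ := strict hs hh ht h le_rfl hF h0
      exact ⟨_, Par.dl_mem (h.ra m (by omega)).deg hE, h.sq m le_rfl E hE, h1⟩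
  obtain ⟨F0, a1, a2, a3⟩ := key
  obtain ⟨F1, b1, b2, b3⟩ := split hs hf (sub_mem hF a1) a3
  refine ⟨F1, b1, _, sub_mem (sub_mem hF a1) b1, b2, b3, ?_⟩
  rw [map_sub, map_sub, a2]
  abel

lemma compat (hs : P.Sec sec) (hf : P.FilC) (hd : P.DlFil) (hp : P.Psi0) (hh : P.Hd) (ht : P.St)
    (h : P.Res0 n ψ) (I : Finset P.Ix) {B : P.Gam → P.Lam}
    (hB : B ∈ P.DD (n + 1) ⊓ P.FilS P.w (wI P.w I))
    (hU : B ∈ (P.DD n).map (P.dl ψ) ⊔ (P.DD (n + 1) ⊓ P.FilS P.w2 (wI P.w2 I - 1))) :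
    P.psi0 B I = 0 := by
  obtain ⟨_, ⟨F, hF, rfl⟩, C, hC, hBC⟩ := Submodule.mem_sup.1 hU
  have r0 := h.ra n le_rfl
  have h0 : P.coV (P.dl ψ F) ∈ P.G2 (wI P.w I) (wI P.w2 I - 1) := by
    rw [eq_sub_of_add_eq hBC, map_sub]
    exact sub_mem (SupM_mono (fun _ _ => Or.inl) ((hf.vec hB.1.1 _).1.1 hB.2))
      (SupM_mono (fun _ _ => Or.inr) ((hf.vec hC.1.1 _).2.1 hC.2))
  obtain ⟨F1, a1, F2, a2, a3, a4, a5⟩ := dec hs hf hh ht h (Par.wI_nonneg I) hF h0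
  have b1 : P.FilV P.w2 (wI P.w2 I - 1) (P.dl ψ F2) := fun J =>
    (hd P.w2 n (LinearMap.proj J ∘ₗ ψ) (wI P.w2 J - 1) (fun G hG hG' => r0.two G hG J hG')
      F2 a2 _ a4).mono (by omega)
  have b2 : P.FilV P.w (wI P.w I - 1) (P.dl ψ F1 - P.dl P.psi0 F1) := fun J =>
    (hd P.w n (LinearMap.proj J ∘ₗ (ψ - P.psi0)) (wI P.w J)
      (fun G hG hG' => sub_eq_zero.2 (r0.lead G hG J hG')) F1 a1 _ a3).mono (by omega)
  have c1 := hp.k2 _ _ I (Par.mem_FilS.1 (add_mem (Par.mem_FilS.2 b1) hC.2)) (by omega)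
  have c2 := hp.k1 _ _ I b2 (by omega)
  have c3 := hp.sq n F1 a1 I a3
  have c4 : B = (P.dl ψ F2 + C) + (P.dl ψ F1 - P.dl P.psi0 F1) + P.dl P.psi0 F1 := by
    rw [← hBC, a5]; abel
  rw [c4, map_add, map_add, Pi.add_apply, Pi.add_apply, c1, c2, c3, add_zero, add_zero]

variable (P) in
/-- the part of degree `j` -/
def prL (j : ℕ) : P.Lam →ₗ[P.k] P.Lam where
  toFun v J := if J.card = j then v J else 0
  map_add' _ _ := by ext J; by_cases h : J.card = j <;> simp [h]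
  map_smul' _ _ := by ext J; by_cases h : J.card = j <;> simp [h]

lemma prL_self {v : P.Lam} (h : v ∈ P.LamD j) : prL P j v = v := by
  ext J
  change (if J.card = j then v J else 0) = v J
  split_ifs with h1
  · rfl
  · by_contra h2
    exact h1 (h.2 J (Ne.symm h2))

lemma prL_ne {i : ℕ} {v : P.Lam} (h : v ∈ P.LamD i) (hi : i ≠ j) : prL P j v = 0 := by
  ext J
  change (if J.card = j then v J else 0) = 0
  split_ifs with h1
  · by_contra h2
    exact hi ((h.2 J h2).symm.trans h1)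
  · rfl

lemma exists_fil (hs : P.Sec sec) (hf : P.FilC) {F : P.Gam → P.Lam} (hF : F ∈ P.DD j) :
    ∃ s, P.FilV P.w2 s F := by
  obtain ⟨s, h⟩ := ((mem_FinM.1 ((hs j).2 F hF).1.1).image fun x => P.T2 x.1 x.2).bddAbove
  exact ⟨s, (hf.vec hF.1 s).2.2 fun I μ h1 => h ⟨(I, μ), h1, rfl⟩⟩

lemma step (hs : P.Sec sec) (hf : P.FilC) (hd : P.DlFil) (hp : P.Psi0) (hh : P.Hd) (ht : P.St)
    (h : P.Res0 n ψ) : ∃ ψ', P.Res0 (n + 1) ψ' := by
  choose χ h1 h2 using fun I => exists_fun _ _ (LinearMap.proj I ∘ₗ P.psi0)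
    fun B hB hU => compat hs hf hd hp hh ht h I (B := B) hB hU
  let pr : Module.End P.k (P.Gam → P.Lam) := (prL P (n + 1)).compLeft _
  let ψ' : (P.Gam → P.Lam) →ₗ[P.k] P.Lam :=
    ψ ∘ₗ (1 - pr) + prL P (n + 2) ∘ₗ LinearMap.pi χ ∘ₗ pr
  have e1 : ∀ i ≤ n, ∀ F ∈ P.DD i, ψ' F = ψ F := fun i hi F hF => by
    have : pr F = 0 := funext fun x => prL_ne (hF.2 x) (by omega)
    simp [ψ', this]
  have e2 : ∀ F ∈ P.DD (n + 1), ∀ I, ψ' F I = if I.card = n + 2 then χ I F else 0 :=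
    fun F hF I => by
      have : pr F = F := funext fun x => prL_self (hF.2 x)
      simp only [ψ', LinearMap.add_apply, LinearMap.comp_apply, LinearMap.sub_apply, this,
        Module.End.one_apply, sub_self, map_zero, zero_add]
      rfl
  have e3 : ∀ i ≤ n, ∀ F ∈ P.DD i, P.dl ψ' F = P.dl ψ F := fun i hi F hF =>
    funext fun x => e1 i hi _ (Par.DD_left hF x)
  have e4 : ∀ F ∈ P.DD (n + 1), ∀ I, P.FilV P.w2 (wI P.w2 I - 1) F → ψ' F I = 0 :=
    fun F hF I h3 => by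
      rw [e2 F hF, h1 I F (Submodule.mem_sup_right ⟨hF, h3⟩), ite_self]
  refine ⟨ψ', fun i hi => ?_, fun i hi F hF => ?_⟩
  · rcases hi.lt_or_eq with hi | rfl
    · have r := h.ra i (by omega)
      refine ⟨fun F hF => ?_, fun F hF I h3 => ?_, fun F hF I h3 => ?_⟩ <;>
        rw [e1 i (by omega) F hF]
      exacts [r.deg F hF, r.lead F hF I h3, r.two F hF I h3]
    · refine ⟨fun F hF => ⟨?_, fun I h3 => ?_⟩, fun F hF I h3 => ?_, e4⟩
      · obtain ⟨s, h3⟩ := exists_fil hs hf hF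
        refine (P.finite_wI s).subset fun I hI => ?_
        by_contra h4
        have h5 : wI P.w I ≤ wI P.w2 I := Finset.sum_le_sum fun a _ => Par.w_le_w2 a
        have h6 : s < wI P.w I := not_le.1 h4
        exact hI (e4 F hF I (h3.mono (by omega)))
      · by_contra h4
        exact h3 (by rw [e2 F hF, if_neg h4])
      · rw [e2 F hF]
        split_ifs with h4
        · exact h2 I F ⟨hF, h3⟩
        · by_contra h5
          exact h4 ((hp.deg _ F hF).2 I (Ne.symm h5))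
  · have hi' : i ≤ n := by omega
    have r := h.ra i hi'
    rw [e3 i hi' F hF]
    rcases hi'.lt_or_eq with hi | rfl
    · rw [e3 (i + 1) hi _ (Par.dl_mem r.deg hF), h.sq i hi F hF]
    · funext x I
      have h3 : (fun y => P.dl ψ F (x * y)) = P.dl ψ fun y => F (x * y) := by
        funext y
        simp only [Par.dl_apply, mul_assoc]
      have h4 := Par.DD_left hF x
      rw [Par.dl_apply, h3, e2 _ (Par.dl_mem r.deg h4),
        h1 I _ (Submodule.mem_sup_left ⟨_, h4, rfl⟩), ite_self]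
      rfl

lemma eq_zero_of_G2 {z : P.C1} (h : z ∈ P.G2 (-1) (-1)) : z = 0 := by
  funext I μ
  by_contra h1
  have := T1_nonneg I μ
  have := T2_nonneg I μ
  rcases h I μ h1 with h2 | h2 <;> omega

lemma fil_const (ω : P.Ix → ℤ) {s : ℤ} (hs : 0 ≤ s) (c : P.k) : P.Fil ω s fun _ => c := by
  intro l hl
  rcases l.eq_nil_or_concat with rfl | ⟨l', a, rfl⟩
  · simp at hl; omega
  · have : P.word [a] (fun _ => c) = 0 := funext fun x => by
      rw [Par.word_cons, Par.word_nil, Par.Dl_apply, sub_self]; rfl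
    rw [List.concat_eq_append, Par.word_append, this, map_zero]
    rfl

end Res

theorem res0_holds (P : Par) (hs : ∃ sec, P.Sec sec) (hf : P.FilC) (hd : P.DlFil) (hp : P.Psi0)
    (hh : P.Hd) (ht : P.St) (n : ℕ) : ∃ ψ, P.Res0 n ψ := by
  obtain ⟨sec, hs⟩ := hs
  induction n with
  | zero => exact ⟨P.psi0, fun j _ => ⟨hp.deg j, fun _ _ _ _ => rfl,
      fun F _ I h => hp.k2 F _ I h (by omega)⟩, fun j hj => absurd hj (by omega)⟩
  | succ n ih =>
    obtain ⟨ψ, h⟩ := ih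
    exact Res.step hs hf hd hp hh ht h

theorem res_holds (P : Par) (h1 : P.Coord1) (hs : ∃ sec, P.Sec sec) (hp : P.Psi0) (hh : P.Hd)
    (ht : P.St) (n : ℕ) (ψ) (h : P.Res0 n ψ) : P.Res n ψ := by
  obtain ⟨sec, hs⟩ := hs
  have r := h.ra 0 n.zero_le
  refine ⟨h, fun j hj F hF h0 => ?_, fun F hF h0 => ?_, fun v hv => ?_⟩
  · obtain ⟨E, hE, h2⟩ := Res.strict hs hh ht h hj hF (a := -1) (b := -1)
      (by rw [h0, map_zero]; exact zero_mem _)
    have h3 := ((hs _).2 _ (sub_mem hF (Par.dl_mem (h.ra j (by omega)).deg hE))).2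
    rw [Res.eq_zero_of_G2 h2, map_zero] at h3
    exact ⟨E, hE, (sub_eq_zero.1 h3.symm).symm⟩
  · have h2 := Res.strict0 hs hh ht h hF (a := -1) (b := -1)
      (by rw [h0, map_zero]; exact zero_mem _)
    have key : ∀ x, F x = F 1 := fun x => funext fun I => by
      have h3 : P.co ((fun x => F x I) - fun _ => F 1 I) = 0 := by
        funext α
        by_cases hα : α = 0
        · rw [hα, ← h1.ev]; simp
        · rw [map_sub, Pi.sub_apply, h1.const _ α hα, sub_zero]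
          by_contra h4
          have := Res.T1_nonneg I α
          have := Res.T2_nonneg I α
          rcases h2 I α h4 with h5 | h5 | h5
          · omega
          · omega
          · exact hα h5
      exact sub_eq_zero.1 (congrFun (h1.inj _ (hF.1.comp fun v => v I - F 1 I) h3) x)
    exact fun x y => (key x).trans (key y).symm
  · funext I
    by_contra h2
    have h3 := (r.deg _ (Par.DD_const hv)).2 I h2
    obtain ⟨a, rfl⟩ := Finset.card_eq_one.1 h3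
    refine h2 (r.two _ (Par.DD_const hv) _ fun J => ?_)
    by_cases h4 : v J = 0
    · intro l _
      change P.word l (fun _ => v J) 1 = 0
      rw [h4]
      exact congrFun (map_zero (P.word l)) 1
    · refine Res.fil_const _ ?_ _
      have := Par.w2_pos a
      rw [Finset.card_eq_zero.1 (hv.2 J h4)]
      simp only [wI, Finset.sum_singleton, Finset.sum_empty]
      omega

end CdI
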