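import Pool.Agent.P.MP_013f39_al.Inf.Api

/-! Infinite cohomological dimension of `H_r`: the bound on cocycles modulo coboundaries. -/

namespace CdI

open Cd3 MvPolynomial

namespace Small

variable (P : Par)

/-- the window of colours -/
def Win (c : P.Kv) : Prop := (P.M : ℤ) - P.q ≤ c.1 ∧ c.1 < P.M

noncomputable def Wf : Finset P.Kv :=
  (Finset.Ico ((P.M : ℤ) - P.q) P.M).subtype fun c => ¬ (P.p : ℤ) ∣ c

lemma mem_Wf (c : P.Kv) : c ∈ Wf P ↔ Win P c := by
  simp [Wf, Win, Finset.mem_subtype]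

lemma card_Wf : (Wf P).card ≤ P.q := by
  rw [Wf, Finset.card_subtype]
  refine (Finset.card_filter_le _ _).trans ?_
  rw [Int.card_Ico]
  simp

lemma exists_col (c : P.Kv) (hc : c.1 < P.M) :
    ∃ r : P.Kv, Win P r ∧ ∃ t : ℕ, c.1 = r.1 - P.q * (t : ℤ) := by
  have hq : (0 : ℤ) < P.q := by have := P.two_le_q; omega
  obtain ⟨t, ht⟩ := Int.eq_ofNat_of_zero_le
    (Int.ediv_nonneg (show (0 : ℤ) ≤ P.M - 1 - c.1 by omega) hq.le)
  have h1 := Int.emod_add_mul_ediv ((P.M : ℤ) - 1 - c.1) P.q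
  have h2 := Int.emod_nonneg ((P.M : ℤ) - 1 - c.1) hq.ne'
  have h3 := Int.emod_lt_of_pos ((P.M : ℤ) - 1 - c.1) hq
  rw [ht] at h1
  refine ⟨P.shN t c, ⟨?_, ?_⟩, t, ?_⟩
  · rw [Par.shN_val]; omega
  · rw [Par.shN_val]; omega
  · rw [Par.shN_val]; ring

lemma exists_tup (μ : Mon P.Kv) : (∀ c ∈ μ.support, c.1 < (P.M : ℤ)) →
    ∃ (d : ℕ) (ρ : Fin d → P.Kv) (n : Mon (Fin d)), (∀ l, Win P (ρ l)) ∧ μ = P.tup ρ n := by
  induction μ using mon_ind with
  | h0 => exact fun _ => ⟨0, Fin.elim0, 0, fun l => l.elim0, by simp [Par.tup]⟩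
  | h1 μ c ih =>
    intro h
    obtain ⟨d, ρ, n, h1, h2⟩ := ih fun c' hc' => h c' (by
      rw [Finsupp.mem_support_iff] at hc' ⊢
      rw [Finsupp.add_apply]; omega)
    obtain ⟨r, hr, t, ht⟩ := exists_col P c (h c (by
      rw [Finsupp.mem_support_iff, Finsupp.add_apply, Finsupp.single_eq_same]; omega))
    refine ⟨d + 1, Fin.cons r ρ, Finsupp.cons t n, fun l => ?_, ?_⟩
    · refine Fin.cases ?_ (fun l => ?_) l
      · exact hr
      · exact h1 l
    · rw [Par.tup, Fin.sum_univ_succ, add_comm μ, h2, Par.tup]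
      congr 2
      exact Subtype.ext ht

/-- cocycles of one colour -/
noncomputable def Wc (m : ℕ) {d : ℕ} (ρ : Fin d → P.Kv) : Submodule P.k P.C2 :=
  P.ZQ m ⊓ SupM P.k fun _ μ => ∃ n, μ = P.tup ρ n

lemma poly_sm (h3 : P.PInd) (h4 : P.PNak) (m : ℕ) (hm : 2 * m + 1 ≤ P.N) (d : ℕ)
    (ρ : Fin d → P.Kv) :
    Sm (P.ZP (fun l => -((ρ l).1 : P.k)) m (d * P.M : ℕ)) (P.BP (fun l => -((ρ l).1 : P.k)) m)
      (if 2 * m < d then 0 else (2 * m + 1) ^ m * ((5 * m + 2) * P.M) ^ m) := by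
  have hc : ∀ l, -((ρ l).1 : P.k) ≠ 0 := fun l => neg_ne_zero.2 (Par.cast_ne_zero _)
  split_ifs with hd
  · exact Sm.of_le (h4 m (Fin d) _ hm hc (by simpa using hd) _)
  · have hNM := P.N_lt_M
    have := h3 (2 * m) ((5 * m + 2) * P.M) m (Fin d) (fun l => -((ρ l).1 : P.k)) Finset.univ 0
      (d * P.M) (by omega) (by simpa using hd) (fun l _ => hc l) (by simp) (by
        have e1 : d * P.M ≤ 2 * m * P.M := Nat.mul_le_mul_right _ (by omega)
        have e2 : m * (P.N + 2 * m) ≤ m * (2 * P.M) := Nat.mul_le_mul_left _ (by omega)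
        nlinarith)
    rw [if_neg (by simpa using hd), add_zero] at this
    exact this

lemma cover (h2 : P.Col2) (h3 : P.PInd) (h4 : P.PNak) (m : ℕ) (hm : 2 * m + 1 ≤ P.N)
    (U : Submodule P.k P.C2)
    (hU : ∀ (d : ℕ) (ρ : Fin d → P.Kv), (∀ l, Win P (ρ l)) → Wc P m ρ ≤ U) : P.ZQ m ≤ U := by
  have key : ∀ (s : Finset (Finset P.Ix × Mon P.Kv)), ∀ z ∈ P.ZQ m,
      (∀ I μ, z I μ ≠ 0 → (I, μ) ∈ s) → z ∈ U := by
    classical
    intro s
    induction s using Finset.induction_on with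
    | empty =>
      intro z _ h
      have : z = 0 := by
        funext I μ
        by_contra h0
        simpa using h I μ h0
      rw [this]; exact zero_mem _
    | insert x s hx ih =>
      intro z hz h
      by_cases h0 : z x.1 x.2 = 0
      · refine ih z hz fun I μ h1 => (Finset.mem_insert.1 (h I μ h1)).resolve_left ?_
        rintro rfl; exact h1 h0
      obtain ⟨d, ρ, n, hρ, hn⟩ := exists_tup P x.2 (hz.2 x.1 x.2 h0).2
      obtain ⟨z', hz', he⟩ := (h2 m d _ ρ hρ (poly_sm P h3 h4 m hm d ρ)).2 z hz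
      have h5 : z - z' ∈ U := by
        refine ih _ (sub_mem hz hz'.1) fun I μ h1 => ?_
        have h6 : ¬ ∃ n, μ = P.tup ρ n := by
          rintro ⟨n', rfl⟩
          exact h1 (by rw [Pi.sub_apply, Pi.sub_apply, he, sub_self])
        have h7 : z' I μ = 0 := by
          by_contra h7; exact h6 (hz'.2 I μ h7)
        rw [Pi.sub_apply, Pi.sub_apply, h7, sub_zero] at h1
        refine (Finset.mem_insert.1 (h I μ h1)).resolve_left ?_
        rintro rfl; exact h6 ⟨n, hn⟩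
      have := add_mem h5 (hU d ρ hρ hz')
      rwa [sub_add_cancel] at this
  intro z hz
  have hf : {x : Finset P.Ix × Mon P.Kv | z x.1 x.2 ≠ 0}.Finite := hz.1.1.1
  exact key hf.toFinset z hz fun I μ h => hf.mem_toFinset.2 h

end Small

open CdI.Small in
theorem small_holds (P : Par) (h1 : P.Red) (h2 : P.Col2) (h3 : P.PInd) (h4 : P.PNak) :
    P.Small := by
  classical
  intro m hm
  set K := (2 * m + 1) ^ m * ((5 * m + 2) * P.M) ^ m with hK
  have hW : ∀ (d : ℕ) (ρ : Fin d → P.Kv), (∀ l, Win P (ρ l)) →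
      Sm (Wc P m ρ) (P.BS m) (if 2 * m < d then 0 else K) := fun d ρ hρ =>
    (h2 m d _ ρ hρ (poly_sm P h3 h4 m hm d ρ)).1
  have hV : ∀ d ∈ Finset.range (2 * m + 1),
      Sm (⨆ ρ ∈ Fintype.piFinset fun _ : Fin d => Wf P, Wc P m ρ) (P.BS m) (P.q ^ (2 * m) * K) := by
    intro d hd
    have hd' : d ≤ 2 * m := by simpa [Nat.lt_succ_iff] using hd
    refine (Sm.iSup (Fintype.piFinset fun _ : Fin d => Wf P) (fun ρ => Wc P m ρ) (fun _ => K)
      fun ρ hρ => ?_).mono le_rfl le_rfl ?_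
    · have := hW d ρ fun l => (mem_Wf P _).1 (Fintype.mem_piFinset.1 hρ l)
      rwa [if_neg (by omega)] at this
    · rw [Finset.sum_const, smul_eq_mul, Fintype.card_piFinset_const]
      refine Nat.mul_le_mul_right _ ((Nat.pow_le_pow_left (card_Wf P) _).trans ?_)
      exact Nat.pow_le_pow_right (by have := P.two_le_q; omega) hd'
  have hS := (Sm.iSup _ _ _ hV).sup (Sm.of_le (le_refl (P.BS m)))
  refine hS.mono ((h1 m).trans (sup_le ?_ le_sup_right)) le_rfl ?_
  · refine cover P h2 h3 h4 m hm _ fun d ρ hρ => ?_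
    by_cases hd : 2 * m < d
    · have := hW d ρ hρ
      rw [if_pos hd] at this
      exact this.le.trans le_sup_right
    · refine le_trans ?_ le_sup_left
      refine le_trans ?_ (le_iSup₂_of_le (f := fun d (_ : d ∈ Finset.range (2 * m + 1)) =>
        ⨆ ρ ∈ Fintype.piFinset fun _ : Fin d => Wf P, Wc P m ρ) d
        (Finset.mem_range.2 (by omega)) le_rfl)
      exact le_iSup₂_of_le (f := fun ρ (_ : ρ ∈ Fintype.piFinset fun _ : Fin d => Wf P) =>
        Wc P m ρ) ρ (Fintype.mem_piFinset.2 fun l => (mem_Wf P _).2 (hρ l)) le_rfl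
  · rw [Finset.sum_const, smul_eq_mul, Finset.card_range, add_zero, mul_assoc]

end CdI
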