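import Pool.Agent.P.MP_013f39_al.Inf.Api

/-! Strictness of a bi-filtered complex with Koszul leading part. -/

namespace CdI

open Cd3 MvPolynomial

namespace St

variable {P : Par}

open Classical in
/-- restriction of a cochain to a set of points -/
noncomputable def res (Q : Finset P.Ix → Mon P.Ix → Prop) (z : P.C1) : P.C1 :=
  fun I μ => if Q I μ then z I μ else 0

lemma res_pos {Q : Finset P.Ix → Mon P.Ix → Prop} {z : P.C1} {I : Finset P.Ix} {μ : Mon P.Ix}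
    (h : Q I μ) : res Q z I μ = z I μ := if_pos h

lemma res_neg {Q : Finset P.Ix → Mon P.Ix → Prop} {z : P.C1} {I : Finset P.Ix} {μ : Mon P.Ix}
    (h : ¬ Q I μ) : res Q z I μ = 0 := if_neg h

lemma res_ne {Q : Finset P.Ix → Mon P.Ix → Prop} {z : P.C1} {I : Finset P.Ix} {μ : Mon P.Ix}
    (h : res Q z I μ ≠ 0) : Q I μ ∧ z I μ ≠ 0 := by
  by_cases hq : Q I μ
  · rw [res_pos hq] at h; exact ⟨hq, h⟩
  · exact absurd (res_neg hq) h

lemma res_mem (Q : Finset P.Ix → Mon P.Ix → Prop) {j : ℕ} {z : P.C1} (hz : z ∈ P.FD j) :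
    res Q z ∈ P.FD j :=
  ⟨(mem_FinM.1 hz.1).subset fun _ h => (res_ne h).2, fun I μ h => hz.2 I μ (res_ne h).2⟩

lemma T1_erase {I : Finset P.Ix} {a : P.Ix} (h : a ∈ I) (μ : Mon P.Ix) :
    P.T1 (I.erase a) (μ + Finsupp.single a 1) = P.T1 I μ := by
  have : wI P.w (I.erase a) + P.w a = wI P.w I := Finset.sum_erase_add _ _ h
  rw [Par.T1, Par.T1, Par.weight_add_one]; omega

lemma T2_erase {I : Finset P.Ix} {a : P.Ix} (h : a ∈ I) (μ : Mon P.Ix) :
    P.T2 (I.erase a) (μ + Finsupp.single a 1) = P.T2 I μ := by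
  have : wI P.w2 (I.erase a) + P.w2 a = wI P.w2 I := Finset.sum_erase_add _ _ h
  rw [Par.T2, Par.T2, Par.weight_add_one]; omega

lemma sub_add {μ : Mon P.Ix} {a : P.Ix} (h : μ a ≠ 0) :
    μ - Finsupp.single a 1 + Finsupp.single a 1 = μ :=
  tsub_add_cancel_of_le (Finsupp.single_le_iff.2 (Nat.one_le_iff_ne_zero.2 h))

lemma T1_insert {I : Finset P.Ix} {a : P.Ix} (h : a ∉ I) {μ : Mon P.Ix} (h' : μ a ≠ 0) :
    P.T1 (insert a I) (μ - Finsupp.single a 1) = P.T1 I μ := by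
  rw [← T1_erase (Finset.mem_insert_self a I), Finset.erase_insert h, sub_add h']

lemma T2_insert {I : Finset P.Ix} {a : P.Ix} (h : a ∉ I) {μ : Mon P.Ix} (h' : μ a ≠ 0) :
    P.T2 (insert a I) (μ - Finsupp.single a 1) = P.T2 I μ := by
  rw [← T2_erase (Finset.mem_insert_self a I), Finset.erase_insert h, sub_add h']

lemma kz_del (z : P.C1) (I : Finset P.Ix) (μ : Mon P.Ix) :
    kz (del P.k) z I μ = ∑ a ∈ I, sg P.k a I * z (I.erase a) (μ + Finsupp.single a 1) := by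
  rw [kz_apply, Finset.sum_apply]
  rfl

/-- the Koszul operator only sees the same bidegree -/
lemma kz_congr {z z' : P.C1} {I : Finset P.Ix} {μ : Mon P.Ix}
    (h : ∀ I' μ', P.T1 I' μ' = P.T1 I μ → P.T2 I' μ' = P.T2 I μ → z I' μ' = z' I' μ') :
    kz (del P.k) z I μ = kz (del P.k) z' I μ := by
  rw [kz_del, kz_del]
  exact Finset.sum_congr rfl fun a ha => by rw [h _ _ (T1_erase ha μ) (T2_erase ha μ)]

/-- at a point not strictly dominated by the support, `δ` is the Koszul operator -/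
lemma lead {δ : Module.End P.k P.C1} {j : ℕ} (hδ : P.HD δ j) {y : P.C1} (hy : y ∈ P.FD j)
    (I : Finset P.Ix) (μ : Mon P.Ix)
    (h : ∀ I' μ', y I' μ' ≠ 0 → P.T1 I μ ≤ P.T1 I' μ' → P.T2 I μ ≤ P.T2 I' μ' →
      P.T1 I' μ' + P.T2 I' μ' ≤ P.T1 I μ + P.T2 I μ) :
    δ y I μ = kz (del P.k) y I μ := by
  obtain ⟨B1, h1⟩ := FinM.bdd hy.1 P.T1
  obtain ⟨B2, h2⟩ := FinM.bdd hy.1 P.T2
  set y1 := res (fun I' μ' => P.T1 I' μ' < P.T1 I μ) y with e1
  set y2 := res (fun I' μ' => P.T1 I μ ≤ P.T1 I' μ' ∧ P.T2 I' μ' < P.T2 I μ) y with e2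
  set y3 := res (fun I' μ' => P.T1 I μ ≤ P.T1 I' μ' ∧ P.T2 I μ ≤ P.T2 I' μ') y with e3
  have e : y = y1 + y2 + y3 := by
    funext I' μ'
    simp only [Pi.add_apply, e1, e2, e3]
    by_cases c1 : P.T1 I' μ' < P.T1 I μ
    · rw [res_pos c1, res_neg (by omega), res_neg (by omega)]; simp
    · by_cases c2 : P.T2 I' μ' < P.T2 I μ
      · rw [res_neg c1, res_pos (by omega), res_neg (by omega)]; simp
      · rw [res_neg c1, res_neg (by omega), res_pos (by omega)]; simp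
  have a1 : δ y1 I μ = 0 := by
    by_contra h0
    have := ((hδ y1 (res_mem _ hy)).2 (P.T1 I μ - 1) B2 fun I' μ' h' =>
      ⟨by have := (res_ne h').1; omega, h2 _ _ (res_ne h').2⟩).1 I μ h0
    omega
  have a2 : δ y2 I μ = 0 := by
    by_contra h0
    have := ((hδ y2 (res_mem _ hy)).2 B1 (P.T2 I μ - 1) fun I' μ' h' =>
      ⟨h1 _ _ (res_ne h').2, by have := (res_ne h').1; omega⟩).1 I μ h0
    omega
  have a3 : δ y3 I μ = kz (del P.k) y3 I μ :=
    ((hδ y3 (res_mem _ hy)).2 (P.T1 I μ) (P.T2 I μ) fun I' μ' h' => by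
      have h3 := (res_ne h').1
      have h4 := h _ _ (res_ne h').2 h3.1 h3.2
      omega).2 I μ rfl rfl
  have a4 : kz (del P.k) y3 I μ = kz (del P.k) y I μ :=
    kz_congr fun I' μ' h3 h4 => res_pos (by omega)
  conv_lhs => rw [e]
  rw [map_add, map_add, Pi.add_apply, Pi.add_apply, Pi.add_apply, Pi.add_apply, a1, a2, a3, a4,
    zero_add, zero_add]

lemma G2_zero {a b : ℤ} {z : P.C1} (hz : z ∈ P.G2 a b) {I : Finset P.Ix} {μ : Mon P.Ix}
    (h1 : a < P.T1 I μ) (h2 : b < P.T2 I μ) : z I μ = 0 := by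
  by_contra h0
  have := hz I μ h0
  omega

section step

variable {h : Module.End P.k P.C1}
  (h1 : ∀ z I μ, (∃ i, i ∈ I) → kz (del P.k) (h z) I μ + h (kz (del P.k) z) I μ = z I μ)
  (h2 : ∀ z I μ, h z I μ ≠ 0 →
    ∃ i, i ∉ I ∧ μ i ≠ 0 ∧ z (insert i I) (μ - Finsupp.single i 1) ≠ 0)

include h2 in
lemma h_mem {j : ℕ} {z : P.C1} (hz : z ∈ P.FD (j + 1)) : h z ∈ P.FD j := by
  refine ⟨mem_FinM.2 ?_, fun I μ h0 => ?_⟩
  · refine ((mem_FinM.1 hz.1).biUnion fun x _ => (x.1.finite_toSet.image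
      fun i => (x.1.erase i, x.2 + Finsupp.single i 1))).subset fun x h0 => ?_
    obtain ⟨i, hi, hm, h3⟩ := h2 z x.1 x.2 h0
    refine Set.mem_biUnion (x := (insert i x.1, x.2 - Finsupp.single i 1)) h3
      ⟨i, Finset.mem_insert_self i x.1, ?_⟩
    simp only [Finset.erase_insert hi, sub_add hm]
  · obtain ⟨i, hi, -, h3⟩ := h2 z I μ h0
    have h4 : (insert i I).card = j + 1 := hz.2 _ _ h3
    rw [Finset.card_insert_of_notMem hi] at h4
    change I.card = j
    omega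

include h1 h2 in
lemma main {δ : Module.End P.k P.C1} {j : ℕ} (d1 : P.HD δ j) (d2 : P.HD δ (j + 1))
    (sq : ∀ x ∈ P.FD j, δ (δ x) = 0) (a b : ℤ) (m : ℕ) : ∀ z ∈ P.FD (j + 1), δ z ∈ P.G2 a b →
    (∀ I μ, z I μ ≠ 0 → a < P.T1 I μ → b < P.T2 I μ → P.T1 I μ + P.T2 I μ ≤ a + b + m) →
    ∃ x ∈ P.FD j, z - δ x ∈ P.G2 a b := by
  induction m with
  | zero =>
    intro z _ _ hm
    refine ⟨0, zero_mem _, fun I μ h0 => ?_⟩
    rw [map_zero, sub_zero] at h0
    have := hm I μ h0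
    change P.T1 I μ ≤ a ∨ P.T2 I μ ≤ b
    omega
  | succ m ih =>
    intro z hz hd hm
    set z' := res (fun I μ => a < P.T1 I μ ∧ b < P.T2 I μ ∧
      a + b + m < P.T1 I μ + P.T2 I μ) z with ez
    have hx : h z' ∈ P.FD j := h_mem h2 (res_mem _ hz)
    have hy : z - δ (h z') ∈ P.FD (j + 1) := sub_mem hz (d1 _ hx).1
    obtain ⟨x, hx', hr⟩ := ih (z - δ (h z')) hy (by rw [map_sub, sq _ hx, sub_zero]; exact hd) (by
      intro I μ h0 ha hb
      by_contra hlt
      apply h0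
      have hI : ∃ i, i ∈ I := by
        have h3 : I.card = j + 1 := hy.2 I μ h0
        exact Finset.card_pos.1 (by omega)
      have k1 : δ (h z') I μ = kz (del P.k) (h z') I μ := lead d1 hx I μ fun I' μ' h3 _ _ => by
        obtain ⟨i, hi, hm', h4⟩ := h2 _ _ _ h3
        have h5 := (res_ne h4).1
        have h6 := hm _ _ (res_ne h4).2 h5.1 h5.2.1
        rw [T1_insert hi hm', T2_insert hi hm'] at h6
        push_cast at h6
        omega
      have k2 : h (kz (del P.k) z') I μ = 0 := by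
        by_contra h3
        obtain ⟨i, hi, hm', h4⟩ := h2 _ _ _ h3
        apply h4
        have t1 := T1_insert hi hm'
        have t2 := T2_insert hi hm'
        rw [kz_congr (z' := z) fun I' μ' h5 h6 => res_pos (by omega),
          ← lead d2 hz _ _ fun I' μ' h5 h6 h7 => by
            have := hm _ _ h5 (by omega) (by omega)
            push_cast at this
            omega]
        exact G2_zero hd (by omega) (by omega)
      have k3 := h1 z' I μ hI
      rw [k2, add_zero, ← k1] at k3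
      rw [Pi.sub_apply, Pi.sub_apply, k3, ez, res_pos (by omega), sub_self])
    refine ⟨h z' + x, add_mem hx hx', ?_⟩
    rwa [map_add, ← sub_sub]

end step

lemma zero_case {δ : Module.End P.k P.C1} (d0 : P.HD δ 0) (a b : ℤ) {z : P.C1} (hz : z ∈ P.FD 0)
    (hd : δ z ∈ P.G2 a b) :
    z ∈ SupM P.k fun I μ => P.T1 I μ ≤ a ∨ P.T2 I μ ≤ b ∨ μ = 0 := by
  intro I0 μ0 h0
  by_contra hn
  have hf : {x : Finset P.Ix × Mon P.Ix | z x.1 x.2 ≠ 0 ∧ a < P.T1 x.1 x.2 ∧ b < P.T2 x.1 x.2 ∧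
      x.2 ≠ 0}.Finite := (mem_FinM.1 hz.1).subset fun _ h => h.1
  obtain ⟨⟨I, μ⟩, ⟨h1, h2, h3, h4⟩, hmax⟩ := Set.exists_max_image _
    (fun x => P.T1 x.1 x.2 + P.T2 x.1 x.2) hf
    ⟨(I0, μ0), h0, by push Not at hn; exact hn⟩
  simp only at h1 h2 h3 h4 hmax
  have hI : ∀ I μ, z I μ ≠ 0 → I = ∅ := fun I μ h => Finset.card_eq_zero.1 (hz.2 I μ h)
  obtain rfl := hI _ _ h1
  obtain ⟨i, hi⟩ := Finsupp.ne_iff.1 h4
  have t1 := T1_insert (Finset.notMem_empty i) hi
  have t2 := T2_insert (Finset.notMem_empty i) hi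
  have hp : 0 < P.T1 ∅ μ := by
    have := Par.weight_pos (ω := P.w) Par.w_pos h4
    simpa [Par.T1, wI] using this
  have k1 := lead d0 hz (insert i ∅) (μ - Finsupp.single i 1) fun I' μ' h5 h6 h7 => by
    have := hmax (I', μ') ⟨h5, by simp only; omega, by simp only; omega, by
      rintro (rfl : μ' = 0)
      rw [hI _ _ h5] at h6
      have : P.T1 ∅ 0 = 0 := by simp [Par.T1, wI]
      omega⟩
    simp only at this
    omega
  rw [G2_zero hd (by omega) (by omega), kz_del, Finset.sum_insert (Finset.notMem_empty i),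
    Finset.sum_empty, add_zero, Finset.erase_insert (Finset.notMem_empty i), sub_add hi] at k1
  apply h1
  have := congrArg (sg P.k i (insert i ∅) * ·) k1
  simp only [← mul_assoc, sg_mul_self, one_mul, mul_zero] at this
  exact this.symm

end St

theorem st_holds (P : Par) (hk : KosStm) : P.St := by
  obtain ⟨h, h1, h2⟩ := hk P.k P.Ix P.Ix (fun _ => 1) id fun _ _ _ _ h => h
  have e : (fun a : P.Ix => (1 : P.k) • del P.k (id a)) = del P.k := funext fun a => one_smul _ _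
  rw [e] at h1
  intro δ
  refine ⟨fun j d1 d2 sq a b z hz hd => ?_, fun d0 a b z hz hd => St.zero_case d0 a b hz hd⟩
  obtain ⟨B, hB⟩ := FinM.bdd hz.1 fun I μ => P.T1 I μ + P.T2 I μ
  refine St.main (h := h) (fun z I μ ⟨i, hi⟩ => h1 z I μ ⟨i, one_ne_zero, Or.inl hi⟩)
    (fun z I μ h0 => ?_) d1 d2 sq a b (B - a - b).toNat z hz hd fun I μ h0 _ _ => ?_
  · obtain ⟨i, -, h3⟩ := h2 z I μ h0
    exact ⟨i, h3⟩
  · have := hB I μ h0
    omega

end CdI
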