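import Pool.Agent.P.MP_013f39_al.Inf.Api

/-! Infinite cohomological dimension of `H_r`: the substitution of the variables of the module. -/

namespace CdI

open Cd3 PowerSeries

namespace Sub1

lemma coeff_mul_subst {A : Type} [CommRing A] {a : A⟦X⟧} (ha : constantCoeff a = 0)
    (W f : A⟦X⟧) (n : ℕ) : coeff n (W * f.subst a) =
      ∑ m ∈ Finset.range (n + 1), coeff m f * coeff n (W * a ^ m) := by
  have hs : HasSubst a := HasSubst.of_constantCoeff_zero' ha
  have h1 : ∀ j ≤ n, coeff j (f.subst a : A⟦X⟧) =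
      ∑ m ∈ Finset.range (n + 1), coeff m f * coeff j (a ^ m) := by
    intro j hj
    rw [coeff_subst' hs, finsum_eq_sum_of_support_subset (s := Finset.range (n + 1))]
    · exact Finset.sum_congr rfl fun m _ => smul_eq_mul _ _
    · intro m hm
      by_contra h
      apply hm
      simp only [Finset.coe_range, Set.mem_Iio] at h
      have h2 : X ^ m ∣ a ^ m := pow_dvd_pow_of_dvd (X_dvd_iff.2 ha) m
      simp only [X_pow_dvd_iff.1 h2 j (by omega), smul_zero]
  simp only [coeff_mul, Finset.mul_sum]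
  rw [Finset.sum_comm]
  refine Finset.sum_congr rfl fun x hx => ?_
  rw [h1 x.2 (by have := Finset.HasAntidiagonal.mem_antidiagonal.1 hx; omega), Finset.mul_sum]
  exact Finset.sum_congr rfl fun m _ => by ring

lemma weight_one {σ : Type} (μ : Mon σ) :
    Finsupp.weight (fun _ => (1 : ℤ)) μ = (μ.degree : ℤ) := by
  induction μ using mon_ind with
  | h0 => simp
  | h1 μ c ih => rw [map_add, map_add, ih, Finsupp.weight_single, Finsupp.degree_single]; simp

section series

variable {p : ℕ} [hp : Fact p.Prime] {r : ℕ}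

lemma val_mul_inv (g : GG p r) : g.val * g.val⁻¹ = 1 :=
  PowerSeries.mul_inv_cancel _ (by rw [g.cc]; exact one_ne_zero)

lemma inv_mul_val (f g : GG p r) : (f * g).val⁻¹ = g.val⁻¹ * act r g.val f.val⁻¹ := by
  symm
  rw [PowerSeries.eq_inv_iff_mul_eq_one (by rw [(f * g).cc]; exact one_ne_zero), mul_val,
    mul_mul_mul_comm, ← map_mul, mul_comm g.val⁻¹, mul_comm f.val⁻¹, val_mul_inv, val_mul_inv,
    map_one, one_mul]

lemma sig_mul (f g : GG p r) : sig r (f * g).val = act r g.val (sig r f.val) := by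
  rw [← act_X, mul_val, act_act, act_X]

lemma inv_pow_mul {K : ℕ} (hK : 1 ≤ K) {g : GG p r} (h : X ^ K ∣ g.val - 1) (L m : ℕ) :
    X ^ K ∣ g.val⁻¹ ^ L * g.val ^ m - 1 ∧
      coeff K (g.val⁻¹ ^ L * g.val ^ m - 1) = ((m : ZMod p) - L) * coeff K (g.val - 1) := by
  have e : g.val⁻¹ - 1 = -(g.val⁻¹ * (g.val - 1)) := by
    linear_combination val_mul_inv g
  have h1 : X ^ K ∣ g.val⁻¹ - 1 := by rw [e]; exact (h.mul_left _).neg_right
  have h2 : coeff K (g.val⁻¹ - 1) = -coeff K (g.val - 1) := by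
    have := coeff_lead (a := 0) (f := g.val⁻¹) (by simp) h
    rw [zero_add, coeff_zero_eq_constantCoeff, constantCoeff_inv, g.cc, inv_one, one_mul] at this
    rw [e, map_neg, this]
  obtain ⟨a1, a2⟩ := pow_sub_one hK h1 L
  obtain ⟨b1, b2⟩ := pow_sub_one hK h m
  have e2 : g.val⁻¹ ^ L * g.val ^ m - 1 = (g.val⁻¹ ^ L - 1) * (g.val ^ m - 1) +
      (g.val⁻¹ ^ L - 1) + (g.val ^ m - 1) := by ring
  have h3 : X ^ (K + 1) ∣ (g.val⁻¹ ^ L - 1) * (g.val ^ m - 1) := dvd_mul_ord a1 b1 (by omega)
  rw [e2]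
  refine ⟨((ord_mono h3 (by omega)).add a1).add b1, ?_⟩
  rw [map_add, map_add, coeff_ord h3 (by omega), a2, b2, h2]
  ring

end series

variable {P : Par} {L : ℕ}

/-- the matrix of the substitution -/
noncomputable def cf (L : ℕ) (g : P.G) (n m : ℕ) : P.k :=
  coeff n (g.val⁻¹ ^ (P.q * L) * sig P.r g.val ^ m)

lemma cf_eq (g : P.G) (n m : ℕ) : cf L g n m =
    if m ≤ n then coeff (n - m) (g.val⁻¹ ^ (P.q * L) * g.val ^ (P.q * m)) else 0 := by
  rw [cf, sig, mul_pow, mul_left_comm, coeff_X_pow_mul', ← pow_mul]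
  rfl

lemma q_ne : P.q ≠ 0 := by have := P.two_le_q; omega

lemma pow_eq (g : P.G) (m : ℕ) : g.val⁻¹ ^ (P.q * L) * g.val ^ (P.q * m) =
    expand P.q q_ne (g.val⁻¹ ^ L * g.val ^ m) := by
  rw [mul_comm P.q L, mul_comm P.q m, pow_mul, pow_mul, ← mul_pow]
  exact frob P.r _

lemma cf_mul (f g : P.G) (n l : ℕ) :
    cf L (f * g) n l = ∑ m ∈ Finset.range (n + 1), cf L f m l * cf L g n m := by
  have h := coeff_mul_subst (a := sig P.r g.val) (by simp [sig]) (g.val⁻¹ ^ (P.q * L))
    (f.val⁻¹ ^ (P.q * L) * sig P.r f.val ^ l) n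
  rw [← act_eq, map_mul (act P.r g.val), map_pow (act P.r g.val), map_pow (act P.r g.val),
    ← mul_assoc, ← mul_pow, ← inv_mul_val, ← sig_mul] at h
  exact h

lemma sP_X (g : P.G) (c : P.Kv) : P.sP L g (MvPolynomial.X c) = if c.1 ≤ L then
    ∑ m ∈ Finset.range (((L : ℤ) - c.1).toNat + 1), coeff (((L : ℤ) - c.1).toNat - m)
      (g.val⁻¹ ^ (P.q * L) * g.val ^ (P.q * m)) • P.tP L m else 0 := by
  rw [Par.sP, MvPolynomial.aeval_X]

lemma tP_eq {c : P.Kv} {n : ℕ} (h : (L : ℤ) - n = c.1) : P.tP L n = MvPolynomial.X c := by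
  rw [Par.tP, dif_neg (by rw [h]; exact c.2)]
  congr 1
  exact Subtype.ext h

lemma sP_tP (g : P.G) {n N : ℕ} (hN : n < N) :
    P.sP L g (P.tP L n) = ∑ m ∈ Finset.range N, cf L g n m • P.tP L m := by
  have h1 : ∑ m ∈ Finset.range (n + 1), cf L g n m • P.tP L m =
      ∑ m ∈ Finset.range N, cf L g n m • P.tP L m := by
    refine Finset.sum_subset (Finset.range_subset_range.2 hN) fun m _ hm => ?_
    rw [cf_eq, if_neg (by simp at hm; omega), zero_smul]
  rw [← h1]
  by_cases h : (P.p : ℤ) ∣ (L : ℤ) - n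
  · rw [Par.tP, dif_pos h, map_zero]
    refine (Finset.sum_eq_zero fun m hm => ?_).symm
    have hm' : m ≤ n := by simp at hm; omega
    by_cases h2 : P.q ∣ n - m
    · have h3 : (P.p : ℤ) ∣ ((n - m : ℕ) : ℤ) := Int.natCast_dvd_natCast.2 (P.p_dvd_q.trans h2)
      have h4 : (L : ℤ) - m = ((L : ℤ) - n) + ((n - m : ℕ) : ℤ) := by omega
      rw [Par.tP, dif_pos (by rw [h4]; exact h.add h3), smul_zero]
    · rw [cf_eq, if_pos hm', pow_eq, coeff_expand_of_not_dvd _ _ _ h2, zero_smul]
  · rw [tP_eq (c := ⟨_, h⟩) rfl, sP_X, if_pos (by simp)]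
    have h2 : ((L : ℤ) - ((L : ℤ) - n)).toNat = n := by omega
    simp only [h2]
    refine Finset.sum_congr rfl fun m hm => ?_
    rw [cf_eq, if_pos (by simp at hm; omega)]

lemma sP_mul (f g : P.G) : P.sP L (f * g) = (P.sP L f).comp (P.sP L g) := by
  refine MvPolynomial.algHom_ext fun c => ?_
  rw [AlgHom.comp_apply]
  by_cases h : c.1 ≤ L
  · have h1 : (L : ℤ) - (((L : ℤ) - c.1).toNat : ℕ) = c.1 := by omega
    rw [← tP_eq h1]
    generalize ((L : ℤ) - c.1).toNat = n
    rw [sP_tP _ (Nat.lt_succ_self n), sP_tP g (Nat.lt_succ_self n), map_sum]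
    simp only [cf_mul, Finset.sum_smul]
    rw [Finset.sum_comm]
    refine Finset.sum_congr rfl fun m hm => ?_
    rw [map_smul, sP_tP f (Finset.mem_range.1 hm), Finset.smul_sum]
    refine Finset.sum_congr rfl fun l _ => ?_
    rw [smul_smul, mul_comm]
  · rw [sP_X, sP_X, if_neg h, if_neg h, map_zero]

lemma tP_mem (m : ℕ) : P.tP L m ∈ Pge P.k (fun _ => (1 : ℤ)) 1 := by
  rw [Par.tP]
  split_ifs
  · exact zero_mem _
  · exact X_mem_Pge (fun _ => (1 : ℤ)) _

lemma sP_mon (g : P.G) (μ : Mon P.Kv) : P.sP L g (MvPolynomial.monomial μ 1) ∈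
    Pge P.k (fun _ => (1 : ℤ)) (Finsupp.weight (fun _ => (1 : ℤ)) μ) := by
  induction μ using mon_ind with
  | h0 =>
    rw [MvPolynomial.monomial_zero', MvPolynomial.C_1, map_one, map_zero]
    exact one_mem_Pge _
  | h1 μ c ih =>
    rw [monomial_add_one, map_mul, map_add, Finsupp.weight_single, one_smul]
    refine Pge_mul ih ?_
    rw [sP_X]
    split_ifs
    · exact Submodule.sum_mem _ fun m _ => Submodule.smul_mem _ _ (tP_mem m)
    · exact zero_mem _

lemma smul_mem_JJ (c : P.k) {a : P.PK} (h : a ∈ P.JJ L) : c • a ∈ P.JJ L := by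
  rw [Algebra.smul_def]; exact Ideal.mul_mem_left _ _ h

lemma sP_mem (g : P.G) (a : P.PK) (ha : a ∈ P.JJ L) : P.sP L g a ∈ P.JJ L := by
  rw [a.as_sum, map_sum]
  refine Ideal.sum_mem _ fun μ hμ => ?_
  have h1 : MvPolynomial.monomial μ (a.coeff μ) =
      a.coeff μ • (MvPolynomial.monomial μ 1 : P.PK) := by
    rw [MvPolynomial.smul_monomial, smul_eq_mul, mul_one]
  rw [h1, map_smul]
  refine smul_mem_JJ _ ?_
  by_cases h : μ.degree ≤ L
  · have h2 : ¬ ∀ c ∈ μ.support, c.1 ≤ (L : ℤ) := fun h3 => Par.mem_JJ.1 ha μ hμ ⟨h, h3⟩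
    push Not at h2
    obtain ⟨c, hc, h2⟩ := h2
    have h3 : μ = (μ - Finsupp.single c 1) + Finsupp.single c 1 :=
      (Finsupp.sub_add_single_one_cancel (Finsupp.mem_support_iff.1 hc)).symm
    rw [h3, monomial_add_one, map_mul, sP_X, if_neg (by omega), mul_zero]
    exact zero_mem _
  · refine Par.mem_JJ.2 fun ν hν h2 => ?_
    have h3 := mem_Pge.1 (sP_mon g μ) ν hν
    rw [weight_one, weight_one] at h3
    have := h2.1
    omega

lemma sP_one (a : P.PK) : P.sP L 1 a - a ∈ P.JJ L := by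
  have h : (Ideal.Quotient.mkₐ P.k (P.JJ L)).comp (P.sP L 1) = Ideal.Quotient.mkₐ P.k (P.JJ L) := by
    refine MvPolynomial.algHom_ext fun c => ?_
    rw [AlgHom.comp_apply]
    by_cases h : c.1 ≤ L
    · have h1 : (L : ℤ) - (((L : ℤ) - c.1).toNat : ℕ) = c.1 := by omega
      rw [← tP_eq h1]
      generalize ((L : ℤ) - c.1).toNat = n
      rw [sP_tP _ (Nat.lt_succ_self n), Finset.sum_eq_single n]
      · simp [cf, sig, one_val]
      · intro m _ hm
        simp [cf, sig, one_val, coeff_X_pow, hm.symm]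
      · simp
    · rw [sP_X, if_neg h, map_zero, Ideal.Quotient.mkₐ_eq_mk]
      exact (Ideal.Quotient.eq_zero_iff_mem.2 (Par.X_mem_JJ (by omega))).symm
  exact Ideal.Quotient.eq.1 (AlgHom.congr_fun h a)

end Sub1

open Sub1 in
theorem sub1_holds (P : Par) (L : ℕ) : P.Sub1 L where
  mem := sP_mem
  key g := by
    ext n
    rw [coeff_mk, coeff_mul_subst (by simp [sig]), sP_tP g (Nat.lt_succ_self n), map_sum]
    refine Finset.sum_congr rfl fun m _ => ?_
    rw [← map_pow, ← map_mul, coeff_map, Par.TT, coeff_mk, Algebra.smul_def, map_mul, mul_comm]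
    rfl
  mul f g a := by
    rw [sP_mul, AlgHom.comp_apply, sub_self]
    exact zero_mem _
  one := sP_one

open Sub1 in
theorem sub2_holds (P : Par) (L : ℕ) : P.Sub2 L := by
  intro K g c hK hg
  have hq := P.two_le_q
  have hqK : 0 < P.q * K := Nat.mul_pos (by omega) hK
  have hcast : ((P.q * K : ℕ) : ℤ) = P.q * K := Nat.cast_mul _ _
  by_cases h : c.1 ≤ L
  · have h1 : (L : ℤ) - (((L : ℤ) - c.1).toNat : ℕ) = c.1 := by omega
    generalize ((L : ℤ) - c.1).toNat = n at h1
    refine ⟨∑ m ∈ Finset.range (n + 1), if m + P.q * K < n then cf L g n m • P.tP L m else 0,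
      Submodule.sum_mem _ fun m _ => ?_, ?_⟩
    · split_ifs with h2
      · refine Submodule.smul_mem _ _ ?_
        rw [Par.tP]
        split_ifs
        · exact zero_mem _
        · refine Submodule.subset_span ⟨_, ?_, rfl⟩
          change c.1 + P.q * K < (L : ℤ) - m
          omega
      · exact zero_mem _
    have h2 : ∀ m ∈ Finset.range (n + 1), cf L g n m • P.tP L m =
        (if m = n then MvPolynomial.X c else 0) -
        (if m + P.q * K = n then (P.S.a K g * (c.1 : P.k)) • MvPolynomial.X (P.shN K c) else 0) +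
        if m + P.q * K < n then cf L g n m • P.tP L m else 0 := by
      intro m hm
      have hm' : m ≤ n := by simp at hm; omega
      obtain ⟨a1, a2⟩ := inv_pow_mul hK hg.ord L m
      by_cases h3 : m + P.q * K < n
      · rw [if_neg (by omega), if_neg (by omega), if_pos h3, sub_zero, zero_add]
      rw [if_neg h3, add_zero, cf_eq, if_pos hm', pow_eq]
      by_cases h4 : m = n
      · subst h4
        rw [if_pos rfl, if_neg (by omega), sub_zero, tP_eq h1, Nat.sub_self, coeff_expand,
          if_pos (dvd_zero _), Nat.zero_div]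
        have h5 := coeff_ord a1 hK
        rw [map_sub, coeff_zero_one, sub_eq_zero] at h5
        rw [h5, one_smul]
      rw [if_neg h4, zero_sub]
      by_cases h5 : m + P.q * K = n
      · have h6 : n - m = P.q * K := by omega
        have h7 : (L : ℤ) - m = (P.shN K c).1 := by rw [Par.shN_val]; omega
        have h8 : ((m : P.k) - L) = -(c.1 : P.k) := by
          have h9 : (m : ℤ) - L = -c.1 - P.q * K := by omega
          have h10 : ((P.q : ℕ) : P.k) = 0 := (ZMod.natCast_eq_zero_iff _ _).2 P.p_dvd_q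
          have h11 := congrArg (Int.cast : ℤ → P.k) h9
          push_cast at h11
          rw [h11, h10, zero_mul, sub_zero]
        rw [map_sub, coeff_one, if_neg (by omega), sub_zero, h8] at a2
        rw [if_pos h5, h6, coeff_expand_mul, tP_eq h7, a2, SS_a, ← neg_smul]
        congr 1
        ring
      · rw [if_neg h5, neg_zero, coeff_expand]
        split_ifs with h6
        · obtain ⟨i, hi⟩ := h6
          have h7 : i < K := by
            by_contra h8
            have := Nat.mul_le_mul_left P.q (not_lt.1 h8)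
            omega
          have h8 : i ≠ 0 := by rintro rfl; omega
          have h9 := coeff_ord a1 h7
          rw [map_sub, coeff_one, if_neg h8, sub_zero] at h9
          rw [hi, Nat.mul_div_cancel_left _ (by omega), h9, zero_smul]
        · exact zero_smul _ _
    rw [← tP_eq h1, sP_tP g (Nat.lt_succ_self n), Finset.sum_congr rfl h2, Finset.sum_add_distrib,
      Finset.sum_sub_distrib, Finset.sum_ite_eq', if_pos (by simp), tP_eq h1]
    by_cases h3 : P.q * K ≤ n
    · rw [Finset.sum_eq_single (n - P.q * K), if_pos (by omega)]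
      · have : ∀ a b d : P.PK, a - b + d - a + b - d = 0 := fun a b d => by ring
        rw [this]
        exact zero_mem _
      · intro m _ hm
        rw [if_neg (by omega)]
      · intro hm
        exact absurd (Finset.mem_range.2 (by omega)) hm
    · rw [Finset.sum_eq_zero (s := Finset.range (n + 1))
        (f := fun m => if m + P.q * K = n then
          (P.S.a K g * (c.1 : P.k)) • (MvPolynomial.X (P.shN K c) : P.PK) else 0)
        fun m _ => if_neg (by omega)]
      have : ∀ a b d : P.PK, a - 0 + d - a + b - d = b := fun a b d => by ring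
      rw [this]
      exact smul_mem_JJ _ (Par.X_mem_JJ (by rw [Par.shN_val]; omega))
  · refine ⟨0, zero_mem _, ?_⟩
    rw [sP_X, if_neg h, sub_zero, zero_sub]
    exact add_mem (neg_mem (Par.X_mem_JJ (by omega)))
      (smul_mem_JJ _ (Par.X_mem_JJ (by rw [Par.shN_val]; omega)))

end CdI
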