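import Pool.Agent.P.MP_013f39_al.Inf.Api

/-! Infinite cohomological dimension of `H_r`: equivariance of the norm. -/

namespace CdI

open Cd3 PowerSeries

namespace Sub3

/-- transport of the norm along compatible automorphisms -/
lemma norm_tr {A : Type} [CommRing A] (e₁ : A ≃+* A) (e₂ : A⟦X⟧ ≃+* A⟦X⟧)
    (he : ∀ a, e₂ (C a) = C (e₁ a)) {h h' u : A⟦X⟧} (hu : IsUnit u) (hh : e₂ h = u * h')
    (x : A⟦X⟧) :
    e₁ (Algebra.norm A (Ideal.Quotient.mk (Ideal.span {h}) x)) =
      Algebra.norm A (Ideal.Quotient.mk (Ideal.span {h'}) (e₂ x)) := by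
  have hI : Ideal.span {h'} = (Ideal.span {h}).map (e₂ : A⟦X⟧ →+* A⟦X⟧) := by
    rw [Ideal.map_span, Set.image_singleton, RingHom.coe_coe, hh,
      Ideal.span_singleton_mul_left_unit hu]
  have := Algebra.norm_eq_of_equiv_equiv e₁ (Ideal.quotientEquiv _ _ e₂ hI) (by
    ext a
    change Ideal.Quotient.mk _ (C (e₁ a)) = Ideal.Quotient.mk _ (e₂ (C a))
    rw [he]) (Ideal.Quotient.mk (Ideal.span {h}) x)
  rw [this, RingEquiv.apply_symm_apply, Ideal.quotientEquiv_mk]

section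

variable {p : ℕ} [Fact p.Prime] (r : ℕ) (A : Type) [CommRing A] [Algebra (ZMod p) A]

lemma has (u : PS p) : HasSubst (map (algebraMap (ZMod p) A) (sig r u)) :=
  HasSubst.of_constantCoeff_zero' (by simp [sig])

/-- the substitution with coefficients in `A` -/
noncomputable def sb (u : PS p) : A⟦X⟧ →+* A⟦X⟧ :=
  (substAlgHom (R := A) (has r A u)).toRingHom

lemma sb_apply (u : PS p) (f : A⟦X⟧) :
    sb r A u f = f.subst (map (algebraMap (ZMod p) A) (sig r u)) := by
  rw [← coe_substAlgHom (has r A u)]; rfl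

lemma sb_map (u v : PS p) :
    sb r A u (map (algebraMap (ZMod p) A) v) = map (algebraMap (ZMod p) A) (act r u v) := by
  rw [sb_apply, act_eq]
  exact (map_subst (sig_has r u) (h := algebraMap (ZMod p) A) v).symm

lemma sb_C (u : PS p) (a : A) : sb r A u (C a) = C a := by
  rw [sb_apply, subst_C]; rfl

lemma sb_X (u : PS p) : sb r A u X = map (algebraMap (ZMod p) A) (sig r u) := by
  rw [sb_apply, subst_X (has r A u)]

lemma sb_inv {g g' : GG p r} (h : g * g' = 1) (f : A⟦X⟧) :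
    sb r A g'.val (sb r A g.val f) = f := by
  rw [sb_apply r A g'.val, sb_apply r A g.val, subst_comp_subst_apply (has r A _) (has r A _),
    ← sb_apply r A g'.val, sb_map, ← act_X r g.val, ← act_act, ← mul_val, h, one_val, act_one,
    map_X, X_subst]

/-- the substitution as an automorphism -/
noncomputable def sbE (g : GG p r) : A⟦X⟧ ≃+* A⟦X⟧ :=
  RingEquiv.ofRingHom (sb r A g.val) (sb r A g⁻¹.val)
    (RingHom.ext fun f => sb_inv r A (inv_mul_cancel g) f)
    (RingHom.ext fun f => sb_inv r A (mul_inv_cancel g) f)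

lemma sbE_apply (g : GG p r) (f : A⟦X⟧) : sbE r A g f = sb r A g.val f := rfl

end

/-- coefficientwise automorphism -/
noncomputable def mapE {A : Type} [CommRing A] (e : A ≃+* A) : A⟦X⟧ ≃+* A⟦X⟧ :=
  RingEquiv.ofRingHom (map (e : A →+* A)) (map (e.symm : A →+* A))
    (by ext1 f; ext n; simp) (by ext1 f; ext n; simp)

lemma mapE_apply {A : Type} [CommRing A] (e : A ≃+* A) (f : A⟦X⟧) :
    mapE e f = map (e : A →+* A) f := rfl

variable {P : Par} {L : ℕ}

/-- the action on the quotient -/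
noncomputable def sq (h : P.Sub1 L) (g : P.G) : P.AA L →+* P.AA L :=
  Ideal.quotientMap (P.JJ L) (P.sP L g : P.PK →+* P.PK) fun a ha => h.mem g a ha

lemma sq_mk (h : P.Sub1 L) (g : P.G) (a : P.PK) :
    sq h g (Ideal.Quotient.mk _ a) = Ideal.Quotient.mk _ (P.sP L g a) :=
  Ideal.quotientMap_mk

lemma sq_inv (h : P.Sub1 L) {g g' : P.G} (e : g * g' = 1) (x : P.AA L) :
    sq h g (sq h g' x) = x := by
  obtain ⟨a, rfl⟩ := Ideal.Quotient.mk_surjective x
  rw [sq_mk, sq_mk, ← Ideal.Quotient.eq.2 (h.mul g g' a), e, Ideal.Quotient.eq.2 (h.one a)]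

noncomputable def sqE (h : P.Sub1 L) (g : P.G) : P.AA L ≃+* P.AA L :=
  RingEquiv.ofRingHom (sq h g) (sq h g⁻¹)
    (RingHom.ext fun x => sq_inv h (mul_inv_cancel g) x)
    (RingHom.ext fun x => sq_inv h (inv_mul_cancel g) x)

lemma sqE_apply (h : P.Sub1 L) (g : P.G) (x : P.AA L) : sqE h g x = sq h g x := rfl

lemma sq_alg (h : P.Sub1 L) (g : P.G) (c : P.k) :
    sq h g (algebraMap P.k (P.AA L) c) = algebraMap P.k (P.AA L) c := by
  rw [← Ideal.Quotient.mk_algebraMap, sq_mk, AlgHom.commutes]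

lemma mapE_map (h : P.Sub1 L) (g : P.G) (v : PS P.p) :
    mapE (sqE h g) (map (algebraMap P.k (P.AA L)) v) = map (algebraMap P.k (P.AA L)) v := by
  ext n
  rw [mapE_apply, coeff_map, coeff_map]
  exact sq_alg h g _

lemma mapE_TT (h : P.Sub1 L) (g : P.G) : mapE (sqE h g) (P.TT L) =
    PowerSeries.mk fun m => Ideal.Quotient.mk (P.JJ L) (P.sP L g (P.tP L m)) := by
  ext n
  rw [mapE_apply, coeff_map, Par.TT, coeff_mk, coeff_mk]
  exact sq_mk h g _

end Sub3

open Sub3 in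
theorem sub3_holds (P : Par) (L : ℕ) (h : P.Sub1 L) : P.Sub3 L := by
  intro g v a b ha hb
  rw [← Ideal.Quotient.eq, hb, ← sq_mk h, ha, ← sqE_apply]
  have hg : g.val * g.val⁻¹ = 1 := PowerSeries.mul_inv_cancel _ (by rw [g.cc]; exact one_ne_zero)
  have hu : map (algebraMap P.k (P.AA L)) (g.val ^ (P.q * L)) *
      map (algebraMap P.k (P.AA L)) (g.val⁻¹ ^ (P.q * L)) = 1 := by
    rw [← map_mul, ← mul_pow, hg, one_pow, map_one]
  have e1 : mapE (sqE h g) (X ^ L + P.TT L) = 1 * (X ^ L + mapE (sqE h g) (P.TT L)) := by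
    rw [map_add, map_pow, mapE_apply _ X, map_X, one_mul]
  have e2 : sbE P.r (P.AA L) g (X ^ L + P.TT L) =
      map (algebraMap P.k (P.AA L)) (g.val ^ (P.q * L)) * (X ^ L + mapE (sqE h g) (P.TT L)) := by
    rw [mapE_TT, h.key g, mul_add, ← mul_assoc, hu, one_mul, sbE_apply, map_add, map_pow, sb_X,
      sb_apply, sig, map_mul, map_X, mul_pow, ← map_pow, ← pow_mul, mul_comm (X ^ L)]
    rfl
  have n1 := norm_tr (sqE h g) (mapE (sqE h g)) (fun a => by rw [mapE_apply, map_C]; rfl)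
    isUnit_one e1 (map (algebraMap P.k (P.AA L)) (act P.r g.val v))
  have n2 := norm_tr (RingEquiv.refl _) (sbE P.r (P.AA L) g) (fun a => sb_C _ _ _ a)
    (IsUnit.of_mul_eq_one _ hu) e2 (map (algebraMap P.k (P.AA L)) v)
  rw [mapE_map] at n1
  rw [sbE_apply, sb_map, RingEquiv.refl_apply] at n2
  rw [Par.nA, Par.nA, n1, n2]

end CdI
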