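import Pool.Agent.P.MP_013f39_al.Inf.Api

/-! Infinite cohomological dimension of `H_r`: the norm estimates in the module. -/

namespace CdI

open Cd3 MvPolynomial

namespace Sub4

variable (P : Par) (L : ℕ)

/-- the image of the weight filtration in the quotient ring -/
noncomputable def Oq (ω : P.Kv → ℤ) (s : ℤ) : AddSubgroup (P.AA L) :=
  (P.OO L ω s).toAddSubgroup.map (Ideal.Quotient.mk (P.JJ L)).toAddMonoidHom

variable {P L}

lemma mem_Oq {ω : P.Kv → ℤ} {s : ℤ} {x : P.AA L} :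
    x ∈ Oq P L ω s ↔ ∃ b ∈ P.OO L ω s, Ideal.Quotient.mk (P.JJ L) b = x := Iff.rfl

lemma mk_mem_Oq {ω : P.Kv → ℤ} {s : ℤ} {b : P.PK} :
    Ideal.Quotient.mk (P.JJ L) b ∈ Oq P L ω s ↔ b ∈ P.OO L ω s := by
  refine ⟨fun h => ?_, fun h => ⟨b, h, rfl⟩⟩
  obtain ⟨b', hb', he⟩ := mem_Oq.1 h
  have h1 : b - b' ∈ P.JJ L := Ideal.Quotient.eq.1 he.symm
  have h2 : b = (b - b') + b' := by ring
  rw [h2]
  exact Submodule.add_mem _ (Par.OO_of_JJ h1) hb'

lemma Oq_anti (ω : P.Kv → ℤ) : Antitone (Oq P L ω) := by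
  intro s t hst x hx
  obtain ⟨b, hb, rfl⟩ := mem_Oq.1 hx
  exact mk_mem_Oq.2 (Par.OO_anti L ω hst hb)

lemma Oq_mul (ω : P.Kv → ℤ) (s t : ℤ) (x y : P.AA L) (hx : x ∈ Oq P L ω s)
    (hy : y ∈ Oq P L ω t) : x * y ∈ Oq P L ω (s + t) := by
  obtain ⟨a, ha, rfl⟩ := mem_Oq.1 hx
  obtain ⟨b, hb, rfl⟩ := mem_Oq.1 hy
  rw [← map_mul]
  exact mk_mem_Oq.2 (Par.OO_mul s t a b ha hb)

lemma Oq_alg (ω : P.Kv → ℤ) (c : P.k) : algebraMap P.k (P.AA L) c ∈ Oq P L ω 0 := by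
  have h : algebraMap P.k (P.AA L) c = Ideal.Quotient.mk (P.JJ L) (c • (1 : P.PK)) := by
    rw [← Algebra.algebraMap_eq_smul_one]; rfl
  rw [h]
  exact mk_mem_Oq.2 (Submodule.smul_mem _ c (Par.OO_of_Pge (one_mem_Pge ω)))

lemma Oq_one (ω : P.Kv → ℤ) : (1 : P.AA L) ∈ Oq P L ω 0 := by
  simpa using Oq_alg (P := P) (L := L) ω 1

lemma Oq_top (x : P.AA L) : x ∈ Oq P L (fun _ => 1) 0 := by
  obtain ⟨b, rfl⟩ := Ideal.Quotient.mk_surjective x
  exact mk_mem_Oq.2 (Par.OO_of_Pge (mem_Pge.2 fun μ _ =>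
    Par.weight_nonneg (fun _ => zero_le_one) μ))

lemma coeff_TT (ω : P.Kv → ℤ) (m : ℕ) (s : ℤ) (h : ∀ c : P.Kv, c.1 = (L : ℤ) - m → s ≤ ω c) :
    PowerSeries.coeff m (P.TT L) ∈ Oq P L ω s := by
  rw [Par.TT, PowerSeries.coeff_mk, mk_mem_Oq, Par.tP]
  split_ifs with h1
  · exact Submodule.zero_mem _
  · exact Par.OO_of_Pge (Pge_anti ω (h _ rfl) (X_mem_Pge ω _))

variable (P L) in
/-- the ideal of elements of degree at least `t` -/
noncomputable def Iq (t : ℤ) : Ideal (P.AA L) where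
  carrier := Oq P L (fun _ => 1) t
  add_mem' ha hb := AddSubgroup.add_mem _ ha hb
  zero_mem' := AddSubgroup.zero_mem _
  smul_mem' c x hx := by
    have h := Oq_mul (fun _ => 1) 0 t c x (Oq_top c) hx
    rw [zero_add] at h
    exact h

lemma mem_Iq {t : ℤ} {x : P.AA L} : x ∈ Iq P L t ↔ x ∈ Oq P L (fun _ => 1) t := Iff.rfl

lemma Iq_pow (n : ℕ) : Iq P L 1 ^ n ≤ Iq P L n := by
  induction n with
  | zero => intro x _; exact mem_Iq.2 (Oq_top x)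
  | succ n ih =>
    rw [Submodule.pow_succ]
    refine Ideal.mul_le.2 fun x hx y hy => mem_Iq.2 ?_
    have h := Oq_mul (fun _ => 1) n 1 x y (mem_Iq.1 (ih hx)) (mem_Iq.1 hy)
    simpa using h

lemma weight_one (μ : Mon P.Kv) : Finsupp.weight (fun _ => (1 : ℤ)) μ = (μ.degree : ℤ) := by
  simp [Finsupp.weight_apply, Finsupp.degree_apply, Finsupp.sum]

lemma Iq_nil : Iq P L 1 ^ (L + 1) = ⊥ := by
  refine le_bot_iff.1 ((Iq_pow (L + 1)).trans fun x hx => ?_)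
  obtain ⟨b, hb, rfl⟩ := mem_Oq.1 (mem_Iq.1 hx)
  rw [Ideal.mem_bot, Ideal.Quotient.eq_zero_iff_mem]
  obtain ⟨y, hy, z, hz, rfl⟩ := Submodule.mem_sup.1 hb
  refine Ideal.add_mem _ (Par.mem_JJ.2 fun μ hμ hA => ?_) hz
  have h1 := mem_Pge.1 hy μ hμ
  rw [weight_one] at h1
  have h2 := hA.1
  push_cast at h1
  omega

lemma TT_mem (m : ℕ) : PowerSeries.coeff m (P.TT L) ∈ Iq P L 1 :=
  mem_Iq.2 (coeff_TT _ m 1 fun _ _ => le_rfl)

lemma map_sub_one (v : PS P.p) :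
    PowerSeries.map (algebraMap P.k (P.AA L)) v - 1 =
      PowerSeries.map (algebraMap P.k (P.AA L)) (v - 1) := by
  rw [map_sub, map_one]

lemma dvd_map {n : ℕ} {v : PS P.p} (h : PowerSeries.X ^ n ∣ v - 1) :
    PowerSeries.X ^ n ∣ PowerSeries.map (algebraMap P.k (P.AA L)) v - 1 := by
  rw [map_sub_one]
  have h1 := map_dvd (PowerSeries.map (algebraMap P.k (P.AA L))) h
  rwa [map_pow, PowerSeries.map_X] at h1

lemma coeff_map_mem (ω : P.Kv → ℤ) (v : PS P.p) (m : ℕ) :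
    PowerSeries.coeff m (PowerSeries.map (algebraMap P.k (P.AA L)) v - 1) ∈ Oq P L ω 0 := by
  rw [map_sub_one, PowerSeries.coeff_map]
  exact Oq_alg ω _

lemma first (h : Norm2Stm) (ω : P.Kv → ℤ) (l b : ℤ) (hl : 0 ≤ l) (hb : 0 ≤ b)
    (hω : ∀ c : P.Kv, l * c.1 + b ≤ ω c) (i : ℕ) (hi : 1 ≤ i) (v : PS P.p)
    (hv : PowerSeries.X ^ i ∣ v - 1) (x : P.PK) (hx : Ideal.Quotient.mk _ x = P.nA L v) :
    x - 1 ∈ P.OO L ω (l * i + b) := by
  have h1 := ((h (P.AA L) (Iq P L 1) (L + 1) L (P.TT L) Iq_nil TT_mem).2 (Oq P L ω) l b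
    (Oq_anti ω) (Oq_mul ω) (Oq_one ω) hl hb
    (fun m => coeff_TT ω m _ fun c hc => by rw [← hc]; exact hω c) i hi).1 _ (dvd_map hv)
    (coeff_map_mem ω v)
  rw [← mk_mem_Oq, map_sub, map_one, hx]
  exact h1

lemma second (h : Norm2Stm) (a : P.Ix) (ha : ¬ P.Act a) (x : P.PK)
    (hx : Ideal.Quotient.mk _ x = P.nA L (1 - PowerSeries.X ^ a.1)) :
    x - 1 - P.kap a • X (P.vK a) ∈ P.OO L P.W (P.w a + 1) := by
  have hi : 1 ≤ a.1 := P.hN.trans a.2.1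
  have h1 := ((h (P.AA L) (Iq P L 1) (L + 1) L (P.TT L) Iq_nil TT_mem).2 (Oq P L P.W) 1 P.β
    (Oq_anti _) (Oq_mul _) (Oq_one _) zero_le_one P.β_pos.le
    (fun m => coeff_TT _ m _ fun c hc => by rw [← hc, one_mul]; exact le_rfl) a.1 hi).2
    le_rfl P.β_pos
  have h2 : P.nA L (1 - PowerSeries.X ^ a.1) = Algebra.norm (P.AA L)
      (Ideal.Quotient.mk (Ideal.span {PowerSeries.X ^ L + P.TT L}) (1 - PowerSeries.X ^ a.1)) := by
    rw [Par.nA, map_sub, map_one, map_pow, PowerSeries.map_X]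
  have h3 : Ideal.Quotient.mk (P.JJ L) (P.kap a • X (P.vK a)) =
      if a.1 ≤ L then a.1 • PowerSeries.coeff (L - a.1) (P.TT L) else 0 := by
    split_ifs with hL
    · have he : (L : ℤ) - ((L - a.1 : ℕ) : ℤ) = a.1 := by omega
      have hnd : ¬ (P.p : ℤ) ∣ (L : ℤ) - ((L - a.1 : ℕ) : ℤ) := by
        rw [he]; exact fun h1 => Par.not_dvd ha (Int.natCast_dvd_natCast.1 h1)
      have hv : P.vK a = ⟨(L : ℤ) - ((L - a.1 : ℕ) : ℤ), hnd⟩ :=
        Subtype.ext (by rw [Par.vK_val ha]; exact he.symm)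
      rw [Par.TT, PowerSeries.coeff_mk, Par.tP, dif_neg hnd, ← hv, Par.kap_let ha,
        Nat.cast_smul_eq_nsmul, map_nsmul]
    · rw [Ideal.Quotient.eq_zero_iff_mem, ← smul_one_mul]
      refine Ideal.mul_mem_left _ _ (Par.X_mem_JJ ?_)
      rw [Par.vK_val ha]
      omega
  rw [← mk_mem_Oq, map_sub, map_sub, map_one, hx, h2, h3, Par.w_let ha]
  rwa [one_mul] at h1

end Sub4

theorem sub4_holds (P : Par) (L : ℕ) (h : Norm2Stm) : P.Sub4 L := by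
  refine ⟨fun a b hb => ?_, fun v b hv hb => ?_, fun v hv => ?_⟩
  · have hi : 1 ≤ a.1 := P.hN.trans a.2.1
    have hd : PowerSeries.X ^ a.1 ∣ (1 - PowerSeries.X ^ a.1 : PS P.p) - 1 := ⟨-1, by ring⟩
    refine ⟨?_, ?_⟩
    · by_cases ha : P.Act a
      · have h1 := Sub4.first h P.W 1 P.β zero_le_one P.β_pos.le
          (fun c => by rw [one_mul]; exact le_rfl) a.1 hi _ hd b hb
        rw [Par.kap_act ha, zero_smul, sub_zero, Par.w_act ha]
        refine Par.OO_anti L P.W ?_ h1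
        have h2 : (a.1 : ℤ) + 1 ≤ P.M := by exact_mod_cast ha
        have h3 : (2 : ℤ) ≤ P.q := by exact_mod_cast P.two_le_q
        unfold Par.β
        nlinarith
      · exact Sub4.second h a ha b hb
    · have h1 := Sub4.first h P.W2 P.q 0 (Int.natCast_nonneg _) le_rfl
        (fun c => by rw [add_zero]; exact le_max_left _ _) a.1 hi _ hd b hb
      rw [add_zero] at h1
      exact h1
  · have hd : PowerSeries.X ^ 1 ∣ v - 1 := by
      rw [pow_one, PowerSeries.X_dvd_iff, map_sub, hv, map_one, sub_self]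
    have h1 := Sub4.first h (fun _ => 1) 0 1 le_rfl zero_le_one
      (fun c => by rw [zero_mul, zero_add]) 1 le_rfl v hd b hb
    rw [zero_mul, zero_add] at h1
    exact h1
  · exact (h (P.AA L) (Sub4.Iq P L 1) (L + 1) L (P.TT L) Sub4.Iq_nil Sub4.TT_mem).1 _
      (Sub4.dvd_map hv)

end CdI
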