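import Pool.Agent.P.MP_013f39_al.Inf.Van
import Pool.Agent.P.MP_013f39_al.Inf.Ce
import Pool.Agent.P.MP_013f39_al.Inf.Kos
import Pool.Agent.P.MP_013f39_al.Inf.Pi
import Pool.Agent.P.MP_013f39_al.Inf.Norm1
import Pool.Agent.P.MP_013f39_al.Inf.Norm2
import Pool.Agent.P.MP_013f39_al.Inf.Rel12
import Pool.Agent.P.MP_013f39_al.Inf.D0
import Pool.Agent.P.MP_013f39_al.Inf.Exp
import Pool.Agent.P.MP_013f39_al.Inf.Coord1
import Pool.Agent.P.MP_013f39_al.Inf.Coord2
import Pool.Agent.P.MP_013f39_al.Inf.Fil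
import Pool.Agent.P.MP_013f39_al.Inf.Psi0
import Pool.Agent.P.MP_013f39_al.Inf.St
import Pool.Agent.P.MP_013f39_al.Inf.Res
import Pool.Agent.P.MP_013f39_al.Inf.Ds
import Pool.Agent.P.MP_013f39_al.Inf.Sub1
import Pool.Agent.P.MP_013f39_al.Inf.Sub3
import Pool.Agent.P.MP_013f39_al.Inf.Sub4
import Pool.Agent.P.MP_013f39_al.Inf.Act
import Pool.Agent.P.MP_013f39_al.Inf.Cpx
import Pool.Agent.P.MP_013f39_al.Inf.Desc
import Pool.Agent.P.MP_013f39_al.Inf.Red
import Pool.Agent.P.MP_013f39_al.Inf.Col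
import Pool.Agent.P.MP_013f39_al.Inf.Col2
import Pool.Agent.P.MP_013f39_al.Inf.PeelA
import Pool.Agent.P.MP_013f39_al.Inf.PeelB
import Pool.Agent.P.MP_013f39_al.Inf.PeelC
import Pool.Agent.P.MP_013f39_al.Inf.PeelD
import Pool.Agent.P.MP_013f39_al.Inf.Small
import Pool.Agent.P.MP_013f39_al.Inf.Main

/-! Infinite cohomological dimension of `H_r`: assembly. -/

namespace CdI

open Cd3

theorem not_van (p r m : ℕ) [Fact p.Prime] (hr : 1 ≤ r) : ¬ VanN (SS p r) m 1 := by
  have c1 : ∀ P : Par, P.Coord1 := fun P => coord1_holds P (exp_holds P) (rel_holds P)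
  have c2 : ∀ P : Par, P.Coord2 := fun P => coord2_holds P (exp_holds P)
  have fc : ∀ P : Par, P.FilC := fun P => filC_holds P (c1 P) (c2 P)
  have sc : ∀ P : Par, ∃ sec, P.Sec sec := fun P => sec_holds P (c1 P)
  have ps : ∀ P : Par, P.Psi0 := fun P =>
    psi0_holds P ce_holds (rel1_holds P) (c1 P) (c2 P) (fc P) (d1_holds P) (sc P)
  have hd : ∀ P : Par, P.Hd := fun P => hd_holds P (fc P) (dlFil_holds P) (d1_holds P) (ps P)
  have st : ∀ P : Par, P.St := fun P => st_holds P kos_holds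
  have pi : ∀ P : Par, P.PInd := fun P => pInd_holds P (pq_holds P)
    (pStep_holds P ce_holds (pTr_holds P) (pq_holds P)) (pHom_holds P) (pBase_holds P)
  refine main_of van_holds (fun P n => ?_) ds_holds
    (fun P L => act_holds P L (sub1_holds P L) (sub2_holds P L) (sub3_holds P L (sub1_holds P L))
      (sub4_holds P L (norm2_holds norm1_holds)))
    (fun P => cpx_holds P (c1 P) (fc P)) (fun P => desc_holds P (d0_holds P))
    (fun P => small_holds P (red_holds P ce_holds (rel2_holds P) kos_holds (d0_holds P))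
      (col2_holds P (col_holds P pi_holds)) (pi P)
      (pNak_holds P ce_holds (pTr_holds P) (pq_holds P) (pi P))) ps p r m hr
  obtain ⟨ψ, hψ⟩ := res0_holds P (sc P) (fc P) (dlFil_holds P) (ps P) (hd P) (st P) n
  exact ⟨ψ, res_holds P (c1 P) (sc P) (ps P) (hd P) (st P) n ψ hψ⟩

end CdI
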