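import Pool.Agent.P.MP_013f39_al.Inf.Stm

/-! Infinite cohomological dimension of `H_r`: shared lemmas. -/

namespace CdI

open Cd3 MvPolynomial

section car

variable {k : Type} [Field k] {ι : Type} [LinearOrder ι] {V : Type} [AddCommGroup V] [Module k V]

lemma ex_apply (a : ι) (φ : Finset ι → V) (I : Finset ι) :
    ex k a φ I = if a ∈ I then sg k a I • φ (I.erase a) else 0 := rfl

lemma io_apply (a : ι) (φ : Finset ι → V) (I : Finset ι) :
    io k a φ I = if a ∈ I then 0 else sg k a I • φ (insert a I) := rfl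

lemma kz_apply (Y : ι → Module.End k V) (φ : Finset ι → V) (I : Finset ι) :
    kz Y φ I = ∑ a ∈ I, sg k a I • Y a (φ (I.erase a)) := rfl

lemma ct_apply (A : ι → Prop) [DecidablePred A] (κ : ι → k) (s : ι → ι → ι) (φ : Finset ι → V)
    (I : Finset ι) :
    ct A κ s φ I = ∑ j ∈ I.filter A, ∑ i ∈ I, κ i • ex k j (ex k i (io k (s j i) φ)) I := rfl

lemma sg_mul_self (a : ι) (I : Finset ι) : sg k a I * sg k a I = 1 := by
  rw [sg, ← mul_pow]; simp

lemma sg_insert (a : ι) {b : ι} {I : Finset ι} (h : b ∉ I) :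
    sg k a (insert b I) = if b < a then -sg k a I else sg k a I := by
  unfold sg
  rw [Finset.filter_insert]
  split_ifs with h1
  · rw [Finset.card_insert_of_notMem (by simp [h]), pow_succ, mul_neg_one]
  · rfl

lemma sg_erase (a : ι) {b : ι} {I : Finset ι} (h : b ∈ I) :
    sg k a (I.erase b) = if b < a then -sg k a I else sg k a I := by
  have := sg_insert (k := k) a (Finset.notMem_erase b I)
  rw [Finset.insert_erase h] at this
  rw [this]; split_ifs <;> simp

lemma ex_ex (a b : ι) : (ex k a * ex k b + ex k b * ex k a : Module.End k (Finset ι → V)) = 0 := by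
  refine LinearMap.ext fun φ => funext fun I => ?_
  simp only [LinearMap.add_apply, Module.End.mul_apply, Pi.add_apply, ex_apply, Finset.mem_erase,
    LinearMap.zero_apply, Pi.zero_apply]
  rcases eq_or_ne a b with rfl | hab
  · simp
  by_cases ha : a ∈ I <;> by_cases hb : b ∈ I <;> simp only [ha, hb, hab, hab.symm, if_true,
    if_false, ne_eq, not_false_eq_true, and_true, and_false, smul_zero, add_zero]
  rw [sg_erase b ha, sg_erase a hb, Finset.erase_right_comm, smul_smul, smul_smul, ← add_smul]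
  rcases lt_or_gt_of_ne hab with h | h <;> simp [h, h.not_gt, mul_comm]

lemma ex_self (a : ι) : (ex k a * ex k a : Module.End k (Finset ι → V)) = 0 := by
  refine LinearMap.ext fun φ => funext fun I => ?_
  simp [ex_apply]

lemma io_io (a b : ι) : (io k a * io k b + io k b * io k a : Module.End k (Finset ι → V)) = 0 := by
  refine LinearMap.ext fun φ => funext fun I => ?_
  simp only [LinearMap.add_apply, Module.End.mul_apply, Pi.add_apply, io_apply, Finset.mem_insert,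
    LinearMap.zero_apply, Pi.zero_apply]
  rcases eq_or_ne a b with rfl | hab
  · simp
  by_cases ha : a ∈ I <;> by_cases hb : b ∈ I <;> simp only [ha, hb, hab, hab.symm, if_true,
    if_false, or_true, or_false, smul_zero, add_zero]
  rw [sg_insert b ha, sg_insert a hb, Finset.insert_comm, smul_smul, smul_smul, ← add_smul]
  rcases lt_or_gt_of_ne hab with h | h <;> simp [h, h.not_gt, mul_comm]

lemma io_self (a : ι) : (io k a * io k a : Module.End k (Finset ι → V)) = 0 := by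
  refine LinearMap.ext fun φ => funext fun I => ?_
  simp [io_apply]

lemma ex_io (a b : ι) : (ex k a * io k b + io k b * ex k a : Module.End k (Finset ι → V)) =
    if a = b then 1 else 0 := by
  refine LinearMap.ext fun φ => funext fun I => ?_
  simp only [LinearMap.add_apply, Module.End.mul_apply, Pi.add_apply, io_apply, ex_apply,
    Finset.mem_insert, Finset.mem_erase]
  rcases eq_or_ne a b with rfl | hab
  · by_cases ha : a ∈ I
    · simp [ha, sg_erase a ha, smul_smul, sg_mul_self, Finset.insert_erase ha]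
    · simp [ha, sg_insert a ha, smul_smul, sg_mul_self, Finset.erase_insert ha]
  by_cases ha : a ∈ I <;> by_cases hb : b ∈ I <;> simp only [ha, hb, hab, hab.symm, if_true,
    if_false, ne_eq, not_false_eq_true, and_true, and_false, or_true, or_false, smul_zero,
    add_zero, LinearMap.zero_apply, Pi.zero_apply]
  rw [sg_erase b ha, sg_insert a hb, Finset.erase_insert_of_ne hab.symm, smul_smul, smul_smul,
    ← add_smul]
  rcases lt_or_gt_of_ne hab with h | h <;> simp [h, h.not_gt, mul_comm]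

/-- the bracket term only sees the sets `insert (s j i) ((I.erase j).erase i)` -/
lemma ct_eq_zero (A : ι → Prop) [DecidablePred A] (κ : ι → k) (s : ι → ι → ι) (φ : Finset ι → V)
    (I : Finset ι) (h : ∀ j ∈ I, ∀ i ∈ I.erase j, A j → κ i ≠ 0 → s j i ∉ (I.erase j).erase i →
      φ (insert (s j i) ((I.erase j).erase i)) = 0) : ct A κ s φ I = 0 := by
  rw [ct_apply]
  refine Finset.sum_eq_zero fun j hj => Finset.sum_eq_zero fun i _ => ?_
  rw [Finset.mem_filter] at hj
  by_cases h0 : κ i = 0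
  · rw [h0, zero_smul]
  simp only [ex_apply, io_apply, if_pos hj.1]
  split_ifs with h1 h2
  · simp
  · rw [h j hj.1 i h1 hj.2 h0 h2]; simp
  · simp

lemma kz_sq (h : CeStm) (Y : ι → Module.End k V) (hY : ∀ a b, Commute (Y a) (Y b)) :
    kz Y * kz Y = 0 := by
  have h1 := h k ι V (fun _ => False) (fun _ => 0) (fun _ i => i) Y (by simp) (by simp) (by simp)
    (by simp) (by simp) (fun i i' _ _ => hY i i') (by simp)
  have h2 : (ct (fun _ => False) (fun _ => (0 : k)) (fun _ i => i) :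
      Module.End k (Finset ι → V)) = 0 := by
    ext φ I; simp [ct_apply]
  rwa [h2, sub_zero] at h1

lemma wI_erase (ω : ι → ℤ) {I : Finset ι} {a : ι} (h : a ∈ I) :
    wI ω (I.erase a) + ω a = wI ω I := Finset.sum_erase_add _ _ h

lemma wI_insert (ω : ι → ℤ) {I : Finset ι} {a : ι} (h : a ∉ I) :
    wI ω (insert a I) = ω a + wI ω I := Finset.sum_insert h

end car

section poly

variable {k : Type} [Field k] {σ : Type}

lemma pair_monomial (f : Mon σ → k) (μ : Mon σ) (c : k) : pair f (monomial μ c) = c * f μ := by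
  have : monomial μ c = c • basisMonomials σ k μ := by simp [smul_monomial]
  rw [this, map_smul, pair, Module.Basis.constr_basis, smul_eq_mul]

lemma pair_eq_sum (f : Mon σ → k) (a : MvPolynomial σ k) :
    pair f a = ∑ μ ∈ a.support, coeff μ a * f μ := by
  conv_lhs => rw [a.as_sum]
  simp only [map_sum, pair_monomial]

lemma pair_eq_zero {f : Mon σ → k} {a : MvPolynomial σ k} (h : ∀ μ ∈ a.support, f μ = 0) :
    pair f a = 0 := by
  rw [pair_eq_sum]; exact Finset.sum_eq_zero fun μ hμ => by rw [h μ hμ, mul_zero]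

lemma lin_ext {V : Type} [AddCommGroup V] [Module k V] {f g : MvPolynomial σ k →ₗ[k] V}
    (h : ∀ μ, f (monomial μ 1) = g (monomial μ 1)) : f = g :=
  (basisMonomials σ k).ext h

lemma pair_eq (φ : MvPolynomial σ k →ₗ[k] k) : pair (fun μ => φ (monomial μ 1)) = φ :=
  lin_ext fun μ => by rw [pair_monomial, one_mul]

lemma pair_add (f g : Mon σ → k) : pair (f + g) = pair f + pair g := map_add _ _ _

lemma pair_smul (c : k) (f : Mon σ → k) : pair (c • f) = c • pair f := map_smul _ _ _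

lemma pair_single [DecidableEq σ] (μ : Mon σ) (a : MvPolynomial σ k) :
    pair (Pi.single μ 1) a = coeff μ a := by
  have : pair (Pi.single μ (1 : k)) = lcoeff k μ := lin_ext fun ν => by
    rw [pair_monomial, lcoeff_apply, coeff_monomial, one_mul, Pi.single_apply]
  rw [this, lcoeff_apply]

lemma dual_apply (T : Module.End k (MvPolynomial σ k)) (f : Mon σ → k) (μ : Mon σ) :
    dual T f μ = pair f (T (monomial μ 1)) := rfl

lemma pair_dual (T : Module.End k (MvPolynomial σ k)) (f : Mon σ → k) (a : MvPolynomial σ k) :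
    pair (dual T f) a = pair f (T a) :=
  LinearMap.congr_fun (pair_eq (pair f ∘ₗ T)) a

lemma dual_mul (T T' : Module.End k (MvPolynomial σ k)) : dual (T * T') = dual T' * dual T := by
  ext f μ
  simp only [Module.End.mul_apply, dual_apply, pair_dual]

lemma dual_add (T T' : Module.End k (MvPolynomial σ k)) : dual (T + T') = dual T + dual T' := by
  refine LinearMap.ext fun f => funext fun μ => ?_
  simp [dual_apply]

lemma dual_sub (T T' : Module.End k (MvPolynomial σ k)) : dual (T - T') = dual T - dual T' := by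
  refine LinearMap.ext fun f => funext fun μ => ?_
  simp [dual_apply]

lemma dual_smul (c : k) (T : Module.End k (MvPolynomial σ k)) : dual (c • T) = c • dual T := by
  refine LinearMap.ext fun f => funext fun μ => ?_
  simp [dual_apply]

lemma del_apply (c : σ) (f : Mon σ → k) (μ : Mon σ) :
    del k c f μ = f (μ + Finsupp.single c 1) := rfl

lemma dual_mulX (c : σ) : dual (LinearMap.mulLeft k (X c : MvPolynomial σ k)) = del k c := by
  refine LinearMap.ext fun f => funext fun μ => ?_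
  rw [dual_apply, LinearMap.mulLeft_apply, X, monomial_mul, pair_monomial, del_apply, add_comm]
  simp

lemma th_X (κ : σ → k) (s : σ → σ) (c : σ) : th κ s (X c) = -(κ c • X (s c)) :=
  mkDerivation_X _ _ _

lemma th_monomial (κ : σ → k) (s : σ → σ) (μ : Mon σ) : th κ s (monomial μ 1) =
    -∑ c ∈ μ.support, monomial (μ - Finsupp.single c 1 + Finsupp.single (s c) 1) (κ c * μ c) := by
  rw [th, mkDerivation_monomial, one_smul, Finsupp.sum, ← Finset.sum_neg_distrib]
  refine Finset.sum_congr rfl fun c _ => ?_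
  rw [smul_eq_mul, X, smul_monomial, mul_neg, monomial_mul, smul_eq_mul, mul_one, mul_comm]

lemma dual_th (κ : σ → k) (s : σ → σ) (f : Mon σ → k) (μ : Mon σ) :
    dual (th κ s).toLinearMap f μ =
      -∑ c ∈ μ.support, κ c * μ c * f (μ - Finsupp.single c 1 + Finsupp.single (s c) 1) := by
  rw [dual_apply]
  change pair f (th κ s (monomial μ 1)) = _
  rw [th_monomial, map_neg, map_sum]
  simp only [pair_monomial]

lemma mem_Pge {ω : σ → ℤ} {s : ℤ} {a : MvPolynomial σ k} :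
    a ∈ Pge k ω s ↔ ∀ μ ∈ a.support, s ≤ Finsupp.weight ω μ := Iff.rfl

lemma mem_Ple {s : ℤ} {a : MvPolynomial σ k} :
    a ∈ Ple k σ s ↔ ∀ μ ∈ a.support, (μ.degree : ℤ) ≤ s := Iff.rfl

lemma Pge_anti (ω : σ → ℤ) : Antitone (Pge k ω) :=
  fun _ _ h _ ha μ hμ => h.trans (mem_Pge.1 ha μ hμ)

lemma Ple_mono : Monotone (Ple k σ) :=
  fun _ _ h _ ha μ hμ => (mem_Ple.1 ha μ hμ).trans h

lemma Pge_mul {ω : σ → ℤ} {s t : ℤ} {a b : MvPolynomial σ k} (ha : a ∈ Pge k ω s)
    (hb : b ∈ Pge k ω t) : a * b ∈ Pge k ω (s + t) := by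
  classical
  refine mem_Pge.2 fun μ hμ => ?_
  obtain ⟨x, hx, y, hy, rfl⟩ := Finset.mem_add.1 (support_mul a b hμ)
  rw [map_add]; exact add_le_add (mem_Pge.1 ha x hx) (mem_Pge.1 hb y hy)

lemma Ple_mul {s t : ℤ} {a b : MvPolynomial σ k} (ha : a ∈ Ple k σ s)
    (hb : b ∈ Ple k σ t) : a * b ∈ Ple k σ (s + t) := by
  classical
  refine mem_Ple.2 fun μ hμ => ?_
  obtain ⟨x, hx, y, hy, rfl⟩ := Finset.mem_add.1 (support_mul a b hμ)
  rw [map_add, Nat.cast_add]; exact add_le_add (mem_Ple.1 ha x hx) (mem_Ple.1 hb y hy)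

lemma monomial_mem_Pge {ω : σ → ℤ} {s : ℤ} {μ : Mon σ} (h : s ≤ Finsupp.weight ω μ) (c : k) :
    monomial μ c ∈ Pge k ω s := (monomial_mem_restrictSupport k).2 (Or.inl h)

lemma one_mem_Pge (ω : σ → ℤ) : (1 : MvPolynomial σ k) ∈ Pge k ω 0 :=
  monomial_mem_Pge (μ := 0) (by simp) 1

lemma X_mem_Pge (ω : σ → ℤ) (c : σ) : (X c : MvPolynomial σ k) ∈ Pge k ω (ω c) :=
  monomial_mem_Pge (by simp [Finsupp.weight_single]) 1

lemma pair_Pge {ω : σ → ℤ} {s : ℤ} {f : Mon σ → k} (hf : ∀ μ, f μ ≠ 0 → Finsupp.weight ω μ ≤ s)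
    {a : MvPolynomial σ k} (ha : a ∈ Pge k ω (s + 1)) : pair f a = 0 :=
  pair_eq_zero fun μ hμ => by
    by_contra h
    have := hf μ h
    have := mem_Pge.1 ha μ hμ
    omega

lemma mon_ind {Q : Mon σ → Prop} (h0 : Q 0) (h1 : ∀ μ c, Q μ → Q (μ + Finsupp.single c 1))
    (μ : Mon σ) : Q μ := by
  induction μ using Finsupp.induction₂ with
  | zero => exact h0
  | add_single c n ν _ _ ih =>
    rename_i h2 h3
    clear h2 h3
    induction n with
    | zero => simpa using ih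
    | succ n ih' => rw [Finsupp.single_add, ← add_assoc]; exact h1 _ _ ih'

lemma monomial_add_one (μ : Mon σ) (c : σ) :
    (monomial (μ + Finsupp.single c 1) 1 : MvPolynomial σ k) = monomial μ 1 * X c := by
  rw [X, monomial_mul, one_mul]

section prod

variable (O : ℤ → Submodule k (MvPolynomial σ k)) (ω : σ → ℤ) (hO : Antitone O)
  (hm : ∀ s t a b, a ∈ O s → b ∈ O t → a * b ∈ O (s + t)) (h1 : 1 ∈ O 0)
  (hX : ∀ c, X c ∈ O (ω c))

include hm h1 hX in
lemma mon_mem (μ : Mon σ) : monomial μ 1 ∈ O (Finsupp.weight ω μ) := by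
  induction μ using mon_ind with
  | h0 => simpa using h1
  | h1 μ c ih =>
    rw [monomial_add_one, map_add, Finsupp.weight_single, one_smul]; exact hm _ _ _ _ ih (hX c)

include hO hm h1 hX in
/-- a substitution moving the variables by `t` moves the monomials by `t` -/
lemma prod0 (φ : MvPolynomial σ k →ₐ[k] MvPolynomial σ k) (t : ℤ) (ht : 0 ≤ t)
    (h : ∀ c, φ (X c) - X c ∈ O (ω c + t)) (μ : Mon σ) :
    φ (monomial μ 1) - monomial μ 1 ∈ O (Finsupp.weight ω μ + t) := by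
  induction μ using mon_ind with
  | h0 => rw [monomial_zero', C_1, map_one, sub_self]; exact zero_mem _
  | h1 μ c ih =>
    have e : φ (monomial μ 1) * φ (X c) - monomial μ 1 * X c =
        (φ (monomial μ 1) - monomial μ 1) * (φ (X c) - X c) +
        (φ (monomial μ 1) - monomial μ 1) * X c + monomial μ 1 * (φ (X c) - X c) := by ring
    rw [monomial_add_one, map_mul, e, map_add, Finsupp.weight_single, one_smul]
    exact add_mem (add_mem (hO (by omega) (hm _ _ _ _ ih (h c)))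
      (hO (by omega) (hm _ _ _ _ ih (hX c))))
      (hO (by omega) (hm _ _ _ _ (mon_mem O ω hm h1 hX μ) (h c)))

include hO hm h1 hX in
/-- the same with a leading term given by a derivation -/
lemma prod1 (φ : MvPolynomial σ k →ₐ[k] MvPolynomial σ k)
    (θ : Derivation k (MvPolynomial σ k) (MvPolynomial σ k)) (t : ℤ) (ht : 0 < t)
    (h : ∀ c, θ (X c) ∈ O (ω c + t)) (h' : ∀ c, φ (X c) - X c - θ (X c) ∈ O (ω c + t + 1))
    (μ : Mon σ) : θ (monomial μ 1) ∈ O (Finsupp.weight ω μ + t) ∧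
      φ (monomial μ 1) - monomial μ 1 - θ (monomial μ 1) ∈ O (Finsupp.weight ω μ + t + 1) := by
  induction μ using mon_ind with
  | h0 =>
    rw [monomial_zero', C_1, θ.map_one_eq_zero, map_one, sub_self, sub_zero]
    exact ⟨zero_mem _, zero_mem _⟩
  | h1 μ c ih =>
    have hμ := mon_mem O ω hm h1 hX μ
    rw [monomial_add_one, θ.leibniz, map_mul, map_add, Finsupp.weight_single, one_smul,
      smul_eq_mul, smul_eq_mul]
    refine ⟨add_mem (hO (by omega) (hm _ _ _ _ hμ (h c))) (hO (by omega) (hm _ _ _ _ (hX c) ih.1)),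
      ?_⟩
    set m : MvPolynomial σ k := monomial μ 1
    have e : φ m * φ (X c) - m * X c - (m * θ (X c) + X c * θ m) =
        (φ m - m - θ m) * (φ (X c) - X c - θ (X c)) + (φ m - m - θ m) * X c +
        (φ m - m - θ m) * θ (X c) + m * (φ (X c) - X c - θ (X c)) +
        θ m * (φ (X c) - X c - θ (X c)) + θ m * θ (X c) := by ring
    rw [e]
    exact add_mem (add_mem (add_mem (add_mem (add_mem (hO (by omega) (hm _ _ _ _ ih.2 (h' c)))
      (hO (by omega) (hm _ _ _ _ ih.2 (hX c)))) (hO (by omega) (hm _ _ _ _ ih.2 (h c))))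
      (hO (by omega) (hm _ _ _ _ hμ (h' c)))) (hO (by omega) (hm _ _ _ _ ih.1 (h' c))))
      (hO (by omega) (hm _ _ _ _ ih.1 (h c)))

end prod

variable {ι : Type}

lemma mem_SupM {Q : Finset ι → Mon σ → Prop} {z : Finset ι → Mon σ → k} :
    z ∈ SupM k Q ↔ ∀ I μ, z I μ ≠ 0 → Q I μ := Iff.rfl

lemma mem_FinM {z : Finset ι → Mon σ → k} :
    z ∈ FinM k σ ι ↔ {x : Finset ι × Mon σ | z x.1 x.2 ≠ 0}.Finite := Iff.rfl

lemma SupM_mono {Q Q' : Finset ι → Mon σ → Prop} (h : ∀ I μ, Q I μ → Q' I μ) :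
    SupM k Q ≤ SupM k Q' := fun _ hz I μ h0 => h I μ (hz I μ h0)

/-- a weight is bounded on a finitely supported cochain -/
lemma FinM.bdd {z : Finset ι → Mon σ → k} (hz : z ∈ FinM k σ ι) (T : Finset ι → Mon σ → ℤ) :
    ∃ s, ∀ I μ, z I μ ≠ 0 → T I μ ≤ s := by
  obtain ⟨s, hs⟩ := (Set.Finite.image (fun x => T x.1 x.2) hz).bddAbove
  exact ⟨s, fun I μ h => hs ⟨(I, μ), h, rfl⟩⟩

end poly

section sm

variable {k V V' : Type} [Field k] [AddCommGroup V] [Module k V] [AddCommGroup V'] [Module k V']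
  {U U' B B' : Submodule k V} {c c' : ℕ}

lemma Sm.mono (h : Sm U B c) (hU : U' ≤ U) (hB : B ≤ B') (hc : c ≤ c') : Sm U' B' c' := by
  obtain ⟨S, h1, h2, h3⟩ := h
  exact ⟨S, h1, h2.trans hc, hU.trans (h3.trans (sup_le_sup_left hB _))⟩

lemma Sm.of_le (h : U ≤ B) : Sm U B 0 := ⟨⊥, inferInstance, by simp, by simpa using h⟩

lemma Sm.le (h : Sm U B 0) : U ≤ B := by
  obtain ⟨S, h1, h2, h3⟩ := h
  rw [Nat.le_zero, Submodule.finrank_eq_zero] at h2
  simpa [h2] using h3

lemma Sm.trans (h : Sm U B c) (h' : Sm B B' c') : Sm U B' (c + c') := by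
  obtain ⟨S, h1, h2, h3⟩ := h
  obtain ⟨S', h4, h5, h6⟩ := h'
  refine ⟨S ⊔ S', inferInstance, (Submodule.finrank_add_le_finrank_add_finrank S S').trans
    (add_le_add h2 h5), h3.trans ?_⟩
  rw [sup_assoc]; exact sup_le_sup_left h6 _

lemma Sm.sup (h : Sm U B c) (h' : Sm U' B c') : Sm (U ⊔ U') B (c + c') := by
  obtain ⟨S, h1, h2, h3⟩ := h
  obtain ⟨S', h4, h5, h6⟩ := h'
  refine ⟨S ⊔ S', inferInstance, (Submodule.finrank_add_le_finrank_add_finrank S S').trans
    (add_le_add h2 h5), sup_le (h3.trans ?_) (h6.trans ?_)⟩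
  · exact sup_le_sup_right le_sup_left _
  · exact sup_le_sup_right le_sup_right _

lemma Sm.iSup {α : Type} (T : Finset α) (W : α → Submodule k V) (n : α → ℕ)
    (h : ∀ a ∈ T, Sm (W a) B (n a)) : Sm (⨆ a ∈ T, W a) B (∑ a ∈ T, n a) := by
  classical
  induction T using Finset.induction_on with
  | empty => simpa using Sm.of_le bot_le
  | insert a T ha ih =>
    rw [Finset.iSup_insert, Finset.sum_insert ha]
    exact (h a (by simp)).sup (ih fun b hb => h b (by simp [hb]))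

lemma Sm.map (h : Sm U B c) (φ : V →ₗ[k] V') : Sm (U.map φ) (B.map φ) c := by
  obtain ⟨S, h1, h2, h3⟩ := h
  refine ⟨S.map φ, inferInstance, (Submodule.finrank_map_le φ S).trans h2, ?_⟩
  rw [← Submodule.map_sup]; exact Submodule.map_mono h3

lemma Sm.comap (h : Sm U B c) (φ : V' →ₗ[k] V) : Sm (U.comap φ) (B.comap φ) c := by
  obtain ⟨S, h1, h2, h3⟩ := h
  let g : V' →ₗ[k] V ⧸ B := B.mkQ ∘ₗ φ
  let R : Submodule k (V ⧸ B) := S.map B.mkQ ⊓ LinearMap.range g
  have : FiniteDimensional k R := Submodule.finiteDimensional_inf_left _ _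
  obtain ⟨s, hs⟩ := g.rangeRestrict.exists_rightInverse_of_surjective g.range_rangeRestrict
  let t : R →ₗ[k] V' := s ∘ₗ Submodule.inclusion inf_le_right
  refine ⟨LinearMap.range t, inferInstance, (LinearMap.finrank_range_le t).trans
    ((Submodule.finrank_mono inf_le_left).trans ((Submodule.finrank_map_le _ S).trans h2)), ?_⟩
  intro x hx
  obtain ⟨y, hy, b, hb, e⟩ := Submodule.mem_sup.1 (h3 hx)
  have hR : g x ∈ R := ⟨⟨y, hy, by
    change B.mkQ y = B.mkQ (φ x)
    rw [← e, map_add, Submodule.mkQ_apply B b, (Submodule.Quotient.mk_eq_zero B).2 hb, add_zero]⟩,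
    x, rfl⟩
  have h4 : g (t ⟨g x, hR⟩) = g x :=
    congrArg Subtype.val (LinearMap.congr_fun hs ⟨g x, x, rfl⟩)
  refine Submodule.mem_sup.2 ⟨t ⟨g x, hR⟩, ⟨_, rfl⟩, x - t ⟨g x, hR⟩, ?_, by abel⟩
  rw [Submodule.mem_comap, ← Submodule.Quotient.mk_eq_zero, ← Submodule.mkQ_apply]
  change g _ = 0
  rw [map_sub, h4, sub_self]

lemma Sm.inf (h : Sm U B c) : Sm U (B ⊓ U) c := by
  have := (h.comap U.subtype).map U.subtype
  rwa [Submodule.comap_subtype_self, Submodule.map_subtype_top, Submodule.map_comap_subtype,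
    inf_comm] at this

lemma Sm.finrank_le (h : Sm U ⊥ c) : Module.finrank k U ≤ c := by
  obtain ⟨S, h1, h2, h3⟩ := h
  rw [sup_bot_eq] at h3
  exact (Submodule.finrank_mono h3).trans h2

end sm

section bd

variable {k : Type} [Field k] {Γ V : Type} [AddCommGroup V] [Module k V]

lemma bd_apply (m : ℕ) (f : (Fin m → Γ) → V) (x : Fin (m + 1) → Γ) :
    bd k m f x = ∑ l : Fin (m + 1), (-1 : k) ^ (l : ℕ) • f fun i => x (l.succAbove i) := rfl

lemma bd_cons (m : ℕ) (f : (Fin (m + 1) → Γ) → V) (a : Γ) (x : Fin (m + 1) → Γ) :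
    bd k (m + 1) f (Fin.cons a x) = f x - bd k m (fun y => f (Fin.cons a y)) x := by
  rw [bd_apply, Fin.sum_univ_succ, bd_apply, sub_eq_add_neg, ← Finset.sum_neg_distrib]
  congr 1
  · simp
  · refine Finset.sum_congr rfl fun l _ => ?_
    rw [Fin.val_succ, pow_succ, mul_neg_one, neg_smul]
    congr 3
    ext i
    refine Fin.cases ?_ (fun i => ?_) i <;> simp

lemma bd_bd (m : ℕ) (f : (Fin m → Γ) → V) : bd k (m + 1) (bd k m f) = 0 := by
  induction m with
  | zero =>
    ext x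
    rw [← Fin.cons_self_tail x, bd_cons]
    simp [bd_apply, Subsingleton.elim (fun i => _) (Fin.elim0 : Fin 0 → Γ)]
  | succ m ih =>
    ext x
    rw [← Fin.cons_self_tail x, bd_cons]
    have : (fun y => bd k (m + 1) f (Fin.cons (x 0) y)) =
        f - bd k m fun y => f (Fin.cons (x 0) y) := funext fun y => bd_cons m f _ y
    rw [this, map_sub, ih]; simp

/-- contraction of the simplicial complex -/
lemma bd_contr (m : ℕ) (f : (Fin (m + 1) → Γ) → V) (h : bd k (m + 1) f = 0) (a : Γ) :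
    bd k m (fun y => f (Fin.cons a y)) = f := by
  ext x
  have := bd_cons (k := k) m f a x
  rw [h, Pi.zero_apply] at this
  exact (sub_eq_zero.1 this.symm).symm

end bd

namespace Par

variable (P : Par)

/-! ### Indices and weights -/

lemma β_pos : 0 < P.β := by
  have h1 := P.two_le_q
  have h2 := P.N_lt_M
  unfold β
  exact mul_pos (by omega) (by omega)

lemma β_add : P.β + P.M = P.q * P.M := by unfold β; ring

lemma two_N_le : 2 * P.N ≤ P.M := Nat.mul_le_mul_right _ P.hp.two_le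

variable {P}

lemma not_dvd {a : P.Ix} (h : ¬ P.Act a) : ¬ P.p ∣ a.1 := a.2.2.resolve_left h

lemma M_lt {a : P.Ix} (h : ¬ P.Act a) : P.M < a.1 := by
  refine lt_of_le_of_ne (not_lt.1 h) fun h1 => not_dvd h ?_
  rw [← h1]; exact dvd_mul_right _ _

lemma kap_act {a : P.Ix} (h : P.Act a) : P.kap a = 0 := if_pos h

lemma kap_let {a : P.Ix} (h : ¬ P.Act a) : P.kap a = (a.1 : P.k) := if_neg h

lemma kap_ne_zero {a : P.Ix} : P.kap a ≠ 0 ↔ ¬ P.Act a := by
  refine ⟨fun h h1 => h (kap_act h1), fun h => ?_⟩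
  rw [kap_let h, Ne, ZMod.natCast_eq_zero_iff]; exact not_dvd h

lemma q_cast : ((P.q : ℕ) : P.k) = 0 := (ZMod.natCast_eq_zero_iff _ _).2 P.p_dvd_q

lemma sh_val (j : P.Ix) {i : P.Ix} (h : ¬ P.Act i) : (P.sh j i).1 = i.1 + P.q * j.1 := by
  rw [sh, dif_neg h]

lemma sh_let (j : P.Ix) {i : P.Ix} (h : ¬ P.Act i) : ¬ P.Act (P.sh j i) := by
  have := M_lt h
  rw [Act, sh_val j h]; omega

lemma kap_sh (j : P.Ix) {i : P.Ix} (h : ¬ P.Act i) : P.kap (P.sh j i) = P.kap i := by
  rw [kap_let (sh_let j h), kap_let h, sh_val j h]; simp [q_cast]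

lemma sh_comm (j j' : P.Ix) {i : P.Ix} (h : ¬ P.Act i) :
    P.sh j (P.sh j' i) = P.sh j' (P.sh j i) := by
  ext; rw [sh_val _ (sh_let _ h), sh_val _ (sh_let _ h), sh_val _ h, sh_val _ h]; ring

lemma w_act {a : P.Ix} (h : P.Act a) : P.w a = P.q * (a.1 : ℤ) := if_pos h

lemma w_let {a : P.Ix} (h : ¬ P.Act a) : P.w a = a.1 + P.β := if_neg h

lemma qN_le_w (a : P.Ix) : (P.q : ℤ) * P.N ≤ P.w a := by
  have h1 : (P.N : ℤ) ≤ a.1 := by exact_mod_cast a.2.1
  by_cases h : P.Act a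
  · rw [w_act h]; gcongr
  · have h2 : (P.M : ℤ) < a.1 := by exact_mod_cast M_lt h
    have h3 : (P.N : ℤ) < P.M := by exact_mod_cast P.N_lt_M
    have h4 := P.β_add
    rw [w_let h]; nlinarith [Int.natCast_nonneg P.q]

lemma le_w (a : P.Ix) : (a.1 : ℤ) ≤ P.w a := by
  by_cases h : P.Act a
  · have : (2 : ℤ) ≤ P.q := by exact_mod_cast P.two_le_q
    rw [w_act h]; nlinarith [Int.natCast_nonneg a.1]
  · rw [w_let h]; linarith [P.β_pos]

lemma w_pos (a : P.Ix) : 0 < P.w a := by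
  have := le_w a; have := a.2.1; have := P.hN; omega

lemma w_le_w2 (a : P.Ix) : P.w a ≤ P.w2 a := by
  by_cases h : P.Act a
  · rw [w_act h, w2]
  · have h2 : (P.M : ℤ) < a.1 := by exact_mod_cast M_lt h
    have : (2 : ℤ) ≤ P.q := by exact_mod_cast P.two_le_q
    rw [w_let h, w2, β]; nlinarith

lemma w_lt_w2 {a : P.Ix} (h : ¬ P.Act a) : P.w a < P.w2 a := by
  have h2 : (P.M : ℤ) < a.1 := by exact_mod_cast M_lt h
  have : (2 : ℤ) ≤ P.q := by exact_mod_cast P.two_le_q
  rw [w_let h, w2, β]; nlinarith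

lemma w2_pos (a : P.Ix) : 0 < P.w2 a := (w_pos a).trans_le (w_le_w2 a)

lemma w_sh {j i : P.Ix} (hj : P.Act j) (h : ¬ P.Act i) : P.w (P.sh j i) = P.w i + P.w j := by
  rw [w_let (sh_let j h), w_let h, w_act hj, sh_val j h]; push_cast; ring

lemma w2_sh (j : P.Ix) {i : P.Ix} (h : ¬ P.Act i) : P.w2 i + P.w2 j < P.w2 (P.sh j i) := by
  have h1 : (2 : ℤ) ≤ P.q := by exact_mod_cast P.two_le_q
  have h2 : (1 : ℤ) ≤ j.1 := by exact_mod_cast P.hN.trans j.2.1
  simp only [w2, sh_val j h]; push_cast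
  nlinarith [mul_pos (show (0 : ℤ) < P.q * j.1 by positivity) (show (0 : ℤ) < P.q - 1 by omega)]

lemma vK_val {a : P.Ix} (h : ¬ P.Act a) : (P.vK a).1 = a.1 := by rw [vK, dif_neg h]

lemma shN_val (n : ℕ) (c : P.Kv) : (P.shN n c).1 = c.1 + P.q * (n : ℤ) := rfl

lemma shK_val (j : P.Ix) (c : P.Kv) : (P.shK j c).1 = c.1 + P.q * (j.1 : ℤ) := rfl

lemma vK_sh (j : P.Ix) {i : P.Ix} (h : ¬ P.Act i) : P.vK (P.sh j i) = P.shK j (P.vK i) := by
  ext; rw [vK_val (sh_let j h), sh_val j h, shK_val, vK_val h]; push_cast; ring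

lemma W_vK {a : P.Ix} (h : ¬ P.Act a) : P.W (P.vK a) = P.w a := by rw [W, vK_val h, w_let h]

lemma W_shK {j : P.Ix} (hj : P.Act j) (c : P.Kv) : P.W (P.shK j c) = P.W c + P.w j := by
  rw [W, W, shK_val, w_act hj]; ring

lemma W_le_W2 (c : P.Kv) : P.W c ≤ P.W2 c := le_max_right _ _

lemma W2_slope {c c' : P.Kv} (h : c.1 ≤ c'.1) : P.W2 c + (c'.1 - c.1) ≤ P.W2 c' := by
  have h1 : (2 : ℤ) ≤ P.q := by exact_mod_cast P.two_le_q
  unfold W2
  rw [← max_add_add_right]
  exact max_le_max (by nlinarith) (by omega)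

lemma cast_ne_zero (c : P.Kv) : (c.1 : P.k) ≠ 0 := by
  rw [Ne, ZMod.intCast_zmod_eq_zero_iff_dvd]; exact c.2

lemma wI_nonneg (I : Finset P.Ix) : 0 ≤ wI P.w I := Finset.sum_nonneg fun a _ => (w_pos a).le

lemma wI2_nonneg (I : Finset P.Ix) : 0 ≤ wI P.w2 I := Finset.sum_nonneg fun a _ => (w2_pos a).le

lemma weight_nonneg {σ : Type} {ω : σ → ℤ} (h : ∀ a, 0 ≤ ω a) (μ : Mon σ) :
    0 ≤ Finsupp.weight ω μ := by
  rw [Finsupp.weight_apply]
  exact Finset.sum_nonneg fun a _ => nsmul_nonneg (h a) _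

lemma weight_pos {σ : Type} {ω : σ → ℤ} (h : ∀ a, 0 < ω a) {μ : Mon σ} (hμ : μ ≠ 0) :
    0 < Finsupp.weight ω μ := by
  obtain ⟨a, ha⟩ := Finsupp.ne_iff.1 hμ
  have := weight_nonneg (fun a => (h a).le) (μ - Finsupp.single a 1)
  have := h a
  rw [← Finsupp.weight_sub_single_add (w := ω) (i := a) ha]; omega

variable (P) in
lemma finite_le (n : ℕ) : {a : P.Ix | a.1 ≤ n}.Finite :=
  (Set.finite_Iic n).preimage Subtype.val_injective.injOn

variable (P) in
lemma finite_sets (n : ℕ) : {I : Finset P.Ix | ∀ a ∈ I, a.1 ≤ n}.Finite :=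
  ((P.finite_le n).toFinset.powerset.finite_toSet).subset fun I hI => by
    rw [Finset.mem_coe, Finset.mem_powerset]
    exact fun a ha => (Set.Finite.mem_toFinset _).2 (hI a ha)

variable (P) in
lemma finite_wI (s : ℤ) : {I : Finset P.Ix | wI P.w I ≤ s}.Finite :=
  (P.finite_sets s.toNat).subset fun I hI a ha => by
    have h1 := Finset.single_le_sum (fun a _ => (w_pos a).le) ha
    have h2 := le_w a
    have h3 : wI P.w I ≤ s := hI
    unfold wI at h3
    omega

variable (P) in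
lemma finite_act : {I : Finset P.Ix | ∀ a ∈ I, P.Act a}.Finite :=
  (P.finite_sets P.M).subset fun _ hI a ha => (hI a ha).le

lemma ce_apply {V : Type} [AddCommGroup V] [Module P.k V] (Y : P.Ix → Module.End P.k V)
    (φ : Finset P.Ix → V) (I : Finset P.Ix) :
    P.ce Y φ I = kz Y φ I - ct P.Act P.kap P.sh φ I := rfl

lemma ce_sq (h : CeStm) {V : Type} [AddCommGroup V] [Module P.k V]
    {Y : P.Ix → Module.End P.k V} (hY : P.CRel Y) (φ : Finset P.Ix → V) :
    P.ce Y (P.ce Y φ) = 0 :=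
  LinearMap.congr_fun (h P.k P.Ix V P.Act P.kap P.sh Y (fun _ => kap_act)
    (fun j _ _ => sh_let j) (fun j _ _ => kap_sh j) (fun j j' _ _ _ => sh_comm j j')
    hY.aa hY.ll hY.al) φ

lemma kd_sq (h : CeStm) {Λ : Type} [Fintype Λ] (c : Λ → P.k)
    (z : Finset P.Ix → MvPolynomial Λ P.k) : P.kd c (P.kd c z) = 0 := by
  rw [← Module.End.mul_apply, kd, kz_sq h, LinearMap.zero_apply]
  intro a b
  split_ifs
  · exact LinearMap.ext fun x => mul_left_comm (P.fj c a) (P.fj c b) x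
  · exact Commute.zero_right _
  · exact Commute.zero_left _
  · exact Commute.zero_left _

lemma X1_apply (a : P.Ix) (f : Mon P.Ix → P.k) (μ : Mon P.Ix) :
    P.X1 a f μ = f (μ + Finsupp.single a 1) - if P.Act a then ∑ c ∈ μ.support, P.kap c * μ c *
      f (μ - Finsupp.single c 1 + Finsupp.single (P.sh a c) 1) else 0 := by
  rw [X1, LinearMap.add_apply, Pi.add_apply, del_apply]
  split_ifs
  · rw [dual_th, sub_eq_add_neg]
  · simp

lemma X2_apply (a : P.Ix) (f : Mon P.Kv → P.k) (μ : Mon P.Kv) :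
    P.X2 a f μ = if P.Act a then -∑ c ∈ μ.support, (c.1 : P.k) * μ c *
      f (μ - Finsupp.single c 1 + Finsupp.single (P.shK a c) 1)
      else P.kap a * f (μ + Finsupp.single (P.vK a) 1) := by
  rw [X2]
  split_ifs
  · rw [dual_th]
  · rfl

lemma weight_move {σ : Type} (ω : σ → ℤ) {μ : Mon σ} {c : σ} (hc : c ∈ μ.support) (c' : σ) :
    Finsupp.weight ω (μ - Finsupp.single c 1 + Finsupp.single c' 1) =
      Finsupp.weight ω μ - ω c + ω c' := by
  rw [map_add, Finsupp.weight_single, one_smul,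
    ← Finsupp.weight_sub_single_add (w := ω) (Finsupp.mem_support_iff.1 hc)]
  ring

lemma weight_add_one {σ : Type} (ω : σ → ℤ) (μ : Mon σ) (c : σ) :
    Finsupp.weight ω (μ + Finsupp.single c 1) = Finsupp.weight ω μ + ω c := by
  rw [map_add, Finsupp.weight_single, one_smul]

/-- `X1 a` is `del a` up to terms of the same first and larger second weight -/
lemma X1_dep (a : P.Ix) (f : Mon P.Ix → P.k) (μ : Mon P.Ix)
    (h : ∀ ν, Finsupp.weight P.w ν = Finsupp.weight P.w μ + P.w a →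
      Finsupp.weight P.w2 μ + P.w2 a < Finsupp.weight P.w2 ν → f ν = 0) :
    P.X1 a f μ = f (μ + Finsupp.single a 1) := by
  rw [X1_apply, sub_eq_self]
  split_ifs with ha
  · refine Finset.sum_eq_zero fun c hc => ?_
    by_cases h0 : P.kap c = 0
    · rw [h0, zero_mul, zero_mul]
    have h1 := kap_ne_zero.1 h0
    have h2 := w2_sh a h1
    rw [h _ (by rw [weight_move _ hc, w_sh ha h1]; ring) (by rw [weight_move _ hc]; omega), mul_zero]
  · rfl

/-- `X2 a` is homogeneous -/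
lemma X2_dep (a : P.Ix) (f : Mon P.Kv → P.k) (μ : Mon P.Kv)
    (h : ∀ ν, Finsupp.weight P.W ν = Finsupp.weight P.W μ + P.w a → f ν = 0) :
    P.X2 a f μ = 0 := by
  rw [X2_apply]
  split_ifs with ha
  · rw [neg_eq_zero]
    refine Finset.sum_eq_zero fun c hc => ?_
    rw [h _ (by rw [weight_move _ hc, W_shK ha]; ring), mul_zero]
  · rw [h _ (by rw [weight_add_one, W_vK ha]), mul_zero]

lemma mulV_apply {Λ : Type} [Fintype Λ] (g : MvPolynomial Λ P.k)
    (z : Finset P.Ix → MvPolynomial Λ P.k) (J : Finset P.Ix) : P.mulV g z J = g * z J := rfl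

lemma mem_FP {Λ : Type} [Fintype Λ] {s : ℤ} {z : Finset P.Ix → MvPolynomial Λ P.k} :
    z ∈ P.FP Λ s ↔ ∀ J, z J ∈ Ple P.k Λ (s + wI (fun a => (a.1 : ℤ)) J) := by
  simp [FP, Submodule.mem_pi]

/-! ### Finite level -/

section fl

variable {V V' : Type} {F : P.Gam → V}

lemma FL.comp (h : P.FL F) (φ : V → V') : P.FL fun x => φ (F x) :=
  h.imp fun _ h x y hxy => congrArg φ (h x y hxy)

lemma FL.comp₂ {V'' : Type} {F' : P.Gam → V'} (h : P.FL F) (h' : P.FL F') (φ : V → V' → V'') :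
    P.FL fun x => φ (F x) (F' x) := by
  obtain ⟨K, h⟩ := h
  obtain ⟨K', h'⟩ := h'
  exact ⟨K + K', fun x y hxy =>
    congrArg₂ φ (h x y (hxy.anti (by omega))) (h' x y (hxy.anti (by omega)))⟩

lemma FL.left (h : P.FL F) (g : P.Gam) : P.FL fun x => F (g * x) :=
  h.imp fun _ h _ _ hxy => h _ _ (hxy.mul_left g.1)

lemma FL.right (h : P.FL F) (g : P.Gam) : P.FL fun x => F (x * g) :=
  h.imp fun _ h _ _ hxy => h _ _ (hxy.mul_right g.1)

lemma FL.const (v : V) : P.FL fun _ => v := ⟨0, fun _ _ _ => rfl⟩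

lemma FL.trans (h : P.FL F) (φ : (P.Gam → V) → V') : P.FL fun x => φ fun y => F (x * y) :=
  h.imp fun _ h _ _ hx => congrArg φ (_root_.funext fun y : P.Gam => h _ _ (hx.mul_right y.1))

lemma FL.finite_range (h : P.FL F) : (Set.range F).Finite := by
  obtain ⟨K, h⟩ := h
  let t : P.Gam → Fin K → P.k := fun x i => P.S.a i x.1
  have : Set.range F ⊆ Set.range fun y : Set.range t => F y.2.choose := by
    rintro _ ⟨x, rfl⟩
    refine ⟨⟨t x, x, rfl⟩, h _ _ fun i hi => ?_⟩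
    exact congrFun (Exists.choose_spec (⟨x, rfl⟩ : ∃ y, t y = t x)) ⟨i, hi⟩
  exact (Set.finite_range _).subset this

lemma Dl_apply (a : P.Ix) (f : P.Gam → P.k) (x : P.Gam) : P.Dl a f x = f (x * P.e a) - f x := rfl

lemma FL.Dl {f : P.Gam → P.k} (h : P.FL f) (a : P.Ix) : P.FL (P.Dl a f) :=
  (h.right (P.e a)).comp₂ h (· - ·)

lemma word_nil (f : P.Gam → P.k) : P.word [] f = f := rfl

lemma word_cons (a : P.Ix) (l : List P.Ix) (f : P.Gam → P.k) :
    P.word (a :: l) f = P.Dl a (P.word l f) := rfl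

lemma word_append (l l' : List P.Ix) (f : P.Gam → P.k) :
    P.word (l ++ l') f = P.word l (P.word l' f) := by simp [word]

lemma FL.word {f : P.Gam → P.k} (h : P.FL f) (l : List P.Ix) : P.FL (P.word l f) := by
  induction l with
  | nil => exact h
  | cons a l ih => exact ih.Dl a

lemma Fil.mono {ω : P.Ix → ℤ} {s s' : ℤ} {f : P.Gam → P.k} (h : P.Fil ω s f) (hs : s ≤ s') :
    P.Fil ω s' f := fun l hl => h l (by omega)

lemma FilV.mono {ω : P.Ix → ℤ} {s s' : ℤ} {F : P.Gam → P.Lam} (h : P.FilV ω s F) (hs : s ≤ s') :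
    P.FilV ω s' F := fun I => (h I).mono (by omega)

lemma Fil.Dl {ω : P.Ix → ℤ} {s : ℤ} {f : P.Gam → P.k} (h : P.Fil ω s f) (a : P.Ix) :
    P.Fil ω (s - ω a) (P.Dl a f) := fun l hl => by
  have := h (l ++ [a]) (by simp; omega)
  rwa [word_append] at this

variable (P) in
/-- the filtration as a submodule -/
def FilS (ω : P.Ix → ℤ) (s : ℤ) : Submodule P.k (P.Gam → P.Lam) where
  carrier := {F | P.FilV ω s F}
  zero_mem' I l _ := by
    change P.word l 0 1 = 0
    rw [map_zero]; rfl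
  add_mem' {F F'} h h' I l hl := by
    change P.word l ((fun x => F x I) + fun x => F' x I) 1 = 0
    rw [map_add, Pi.add_apply, h I l hl, h' I l hl, add_zero]
  smul_mem' c F h I l hl := by
    change P.word l (c • fun x => F x I) 1 = 0
    rw [map_smul, Pi.smul_apply, h I l hl, smul_zero]

lemma mem_FilS {ω : P.Ix → ℤ} {s : ℤ} {F : P.Gam → P.Lam} : F ∈ P.FilS ω s ↔ P.FilV ω s F :=
  Iff.rfl

lemma dl_apply (ψ : (P.Gam → P.Lam) →ₗ[P.k] P.Lam) (F : P.Gam → P.Lam) (x : P.Gam) :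
    P.dl ψ F x = ψ fun y => F (x * y) := rfl

lemma dl_one (ψ : (P.Gam → P.Lam) →ₗ[P.k] P.Lam) (F : P.Gam → P.Lam) : P.dl ψ F 1 = ψ F := by
  simp [dl_apply]

lemma DD_left {j : ℕ} {F : P.Gam → P.Lam} (h : F ∈ P.DD j) (g : P.Gam) :
    (fun x => F (g * x)) ∈ P.DD j := ⟨h.1.left g, fun _ => h.2 _⟩

lemma DD_const {j : ℕ} {v : P.Lam} (h : v ∈ P.LamD j) : (fun _ => v) ∈ P.DD j :=
  ⟨FL.const v, fun _ => h⟩

lemma dl_mem {ψ : (P.Gam → P.Lam) →ₗ[P.k] P.Lam} {j j' : ℕ}
    (hψ : ∀ F ∈ P.DD j, ψ F ∈ P.LamD j') {F : P.Gam → P.Lam} (h : F ∈ P.DD j) :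
    P.dl ψ F ∈ P.DD j' := ⟨h.1.trans ψ, fun x => hψ _ (DD_left h x)⟩

lemma coV_apply (F : P.Gam → P.Lam) (I : Finset P.Ix) : P.coV F I = P.co fun x => F x I := rfl

/-- the filtrations in coordinates -/
lemma FilC.vec (h : P.FilC) {F : P.Gam → P.Lam} (hF : P.FL F) (s : ℤ) :
    (P.FilV P.w s F ↔ P.coV F ∈ SupM P.k fun I μ => P.T1 I μ ≤ s) ∧
    (P.FilV P.w2 s F ↔ P.coV F ∈ SupM P.k fun I μ => P.T2 I μ ≤ s) := by
  refine ⟨forall_congr' fun I => ?_, forall_congr' fun I => ?_⟩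
  · rw [(h _ (hF.comp (· I)) _).1]
    refine forall_congr' fun μ => imp_congr Iff.rfl ?_
    unfold T1; omega
  · rw [(h _ (hF.comp (· I)) _).2]
    refine forall_congr' fun μ => imp_congr Iff.rfl ?_
    unfold T2; omega

lemma lam_pT (f : P.Gam → P.k) (n : Mon P.Ix) : P.lam f (P.pT n) = f (P.gE n) := by
  have : aeval (fun a => (X a - 1 : MvPolynomial P.Ix P.k)) (P.pT n) = monomial n 1 := by
    rw [pT, map_finsuppProd, monomial_eq, C_1, one_mul]
    simp
  rw [lam, LinearMap.comp_apply, AlgHom.toLinearMap_apply, this, pair_monomial, one_mul]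

lemma co_apply (f : P.Gam → P.k) (α : Mon P.Ix) : P.co f α = P.lam f (monomial α 1) := rfl

lemma pair_co (f : P.Gam → P.k) : pair (P.co f) = P.lam f := pair_eq (P.lam f)

lemma gE_val (n : Mon P.Ix) : (P.gE n).1.val = P.pE n := rfl

lemma pE_add (n n' : Mon P.Ix) : P.pE (n + n') = P.pE n * P.pE n' :=
  Finsupp.prod_add_index' (by simp) fun _ _ _ => pow_add _ _ _

lemma pT_add (n n' : Mon P.Ix) : P.pT (n + n') = P.pT n * P.pT n' :=
  Finsupp.prod_add_index' (fun _ => pow_zero _) fun a _ _ => pow_add (1 + X a) _ _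

lemma pE_single (a : P.Ix) (m : ℕ) : P.pE (Finsupp.single a m) = (1 - PowerSeries.X ^ a.1) ^ m :=
  Finsupp.prod_single_index (by simp)

lemma pT_single (a : P.Ix) (m : ℕ) : P.pT (Finsupp.single a m) = (1 + X a) ^ m :=
  Finsupp.prod_single_index (by simp)

lemma eqv_iff {K : ℕ} {u v : P.G} : P.S.Eqv K u v ↔ PowerSeries.X ^ K ∣ u.val - v.val := by
  rw [PowerSeries.X_pow_dvd_iff]
  refine forall₂_congr fun i _ => ?_
  simp only [SS_a, map_sub, sub_left_inj, sub_eq_zero]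

/-- linear maps agreeing on the `pT n` are equal -/
lemma pT_ext {V : Type} [AddCommGroup V] [Module P.k V]
    {φ φ' : MvPolynomial P.Ix P.k →ₗ[P.k] V} (h : ∀ n, φ (P.pT n) = φ' (P.pT n)) : φ = φ' := by
  let τ : MvPolynomial P.Ix P.k →ₐ[P.k] MvPolynomial P.Ix P.k := aeval fun a => 1 + X a
  have h1 : φ ∘ₗ τ.toLinearMap = φ' ∘ₗ τ.toLinearMap := lin_ext fun n => by
    have : τ (monomial n 1) = P.pT n := by rw [aeval_monomial, map_one, one_mul, pT]
    simp only [LinearMap.comp_apply, AlgHom.toLinearMap_apply, this, h]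
  have h2 : τ.comp (aeval fun a => (X a - 1 : MvPolynomial P.Ix P.k)) = AlgHom.id _ _ := by
    ext1 a; simp [τ]
  refine LinearMap.ext fun x => ?_
  rw [← show τ (aeval (fun a => (X a - 1 : MvPolynomial P.Ix P.k)) x) = x from
    AlgHom.congr_fun h2 x]
  exact LinearMap.congr_fun h1 _

end fl

/-! ### The module -/

lemma mem_JJ {L : ℕ} {a : P.PK} : a ∈ P.JJ L ↔ ∀ μ ∈ a.support, ¬ P.Adm L μ := Iff.rfl

lemma pair_JJ {L : ℕ} {f : Mon P.Kv → P.k} (hf : P.AdmF L f) {a : P.PK} (ha : a ∈ P.JJ L) :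
    pair f a = 0 := pair_eq_zero fun μ hμ => by
  by_contra h; exact mem_JJ.1 ha μ hμ (hf μ h)

lemma X_mem_JJ {L : ℕ} {c : P.Kv} (h : (L : ℤ) < c.1) : (X c : P.PK) ∈ P.JJ L :=
  (monomial_mem_restrictSupport P.k).2 (Or.inl fun h' => by
    have := h'.2 c (by simp); omega)

lemma OO_anti (L : ℕ) (ω : P.Kv → ℤ) : Antitone (P.OO L ω) :=
  fun _ _ h => sup_le_sup_right (Pge_anti ω h) _

lemma OO_of_Pge {L : ℕ} {ω : P.Kv → ℤ} {s : ℤ} {a : P.PK} (h : a ∈ Pge P.k ω s) :
    a ∈ P.OO L ω s := Submodule.mem_sup_left h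

lemma OO_of_JJ {L : ℕ} {ω : P.Kv → ℤ} {s : ℤ} {a : P.PK} (h : a ∈ P.JJ L) :
    a ∈ P.OO L ω s := Submodule.mem_sup_right h

lemma OO_mul {L : ℕ} {ω : P.Kv → ℤ} (s t : ℤ) (a b : P.PK) (ha : a ∈ P.OO L ω s)
    (hb : b ∈ P.OO L ω t) : a * b ∈ P.OO L ω (s + t) := by
  obtain ⟨x, hx, y, hy, rfl⟩ := Submodule.mem_sup.1 ha
  obtain ⟨x', hx', y', hy', rfl⟩ := Submodule.mem_sup.1 hb
  rw [add_mul, mul_add x]
  exact add_mem (add_mem (OO_of_Pge (Pge_mul hx hx')) (OO_of_JJ ((P.JJ L).mul_mem_left _ hy')))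
    (OO_of_JJ ((P.JJ L).mul_mem_right _ hy))

lemma pair_OO {L : ℕ} {ω : P.Kv → ℤ} {s : ℤ} {f : Mon P.Kv → P.k} (hf : P.AdmF L f)
    (hs : ∀ μ, f μ ≠ 0 → Finsupp.weight ω μ ≤ s) {a : P.PK} (ha : a ∈ P.OO L ω (s + 1)) :
    pair f a = 0 := by
  obtain ⟨x, hx, y, hy, rfl⟩ := Submodule.mem_sup.1 ha
  rw [map_add, pair_Pge hs hx, pair_JJ hf hy, add_zero]

lemma nA_mul (L : ℕ) (v v' : PS P.p) : P.nA L (v * v') = P.nA L v * P.nA L v' := by
  simp only [nA, map_mul]

lemma nA_one (L : ℕ) : P.nA L 1 = 1 := by simp only [nA, map_one]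

end Par

end CdI
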