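import Pool.Agent.P.MP_013f39_al.E1

/-! Infinite cohomological dimension of `H_r`: definitions. -/

namespace CdI

open Cd3 MvPolynomial

/-! ### Exterior operators on functions of finite sets -/

section car

variable {k : Type} [Field k] {ι : Type} [LinearOrder ι] {V : Type} [AddCommGroup V] [Module k V]

variable (k) in
/-- sign of `a` in `I` -/
def sg (a : ι) (I : Finset ι) : k := (-1) ^ (I.filter (· < a)).card

variable (k) in
/-- exterior multiplication -/
def ex (a : ι) : Module.End k (Finset ι → V) where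
  toFun φ I := if a ∈ I then sg k a I • φ (I.erase a) else 0
  map_add' _ _ := by ext I; by_cases h : a ∈ I <;> simp [h]
  map_smul' c _ := by ext I; by_cases h : a ∈ I <;> simp [h, smul_comm c]

variable (k) in
/-- contraction -/
def io (a : ι) : Module.End k (Finset ι → V) where
  toFun φ I := if a ∈ I then 0 else sg k a I • φ (insert a I)
  map_add' _ _ := by ext I; by_cases h : a ∈ I <;> simp [h]
  map_smul' c _ := by ext I; by_cases h : a ∈ I <;> simp [h, smul_comm c]

/-- Koszul operator `∑ ex a * Y a` -/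
def kz (Y : ι → Module.End k V) : Module.End k (Finset ι → V) where
  toFun φ I := ∑ a ∈ I, sg k a I • Y a (φ (I.erase a))
  map_add' _ _ := by ext I; simp [Finset.sum_add_distrib]
  map_smul' c _ := by ext I; simp [Finset.smul_sum, smul_comm c]

/-- bracket term `∑ κ i * ex j * ex i * io (s j i)` -/
def ct (A : ι → Prop) [DecidablePred A] (κ : ι → k) (s : ι → ι → ι) :
    Module.End k (Finset ι → V) where
  toFun φ I := ∑ j ∈ I.filter A, ∑ i ∈ I, κ i • ex k j (ex k i (io k (s j i) φ)) I
  map_add' _ _ := by ext I; simp [Finset.sum_add_distrib]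
  map_smul' c _ := by ext I; simp [Finset.smul_sum, smul_comm c]

/-- weight of a finite set -/
def wI (ω : ι → ℤ) (I : Finset ι) : ℤ := ∑ a ∈ I, ω a

end car

/-! ### Functions on monomials -/

section poly

variable {k : Type} [Field k] {σ : Type}

abbrev Mon (σ : Type) := σ →₀ ℕ

/-- the functional on polynomials with values `f μ` on monomials -/
noncomputable def pair (f : Mon σ → k) : MvPolynomial σ k →ₗ[k] k :=
  (basisMonomials σ k).constr k f

/-- transpose of an operator on polynomials -/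
noncomputable def dual (T : Module.End k (MvPolynomial σ k)) : Module.End k (Mon σ → k) where
  toFun f μ := pair f (T (monomial μ 1))
  map_add' _ _ := by ext; simp [pair]
  map_smul' _ _ := by ext; simp [pair]

/-- the derivation `X c ↦ - κ c * X (s c)` -/
noncomputable def th (κ : σ → k) (s : σ → σ) :
    Derivation k (MvPolynomial σ k) (MvPolynomial σ k) :=
  mkDerivation k fun c => -(κ c • X (s c))

variable (k) in
/-- transpose of multiplication by `X c` -/
noncomputable def del (c : σ) : Module.End k (Mon σ → k) where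
  toFun f μ := f (μ + Finsupp.single c 1)
  map_add' _ _ := rfl
  map_smul' _ _ := rfl

variable (k) in
/-- polynomials all of whose monomials have weight at least `s` -/
noncomputable def Pge (ω : σ → ℤ) (s : ℤ) : Submodule k (MvPolynomial σ k) :=
  restrictSupport k {μ | s ≤ Finsupp.weight ω μ}

variable (k) in
/-- polynomials of degree at most `s` -/
noncomputable def Ple (σ : Type) (s : ℤ) : Submodule k (MvPolynomial σ k) :=
  restrictSupport k {μ | (μ.degree : ℤ) ≤ s}

variable {ι : Type}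

variable (k) in
/-- cochains with support in `Q` -/
def SupM (Q : Finset ι → Mon σ → Prop) : Submodule k (Finset ι → Mon σ → k) where
  carrier := {z | ∀ I μ, z I μ ≠ 0 → Q I μ}
  zero_mem' _ _ h := absurd rfl h
  add_mem' {z z'} h h' I μ h0 := by
    by_cases h1 : z I μ = 0
    · exact h' I μ (by simpa [h1] using h0)
    · exact h I μ h1
  smul_mem' c z h I μ h0 := h I μ (by intro h1; simp [h1] at h0)

variable (k σ ι) in
/-- finitely supported cochains -/
def FinM : Submodule k (Finset ι → Mon σ → k) where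
  carrier := {z | {x : Finset ι × Mon σ | z x.1 x.2 ≠ 0}.Finite}
  zero_mem' := by simp
  add_mem' {z z'} h h' := (h.union h').subset fun x h0 => by
    by_cases h1 : z x.1 x.2 = 0
    · exact Or.inr (by simpa [h1] using h0)
    · exact Or.inl h1
  smul_mem' c z h := h.subset fun x h0 => by
    intro h1; simp [h1] at h0

end poly

/-- `U` lies in `B` up to a space of dimension at most `c` -/
def Sm {k V : Type} [Field k] [AddCommGroup V] [Module k V] (U B : Submodule k V) (c : ℕ) : Prop :=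
  ∃ S : Submodule k V, FiniteDimensional k S ∧ Module.finrank k S ≤ c ∧ U ≤ S ⊔ B

/-! ### Homogeneous cochains -/

/-- simplicial coboundary -/
def bd (k : Type) [Field k] {Γ V : Type} [AddCommGroup V] [Module k V] (m : ℕ) :
    ((Fin m → Γ) → V) →ₗ[k] ((Fin (m + 1) → Γ) → V) where
  toFun f x := ∑ l : Fin (m + 1), (-1 : k) ^ (l : ℕ) • f fun i => x (l.succAbove i)
  map_add' _ _ := by ext; simp [Finset.sum_add_distrib]
  map_smul' c _ := by ext; simp [Finset.smul_sum, smul_comm c]

/-- vanishing of the cohomology of `D d` in degree `m + 1` -/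
def VanN {p : ℕ} [Fact p.Prime] {Γ : Type} [Group Γ] (S : NG p Γ) (m d : ℕ) : Prop :=
  ∀ f ∈ CC S (m + 2) d, bd (ZMod p) (m + 2) f = 0 →
    ∃ y ∈ CC S (m + 1) d, bd (ZMod p) (m + 1) y = f

/-! ### Parameters -/

structure Par where
  p : ℕ
  r : ℕ
  N : ℕ
  hp : p.Prime
  hr : 1 ≤ r
  hN : 1 ≤ N

namespace Par

variable (P : Par)

instance : Fact P.p.Prime := ⟨P.hp⟩

abbrev k := ZMod P.p

def q : ℕ := P.p ^ P.r

def M : ℕ := P.p * P.N

def β : ℤ := ((P.q : ℤ) - 1) * P.M

lemma p_dvd_q : P.p ∣ P.q := dvd_pow_self _ (by have := P.hr; omega)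

lemma two_le_q : 2 ≤ P.q := qle P.hr

lemma N_lt_M : P.N < P.M := by
  have := P.hp.two_le; have := P.hN; unfold M; nlinarith

/-- indices of generators: actors `N ≤ j < M` and letters `M < i`, `i` prime to `p` -/
abbrev Ix := {i : ℕ // P.N ≤ i ∧ (i < P.M ∨ ¬ P.p ∣ i)}

/-- module variables -/
abbrev Kv := {c : ℤ // ¬ (P.p : ℤ) ∣ c}

def Act (a : P.Ix) : Prop := a.1 < P.M

instance : DecidablePred P.Act := fun a => inferInstanceAs (Decidable (a.1 < P.M))

def kap (a : P.Ix) : P.k := if P.Act a then 0 else (a.1 : P.k)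

def sh (j i : P.Ix) : P.Ix :=
  if h : P.Act i then i else
    ⟨i.1 + P.q * j.1, le_trans i.2.1 (Nat.le_add_right _ _), Or.inr fun h1 =>
      (i.2.2.resolve_left h) ((Nat.dvd_add_left (P.p_dvd_q.mul_right _)).1 h1)⟩

def w (a : P.Ix) : ℤ := if P.Act a then P.q * (a.1 : ℤ) else a.1 + P.β

def w2 (a : P.Ix) : ℤ := P.q * (a.1 : ℤ)

def shN (n : ℕ) (c : P.Kv) : P.Kv :=
  ⟨c.1 + P.q * (n : ℤ), fun h1 => c.2 ((Int.dvd_add_left
    ((Int.natCast_dvd_natCast.2 P.p_dvd_q).mul_right _)).1 h1)⟩

def shK (j : P.Ix) (c : P.Kv) : P.Kv := P.shN j.1 c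

def vK (a : P.Ix) : P.Kv :=
  if h : P.Act a then ⟨1, fun h1 => P.hp.one_lt.ne' (by
    have := Int.natCast_dvd_natCast.1 (show (P.p : ℤ) ∣ ((1 : ℕ) : ℤ) from h1)
    exact Nat.dvd_one.1 this)⟩
  else ⟨a.1, fun h1 => (a.2.2.resolve_left h) (Int.natCast_dvd_natCast.1 h1)⟩

def W (c : P.Kv) : ℤ := c.1 + P.β

def W2 (c : P.Kv) : ℤ := max (P.q * c.1) (c.1 + P.β)

/-- leading operators on coordinates of functions on the group -/
noncomputable def X1 (a : P.Ix) : Module.End P.k (Mon P.Ix → P.k) :=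
  del P.k a + if P.Act a then dual (th P.kap (P.sh a)).toLinearMap else 0

/-- leading operators on the module -/
noncomputable def X2 (a : P.Ix) : Module.End P.k (Mon P.Kv → P.k) :=
  if P.Act a then dual (th (fun c => (c.1 : P.k)) (P.shK a)).toLinearMap
  else P.kap a • del P.k (P.vK a)

/-- the Lie algebra cochain operator -/
def ce {V : Type} [AddCommGroup V] [Module P.k V] (Y : P.Ix → Module.End P.k V) :
    Module.End P.k (Finset P.Ix → V) := kz Y - ct P.Act P.kap P.sh

abbrev C1 := Finset P.Ix → Mon P.Ix → P.k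

abbrev C2 := Finset P.Ix → Mon P.Kv → P.k

noncomputable def d1 : Module.End P.k P.C1 := P.ce P.X1

noncomputable def d0 : Module.End P.k P.C2 := P.ce P.X2

noncomputable def T1 (I : Finset P.Ix) (μ : Mon P.Ix) : ℤ := wI P.w I + Finsupp.weight P.w μ

noncomputable def T2 (I : Finset P.Ix) (μ : Mon P.Ix) : ℤ := wI P.w2 I + Finsupp.weight P.w2 μ

noncomputable def U1 (I : Finset P.Ix) (μ : Mon P.Kv) : ℤ := wI P.w I + Finsupp.weight P.W μ

noncomputable def U2 (I : Finset P.Ix) (μ : Mon P.Kv) : ℤ := wI P.w2 I + Finsupp.weight P.W2 μ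

/-! ### The group and its functions -/

abbrev G := GG P.p P.r

noncomputable abbrev S : NG P.p P.G := SS P.p P.r

def Gam : Subgroup P.G where
  carrier := {g | P.S.D P.N g}
  one_mem' := NG.D_one _
  mul_mem' h h' := h.mul h'
  inv_mem' h := h.inv

/-- `∏ (1 - y^a)^(n a)` -/
noncomputable def pE (n : Mon P.Ix) : PS P.p := n.prod fun a e => (1 - PowerSeries.X ^ a.1) ^ e

/-- `∏ (1 + t_a)^(n a)` -/
noncomputable def pT (n : Mon P.Ix) : MvPolynomial P.Ix P.k := n.prod fun a e => (1 + X a) ^ e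

lemma pE_ord (n : Mon P.Ix) : PowerSeries.X ^ P.N ∣ P.pE n - 1 := by
  unfold pE Finsupp.prod
  refine Finset.prod_induction _ (fun v => PowerSeries.X ^ P.N ∣ v - 1) ?_ (by simp) ?_
  · intro a b ha hb
    have : a * b - 1 = (a - 1) * b + (b - 1) := by ring
    rw [this]; exact (ha.mul_right _).add hb
  · intro a _
    refine (pow_sub_one P.hN ?_ _).1
    rw [sub_sub_cancel_left, dvd_neg]; exact pow_dvd_pow _ a.2.1

/-- the group element with series `pE n` -/
noncomputable def gE (n : Mon P.Ix) : P.Gam :=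
  ⟨⟨P.pE n, by
    have := coeff_ord (P.pE_ord n) (show 0 < P.N from P.hN)
    rw [map_sub, PowerSeries.coeff_zero_eq_constantCoeff_apply,
      PowerSeries.coeff_zero_eq_constantCoeff_apply, map_one, sub_eq_zero] at this
    exact this⟩, fun _ hj => coeff_ord (P.pE_ord n) hj⟩

/-- the generators, with series `1 - y^a` -/
noncomputable def e (a : P.Ix) : P.Gam := P.gE (Finsupp.single a 1)

lemma e_val (a : P.Ix) : (P.e a).1.val = 1 - PowerSeries.X ^ a.1 := by
  simp [e, gE, pE]

/-- finite level -/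
def FL {V : Type} (F : P.Gam → V) : Prop :=
  ∃ K, ∀ x y : P.Gam, P.S.Eqv K x.1 y.1 → F x = F y

noncomputable def Dl (a : P.Ix) : Module.End P.k (P.Gam → P.k) where
  toFun f x := f (x * P.e a) - f x
  map_add' _ _ := by ext; simp only [Pi.add_apply]; ring
  map_smul' _ _ := by ext; simp [mul_sub]

noncomputable def word (l : List P.Ix) : Module.End P.k (P.Gam → P.k) := (l.map P.Dl).prod

/-- the filtration of functions by weight of difference operators -/
def Fil (ω : P.Ix → ℤ) (s : ℤ) (f : P.Gam → P.k) : Prop :=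
  ∀ l : List P.Ix, s < (l.map ω).sum → P.word l f 1 = 0

/-- the functional on polynomials with value `f (gE n)` on `pT n` -/
noncomputable def lam (f : P.Gam → P.k) : MvPolynomial P.Ix P.k →ₗ[P.k] P.k :=
  pair (fun n => f (P.gE n)) ∘ₗ (aeval fun a => (X a - 1 : MvPolynomial P.Ix P.k)).toLinearMap

/-- Newton coordinates of a function on the group -/
noncomputable def co : (P.Gam → P.k) →ₗ[P.k] (Mon P.Ix → P.k) where
  toFun f α := P.lam f (monomial α 1)
  map_add' f g := by
    ext α
    have : (fun n => (f + g) (P.gE n)) = (fun n => f (P.gE n)) + fun n => g (P.gE n) := rfl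
    unfold lam pair
    rw [this, map_add]; rfl
  map_smul' c f := by
    ext α
    have : (fun n => (c • f) (P.gE n)) = c • fun n => f (P.gE n) := rfl
    unfold lam pair
    rw [this, map_smul]; rfl

abbrev Lam := Finset P.Ix → P.k

def LamD (j : ℕ) : Submodule P.k P.Lam where
  carrier := {v | {I | v I ≠ 0}.Finite ∧ ∀ I, v I ≠ 0 → I.card = j}
  zero_mem' := by simp
  add_mem' {v v'} h h' := by
    refine ⟨(h.1.union h'.1).subset fun I h0 => ?_, fun I h0 => ?_⟩
    · by_cases h1 : v I = 0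
      · exact Or.inr (by simpa [h1] using h0)
      · exact Or.inl h1
    · by_cases h1 : v I = 0
      · exact h'.2 I (by simpa [h1] using h0)
      · exact h.2 I h1
  smul_mem' c v h := by
    refine ⟨h.1.subset fun I h0 h1 => ?_, fun I h0 => h.2 I fun h1 => ?_⟩ <;> simp [h1] at h0

def DD (j : ℕ) : Submodule P.k (P.Gam → P.Lam) where
  carrier := {F | P.FL F ∧ ∀ x, F x ∈ P.LamD j}
  zero_mem' := ⟨⟨0, fun _ _ _ => rfl⟩, fun _ => zero_mem _⟩
  add_mem' := by
    rintro F F' ⟨⟨K, h1⟩, h2⟩ ⟨⟨K', h3⟩, h4⟩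
    refine ⟨⟨K + K', fun x y h => ?_⟩, fun x => add_mem (h2 x) (h4 x)⟩
    simp only [Pi.add_apply]
    rw [h1 x y (h.anti (by omega)), h3 x y (h.anti (by omega))]
  smul_mem' := by
    rintro c F ⟨⟨K, h1⟩, h2⟩
    exact ⟨⟨K, fun x y h => by simp only [Pi.smul_apply, h1 x y h]⟩,
      fun x => Submodule.smul_mem _ c (h2 x)⟩

def FilV (ω : P.Ix → ℤ) (s : ℤ) (F : P.Gam → P.Lam) : Prop :=
  ∀ I, P.Fil ω (s - wI ω I) fun x => F x I

/-- the equivariant operator defined by `ψ` -/
noncomputable def dl (ψ : (P.Gam → P.Lam) →ₗ[P.k] P.Lam) : Module.End P.k (P.Gam → P.Lam) where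
  toFun F x := ψ fun y => F (x * y)
  map_add' F F' := by ext1 x; rw [Pi.add_apply, ← map_add]; rfl
  map_smul' c F := by ext1 x; rw [Pi.smul_apply, RingHom.id_apply, ← map_smul]; rfl

/-- the naive differential, evaluated at the identity -/
noncomputable def psi0 : (P.Gam → P.Lam) →ₗ[P.k] P.Lam where
  toFun F I := P.ce P.Dl (fun J x => F x J) I 1
  map_add' F F' := by
    ext I
    have : (fun J x => (F + F') x J) = (fun J x => F x J) + fun J x => F' x J := rfl
    rw [this, map_add]; rfl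
  map_smul' c F := by
    ext I
    have : (fun J x => (c • F) x J) = c • fun J x => F x J := rfl
    rw [this, map_smul]; rfl

noncomputable def coV : (P.Gam → P.Lam) →ₗ[P.k] P.C1 where
  toFun F I := P.co fun x => F x I
  map_add' F F' := by ext1 I; rw [Pi.add_apply, ← map_add]; rfl
  map_smul' c F := by ext1 I; rw [Pi.smul_apply, RingHom.id_apply, ← map_smul]; rfl

/-! ### The module -/

abbrev PK := MvPolynomial P.Kv P.k

def Adm (L : ℕ) (μ : Mon P.Kv) : Prop := μ.degree ≤ L ∧ ∀ c ∈ μ.support, c.1 ≤ L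

noncomputable def JJ (L : ℕ) : Ideal P.PK :=
  restrictSupportIdeal P.k {μ | ¬ P.Adm L μ} fun _ _ hle h h' =>
    h ⟨(Finsupp.degree_mono hle).trans h'.1, fun c hc => h'.2 c (Finsupp.support_mono hle hc)⟩

abbrev AA (L : ℕ) := P.PK ⧸ P.JJ L

noncomputable def tP (L m : ℕ) : P.PK :=
  if h : (P.p : ℤ) ∣ (L : ℤ) - m then 0 else X ⟨(L : ℤ) - m, h⟩

/-- the linear substitution of the variables induced by `g` (a left action modulo `JJ L`) -/
noncomputable def sP (L : ℕ) (g : P.G) : P.PK →ₐ[P.k] P.PK :=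
  aeval fun c => if c.1 ≤ L then
    ∑ m ∈ Finset.range (((L : ℤ) - c.1).toNat + 1), PowerSeries.coeff (((L : ℤ) - c.1).toNat - m)
      (g.val⁻¹ ^ (P.q * L) * g.val ^ (P.q * m)) • P.tP L m else 0

noncomputable def TT (L : ℕ) : PowerSeries (P.AA L) :=
  PowerSeries.mk fun m => Ideal.Quotient.mk _ (P.tP L m)

/-- the norm from `A[[y]] / (y^L + T)` to `A` -/
noncomputable def nA (L : ℕ) (v : PS P.p) : P.AA L :=
  Algebra.norm (P.AA L) (Ideal.Quotient.mk (Ideal.span {PowerSeries.X ^ L + P.TT L})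
    (PowerSeries.map (algebraMap P.k (P.AA L)) v))

/-- filtration by weight, modulo `JJ L` -/
noncomputable def OO (L : ℕ) (ω : P.Kv → ℤ) (s : ℤ) : Submodule P.k P.PK :=
  Pge P.k ω s ⊔ (P.JJ L).restrictScalars P.k

def AdmF (L : ℕ) (f : Mon P.Kv → P.k) : Prop := ∀ μ, f μ ≠ 0 → P.Adm L μ

/-- the differential with coefficients in the module -/
def dL (ψ : (P.Gam → P.Lam) →ₗ[P.k] P.Lam) (act : P.Gam → Module.End P.k (Mon P.Kv → P.k)) :
    Module.End P.k P.C2 where
  toFun Φ I μ := ψ (fun x J => act x (Φ J) μ) I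
  map_add' Φ Φ' := by
    ext I μ
    have : (fun x J => act x ((Φ + Φ') J) μ) =
        (fun x J => act x (Φ J) μ) + fun x J => act x (Φ' J) μ := by ext; simp
    rw [this, map_add]; rfl
  map_smul' c Φ := by
    ext I μ
    have : (fun x J => act x ((c • Φ) J) μ) = c • fun x J => act x (Φ J) μ := by ext; simp
    rw [this, map_smul]; rfl

/-- cochains of degree `j`, first weight at most `a`, bounded by `B`, admissible for `L` -/
def CL (j : ℕ) (a : ℤ) (B L : ℕ) : Submodule P.k P.C2 :=
  SupM P.k fun I μ => I.card = j ∧ P.U1 I μ ≤ a ∧ P.U2 I μ ≤ B ∧ μ.degree ≤ B ∧ P.Adm L μ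

/-- finitely supported cocycles of non-negative weight -/
noncomputable def ZS (m : ℕ) : Submodule P.k P.C2 :=
  FinM P.k P.Kv P.Ix ⊓ SupM P.k (fun I μ => I.card = m ∧ 0 ≤ P.U1 I μ) ⊓ LinearMap.ker P.d0

/-- coboundaries of finitely supported cochains -/
noncomputable def BS (m : ℕ) : Submodule P.k P.C2 :=
  (FinM P.k P.Kv P.Ix ⊓ SupM P.k fun I _ => I.card + 1 = m).map P.d0

/-- cochains with trivial coefficients -/
noncomputable def cst (v : P.Lam) : P.C2 := fun I μ => if μ = 0 then v I else 0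

/-- letter-free cocycles -/
noncomputable def ZQ (m : ℕ) : Submodule P.k P.C2 :=
  P.ZS m ⊓ SupM P.k fun I μ => (∀ a ∈ I, P.Act a) ∧ ∀ c ∈ μ.support, c.1 < P.M

/-- finitely supported coordinate cochains of degree `j` -/
def FD (j : ℕ) : Submodule P.k P.C1 := FinM P.k P.Ix P.Ix ⊓ SupM P.k fun I _ => I.card = j

/-- sum of the two filtrations -/
def G2 (a b : ℤ) : Submodule P.k P.C1 := SupM P.k fun I μ => P.T1 I μ ≤ a ∨ P.T2 I μ ≤ b

/-! ### Koszul complexes of power sums -/

section kos

variable {Λ : Type} [Fintype Λ]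

noncomputable def fj (c : Λ → P.k) (a : P.Ix) : MvPolynomial Λ P.k := ∑ l, c l • X l ^ a.1

noncomputable def kd (c : Λ → P.k) : Module.End P.k (Finset P.Ix → MvPolynomial Λ P.k) :=
  kz fun a => if P.Act a then LinearMap.mulLeft P.k (P.fj c a) else 0

def CQ (Λ : Type) (Q : ℕ → Prop) : Submodule P.k (Finset P.Ix → MvPolynomial Λ P.k) where
  carrier := {z | ∀ J, z J ≠ 0 → Q J.card ∧ ∀ a ∈ J, P.Act a}
  zero_mem' _ h := absurd rfl h
  add_mem' {z z'} h h' J h0 := by
    by_cases h1 : z J = 0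
    · exact h' J (by simpa [h1] using h0)
    · exact h J h1
  smul_mem' c z h J h0 := h J (by intro h1; simp [h1] at h0)

noncomputable def FP (Λ : Type) (s : ℤ) : Submodule P.k (Finset P.Ix → MvPolynomial Λ P.k) :=
  Submodule.pi Set.univ fun J => Ple P.k Λ (s + wI (fun a => (a.1 : ℤ)) J)

noncomputable def ZP (c : Λ → P.k) (a : ℕ) (s : ℤ) :
    Submodule P.k (Finset P.Ix → MvPolynomial Λ P.k) :=
  P.CQ Λ (· = a) ⊓ P.FP Λ s ⊓ LinearMap.ker (P.kd c)

noncomputable def BP (c : Λ → P.k) (a : ℕ) : Submodule P.k (Finset P.Ix → MvPolynomial Λ P.k) :=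
  (P.CQ Λ (· + 1 = a)).map (P.kd c)

/-- multiplication of all values by `g` -/
noncomputable def mulV (g : MvPolynomial Λ P.k) :
    Module.End P.k (Finset P.Ix → MvPolynomial Λ P.k) :=
  (LinearMap.mulLeft P.k g).compLeft _

variable [DecidableEq Λ]

/-- the linear forms `X l` and `X l - X l'` -/
noncomputable def lf (l : Λ) (t : Option {x : Λ // x ≠ l}) : MvPolynomial Λ P.k :=
  X l - t.elim 0 fun x => X x.1

/-- coefficients after setting `lf l t = 0` -/
def cq (c : Λ → P.k) (l : Λ) (t : Option {x : Λ // x ≠ l}) (x : {x : Λ // x ≠ l}) : P.k :=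
  c x.1 + if t = some x then c l else 0

/-- the substitution setting `lf l t = 0` -/
noncomputable def pq (l : Λ) (t : Option {x : Λ // x ≠ l}) :
    MvPolynomial Λ P.k →ₐ[P.k] MvPolynomial {x : Λ // x ≠ l} P.k :=
  aeval fun x => if h : x = l then t.elim 0 X else X ⟨x, h⟩

end kos

/-- the monomial with variables `ρ l - q * m l` -/
noncomputable def tup {d : ℕ} (ρ : Fin d → P.Kv) (m : Mon (Fin d)) : Mon P.Kv :=
  ∑ l, Finsupp.single ⟨(ρ l).1 - P.q * (m l : ℤ), fun h1 => (ρ l).2 (by
    simpa using h1.add ((Int.natCast_dvd_natCast.2 P.p_dvd_q).mul_right (m l : ℤ)))⟩ 1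

/-- `F` is the polynomial of the values of `f` on the monomials of colour `ρ` -/
def Lift {d : ℕ} (ρ : Fin d → P.Kv) (f : Mon P.Kv → P.k) (F : MvPolynomial (Fin d) P.k) : Prop :=
  ∀ m, coeff m F = f (P.tup ρ m)

end Par

end CdI
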