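import Pool.Agent.P.MP_013f39_al.Inf.Api

/-! Infinite cohomological dimension of `H_r`: the monomials of one colour. -/

namespace CdI

open Cd3 MvPolynomial

namespace Col

variable {P : Par} {d : ℕ} (ρ : Fin d → P.Kv)

/-- the variables of the monomial `tup ρ m` -/
def vv (m : Mon (Fin d)) (l : Fin d) : P.Kv :=
  ⟨(ρ l).1 - P.q * (m l : ℤ), fun h1 => (ρ l).2 (by
    simpa using h1.add ((Int.natCast_dvd_natCast.2 P.p_dvd_q).mul_right (m l : ℤ)))⟩

lemma vv_val (m : Mon (Fin d)) (l : Fin d) : (vv ρ m l).1 = (ρ l).1 - P.q * (m l : ℤ) := rfl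

lemma tup_eq (m : Mon (Fin d)) : P.tup ρ m = ∑ l, Finsupp.single (vv ρ m l) 1 := rfl

lemma tup_apply (m : Mon (Fin d)) (c : P.Kv) :
    P.tup ρ m c = (Finset.univ.filter fun l => vv ρ m l = c).card := by
  rw [tup_eq, Finsupp.finsetSum_apply, Finset.card_filter]
  exact Finset.sum_congr rfl fun l _ => Finsupp.single_apply

lemma mem_support_tup {m : Mon (Fin d)} {c : P.Kv} :
    c ∈ (P.tup ρ m).support ↔ ∃ l, vv ρ m l = c := by
  rw [Finsupp.mem_support_iff, tup_apply, Finset.card_ne_zero, Finset.filter_nonempty_iff]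
  simp

lemma sum_tup (m : Mon (Fin d)) (g : P.Kv → P.k) :
    ∑ c ∈ (P.tup ρ m).support, (P.tup ρ m c : P.k) * g c = ∑ l, g (vv ρ m l) := by
  rw [← Finset.sum_fiberwise_of_maps_to (s := Finset.univ) (t := (P.tup ρ m).support)
    (g := vv ρ m) fun l _ => (mem_support_tup ρ).2 ⟨l, rfl⟩]
  refine Finset.sum_congr rfl fun c _ => ?_
  rw [tup_apply, Finset.sum_congr rfl fun l hl => congrArg g (Finset.mem_filter.1 hl).2,
    Finset.sum_const, nsmul_eq_mul]

lemma tup_split (m : Mon (Fin d)) (l : Fin d) : P.tup ρ m =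
    ∑ l' ∈ Finset.univ.erase l, Finsupp.single (vv ρ m l') 1 + Finsupp.single (vv ρ m l) 1 := by
  rw [tup_eq, Finset.sum_erase_add _ _ (Finset.mem_univ l)]

lemma tup_add (m : Mon (Fin d)) (l : Fin d) (a : ℕ) : P.tup ρ (m + Finsupp.single l a) =
    ∑ l' ∈ Finset.univ.erase l, Finsupp.single (vv ρ m l') 1 +
      Finsupp.single (vv ρ (m + Finsupp.single l a) l) 1 := by
  rw [tup_split ρ _ l]
  congr 1
  refine Finset.sum_congr rfl fun l' hl' => ?_
  have : vv ρ (m + Finsupp.single l a) l' = vv ρ m l' := by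
    ext
    rw [vv_val, vv_val, Finsupp.add_apply,
      Finsupp.single_eq_of_ne (Finset.mem_erase.1 hl').1, add_zero]
  rw [this]

lemma shK_vv (m : Mon (Fin d)) (l : Fin d) (a : P.Ix) :
    P.shK a (vv ρ (m + Finsupp.single l a.1) l) = vv ρ m l := by
  ext
  rw [Par.shK_val, vv_val, vv_val, Finsupp.add_apply, Finsupp.single_eq_same]
  push_cast; ring

lemma move_tup (m : Mon (Fin d)) (l : Fin d) (a : P.Ix) :
    P.tup ρ (m + Finsupp.single l a.1) - Finsupp.single (vv ρ (m + Finsupp.single l a.1) l) 1 +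
      Finsupp.single (P.shK a (vv ρ (m + Finsupp.single l a.1) l)) 1 = P.tup ρ m := by
  rw [tup_add, add_tsub_cancel_right, shK_vv, ← tup_split]

lemma of_move {μ : Mon P.Kv} {c : P.Kv} (hc : c ∈ μ.support) (a : P.Ix) {m : Mon (Fin d)}
    (h : μ - Finsupp.single c 1 + Finsupp.single (P.shK a c) 1 = P.tup ρ m) :
    ∃ m', μ = P.tup ρ m' := by
  have h1 : P.shK a c ∈ (P.tup ρ m).support := by
    rw [← h, Finsupp.mem_support_iff, Finsupp.add_apply, Finsupp.single_eq_same]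
    omega
  obtain ⟨l, hl⟩ := (mem_support_tup ρ).1 h1
  have h2 : vv ρ (m + Finsupp.single l a.1) l = c := by
    have h3 := congrArg Subtype.val hl
    ext
    rw [Par.shK_val, vv_val] at h3
    rw [vv_val, Finsupp.add_apply, Finsupp.single_eq_same]
    push_cast; linarith
  refine ⟨m + Finsupp.single l a.1, ?_⟩
  rw [tup_split ρ m l, hl, add_left_inj] at h
  rw [tup_add, h2, ← h, tsub_add_cancel_of_le]
  exact Finsupp.single_le_iff.2 (Nat.one_le_iff_ne_zero.2 (Finsupp.mem_support_iff.1 hc))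

lemma cast_vv (m : Mon (Fin d)) (l : Fin d) : ((vv ρ m l).1 : P.k) = ((ρ l).1 : P.k) := by
  rw [vv_val]; push_cast; rw [Par.q_cast]; ring

lemma X2_tup {a : P.Ix} (ha : P.Act a) (f : Mon P.Kv → P.k) (m : Mon (Fin d)) :
    P.X2 a f (P.tup ρ m) = ∑ l, -((ρ l).1 : P.k) * f (P.tup ρ m - Finsupp.single (vv ρ m l) 1 +
      Finsupp.single (P.shK a (vv ρ m l)) 1) := by
  have := sum_tup ρ m fun c => (c.1 : P.k) * f (P.tup ρ m - Finsupp.single c 1 +
    Finsupp.single (P.shK a c) 1)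
  rw [Par.X2_apply, if_pos ha, Finset.sum_congr rfl fun c _ => by rw [mul_comm (c.1 : P.k),
    mul_assoc], this, ← Finset.sum_neg_distrib]
  exact Finset.sum_congr rfl fun l _ => by rw [cast_vv, neg_mul]

lemma coeff_fj (c : Fin d → P.k) (a : P.Ix) (F : MvPolynomial (Fin d) P.k) (m : Mon (Fin d)) :
    coeff m (P.fj c a * F) =
      ∑ l, c l * if a.1 ≤ m l then coeff (m - Finsupp.single l a.1) F else 0 := by
  rw [Par.fj, Finset.sum_mul, coeff_sum]
  refine Finset.sum_congr rfl fun l _ => ?_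
  rw [smul_mul_assoc, coeff_smul, X_pow_eq_monomial, coeff_monomial_mul', smul_eq_mul]
  simp only [Finsupp.single_le_iff, one_mul]

lemma tup_perm {σ : Equiv.Perm (Fin d)} (hσ : ρ ∘ σ = ρ) {m m' : Mon (Fin d)}
    (h : ∀ l, m' l = m (σ l)) : P.tup ρ m' = P.tup ρ m := by
  rw [tup_eq, tup_eq, ← Equiv.sum_comp σ fun l => Finsupp.single (vv ρ m l) 1]
  refine Finset.sum_congr rfl fun l _ => ?_
  have : vv ρ m' l = vv ρ m (σ l) := by
    ext
    rw [vv_val, vv_val, h, show ρ (σ l) = ρ l from congrFun hσ l]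
  rw [this]

lemma coeff_perm (σ : Equiv.Perm (Fin d)) {m m' : Mon (Fin d)} (h : ∀ l, m' l = m (σ l))
    (F : MvPolynomial (Fin d) P.k) : coeff m (rename σ F) = coeff m' F := by
  rw [← coeff_rename_mapDomain σ σ.injective F m']
  congr 1
  ext l
  obtain ⟨l, rfl⟩ := σ.surjective l
  rw [Finsupp.mapDomain_apply σ.injective, h]

lemma rename_fj {σ : Equiv.Perm (Fin d)} (hσ : ρ ∘ σ = ρ) (a : P.Ix) :
    rename σ (P.fj (fun l => -((ρ l).1 : P.k)) a) = P.fj (fun l => -((ρ l).1 : P.k)) a := by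
  rw [Par.fj, map_sum, ← Equiv.sum_comp σ fun l => -((ρ l).1 : P.k) • X l ^ a.1]
  refine Finset.sum_congr rfl fun l _ => ?_
  rw [map_smul, map_pow, rename_X, show ρ (σ l) = ρ l from congrFun hσ l]

lemma rename_of_lift {f : Mon P.Kv → P.k} {F : MvPolynomial (Fin d) P.k} (h : P.Lift ρ f F)
    {σ : Equiv.Perm (Fin d)} (hσ : ρ ∘ σ = ρ) : rename σ F = F := by
  ext m
  have h1 : ∀ l, (Finsupp.equivMapDomain σ.symm m) l = m (σ l) := fun l => rfl
  rw [coeff_perm σ h1, h, h, tup_perm ρ hσ h1]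

open Classical in
/-- the function on monomials given by the coefficients of a polynomial -/
noncomputable def spr : MvPolynomial (Fin d) P.k →ₗ[P.k] (Mon P.Kv → P.k) where
  toFun G μ := if h : ∃ m, μ = P.tup ρ m then coeff h.choose G else 0
  map_add' G G' := by
    funext μ
    simp only [Pi.add_apply]
    split_ifs <;> simp
  map_smul' c G := by
    funext μ
    simp only [Pi.smul_apply]
    split_ifs <;> simp

lemma spr_pos (G : MvPolynomial (Fin d) P.k) {μ : Mon P.Kv} (h : ∃ m, μ = P.tup ρ m) :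
    spr ρ G μ = coeff h.choose G := dif_pos h

lemma spr_ne {G : MvPolynomial (Fin d) P.k} {μ : Mon P.Kv} (h : spr ρ G μ ≠ 0) :
    ∃ m ∈ G.support, μ = P.tup ρ m := by
  by_cases h1 : ∃ m, μ = P.tup ρ m
  · refine ⟨h1.choose, mem_support_iff.2 fun h2 => h ?_, h1.choose_spec⟩
    exact (dif_pos h1).trans h2
  · exact absurd (dif_neg h1) h

variable {ρ} (hρ : ∀ l, (P.M : ℤ) - P.q ≤ (ρ l).1 ∧ (ρ l).1 < P.M)

include hρ

lemma exists_perm {m m' : Mon (Fin d)} (h : P.tup ρ m = P.tup ρ m') :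
    ∃ σ : Equiv.Perm (Fin d), ρ ∘ σ = ρ ∧ ∀ l, m' l = m (σ l) := by
  have e : ∀ c, {l // vv ρ m' l = c} ≃ {l // vv ρ m l = c} := fun c =>
    Fintype.equivOfCardEq (by
      rw [Fintype.card_subtype, Fintype.card_subtype, ← tup_apply, ← tup_apply, h])
  have key : ∀ l, ρ (Equiv.ofFiberEquiv e l) = ρ l ∧ m' l = m (Equiv.ofFiberEquiv e l) := by
    intro l
    have h1 := congrArg Subtype.val (Equiv.ofFiberEquiv_map e l)
    rw [vv_val, vv_val] at h1
    have h2 := hρ l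
    have h3 := hρ (Equiv.ofFiberEquiv e l)
    have h4 : (0 : ℤ) < P.q := by exact_mod_cast lt_of_lt_of_le two_pos P.two_le_q
    have h5 : (m' l : ℤ) = m (Equiv.ofFiberEquiv e l) := by
      rcases lt_trichotomy (m' l : ℤ) (m (Equiv.ofFiberEquiv e l)) with h6 | h6 | h6
      · nlinarith [mul_le_mul_of_nonneg_left (Int.add_one_le_iff.2 h6) h4.le]
      · exact h6
      · nlinarith [mul_le_mul_of_nonneg_left (Int.add_one_le_iff.2 h6) h4.le]
    refine ⟨Subtype.ext ?_, by exact_mod_cast h5⟩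
    rw [h5] at h1
    linarith
  exact ⟨Equiv.ofFiberEquiv e, funext fun l => (key l).1, fun l => (key l).2⟩

lemma lift_spr {G : MvPolynomial (Fin d) P.k}
    (hG : ∀ σ : Equiv.Perm (Fin d), ρ ∘ σ = ρ → rename σ G = G) : P.Lift ρ (spr ρ G) G := by
  intro m
  have h1 : ∃ m', P.tup ρ m = P.tup ρ m' := ⟨m, rfl⟩
  obtain ⟨σ, h2, h3⟩ := exists_perm hρ h1.choose_spec
  rw [spr_pos ρ G h1, ← coeff_perm σ h3, hG σ h2]

lemma exists_lift {f : Mon P.Kv → P.k} (hf : (Function.support f).Finite) :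
    ∃ F, P.Lift ρ f F := by
  have h1 : (P.tup ρ ⁻¹' Function.support f).Finite := by
    refine hf.preimage' fun μ _ => ?_
    rcases (P.tup ρ ⁻¹' {μ}).eq_empty_or_nonempty with h | ⟨m, hm⟩
    · rw [h]; exact Set.finite_empty
    refine (Set.finite_range fun σ : Equiv.Perm (Fin d) =>
      Finsupp.equivMapDomain σ.symm m).subset fun m' hm' => ?_
    obtain ⟨σ, -, h3⟩ := exists_perm hρ (Eq.trans hm (Eq.symm hm'))
    exact ⟨σ, Finsupp.ext fun l => (h3 l).symm⟩
  refine ⟨∑ m ∈ h1.toFinset, monomial m (f (P.tup ρ m)), fun m => ?_⟩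
  simp only [coeff_sum, coeff_monomial, Finset.sum_ite_eq', Set.Finite.mem_toFinset,
    Set.mem_preimage, Function.mem_support, ne_eq, ite_not]
  split_ifs with h
  · exact h.symm
  · rfl

lemma lift_X2 {f : Mon P.Kv → P.k} {F : MvPolynomial (Fin d) P.k} {a : P.Ix} (ha : P.Act a)
    (hf : ∀ μ, f μ ≠ 0 → ∀ c ∈ μ.support, c.1 < (P.M : ℤ)) (h : P.Lift ρ f F) :
    P.Lift ρ (P.X2 a f) (P.fj (fun l => -((ρ l).1 : P.k)) a * F) := by
  intro m
  rw [coeff_fj, X2_tup ρ ha]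
  refine Finset.sum_congr rfl fun l _ => ?_
  congr 1
  split_ifs with h1
  · obtain ⟨m', rfl⟩ : ∃ m', m = m' + Finsupp.single l a.1 :=
      ⟨m - Finsupp.single l a.1, (tsub_add_cancel_of_le (Finsupp.single_le_iff.2 h1)).symm⟩
    rw [move_tup, add_tsub_cancel_right, h]
  · by_contra h2
    have h3 := hf _ (Ne.symm h2) (P.shK a (vv ρ m l)) (by
      rw [Finsupp.mem_support_iff, Finsupp.add_apply, Finsupp.single_eq_same]; omega)
    rw [Par.shK_val, vv_val] at h3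
    have h4 : (m l : ℤ) + 1 ≤ a.1 := by exact_mod_cast Nat.lt_of_not_le h1
    nlinarith [mul_le_mul_of_nonneg_left h4 (Int.natCast_nonneg P.q), (hρ l).1]

lemma spr_fj {G : MvPolynomial (Fin d) P.k}
    (hG : ∀ σ : Equiv.Perm (Fin d), ρ ∘ σ = ρ → rename σ G = G) {a : P.Ix} (ha : P.Act a) :
    spr ρ (P.fj (fun l => -((ρ l).1 : P.k)) a * G) = P.X2 a (spr ρ G) := by
  funext μ
  by_cases h : ∃ m, μ = P.tup ρ m
  · obtain ⟨m, rfl⟩ := h
    rw [← lift_spr hρ (fun σ hσ => by rw [map_mul, rename_fj ρ hσ, hG σ hσ]) m]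
    refine lift_X2 hρ ha (fun μ h0 c hc => ?_) (lift_spr hρ hG) m
    obtain ⟨m', -, rfl⟩ := spr_ne ρ h0
    obtain ⟨l, rfl⟩ := (mem_support_tup ρ).1 hc
    rw [vv_val]
    nlinarith [(hρ l).2, mul_nonneg (Int.natCast_nonneg P.q) (Int.natCast_nonneg (m' l))]
  · have h1 : spr ρ (P.fj (fun l => -((ρ l).1 : P.k)) a * G) μ = 0 := by
      by_contra h2
      obtain ⟨m, -, h3⟩ := spr_ne ρ h2
      exact h ⟨m, h3⟩
    rw [h1, Par.X2_apply, if_pos ha, eq_comm, neg_eq_zero]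
    refine Finset.sum_eq_zero fun c hc => ?_
    by_contra h2
    obtain ⟨m, -, h3⟩ := spr_ne ρ (right_ne_zero_of_mul h2)
    exact h (of_move ρ hc a h3)

end Col

open Col in
theorem col_holds (P : Par) (h : PiStm) : P.Col := by
  intro d ρ hρ
  obtain ⟨T, h1, h2, h3⟩ := h P.k d P.Kv ρ
  refine ⟨spr ρ ∘ₗ T, fun a F ha => ?_, fun F => ⟨?_, fun μ hμ => ?_⟩, fun f hf => exists_lift hρ hf,
    fun f F a ha hf hF => lift_X2 hρ ha hf hF, fun f F hF m => ?_⟩
  · rw [LinearMap.comp_apply, LinearMap.comp_apply, h2 _ F fun σ hσ => rename_fj ρ hσ a]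
    exact spr_fj hρ (fun σ hσ => h1 σ hσ F) ha
  · refine ((T F).support.finite_toSet.image (P.tup ρ)).subset fun μ hμ => ?_
    obtain ⟨m, a1, a2⟩ := spr_ne ρ hμ
    exact ⟨m, a1, a2.symm⟩
  · obtain ⟨m, -, a2⟩ := spr_ne ρ hμ
    exact ⟨m, a2⟩
  · have h4 : T F = F := by
      have := h2 F 1 fun σ hσ => rename_of_lift ρ hF hσ
      rwa [h3, mul_one] at this
    rw [LinearMap.comp_apply, h4, ← lift_spr hρ (fun σ hσ => rename_of_lift ρ hF hσ) m, hF]

end CdI
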