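import Pool.Agent.P.MP_013f39_al.Inf.Api

/-! Infinite cohomological dimension of `H_r`: the filtrations in coordinates. -/

namespace CdI

open Cd3 MvPolynomial

namespace Fil

/-- the monomial of a list of variables -/
noncomputable def mon {σ : Type} (l : List σ) : Mon σ := (l.map fun a => Finsupp.single a 1).sum

lemma mon_nil {σ : Type} : mon ([] : List σ) = 0 := rfl

lemma mon_cons {σ : Type} (a : σ) (l : List σ) : mon (a :: l) = Finsupp.single a 1 + mon l := by
  simp [mon]

lemma weight_mon {σ : Type} (ω : σ → ℤ) (l : List σ) :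
    Finsupp.weight ω (mon l) = (l.map ω).sum := by
  induction l with
  | nil => simp [mon_nil]
  | cons a l ih =>
    rw [mon_cons, map_add, ih, Finsupp.weight_single, one_smul, List.map_cons, List.sum_cons]

lemma exists_mon {σ : Type} (α : Mon σ) : ∃ l : List σ, mon l = α := by
  induction α using Finsupp.induction_linear with
  | zero => exact ⟨[], rfl⟩
  | add f g hf hg =>
    obtain ⟨l, rfl⟩ := hf
    obtain ⟨l', rfl⟩ := hg
    exact ⟨l ++ l', by simp [mon]⟩
  | single a n => exact ⟨List.replicate n a, by simp [mon]⟩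

variable {P : Par}

/-- bound on the support of the coordinates -/
def Bd (ω : P.Ix → ℤ) (s : ℤ) (f : P.Gam → P.k) : Prop :=
  ∀ α, P.co f α ≠ 0 → Finsupp.weight ω α ≤ s

/-- bound for the second weight on the top part for the first weight -/
def Tp (s t : ℤ) (f : P.Gam → P.k) : Prop :=
  ∀ α, Finsupp.weight P.w α = s → t < Finsupp.weight P.w2 α → P.co f α = 0

lemma Bd.zero {ω : P.Ix → ℤ} {s : ℤ} {f : P.Gam → P.k} (h : Bd ω s f) {α : Mon P.Ix}
    (hα : s < Finsupp.weight ω α) : P.co f α = 0 := by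
  by_contra h0
  exact absurd (h α h0) (by omega)

lemma bd1_Dl (h2 : P.Coord2) {f : P.Gam → P.k} (hf : P.FL f) {s : ℤ} (h : Bd P.w s f)
    (a : P.Ix) : Bd P.w (s - P.w a) (P.Dl a f) := fun γ h0 => by
  by_contra hγ
  refine h0 ?_
  rw [h2.low1 f s hf h a γ (by omega), Par.X1_dep a _ γ fun ν hν _ => h.zero (by omega)]
  exact h.zero (by rw [Par.weight_add_one]; omega)

lemma bd2_Dl (h2 : P.Coord2) {f : P.Gam → P.k} (hf : P.FL f) {s : ℤ} (h : Bd P.w2 s f)
    (a : P.Ix) : Bd P.w2 (s - P.w2 a) (P.Dl a f) := fun γ h0 => by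
  by_contra hγ
  refine h0 ?_
  rw [h2.low2 f s hf h a γ (by omega)]
  exact h.zero (by rw [Par.weight_add_one]; omega)

lemma bd1_word (h2 : P.Coord2) {f : P.Gam → P.k} (hf : P.FL f) {s : ℤ} (h : Bd P.w s f)
    (l : List P.Ix) : Bd P.w (s - (l.map P.w).sum) (P.word l f) := by
  induction l with
  | nil => simpa [Par.word_nil] using h
  | cons a l ih =>
    have := bd1_Dl h2 (hf.word l) ih a
    rw [Par.word_cons, List.map_cons, List.sum_cons]
    rwa [show s - (P.w a + (l.map P.w).sum) = s - (l.map P.w).sum - P.w a by ring]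

lemma bd2_word (h2 : P.Coord2) {f : P.Gam → P.k} (hf : P.FL f) {s : ℤ} (h : Bd P.w2 s f)
    (l : List P.Ix) : Bd P.w2 (s - (l.map P.w2).sum) (P.word l f) := by
  induction l with
  | nil => simpa [Par.word_nil] using h
  | cons a l ih =>
    have := bd2_Dl h2 (hf.word l) ih a
    rw [Par.word_cons, List.map_cons, List.sum_cons]
    rwa [show s - (P.w2 a + (l.map P.w2).sum) = s - (l.map P.w2).sum - P.w2 a by ring]

lemma top_Dl (h2 : P.Coord2) {f : P.Gam → P.k} (hf : P.FL f) {s t : ℤ} (h : Bd P.w s f)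
    (ht : Tp s t f) (a : P.Ix) (γ : Mon P.Ix) (h1 : Finsupp.weight P.w γ + P.w a = s)
    (h3 : t ≤ Finsupp.weight P.w2 γ + P.w2 a) :
    P.co (P.Dl a f) γ = P.co f (γ + Finsupp.single a 1) := by
  rw [h2.low1 f s hf h a γ h1.ge, Par.X1_dep a _ γ fun ν hν hν' => ht ν (by omega) (by omega)]

lemma tp_Dl (h2 : P.Coord2) {f : P.Gam → P.k} (hf : P.FL f) {s t : ℤ} (h : Bd P.w s f)
    (ht : Tp s t f) (a : P.Ix) : Tp (s - P.w a) (t - P.w2 a) (P.Dl a f) := fun γ h1 h3 => by
  rw [top_Dl h2 hf h ht a γ (by omega) (by omega)]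
  exact ht _ (by rw [Par.weight_add_one]; omega) (by rw [Par.weight_add_one]; omega)

lemma tp_word (h2 : P.Coord2) {f : P.Gam → P.k} (hf : P.FL f) {s t : ℤ} (h : Bd P.w s f)
    (ht : Tp s t f) (l : List P.Ix) :
    Tp (s - (l.map P.w).sum) (t - (l.map P.w2).sum) (P.word l f) := by
  induction l with
  | nil => simpa [Par.word_nil] using ht
  | cons a l ih =>
    have := tp_Dl h2 (hf.word l) (bd1_word h2 hf h l) ih a
    rw [Par.word_cons, List.map_cons, List.sum_cons, List.map_cons, List.sum_cons]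
    rwa [show s - (P.w a + (l.map P.w).sum) = s - (l.map P.w).sum - P.w a by ring,
      show t - (P.w2 a + (l.map P.w2).sum) = t - (l.map P.w2).sum - P.w2 a by ring]

lemma top_word (h2 : P.Coord2) {f : P.Gam → P.k} (hf : P.FL f) {s t : ℤ} (h : Bd P.w s f)
    (ht : Tp s t f) (l : List P.Ix) : ∀ γ : Mon P.Ix,
    Finsupp.weight P.w γ + (l.map P.w).sum = s → t ≤ Finsupp.weight P.w2 γ + (l.map P.w2).sum →
    P.co (P.word l f) γ = P.co f (γ + mon l) := by
  induction l with
  | nil => intro γ _ _; rw [Par.word_nil, mon_nil, add_zero]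
  | cons a l ih =>
    intro γ h1 h3
    rw [List.map_cons, List.sum_cons] at h1 h3
    rw [Par.word_cons, top_Dl h2 (hf.word l) (bd1_word h2 hf h l) (tp_word h2 hf h ht l) a γ
      (by omega) (by omega), ih _ (by rw [Par.weight_add_one]; omega)
      (by rw [Par.weight_add_one]; omega), mon_cons, add_assoc]

lemma top2_word (h2 : P.Coord2) {f : P.Gam → P.k} (hf : P.FL f) {t : ℤ} (h : Bd P.w2 t f)
    (l : List P.Ix) : ∀ γ : Mon P.Ix, t ≤ Finsupp.weight P.w2 γ + (l.map P.w2).sum →
    P.co (P.word l f) γ = P.co f (γ + mon l) := by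
  induction l with
  | nil => intro γ _; rw [Par.word_nil, mon_nil, add_zero]
  | cons a l ih =>
    intro γ h3
    rw [List.map_cons, List.sum_cons] at h3
    rw [Par.word_cons, h2.low2 _ _ (hf.word l) (bd2_word h2 hf h l) a γ (by omega),
      ih _ (by rw [Par.weight_add_one]; omega), mon_cons, add_assoc]

lemma fil_of_bd (h1 : P.Coord1) {ω : P.Ix → ℤ} {f : P.Gam → P.k} {s : ℤ}
    (h : ∀ l : List P.Ix, Bd ω (s - (l.map ω).sum) (P.word l f)) : P.Fil ω s f := fun l hl => by
  rw [h1.ev (P.word l f)]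
  exact (h l).zero (by rw [map_zero]; omega)

lemma bd1_of_fil (h1 : P.Coord1) (h2 : P.Coord2) {f : P.Gam → P.k} (hf : P.FL f) {s : ℤ}
    (h : P.Fil P.w s f) : Bd P.w s f := fun α h0 => by
  have hfin := h1.fin f hf
  obtain ⟨β, hβ, hmax⟩ := Set.exists_max_image _ (fun ν => Finsupp.weight P.w ν) hfin ⟨α, h0⟩
  have hfin' : {ν | P.co f ν ≠ 0 ∧ Finsupp.weight P.w ν = Finsupp.weight P.w β}.Finite :=
    hfin.subset fun ν hν => hν.1
  obtain ⟨δ, hδ, hmax'⟩ :=
    Set.exists_max_image _ (fun ν => Finsupp.weight P.w2 ν) hfin' ⟨β, hβ, rfl⟩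
  have hb : Bd P.w (Finsupp.weight P.w β) f := fun ν hν => hmax ν hν
  have ht : Tp (Finsupp.weight P.w β) (Finsupp.weight P.w2 δ) f := fun ν hν hν' => by
    by_contra h3
    exact absurd (hmax' ν ⟨h3, hν⟩) (by omega)
  obtain ⟨l, rfl⟩ := exists_mon δ
  have e := top_word h2 hf hb ht l 0 (by rw [map_zero, zero_add, ← weight_mon, hδ.2])
    (by rw [map_zero, zero_add, weight_mon])
  rw [zero_add, ← h1.ev] at e
  have h4 := hb α h0
  by_contra h5
  refine hδ.1 ?_
  rw [← e]
  refine h l ?_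
  rw [← weight_mon, hδ.2]
  omega

lemma bd2_of_fil (h1 : P.Coord1) (h2 : P.Coord2) {f : P.Gam → P.k} (hf : P.FL f) {s : ℤ}
    (h : P.Fil P.w2 s f) : Bd P.w2 s f := fun α h0 => by
  have hfin := h1.fin f hf
  obtain ⟨β, hβ, hmax⟩ := Set.exists_max_image _ (fun ν => Finsupp.weight P.w2 ν) hfin ⟨α, h0⟩
  have hb : Bd P.w2 (Finsupp.weight P.w2 β) f := fun ν hν => hmax ν hν
  obtain ⟨l, rfl⟩ := exists_mon β
  have e := top2_word h2 hf hb l 0 (by rw [map_zero, zero_add, weight_mon])
  rw [zero_add, ← h1.ev] at e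
  have h4 := hb α h0
  by_contra h5
  refine hβ ?_
  rw [← e]
  refine h l ?_
  rw [← weight_mon]
  omega

lemma word_left (g : P.Gam) (f : P.Gam → P.k) (l : List P.Ix) :
    P.word l (fun x => f (g * x)) = fun x => P.word l f (g * x) := by
  induction l with
  | nil => rfl
  | cons a l ih =>
    funext x
    rw [Par.word_cons, Par.word_cons, ih, Par.Dl_apply, Par.Dl_apply, mul_assoc]

lemma word_cons_one (a : P.Ix) (l : List P.Ix) (f : P.Gam → P.k) :
    P.word (a :: l) f 1 = P.word l ((fun x => f (P.e a * x)) - f) 1 := by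
  rw [map_sub, Pi.sub_apply, word_left, Par.word_cons, Par.Dl_apply, one_mul]
  simp only [mul_one]

end Fil

theorem filC_holds (P : Par) (h1 : P.Coord1) (h2 : P.Coord2) : P.FilC := fun _ hf _ =>
  ⟨⟨Fil.bd1_of_fil h1 h2 hf, fun h => Fil.fil_of_bd h1 (Fil.bd1_word h2 hf h)⟩,
    ⟨Fil.bd2_of_fil h1 h2 hf, fun h => Fil.fil_of_bd h1 (Fil.bd2_word h2 hf h)⟩⟩

theorem dlFil_holds (P : Par) : P.DlFil := by
  intro ω j χ s0 hχ F hF s hs l
  induction l generalizing F s with
  | nil =>
    intro hl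
    rw [Par.word_nil]
    simp only [one_mul]
    exact hχ F hF (hs.mono (by simp at hl; omega))
  | cons a l ih =>
    intro hl
    rw [List.map_cons, List.sum_cons] at hl
    have hF' : ((fun x => F (P.e a * x)) - F) ∈ P.DD j := sub_mem (Par.DD_left hF _) hF
    have hs' : P.FilV ω (s - ω a) ((fun x => F (P.e a * x)) - F) := fun I l' hl' => by
      have := hs I (a :: l') (by rw [List.map_cons, List.sum_cons]; omega)
      rw [Fil.word_cons_one] at this
      exact this
    have := ih _ hF' _ hs' (by omega)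
    rw [Fil.word_cons_one, ← this]
    refine congrArg (fun g => P.word l g 1) ?_
    funext x
    rw [Pi.sub_apply, ← map_sub]
    congr 1
    funext y
    simp only [Pi.sub_apply, mul_assoc]

end CdI
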