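import Pool.Agent.P.MP_013f39_al.Inf.Basic

/-! Infinite cohomological dimension of `H_r`: statements of the steps. -/

namespace CdI

open Cd3 MvPolynomial
open scoped PowerSeries.WithPiTopology

/-! ### Cohomology -/

def VanStm : Prop := ∀ (p : ℕ) [Fact p.Prime] (Γ : Type) [Group Γ] (S : NG p Γ) (m d : ℕ),
  1 ≤ d → VanN S m 1 → VanN S m d

def TopStm : Prop := ∀ (p r : ℕ) [Fact p.Prime] (m : ℕ) (H : Set (PS p)),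
  (∀ f, f ∈ H ↔ ∃ u : GG p r, f = iota u) → ¬ VanN (SS p r) m 1 →
  ∃ c : (Fin (m + 2) → PS p) → ZMod p,
    (ContinuousOn c (Set.univ.pi fun _ => H) ∧
      ∀ g ∈ H, ∀ x, (∀ i, x i ∈ H) → c (fun i => g.subst (x i)) = c x) ∧
    (∀ x : Fin (m + 3) → PS p, (∀ i, x i ∈ H) →
      ∑ l : Fin (m + 3), (-1) ^ (l : ℕ) * c (fun i => x (l.succAbove i)) = 0) ∧
    ¬ ∃ b : (Fin (m + 1) → PS p) → ZMod p,
      (ContinuousOn b (Set.univ.pi fun _ => H) ∧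
        ∀ g ∈ H, ∀ x, (∀ i, x i ∈ H) → b (fun i => g.subst (x i)) = b x) ∧
      ∀ x, (∀ i, x i ∈ H) →
        c x = ∑ l : Fin (m + 2), (-1) ^ (l : ℕ) * b (fun i => x (l.succAbove i))

/-! ### Generic exterior algebra -/

def CeStm : Prop := ∀ (k : Type) [Field k] (ι : Type) [LinearOrder ι] (V : Type) [AddCommGroup V]
  [Module k V] (A : ι → Prop) [DecidablePred A] (κ : ι → k) (s : ι → ι → ι)
  (Y : ι → Module.End k V),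
  (∀ i, A i → κ i = 0) → (∀ j i, A j → ¬ A i → ¬ A (s j i)) →
  (∀ j i, A j → ¬ A i → κ (s j i) = κ i) →
  (∀ j j' i, A j → A j' → ¬ A i → s j (s j' i) = s j' (s j i)) →
  (∀ j j', A j → A j' → Commute (Y j) (Y j')) →
  (∀ i i', ¬ A i → ¬ A i' → Commute (Y i) (Y i')) →
  (∀ j i, A j → ¬ A i → Y j * Y i - Y i * Y j = κ i • Y (s j i)) →
  (kz Y - ct A κ s) * (kz Y - ct A κ s) = 0

def KosStm : Prop := ∀ (k : Type) [Field k] (ι : Type) [LinearOrder ι] (σ : Type) (κ : ι → k)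
  (v : ι → σ), (∀ i i', κ i ≠ 0 → κ i' ≠ 0 → v i = v i' → i = i') →
  ∃ h : Module.End k (Finset ι → Mon σ → k),
    (∀ z I μ, (∃ i, κ i ≠ 0 ∧ (i ∈ I ∨ μ (v i) ≠ 0)) →
      kz (fun a => κ a • del k (v a)) (h z) I μ + h (kz (fun a => κ a • del k (v a)) z) I μ =
        z I μ) ∧
    ∀ z I μ, h z I μ ≠ 0 →
      ∃ i, κ i ≠ 0 ∧ i ∉ I ∧ μ (v i) ≠ 0 ∧ z (insert i I) (μ - Finsupp.single (v i) 1) ≠ 0

def PiStm : Prop := ∀ (k : Type) [Field k] (d : ℕ) (α : Type) (ρ : Fin d → α),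
  ∃ T : Module.End k (MvPolynomial (Fin d) k),
    (∀ σ : Equiv.Perm (Fin d), ρ ∘ σ = ρ → ∀ F, rename σ (T F) = T F) ∧
    (∀ G F, (∀ σ : Equiv.Perm (Fin d), ρ ∘ σ = ρ → rename σ G = G) → T (G * F) = G * T F) ∧
    T 1 = 1

/-! ### Norms from `A[[y]] / (y^R + T)` -/

def Norm1Stm : Prop := ∀ (A : Type) [CommRing A] (I : Ideal A) (e R : ℕ) (T : PowerSeries A),
  I ^ e = ⊥ → (∀ m, PowerSeries.coeff m T ∈ I) →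
  ∃ b : Module.Basis (Fin R) A (PowerSeries A ⧸ Ideal.span {PowerSeries.X ^ R + T}),
    ∀ i, b i = Ideal.Quotient.mk _ (PowerSeries.X ^ (i : ℕ))

def Norm2Stm : Prop := ∀ (A : Type) [CommRing A] (I : Ideal A) (e R : ℕ) (T : PowerSeries A),
  I ^ e = ⊥ → (∀ m, PowerSeries.coeff m T ∈ I) →
  (∀ v : PowerSeries A, PowerSeries.X ^ (R * e) ∣ v - 1 →
    Algebra.norm A (Ideal.Quotient.mk (Ideal.span {PowerSeries.X ^ R + T}) v) = 1) ∧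
  ∀ (O : ℤ → AddSubgroup A) (l b : ℤ), Antitone O →
    (∀ s t x y, x ∈ O s → y ∈ O t → x * y ∈ O (s + t)) → 1 ∈ O 0 → 0 ≤ l → 0 ≤ b →
    (∀ m : ℕ, PowerSeries.coeff m T ∈ O (l * ((R : ℤ) - m) + b)) → ∀ i : ℕ, 1 ≤ i →
    (∀ v : PowerSeries A, PowerSeries.X ^ i ∣ v - 1 → (∀ m, PowerSeries.coeff m (v - 1) ∈ O 0) →
      Algebra.norm A (Ideal.Quotient.mk (Ideal.span {PowerSeries.X ^ R + T}) v) - 1 ∈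
        O (l * i + b)) ∧
    (1 ≤ l → 1 ≤ b → Algebra.norm A (Ideal.Quotient.mk (Ideal.span {PowerSeries.X ^ R + T})
      (1 - PowerSeries.X ^ i)) - 1 - (if i ≤ R then i • PowerSeries.coeff (R - i) T else 0) ∈
        O (l * i + b + 1))

namespace Par

variable (P : Par)

/-! ### Properties -/

/-- commutation relations -/
structure CRel {V : Type} [AddCommGroup V] [Module P.k V] (Y : P.Ix → Module.End P.k V) :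
    Prop where
  aa : ∀ j j', P.Act j → P.Act j' → Commute (Y j) (Y j')
  ll : ∀ i i', ¬ P.Act i → ¬ P.Act i' → Commute (Y i) (Y i')
  al : ∀ j i, P.Act j → ¬ P.Act i → Y j * Y i - Y i * Y j = P.kap i • Y (P.sh j i)

structure Exp : Prop where
  e0 : ∀ v : PS P.p, PowerSeries.X ^ P.N ∣ v - 1 → ∀ K, ∃ n, PowerSeries.X ^ K ∣ v - P.pE n
  e1 : ∀ (K0 : ℕ) (v : PS P.p), P.M ≤ K0 → PowerSeries.X ^ K0 ∣ v - 1 → ∀ K, ∃ n,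
    PowerSeries.X ^ K ∣ v - P.pE n ∧ P.pT n - 1 ∈ Pge P.k P.w (K0 + P.β) ∧
    P.pT n - 1 ∈ Pge P.k P.w2 (P.q * K0) ∧ ∀ a : P.Ix, a.1 = K0 →
      P.pT n - 1 + PowerSeries.coeff K0 v • X a ∈ Pge P.k P.w (K0 + P.β + 1)

def Rel : Prop := ∀ (K : ℕ) (n n' α : Mon P.Ix), PowerSeries.X ^ K ∣ P.pE n - P.pE n' →
  Finsupp.weight (fun a : P.Ix => a.1) α < K → coeff α (P.pT n) = coeff α (P.pT n')

structure Coord1 : Prop where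
  fin : ∀ f, P.FL f → (Function.support (P.co f)).Finite
  surj : ∀ α, ∃ f, P.FL f ∧ P.co f = Pi.single α 1
  ev : ∀ f, f 1 = P.co f 0
  inj : ∀ f, P.FL f → P.co f = 0 → f = 0
  const : ∀ (c : P.k) α, α ≠ 0 → P.co (fun _ => c) α = 0

structure Coord2 : Prop where
  low1 : ∀ f (s : ℤ), P.FL f → (∀ α, P.co f α ≠ 0 → Finsupp.weight P.w α ≤ s) →
    ∀ a γ, s ≤ Finsupp.weight P.w γ + P.w a → P.co (P.Dl a f) γ = P.X1 a (P.co f) γ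
  low2 : ∀ f (s : ℤ), P.FL f → (∀ α, P.co f α ≠ 0 → Finsupp.weight P.w2 α ≤ s) →
    ∀ a γ, s ≤ Finsupp.weight P.w2 γ + P.w2 a →
      P.co (P.Dl a f) γ = P.co f (γ + Finsupp.single a 1)

def FilC : Prop := ∀ f, P.FL f → ∀ s : ℤ,
  (P.Fil P.w s f ↔ ∀ α, P.co f α ≠ 0 → Finsupp.weight P.w α ≤ s) ∧
  (P.Fil P.w2 s f ↔ ∀ α, P.co f α ≠ 0 → Finsupp.weight P.w2 α ≤ s)

def DlFil : Prop := ∀ (ω : P.Ix → ℤ) (j : ℕ) (χ : (P.Gam → P.Lam) →ₗ[P.k] P.k) (s0 : ℤ),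
  (∀ F ∈ P.DD j, P.FilV ω s0 F → χ F = 0) → ∀ F ∈ P.DD j, ∀ s, P.FilV ω s F →
  P.Fil ω (s - s0 - 1) fun x => χ fun y => F (x * y)

def Sec (sec : P.C1 →ₗ[P.k] (P.Gam → P.Lam)) : Prop := ∀ j,
  (∀ z ∈ P.FD j, sec z ∈ P.DD j ∧ P.coV (sec z) = z) ∧
  ∀ F ∈ P.DD j, P.coV F ∈ P.FD j ∧ sec (P.coV F) = F

structure D1 : Prop where
  dep : ∀ z I μ, (∀ I' μ', I'.card + 1 = I.card → P.T1 I' μ' = P.T1 I μ → P.T2 I μ ≤ P.T2 I' μ' →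
    z I' μ' = 0) → P.d1 z I μ = 0
  bi : ∀ z I μ, (∀ I' μ', I'.card + 1 = I.card → P.T1 I' μ' = P.T1 I μ → P.T2 I μ < P.T2 I' μ' →
    z I' μ' = 0) → P.d1 z I μ = kz (del P.k) z I μ

structure D0 : Prop where
  dep : ∀ z I μ, (∀ I' μ', I'.card + 1 = I.card → P.U1 I' μ' = P.U1 I μ → z I' μ' = 0) →
    P.d0 z I μ = 0
  fin : ∀ z ∈ FinM P.k P.Kv P.Ix, P.d0 z ∈ FinM P.k P.Kv P.Ix
  act : ∀ z J, (∀ a ∈ J, P.Act a) → P.d0 z J 0 = 0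
  box : ∀ (j : ℕ) (a : ℤ) (B : ℕ), {x : Finset P.Ix × Mon P.Kv |
    x.1.card = j ∧ P.U1 x.1 x.2 = a ∧ P.U2 x.1 x.2 ≤ B ∧ x.2.degree ≤ B}.Finite

structure Psi0 : Prop where
  deg : ∀ j, ∀ F ∈ P.DD j, P.psi0 F ∈ P.LamD (j + 1)
  lead : ∀ j, ∀ F ∈ P.DD j, ∀ s, P.FilV P.w s F → ∀ I μ, s ≤ P.T1 I μ →
    P.coV (P.dl P.psi0 F) I μ = P.d1 (P.coV F) I μ
  k1 : ∀ F s I, P.FilV P.w s F → s < wI P.w I → P.psi0 F I = 0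
  k2 : ∀ F s I, P.FilV P.w2 s F → s < wI P.w2 I → P.psi0 F I = 0
  sq : ∀ j, ∀ F ∈ P.DD j, ∀ I, P.FilV P.w (wI P.w I) F → P.psi0 (P.dl P.psi0 F) I = 0

/-- bi-filtered with Koszul leading part, in degree `j` -/
def HD (δ : Module.End P.k P.C1) (j : ℕ) : Prop := ∀ z ∈ P.FD j, δ z ∈ P.FD (j + 1) ∧
  ∀ s s2 : ℤ, z ∈ SupM P.k (fun I μ => P.T1 I μ ≤ s ∧ P.T2 I μ ≤ s2) →
    δ z ∈ SupM P.k (fun I μ => P.T1 I μ ≤ s ∧ P.T2 I μ ≤ s2) ∧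
    ∀ I μ, P.T1 I μ = s → P.T2 I μ = s2 → δ z I μ = kz (del P.k) z I μ

def St : Prop := ∀ δ : Module.End P.k P.C1,
  (∀ j, P.HD δ j → P.HD δ (j + 1) → (∀ x ∈ P.FD j, δ (δ x) = 0) → ∀ a b, ∀ z ∈ P.FD (j + 1),
    δ z ∈ P.G2 a b → ∃ x ∈ P.FD j, z - δ x ∈ P.G2 a b) ∧
  (P.HD δ 0 → ∀ a b, ∀ z ∈ P.FD 0, δ z ∈ P.G2 a b →
    z ∈ SupM P.k fun I μ => P.T1 I μ ≤ a ∨ P.T2 I μ ≤ b ∨ μ = 0)

/-- the conditions on `ψ` in degree `j` -/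
structure RA (ψ : (P.Gam → P.Lam) →ₗ[P.k] P.Lam) (j : ℕ) : Prop where
  deg : ∀ F ∈ P.DD j, ψ F ∈ P.LamD (j + 1)
  lead : ∀ F ∈ P.DD j, ∀ I, P.FilV P.w (wI P.w I) F → ψ F I = P.psi0 F I
  two : ∀ F ∈ P.DD j, ∀ I, P.FilV P.w2 (wI P.w2 I - 1) F → ψ F I = 0

def Hd : Prop := ∀ sec ψ j, P.Sec sec → P.RA ψ j → P.HD (P.coV ∘ₗ P.dl ψ ∘ₗ sec) j

structure Res0 (n : ℕ) (ψ : (P.Gam → P.Lam) →ₗ[P.k] P.Lam) : Prop where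
  ra : ∀ j ≤ n, P.RA ψ j
  sq : ∀ j, j + 1 ≤ n → ∀ F ∈ P.DD j, P.dl ψ (P.dl ψ F) = 0

structure Res (n : ℕ) (ψ : (P.Gam → P.Lam) →ₗ[P.k] P.Lam) : Prop extends P.Res0 n ψ where
  exa : ∀ j, j + 1 ≤ n → ∀ F ∈ P.DD (j + 1), P.dl ψ F = 0 → ∃ E ∈ P.DD j, P.dl ψ E = F
  ex0 : ∀ F ∈ P.DD 0, P.dl ψ F = 0 → ∀ x y, F x = F y
  c0 : ∀ v ∈ P.LamD 0, ψ (fun _ => v) = 0

def Ds : Prop := ∀ m ψ, P.Res (m + 1) ψ → VanN P.S m P.N →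
  ∀ v ∈ P.LamD (m + 1), ψ (fun _ => v) = 0 → ∃ v' ∈ P.LamD m, ψ (fun _ => v') = v

structure Sub1 (L : ℕ) : Prop where
  mem : ∀ g, ∀ a ∈ P.JJ L, P.sP L g a ∈ P.JJ L
  key : ∀ g : P.G, (PowerSeries.mk fun m => Ideal.Quotient.mk (P.JJ L) (P.sP L g (P.tP L m))) =
    PowerSeries.map (algebraMap P.k (P.AA L)) (g.val⁻¹ ^ (P.q * L)) *
      (P.TT L).subst (PowerSeries.map (algebraMap P.k (P.AA L)) (sig P.r g.val))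
  mul : ∀ f g a, P.sP L (f * g) a - P.sP L f (P.sP L g a) ∈ P.JJ L
  one : ∀ a, P.sP L 1 a - a ∈ P.JJ L

def Sub2 (L : ℕ) : Prop := ∀ (K : ℕ) (g : P.G) (c : P.Kv), 1 ≤ K → P.S.D K g →
  ∃ r ∈ Submodule.span P.k ((X : P.Kv → P.PK) '' {c' | c.1 + P.q * K < c'.1}),
    P.sP L g (X c) - X c + (P.S.a K g * (c.1 : P.k)) • X (P.shN K c) - r ∈ P.JJ L

def Sub3 (L : ℕ) : Prop := ∀ (g : P.G) (v : PS P.p) (a b : P.PK),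
  Ideal.Quotient.mk _ a = P.nA L (act P.r g.val v) → Ideal.Quotient.mk _ b = P.nA L v →
  P.sP L g a - b ∈ P.JJ L

structure Sub4 (L : ℕ) : Prop where
  e1 : ∀ (a : P.Ix) (b : P.PK), Ideal.Quotient.mk _ b = P.nA L (1 - PowerSeries.X ^ a.1) →
    b - 1 - P.kap a • X (P.vK a) ∈ P.OO L P.W (P.w a + 1) ∧ b - 1 ∈ P.OO L P.W2 (P.w2 a)
  e2 : ∀ (v : PS P.p) (b : P.PK), PowerSeries.constantCoeff v = 1 →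
    Ideal.Quotient.mk _ b = P.nA L v → b - 1 ∈ P.OO L (fun _ => 1) 1
  e3 : ∀ v : PS P.p, PowerSeries.X ^ (L * (L + 1)) ∣ v - 1 → P.nA L v = 1

structure Mod (L : ℕ) (act : P.Gam → Module.End P.k (Mon P.Kv → P.k)) : Prop where
  m0 : ∀ x μ, ∃ r : P.PK, ∀ f, act x f μ = pair f r
  m1 : ∀ g f, P.AdmF L f → P.AdmF L (act g f)
  m2 : ∀ g h f, P.AdmF L f → act (g * h) f = act g (act h f)
  one : ∀ f, P.AdmF L f → act 1 f = f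
  m3 : ∀ μ, ∃ K, ∀ g : P.Gam, P.S.D K g.1 → ∀ f, P.AdmF L f → act g f μ = f μ
  m4 : ∀ f (s : ℤ), P.AdmF L f → (∀ μ, f μ ≠ 0 → Finsupp.weight P.W μ ≤ s) →
    ∀ a μ, s ≤ Finsupp.weight P.W μ + P.w a → act (P.e a) f μ - f μ = P.X2 a f μ
  m5 : ∀ f (s : ℤ), P.AdmF L f → (∀ μ, f μ ≠ 0 → Finsupp.weight P.W2 μ ≤ s) →
    ∀ a μ, s < Finsupp.weight P.W2 μ + P.w2 a → act (P.e a) f μ = f μ
  m6 : ∀ g f (d : ℕ), P.AdmF L f → (∀ μ, f μ ≠ 0 → μ.degree ≤ d) →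
    ∀ μ, act g f μ ≠ 0 → μ.degree ≤ d
  m7 : ∀ g, act g (Pi.single 0 1) = Pi.single 0 1

def Cx (n L : ℕ) (δ : Module.End P.k P.C2) : Prop := ∀ j ≤ n, ∀ a B, ∀ Φ ∈ P.CL j a B L,
  δ Φ ∈ P.CL (j + 1) a B L ∧ (∀ I μ, P.U1 I μ = a → δ Φ I μ = P.d0 Φ I μ) ∧
  (j + 1 ≤ n → δ (δ Φ) = 0)

def Cpx : Prop := ∀ n ψ L act, P.Res n ψ → P.Mod L act → P.Cx n L (P.dL ψ act) ∧
  ∀ v, P.dL ψ act (P.cst v) = P.cst (ψ fun _ => v)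

def Desc : Prop := ∀ (m c : ℕ) (δ : ℕ → Module.End P.k P.C2) (T : Finset (Finset P.Ix)),
  (∀ L, P.Cx (m + 1) L (δ L)) → Sm (P.ZS m) (P.BS m) c → (∀ J ∈ T, ∀ a ∈ J, P.Act a) →
  (∀ J ∈ T, ∃ v ∈ P.LamD m, ∀ L, δ L (P.cst v) = P.cst (Pi.single J 1)) → T.card ≤ c

def Red : Prop := ∀ m, P.ZS m ≤ P.ZQ m ⊔ P.BS m

def Col : Prop := ∀ (d : ℕ) (ρ : Fin d → P.Kv),
  (∀ l, (P.M : ℤ) - P.q ≤ (ρ l).1 ∧ (ρ l).1 < P.M) →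
  ∃ T : MvPolynomial (Fin d) P.k →ₗ[P.k] (Mon P.Kv → P.k),
    (∀ a F, P.Act a → T (P.fj (fun l => -((ρ l).1 : P.k)) a * F) = P.X2 a (T F)) ∧
    (∀ F, (Function.support (T F)).Finite ∧ ∀ μ, T F μ ≠ 0 → ∃ m, μ = P.tup ρ m) ∧
    (∀ f, (Function.support f).Finite → ∃ F, P.Lift ρ f F) ∧
    (∀ f F a, P.Act a → (∀ μ, f μ ≠ 0 → ∀ c ∈ μ.support, c.1 < (P.M : ℤ)) → P.Lift ρ f F →
      P.Lift ρ (P.X2 a f) (P.fj (fun l => -((ρ l).1 : P.k)) a * F)) ∧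
    ∀ f F, P.Lift ρ f F → ∀ m, T F (P.tup ρ m) = f (P.tup ρ m)

def PTr : Prop := ∀ (Λ : Type) [Fintype Λ] (c : Λ → P.k) (Q : ℕ → Prop) (s : ℤ),
  ∀ x ∈ P.CQ Λ Q, P.kd c x ∈ P.FP Λ s → ∃ x' ∈ P.CQ Λ Q ⊓ P.FP Λ s, P.kd c x' = P.kd c x

def Pq : Prop := ∀ (Λ : Type) [Fintype Λ] [DecidableEq Λ] (c : Λ → P.k) (l : Λ)
  (t : Option {x : Λ // x ≠ l}),
  P.lf l t ≠ 0 ∧ P.pq l t (P.lf l t) = 0 ∧ (∀ F, P.pq l t F = 0 → ∃ F', F = P.lf l t * F') ∧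
  (∀ a, P.pq l t (P.fj c a) = P.fj (P.cq c l t) a) ∧
  (∀ F, P.pq l t (rename Subtype.val F) = F) ∧
  (∀ s, ∀ F ∈ Ple P.k Λ s, P.pq l t F ∈ Ple P.k _ s) ∧
  (∀ s, ∀ F ∈ Ple P.k {x : Λ // x ≠ l} s, rename Subtype.val F ∈ Ple P.k Λ s) ∧
  ∀ s F, P.lf l t * F ∈ Ple P.k Λ (s + 1) ↔ F ∈ Ple P.k Λ s

def PStep : Prop := ∀ (Λ : Type) [Fintype Λ] [DecidableEq Λ] (c : Λ → P.k) (l : Λ)
  (t : Option {x : Λ // x ≠ l}) (a b : ℕ) (s : ℤ),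
  Sm (P.ZP (P.cq c l t) a (s + 1)) (P.BP (P.cq c l t) a) b →
  Sm (P.ZP c (a + 1) s ⊓ (P.BP c (a + 1)).comap (P.mulV (P.lf l t))) (P.BP c (a + 1)) b

def PHom : Prop := ∀ (Λ : Type) [Fintype Λ] [DecidableEq Λ] (c : Λ → P.k) (l : Λ) (a : ℕ),
  c l ≠ 0 → Fintype.card Λ ≤ P.N → ∀ z ∈ P.CQ Λ (· = a), P.kd c z = 0 →
  P.mulV (P.lf l none ^ P.N * ∏ x, P.lf l (some x)) z ∈ P.BP c a

def PBase : Prop := ∀ (Λ : Type) [Fintype Λ] (a s : ℕ),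
  Sm (P.CQ Λ (· = a) ⊓ P.FP Λ s) ⊥ (P.M ^ a * (s + a * P.M + 1) ^ Fintype.card Λ)

def PInd : Prop := ∀ (d B a : ℕ) (Λ : Type) [Fintype Λ] (c : Λ → P.k) (U : Finset Λ) (b s : ℕ),
  d ≤ P.N → Fintype.card Λ ≤ d → (∀ l ∈ U, c l ≠ 0) → Fintype.card Λ ≤ U.card + b →
  s + a * (P.N + d) + a * P.M + P.M + 1 ≤ B →
  Sm (P.ZP c a s) (P.BP c a) (if 2 * a < U.card then 0 else (d + 1) ^ a * B ^ (a + b))

def PNak : Prop := ∀ (a : ℕ) (Λ : Type) [Fintype Λ] (c : Λ → P.k), 2 * a + 1 ≤ P.N →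
  (∀ l, c l ≠ 0) → 2 * a < Fintype.card Λ → ∀ s, P.ZP c a s ≤ P.BP c a

/-- one colour: the part of a letter-free cocycle of colour `ρ` -/
def Col2 : Prop := ∀ (m d c : ℕ) (ρ : Fin d → P.Kv),
  (∀ l, (P.M : ℤ) - P.q ≤ (ρ l).1 ∧ (ρ l).1 < P.M) →
  Sm (P.ZP (fun l => -((ρ l).1 : P.k)) m (d * P.M : ℕ)) (P.BP (fun l => -((ρ l).1 : P.k)) m) c →
  Sm (P.ZQ m ⊓ SupM P.k fun _ μ => ∃ n, μ = P.tup ρ n) (P.BS m) c ∧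
  ∀ z ∈ P.ZQ m, ∃ z' ∈ P.ZQ m ⊓ SupM P.k fun _ μ => ∃ n, μ = P.tup ρ n,
    ∀ I n, z' I (P.tup ρ n) = z I (P.tup ρ n)

def Small : Prop := ∀ m, 2 * m + 1 ≤ P.N → Sm (P.ZS m) (P.BS m)
  ((2 * m + 1) * P.q ^ (2 * m) * ((2 * m + 1) ^ m * ((5 * m + 2) * P.M) ^ m))

end Par

end CdI
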