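import Pool.Agent.P.MP_013f39_al.Inf.Api

/-! Vanishing passes to open subgroups; transfer to the topological statement. -/

namespace CdI

open Cd3 PowerSeries Topology
open scoped PowerSeries.WithPiTopology

namespace Van

variable {p : ℕ} [hp : Fact p.Prime] {Γ : Type} [Group Γ]

lemma bd_T (n : ℕ) (γ : Γ) (m : ℕ) (f : (Fin n → Γ) → ZMod p) :
    bd (ZMod p) n (((tau p n γ - 1) ^ m) f) =
      ((tau p (n + 1) γ - 1) ^ m) (bd (ZMod p) n f) := by
  induction m with
  | zero => simp
  | succ m ih =>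
    rw [pow_succ', pow_succ', Module.End.mul_apply, Module.End.mul_apply, ← ih]
    ext x
    simp only [bd_apply, T_apply, smul_sub, Finset.sum_sub_distrib]

variable {S : NG p Γ}

lemma bd_mem {n d : ℕ} {f : (Fin n → Γ) → ZMod p} (hf : f ∈ CC S n d) :
    bd (ZMod p) n f ∈ CC S (n + 1) d := by
  obtain ⟨⟨K, h1⟩, h2⟩ := hf
  refine ⟨⟨K, fun x x' h => ?_⟩, fun h hh x => ?_⟩
  · rw [bd_apply, bd_apply]
    exact Finset.sum_congr rfl fun l _ => by rw [h1 _ _ fun i => h (l.succAbove i)]
  · rw [bd_apply, bd_apply]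
    exact Finset.sum_congr rfl fun l _ => by rw [h2 h hh fun i => x (l.succAbove i)]

lemma succ {n d : ℕ} (hd : 1 ≤ d) (h : VanN S n d) : VanN S n (d + 1) := by
  have key : ∀ m ≤ p, ∀ f ∈ CC S (n + 2) (d + 1), bd (ZMod p) (n + 2) f = 0 →
      ((tau p (n + 2) (S.g d) - 1) ^ m) f = 0 →
      ∃ y ∈ CC S (n + 1) (d + 1), bd (ZMod p) (n + 1) y = f := by
    intro m
    induction m with
    | zero => intro _ f _ _ h0; exact ⟨0, zero_mem _, by simpa using h0.symm⟩
    | succ m ih =>
      intro hm f hf hdf h0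
      rw [pow_succ', Module.End.mul_apply] at h0
      obtain ⟨y, hy, hy'⟩ := h _ (mem_of_T hd (T_pow_mem _ m hf) h0)
        (by rw [bd_T, hdf, map_zero])
      obtain ⟨y', h1, h2⟩ := exists_lift hd hy (show m < p by omega)
      obtain ⟨z, h3, h4⟩ := ih (by omega) (f - bd (ZMod p) (n + 1) y') (sub_mem hf (bd_mem h1))
        (by rw [map_sub, hdf, bd_bd, sub_zero]) (by rw [map_sub, ← bd_T, h2, hy', sub_self])
      exact ⟨z + y', add_mem h3 h1, by rw [map_add, h4, sub_add_cancel]⟩
  exact fun f hf hdf => key p le_rfl f hf hdf (T_pow_p hd hf)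

end Van

theorem van_holds : VanStm := by
  intro p _ Γ _ S m d hd h
  induction d, hd using Nat.le_induction with
  | base => exact h
  | succ d hd ih => exact Van.succ hd ih

theorem top_holds : TopStm := by
  intro p r hp m H hH hV
  by_contra hcon
  refine hV fun f ⟨⟨K, hK⟩, hinv⟩ hf => ?_
  have hmem : ∀ u : GG p r, iota u ∈ H := fun u => (hH _).2 ⟨u, rfl⟩
  have hlift : ∀ {n : ℕ} (x : Fin n → PS p), (∀ i, x i ∈ H) →
      ∃ u : Fin n → GG p r, x = fun i => iota (u i) := by
    intro n x hx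
    choose u hu using fun i => (hH _).1 (hx i)
    exact ⟨u, funext hu⟩
  have : ∃ b : (Fin (m + 1) → PS p) → ZMod p,
      (ContinuousOn b (Set.univ.pi fun _ => H) ∧
        ∀ g ∈ H, ∀ x, (∀ i, x i ∈ H) → b (fun i => g.subst (x i)) = b x) ∧
      ∀ x : Fin (m + 2) → PS p, (∀ i, x i ∈ H) → f (fun i => kappa r (x i)) =
        ∑ l : Fin (m + 2), (-1) ^ (l : ℕ) * b (fun i => x (l.succAbove i)) := by
    by_contra hb
    refine hcon ⟨fun x => f fun i => kappa r (x i), ⟨?_, ?_⟩, ?_, hb⟩
    · refine Continuous.continuousOn (IsLocallyConstant.continuous ?_)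
      rw [IsLocallyConstant.iff_eventually_eq]
      intro x
      have : ∀ᶠ y in 𝓝 x, ∀ i, (SS p r).Eqv K (kappa r (y i)) (kappa r (x i)) :=
        Filter.eventually_all.2 fun i =>
          (continuous_apply i).continuousAt.eventually (kappa_ev (r := r) (x i) K)
      filter_upwards [this] with y hy
      exact hK _ _ hy
    · intro g hg x hx
      obtain ⟨g, rfl⟩ := (hH _).1 hg
      obtain ⟨u, rfl⟩ := hlift x hx
      simp only [← iota_mul, kappa_iota]
      exact hinv g (NG.D_all g) u
    · intro x hx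
      have := congrFun hf fun i => kappa r (x i)
      rw [bd_apply] at this
      simpa only [smul_eq_mul, Pi.zero_apply] using this
  obtain ⟨b, ⟨hb1, hb3⟩, hb2⟩ := this
  refine ⟨fun u => b fun i => iota (u i), ⟨?_, fun h _ u => ?_⟩, ?_⟩
  · obtain ⟨K', hK'⟩ := unif_cont (fun t : ℕ → Fin (m + 1) → ZMod p =>
      b fun j => iota (mkG r fun i => t i j))
      (hb1.comp_continuous (f := fun t : ℕ → Fin (m + 1) → ZMod p =>
        fun j => iota (mkG r fun i => t i j))
        (continuous_pi fun j => cont_iota.comp (by fun_prop)) fun t j _ => hmem _)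
    refine ⟨K', fun u u' h => ?_⟩
    have := hK' (fun i j => (SS p r).a i (u j)) (fun i j => (SS p r).a i (u' j))
      fun i hi => funext fun j => h j i hi
    simpa only [mkG_a] using this
  · simp only [iota_mul]
    exact hb3 _ (hmem h) _ fun i => hmem _
  · ext u
    have := hb2 (fun i => iota (u i)) fun i => hmem _
    rw [bd_apply]
    simpa only [kappa_iota, smul_eq_mul] using this.symm

end CdI
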